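import Pool.Agent.TH10.AW.Explicit

/-! Parametrisation of the eigenvalue sequences. -/

set_option autoImplicit false
set_option linter.unusedSectionVars false

namespace Pool.Agent.TH10.AW

variable {K : Type*} [Field K] {p : Scal K} {τ : ℤ → K}

/-- `β = q + 1/q`, `q² ≠ 1` -/
theorem isTau_iff_q {L : Type*} [Field L] [Algebra K L] {q : L} (hq0 : q ≠ 0)
    (hq : q + q⁻¹ = algebraMap K L p.β) (hq2 : q ^ 2 ≠ 1) :
    IsTau p τ ↔ ∃ b1 b2 : L,
      b1 * b2 * (q - q⁻¹) ^ 2 * (2 - algebraMap K L p.β) =
        -(algebraMap K L p.ρs * (2 - algebraMap K L p.β) + algebraMap K L p.γs ^ 2) ∧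
      ∀ n : ℤ, algebraMap K L (τ n) =
        algebraMap K L p.γs / (2 - algebraMap K L p.β) + b1 * q ^ n + b2 * q ^ (-n) := by
  have h2β : 2 - algebraMap K L p.β ≠ 0 := by
    rw [← hq]
    intro h0
    have : (q - 1) ^ 2 = 0 := by
      have e : 2 * q - q ^ 2 - 1 = 0 := by
        have := congrArg (· * q) h0
        simp only [zero_mul] at this
        rw [sub_mul, add_mul, inv_mul_cancel₀ hq0] at this
        linear_combination this
      linear_combination -e
    have h1 : q = 1 := sub_eq_zero.1 (pow_eq_zero_iff (two_ne_zero) |>.1 this)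
    exact hq2 (by rw [h1]; ring)
  have hd : q - q⁻¹ ≠ 0 := by
    intro h0
    apply hq2
    have := congrArg (· * q) h0
    simp only [zero_mul, sub_mul, inv_mul_cancel₀ hq0] at this
    linear_combination this
  have hinj := FaithfulSMul.algebraMap_injective K L
  set b0 : L := algebraMap K L p.γs / (2 - algebraMap K L p.β) with hb0
  have hb0' : b0 * (2 - algebraMap K L p.β) = algebraMap K L p.γs := by
    rw [hb0, div_mul_cancel₀ _ h2β]
  -- the relation `P (τ 0) (τ 1) = 0`
  have rel : ∀ b1 b2 : L, (algebraMap K L (τ 0) = b0 + b1 + b2) →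
      (algebraMap K L (τ 1) = b0 + b1 * q + b2 * q⁻¹) →
      (p.P (τ 0) (τ 1) = 0 ↔ b1 * b2 * (q - q⁻¹) ^ 2 * (2 - algebraMap K L p.β) =
        -(algebraMap K L p.ρs * (2 - algebraMap K L p.β) + algebraMap K L p.γs ^ 2)) := by
    intro b1 b2 e0 e1
    have key : algebraMap K L (p.P (τ 0) (τ 1)) * (2 - algebraMap K L p.β) =
        -(b1 * b2 * (q - q⁻¹) ^ 2 * (2 - algebraMap K L p.β) +
        (algebraMap K L p.ρs * (2 - algebraMap K L p.β) + algebraMap K L p.γs ^ 2)) := by
      unfold Scal.P
      simp only [map_sub, map_add, map_mul, map_pow]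
      rw [e0, e1, ← hb0', ← hq]
      field_simp
      ring
    constructor
    · intro h0
      rw [h0, map_zero, zero_mul] at key
      linear_combination key
    · intro h0
      rw [h0, neg_add_cancel, neg_zero] at key
      apply hinj
      rw [map_zero]
      exact (mul_eq_zero.1 key).resolve_right h2β
  constructor
  · intro h
    let s : ℤ → L := fun n => algebraMap K L (τ n)
    have hs : ∀ n, s (n + 1) + s (n - 1) = algebraMap K L p.β * s n + algebraMap K L p.γs := by
      intro n
      have := congrArg (algebraMap K L) (h.recur n)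
      simpa only [map_add, map_mul] using this
    set b1 : L := ((s 1 - b0) - q⁻¹ * (s 0 - b0)) / (q - q⁻¹) with hb1
    set b2 : L := (q * (s 0 - b0) - (s 1 - b0)) / (q - q⁻¹) with hb2
    have e0 : s 0 = b0 + b1 + b2 := by
      rw [hb1, hb2]
      field_simp
      ring
    have e1 : s 1 = b0 + b1 * q + b2 * q⁻¹ := by
      have : b1 * q + b2 * q⁻¹ = s 1 - b0 := by
        rw [hb1, hb2, div_mul_eq_mul_div, div_mul_eq_mul_div, ← add_div, div_eq_iff hd]
        field_simp
        ring
      linear_combination -this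
    refine ⟨b1, b2, (rel b1 b2 e0 e1).1 h.P0, ?_⟩
    let r : ℤ → L := fun n => b0 + b1 * q ^ n + b2 * q ^ (-n)
    have hr : ∀ n, r (n + 1) + r (n - 1) = algebraMap K L p.β * r n + algebraMap K L p.γs := by
      intro n
      simp only [r]
      rw [← hb0', ← hq, zpow_add₀ hq0, zpow_sub₀ hq0, neg_add, neg_sub, zpow_add₀ hq0,
        zpow_sub₀ hq0, zpow_one, zpow_neg, zpow_neg, zpow_one]
      field_simp
      ring
    have key : ∀ k : ℕ, (s k = r k ∧ s (k + 1) = r (k + 1)) ∧
        (s (-k) = r (-k) ∧ s (-k + 1) = r (-k + 1)) := by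
      intro k
      induction k with
      | zero =>
        have r0 : s 0 = r 0 := by simp only [r]; rw [e0]; simp
        have r1 : s 1 = r 1 := by simp only [r]; rw [e1]; simp
        simp [r0, r1]
      | succ k ih =>
        obtain ⟨⟨a1, a2⟩, c1, c2⟩ := ih
        refine ⟨⟨?_, ?_⟩, ?_, ?_⟩
        · push_cast; exact a2
        · push_cast
          have f1 := hs (k + 1)
          have f2 := hr (k + 1)
          rw [show (k : ℤ) + 1 - 1 = k by ring] at f1 f2
          rw [a1, a2] at f1
          linear_combination f1 - f2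
        · push_cast
          have f1 := hs (-k)
          have f2 := hr (-k)
          rw [c1, c2] at f1
          rw [show -((k : ℤ) + 1) = -k - 1 by ring]
          linear_combination f1 - f2
        · push_cast
          rw [show -((k : ℤ) + 1) + 1 = -k by ring]
          exact c1
    intro n
    rcases Int.eq_nat_or_neg n with ⟨m, rfl | rfl⟩
    · exact (key m).1.1
    · exact (key m).2.1
  · rintro ⟨b1, b2, hb, hn⟩
    constructor
    · intro n
      apply hinj
      rw [map_add, map_add, map_mul, hn, hn, hn, ← hb0', ← hq, zpow_add₀ hq0, zpow_sub₀ hq0,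
        neg_add, neg_sub, zpow_add₀ hq0, zpow_sub₀ hq0, zpow_one, zpow_neg, zpow_neg, zpow_one]
      field_simp
      ring
    · refine (rel b1 b2 ?_ ?_).2 hb
      · rw [hn]; simp
      · rw [hn]; simp

/-- `β = 2` -/
theorem isTau_iff_two (hβ : p.β = 2) :
    IsTau p τ ↔ ((τ 1 - τ 0) ^ 2 = p.γs * (τ 0 + τ 1) + p.ρs ∧
      ∀ n : ℤ, τ n = τ 0 + n * (τ 1 - τ 0) + ((n * (n - 1) / 2 : ℤ) : K) * p.γs) := by
  have hdiv : ∀ n : ℤ, ((n + 1) * n / 2 : ℤ) = n * (n - 1) / 2 + n := by
    intro n
    rw [show (n + 1) * n = n * (n - 1) + n * 2 by ring, Int.add_mul_ediv_right _ _ (by norm_num)]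
  constructor
  · intro h
    refine ⟨?_, fun n => h.closed_two hβ n⟩
    have := h.P0
    unfold Scal.P at this
    rw [hβ] at this
    linear_combination this
  · rintro ⟨h0, hn⟩
    constructor
    · intro n
      have d1 := hdiv n
      have d2 := hdiv (n - 1)
      rw [show (n - 1 + 1) * (n - 1) = n * (n - 1) by ring] at d2
      have e1 := hn (n + 1)
      rw [show (n + 1) * (n + 1 - 1) = (n + 1) * n by ring, d1] at e1
      have e0 := hn n
      rw [d2] at e0 e1
      rw [e1, hn (n - 1), e0, hβ]
      push_cast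
      ring
    · unfold Scal.P
      rw [hβ]
      linear_combination h0

/-- `β = -2`, characteristic not two -/
theorem isTau_iff_neg_two (hβ : p.β = -2) (h4 : (4 : K) ≠ 0) :
    IsTau p τ ↔ ((τ 1 + τ 0) ^ 2 = p.γs * (τ 0 + τ 1) + p.ρs ∧
      ∀ n : ℤ, τ n = p.γs / 4 + (-1) ^ n *
        ((τ 0 - p.γs / 4) - n * ((τ 0 - p.γs / 4) + (τ 1 - p.γs / 4)))) := by
  have hm : (-1 : K) ≠ 0 := by simp
  constructor
  · intro h
    refine ⟨?_, h.closed_neg_two hβ h4⟩
    have := h.P0
    unfold Scal.P at this
    rw [hβ] at this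
    linear_combination this
  · rintro ⟨h0, hn⟩
    constructor
    · intro n
      rw [hn (n + 1), hn (n - 1), hn n, hβ, zpow_add₀ hm, zpow_sub₀ hm]
      push_cast
      have h4' : p.γs = 4 * (p.γs / 4) := by field_simp
      generalize p.γs / 4 = g at *
      rw [h4']
      norm_num
      ring
    · unfold Scal.P
      rw [hβ]
      linear_combination h0

end Pool.Agent.TH10.AW
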