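import Pool.Agent.TH10.AW.AlgDef

/-! The Askey-Wilson algebra, modules of polynomial type, and the model modules. -/

set_option autoImplicit false

namespace Pool.Agent.TH10.AW

variable {K : Type*} [Field K]

theorem rel1 (p : Scal K) : gA p * gA p * gB p - p.β • (gA p * gB p * gA p) + gB p * gA p * gA p
      - p.γ • (gA p * gB p + gB p * gA p) - p.ρ • gB p =
    p.γs • (gA p * gA p) + p.ω • gA p + p.η • (1 : AWAlg p) := by
  have := RingQuot.mkAlgHom_rel K (AWRel.r1 (p := p))
  simp only [map_add, map_sub, map_smul, map_mul, map_one] at this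
  exact this

theorem rel2 (p : Scal K) : gB p * gB p * gA p - p.β • (gB p * gA p * gB p) + gA p * gB p * gB p
      - p.γs • (gB p * gA p + gA p * gB p) - p.ρs • gA p =
    p.γ • (gB p * gB p) + p.ω • gB p + p.ηs • (1 : AWAlg p) := by
  have := RingQuot.mkAlgHom_rel K (AWRel.r2 (p := p))
  simp only [map_add, map_sub, map_smul, map_mul, map_one] at this
  exact this

theorem repOf_gA {V : Type*} [AddCommGroup V] [Module K V] {p : Scal K} {A B : Module.End K V}
    (h1 : AW1 p A B) (h2 : AW2 p A B) : repOf h1 h2 (gA p) = A := by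
  unfold repOf gA
  rw [RingQuot.liftAlgHom_mkAlgHom_apply, FreeAlgebra.lift_ι_apply]
  rfl

theorem repOf_gB {V : Type*} [AddCommGroup V] [Module K V] {p : Scal K} {A B : Module.End K V}
    (h1 : AW1 p A B) (h2 : AW2 p A B) : repOf h1 h2 (gB p) = B := by
  unfold repOf gB
  rw [RingQuot.liftAlgHom_mkAlgHom_apply, FreeAlgebra.lift_ι_apply]
  rfl

section module

variable (p : Scal K) (V : Type*) [AddCommGroup V] [Module K V] [Module (AWAlg p) V]
  [IsScalarTower K (AWAlg p) V]

/-- action of `A` on a module -/
def opA : Module.End K V := Algebra.lsmul K K V (gA p)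

/-- action of `A*` on a module -/
def opB : Module.End K V := Algebra.lsmul K K V (gB p)

@[simp] theorem opA_apply (w : V) : opA p V w = gA p • w := rfl
@[simp] theorem opB_apply (w : V) : opB p V w = gB p • w := rfl

theorem op_aw1 : AW1 p (opA p V) (opB p V) := by
  have := congrArg (Algebra.lsmul K K V) (rel1 p)
  simp only [map_add, map_sub, map_smul, map_mul, map_one] at this
  exact this

theorem op_aw2 : AW2 p (opA p V) (opB p V) := by
  have := congrArg (Algebra.lsmul K K V) (rel2 p)
  simp only [map_add, map_sub, map_smul, map_mul, map_one] at this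
  exact this

variable {p V}

theorem smul_mem_of_stable {W : Submodule K V} (hA : ∀ w ∈ W, gA p • w ∈ W)
    (hB : ∀ w ∈ W, gB p • w ∈ W) (r : AWAlg p) : ∀ w ∈ W, r • w ∈ W := by
  obtain ⟨f, rfl⟩ := RingQuot.mkAlgHom_surjective K (AWRel p) r
  induction f using FreeAlgebra.induction with
  | grade0 c =>
    intro w hw
    rw [AlgHom.commutes, algebraMap_smul]
    exact W.smul_mem _ hw
  | grade1 i =>
    intro w hw
    fin_cases i
    · exact hA w hw
    · exact hB w hw
  | mul f g hf hg =>
    intro w hw
    rw [map_mul, mul_smul]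
    exact hf _ (hg _ hw)
  | add f g hf hg =>
    intro w hw
    rw [map_add, add_smul]
    exact W.add_mem (hf _ hw) (hg _ hw)

theorem simple_iff : IsSimpleModule (AWAlg p) V ↔ Irr (opA p V) (opB p V) := by
  constructor
  · intro h
    refine ⟨IsSimpleModule.nontrivial (AWAlg p) V, fun W hA hB => ?_⟩
    let W' : Submodule (AWAlg p) V :=
      { W with
        smul_mem' := fun r w hw => smul_mem_of_stable hA hB r w hw }
    rcases eq_bot_or_eq_top W' with h1 | h1
    · left
      rw [Submodule.eq_bot_iff] at h1 ⊢
      exact fun w hw => h1 w hw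
    · right
      rw [Submodule.eq_top_iff'] at h1 ⊢
      exact fun w => h1 w
  · rintro ⟨hn, h⟩
    rw [isSimpleModule_iff]
    refine { exists_pair_ne := ?_, eq_bot_or_eq_top := ?_ }
    · obtain ⟨a, b, hab⟩ := hn
      exact ⟨⊥, ⊤, fun h0 => hab (by
        have ha : a - b ∈ (⊤ : Submodule (AWAlg p) V) := trivial
        rw [← h0, Submodule.mem_bot] at ha
        exact sub_eq_zero.1 ha)⟩
    · intro W
      rcases h (W.restrictScalars K) (fun w hw => W.smul_mem (gA p) hw)
        (fun w hw => W.smul_mem (gB p) hw) with h1 | h1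
      · left
        rw [Submodule.eq_bot_iff] at h1 ⊢
        exact fun w hw => h1 w hw
      · right
        rw [Submodule.eq_top_iff'] at h1 ⊢
        exact fun w => h1 w

variable {V' : Type*} [AddCommGroup V'] [Module K V'] [Module (AWAlg p) V']
  [IsScalarTower K (AWAlg p) V']

/-- an intertwining linear equivalence is an isomorphism of modules -/
def isoOf (φ : V ≃ₗ[K] V') (hA : ∀ w, φ (opA p V w) = opA p V' (φ w))
    (hB : ∀ w, φ (opB p V w) = opB p V' (φ w)) : V ≃ₗ[AWAlg p] V' :=
  { φ with
    map_smul' := by
      intro r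
      obtain ⟨f, rfl⟩ := RingQuot.mkAlgHom_surjective K (AWRel p) r
      simp only [RingHom.id_apply]
      induction f using FreeAlgebra.induction with
      | grade0 c =>
        intro w
        rw [AlgHom.commutes, algebraMap_smul, algebraMap_smul]
        exact φ.map_smul c w
      | grade1 i =>
        intro w
        fin_cases i
        · exact hA w
        · exact hB w
      | mul f g hf hg =>
        intro w
        rw [map_mul, mul_smul, mul_smul, hf, hg]
      | add f g hf hg =>
        intro w
        rw [map_add, add_smul, add_smul, ← hf, ← hg]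
        exact φ.map_add _ _ }

theorem iso_restrict (ψ : V ≃ₗ[AWAlg p] V') : ∃ φ : V ≃ₗ[K] V',
    (∀ w, φ (opA p V w) = opA p V' (φ w)) ∧ (∀ w, φ (opB p V w) = opB p V' (φ w)) :=
  ⟨ψ.restrictScalars K, fun w => ψ.map_smul (gA p) w, fun w => ψ.map_smul (gB p) w⟩

end module

end Pool.Agent.TH10.AW
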