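import Pool.Agent.TH10.AW.Defs

/-! The Askey-Wilson algebra and its modules of polynomial type. -/

set_option autoImplicit false

namespace Pool.Agent.TH10.AW

variable {K : Type*} [Field K]

/-- The two Askey-Wilson relations, `ι 0` being `A` and `ι 1` being `A*`. -/
inductive AWRel (p : Scal K) : FreeAlgebra K (Fin 2) → FreeAlgebra K (Fin 2) → Prop
  | r1 : AWRel p
      (FreeAlgebra.ι K 0 * FreeAlgebra.ι K 0 * FreeAlgebra.ι K 1
        - p.β • (FreeAlgebra.ι K 0 * FreeAlgebra.ι K 1 * FreeAlgebra.ι K 0)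
        + FreeAlgebra.ι K 1 * FreeAlgebra.ι K 0 * FreeAlgebra.ι K 0
        - p.γ • (FreeAlgebra.ι K 0 * FreeAlgebra.ι K 1 + FreeAlgebra.ι K 1 * FreeAlgebra.ι K 0)
        - p.ρ • FreeAlgebra.ι K 1)
      (p.γs • (FreeAlgebra.ι K 0 * FreeAlgebra.ι K 0) + p.ω • FreeAlgebra.ι K 0 + p.η • 1)
  | r2 : AWRel p
      (FreeAlgebra.ι K 1 * FreeAlgebra.ι K 1 * FreeAlgebra.ι K 0
        - p.β • (FreeAlgebra.ι K 1 * FreeAlgebra.ι K 0 * FreeAlgebra.ι K 1)
        + FreeAlgebra.ι K 0 * FreeAlgebra.ι K 1 * FreeAlgebra.ι K 1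
        - p.γs • (FreeAlgebra.ι K 1 * FreeAlgebra.ι K 0 + FreeAlgebra.ι K 0 * FreeAlgebra.ι K 1)
        - p.ρs • FreeAlgebra.ι K 0)
      (p.γ • (FreeAlgebra.ι K 1 * FreeAlgebra.ι K 1) + p.ω • FreeAlgebra.ι K 1 + p.ηs • 1)

/-- The Askey-Wilson algebra. -/
abbrev AWAlg (p : Scal K) := RingQuot (AWRel p)

/-- the generator `A` -/
def gA (p : Scal K) : AWAlg p := RingQuot.mkAlgHom K (AWRel p) (FreeAlgebra.ι K 0)

/-- the generator `A*` -/
def gB (p : Scal K) : AWAlg p := RingQuot.mkAlgHom K (AWRel p) (FreeAlgebra.ι K 1)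

/-- the representation attached to a pair of operators -/
def repOf {V : Type*} [AddCommGroup V] [Module K V] {p : Scal K} {A B : Module.End K V}
    (h1 : AW1 p A B) (h2 : AW2 p A B) : AWAlg p →ₐ[K] Module.End K V :=
  RingQuot.liftAlgHom K ⟨FreeAlgebra.lift K ![A, B], by
    intro x y hxy
    cases hxy with
    | r1 =>
      simp only [map_add, map_sub, map_smul, map_mul, map_one, FreeAlgebra.lift_ι_apply,
        Matrix.cons_val_zero, Matrix.cons_val_one]
      exact h1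
    | r2 =>
      simp only [map_add, map_sub, map_smul, map_mul, map_one, FreeAlgebra.lift_ι_apply,
        Matrix.cons_val_zero, Matrix.cons_val_one]
      exact h2⟩

variable (p : Scal K) (V : Type*) [AddCommGroup V] [Module K V] [Module (AWAlg p) V]

/-- `V` has polynomial type: it has a finite or countable basis in which `A` acts by an irreducible
tridiagonal matrix and `A*` by a diagonal matrix. -/
def PolyType : Prop :=
  ∃ (N : ℕ∞) (b : Module.Basis {i : ℕ // (i : ℕ∞) < N} K V),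
    (∀ i j : {i : ℕ // (i : ℕ∞) < N}, (i : ℕ) + 1 < j ∨ (j : ℕ) + 1 < i →
      b.repr (gA p • b j) i = 0) ∧
    (∀ i j : {i : ℕ // (i : ℕ∞) < N}, (i : ℕ) + 1 = j ∨ (j : ℕ) + 1 = i →
      b.repr (gA p • b j) i ≠ 0) ∧
    (∀ i j : {i : ℕ // (i : ℕ∞) < N}, i ≠ j → b.repr (gB p • b j) i = 0)

end Pool.Agent.TH10.AW
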