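import Pool.Agent.TH10.AW.IsoIVb

/-! The isomorphism criteria for windows with repeated eigenvalues. -/

set_option autoImplicit false
set_option linter.unusedSectionVars false
set_option linter.style.haveILetI false

namespace Pool.Agent.TH10.AW

open Polynomial

variable {K : Type*} [Field K] {p : Scal K}
variable {V : Type*} [AddCommGroup V] [Module K V]
variable {V' : Type*} [AddCommGroup V'] [Module K V']
variable {A B : Module.End K V} {A' B' : Module.End K V'}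
variable {n0 : ℕ} {v : ℕ → V} {a x : ℕ → K} {τ : ℤ → K}
variable {v' : ℕ → V'} {a' x' : ℕ → K} {τ' : ℤ → K}

/-- intertwining isomorphisms -/
def Isom (A B : Module.End K V) (A' B' : Module.End K V') : Prop :=
  ∃ φ : V ≃ₗ[K] V', (∀ w, φ (A w) = A' (φ w)) ∧ (∀ w, φ (B w) = B' (φ w))

theorem Isom.symm (h : Isom A B A' B') : Isom A' B' A B := by
  obtain ⟨φ, h1, h2⟩ := h
  refine ⟨φ.symm, fun w => ?_, fun w => ?_⟩
  · apply φ.injective
    rw [φ.apply_symm_apply, h1, φ.apply_symm_apply]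
  · apply φ.injective
    rw [φ.apply_symm_apply, h2, φ.apply_symm_apply]

theorem spec_of_isom {θ θ' : ℕ → K} {n0 n0' : ℕ} (hp : PB A B (n0 : ℕ∞) v θ a x)
    (hp' : PB A' B' (n0' : ℕ∞) v' θ' a' x')
    (h : Isom A B A' B') : ∀ i < n0, ∃ j < n0', θ' j = θ i := by
  obtain ⟨φ, -, h2⟩ := h
  intro i hi
  obtain ⟨j, hj, hje⟩ := spec_sub hp hp' φ h2 i (by exact_mod_cast hi)
  exact ⟨j, by exact_mod_cast hj, hje⟩

theorem PB.scal {θ : ℕ → K} (hp : PB A B (n0 : ℕ∞) v θ a x) (hc : ∀ i < n0, θ i = θ 0) (w : V) :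
    B w = θ 0 • w := by
  have : B = θ 0 • (1 : Module.End K V) := by
    apply ext_on_v hp
    intro n hn
    rw [hp.hB, LinearMap.smul_apply, Module.End.one_apply, hc n (by exact_mod_cast hn)]
  rw [this]; simp

/-- scalar `B` -/
theorem isom_II {θ θ' : ℕ → K} (hp : PB A B (n0 : ℕ∞) v θ a x)
    (hp' : PB A' B' (n0 : ℕ∞) v' θ' a' x') (h1 : AW1 p A B) (h1' : AW1 p A' B')
    (hI : Irr A B) (hI' : Irr A' B') (hn : 0 < n0)
    (hc : ∀ i < n0, θ i = θ 0) (hc' : ∀ i < n0, θ' i = θ' 0) :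
    Isom A B A' B' ↔ θ 0 = θ' 0 ∧ PP a x n0 = PP a' x' n0 := by
  constructor
  · intro h
    obtain ⟨j, hj, hje⟩ := spec_of_isom hp hp' h 0 hn
    obtain ⟨φ, hA, -⟩ := h
    exact ⟨by rw [← hje, hc' j hj], (pp_eq_of_iso hp hp' φ hA).2⟩
  · rintro ⟨h0, hP⟩
    have hB := hp.scal hc
    have hB' := hp'.scal hc'
    refine iso_of_sing h1 h1' hI' hI hp hp' hP (m := θ 0) (n := θ 0) (c := a 0)
      ⟨hB _, hB _⟩ (g := v' 0) (hp'.ne_zero (by exact_mod_cast hn)) ⟨?_, ?_⟩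
    · rw [hB', h0]
    · rw [hB', h0]

/-- type III -/
theorem isom_III {k : ℕ} (hc : CIII n0 τ a x k) (hc' : CIII n0 τ' a' x' k)
    (h : TSys p (n0 : ℕ∞) τ a x) (h' : TSys p (n0 : ℕ∞) τ' a' x')
    (hp : PB A B (n0 : ℕ∞) v (fun n : ℕ => τ n) a x)
    (hp' : PB A' B' (n0 : ℕ∞) v' (fun n : ℕ => τ' n) a' x')
    (h1 : AW1 p A B) (h1' : AW1 p A' B') (hI : Irr A B) (hI' : Irr A' B') :
    Isom A B A' B' ↔ (τ 0 = τ' 0 ∧ τ 1 = τ' 1 ∧ a 0 = a' 0) := by
  have hn := hc.hn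
  constructor
  · rintro ⟨φ, hA, hB⟩
    have hg0 : φ (v 0) ≠ 0 := by
      intro h0
      exact hp.ne_zero (n := 0) (by exact_mod_cast (by omega)) (φ.injective (by
        rw [h0, map_zero]))
    obtain ⟨e1, e2, e3⟩ := hc'.sing h'.tau hp' hg0
      ((Sg.start hp).map (φ := φ.toLinearMap) hA hB)
    exact ⟨e1.symm, e2.symm, e3.symm⟩
  · rintro ⟨e1, e2, e3⟩
    have hτ := tau_unique h.tau h'.tau e1 e2
    subst hτ
    refine iso_of_sing h1 h1' hI' hI hp hp' (hc.pp_eq h h' e3 hc' hp h1 hI hp' h1' hI')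
      (Sg.start hp) (g := v' 0) (hp'.ne_zero (by exact_mod_cast (by omega))) ?_
    rw [e3]
    exact Sg.start hp'

/-- type IV -/
theorem isom_IV {M M' : ℕ} {s s' : ℤ} (hw : Win n0 τ a M s) (hw' : Win n0 τ' a' M' s')
    (h : TSys p (n0 : ℕ∞) τ a x) (h' : TSys p (n0 : ℕ∞) τ' a' x')
    (hp : PB A B (n0 : ℕ∞) v (fun n : ℕ => τ n) a x)
    (hp' : PB A' B' (n0 : ℕ∞) v' (fun n : ℕ => τ' n) a' x')
    (h1 : AW1 p A B) (h1' : AW1 p A' B') (hI : Irr A B) (hI' : Irr A' B') :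
    Isom A B A' B' ↔ ((∀ i < n0, ∃ j < n0, τ' j = τ i) ∧ (∀ j < n0, ∃ i < n0, τ i = τ' j) ∧
      Kap p τ a = Kap p τ' a' ∧ PP a x n0 = PP a' x' n0) := by
  constructor
  · intro hi
    refine ⟨spec_of_isom hp hp' hi, spec_of_isom hp' hp hi.symm, ?_⟩
    obtain ⟨φ, hA, hB⟩ := hi
    exact ⟨kap_eq_of_iso hw hw' h h' hp hp' φ hA hB, (pp_eq_of_iso hp hp' φ hA).2⟩
  · rintro ⟨e1, -, e3, e4⟩
    obtain ⟨g, hg, hsg⟩ := exists_sing_IV hw hw' h h' hp' e1 e3
    exact iso_of_sing h1 h1' hI' hI hp hp' e4 (Sg.start hp) hg hsg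

/-- types III and IV are different -/
theorem not_isom_III_IV {k M : ℕ} {s : ℤ} (hc : CIII n0 τ' a' x' k) (hw : Win n0 τ a M s)
    (h : TSys p (n0 : ℕ∞) τ a x) (h' : TSys p (n0 : ℕ∞) τ' a' x')
    (hp : PB A B (n0 : ℕ∞) v (fun n : ℕ => τ n) a x)
    (hp' : PB A' B' (n0 : ℕ∞) v' (fun n : ℕ => τ' n) a' x') : ¬ Isom A B A' B' := by
  rintro ⟨φ, hA, hB⟩
  have hn2 := hw.two_le
  have ne : ∀ i < n0, φ (v i) ≠ 0 := by
    intro i hi h0
    exact hp.ne_zero (n := i) (by exact_mod_cast hi) (φ.injective (by rw [h0, map_zero]))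
  obtain ⟨a1, a2, a3⟩ := hc.sing h'.tau hp' (ne 0 hw.pos)
      ((Sg.start hp).map (φ := φ.toLinearMap) hA hB)
  obtain ⟨b1, b2, b3⟩ := hc.sing h'.tau hp' (ne (n0 - 1) (by omega))
      ((Sg.last hp hn2).map (φ := φ.toLinearMap) hA hB)
  rw [hw.last, a1] at b1
  exact (hw.start_corner b1.symm h.tau).2 (by rw [← a3, ← b3])

/-- pigeonhole: distinct and repeated eigenvalues -/
theorem not_isom_inj {N : ℕ∞} {n0' : ℕ} {θ θ' : ℕ → K} (hp : PB A B N v θ a x)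
    (hp' : PB A' B' (n0' : ℕ∞) v' θ' a' x') (hinj : Inj N θ) {i j : ℕ} (hij : i < j)
    (hj : j < n0') (he : θ' i = θ' j) : ¬ Isom A B A' B' := by
  rintro ⟨φ, hA, hB⟩
  have hsp := spec_sub hp hp' φ hB
  have hlt : N < (n0' : ℕ∞) := by
    by_contra hcon
    have hle := not_lt.1 hcon
    have hsp' : ∀ i : Fin n0', ∃ j : Fin n0', θ' j = θ i := by
      intro i
      obtain ⟨j, hj, hje⟩ := hsp i (lt_of_lt_of_le (by exact_mod_cast i.2) hle)
      exact ⟨⟨j, by exact_mod_cast hj⟩, hje⟩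
    choose f hf using hsp'
    have finj : Function.Injective f := by
      intro i1 i2 h12
      apply Fin.ext
      refine hinj _ _ (lt_of_lt_of_le (by exact_mod_cast i1.2) hle)
        (lt_of_lt_of_le (by exact_mod_cast i2.2) hle) ?_
      rw [← hf, ← hf, h12]
    have fsur := Finite.surjective_of_injective finj
    obtain ⟨i1, hi1⟩ := fsur ⟨i, by omega⟩
    obtain ⟨i2, hi2⟩ := fsur ⟨j, hj⟩
    have h12 : i1 = i2 := by
      apply Fin.ext
      refine hinj _ _ (lt_of_lt_of_le (by exact_mod_cast i1.2) hle)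
        (lt_of_lt_of_le (by exact_mod_cast i2.2) hle) ?_
      rw [← hf, ← hf, hi1, hi2]
      exact he
    rw [h12, hi2] at hi1
    have := congrArg Fin.val hi1
    simp only at this
    omega
  obtain ⟨m, rfl⟩ := ENat.ne_top_iff_exists.1 (ne_top_of_lt hlt)
  have := (pp_eq_of_iso hp hp' φ hA).1
  rw [this] at hlt
  exact lt_irrefl _ hlt

/-- the windows of type IV are not constant -/
theorem Win.exists_ne {M : ℕ} {s : ℤ} (hw : Win n0 τ a M s) : ∃ i < n0, τ i ≠ τ 0 := by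
  by_contra hcon
  push Not at hcon
  apply hw.not_const
  intro k
  obtain ⟨i, hi, hie⟩ := hw.mem (k + 1)
  obtain ⟨j, hj, hje⟩ := hw.mem k
  rw [← hie, ← hje, hcon i hi, hcon j hj]

/-- the windows of type IV have a repeated eigenvalue -/
theorem Win.exists_coinc {M : ℕ} {s : ℤ} (hw : Win n0 τ a M s) (h3 : 3 ≤ n0) :
    ∃ i j : ℕ, i < j ∧ j < n0 ∧ τ i = τ j := by
  rcases hw.sc with rfl | ⟨rfl, -⟩ | rfl
  · refine ⟨1, n0 - 1, by omega, by omega, ?_⟩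
    rw [hw.last]
    exact hw.cen.at (by norm_num)
  · refine ⟨0, n0 - 1, by omega, by omega, ?_⟩
    rw [hw.last]
    exact hw.cen.at (by norm_num)
  · refine ⟨0, n0 - 2, by omega, by omega, ?_⟩
    rw [hw.last2]
    exact hw.cen.at (by norm_num)

end Pool.Agent.TH10.AW
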