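import Pool.Agent.TH10.AW.Types
import Pool.Agent.TH10.AW.IsoCrit

/-! The classification in terms of the parameters. -/

set_option autoImplicit false
set_option linter.unusedSectionVars false
set_option linter.style.haveILetI false

namespace Pool.Agent.TH10.AW

open Polynomial

variable {K : Type*} [Field K] {p : Scal K}

section general

variable {V : Type*} [AddCommGroup V] [Module K V]
variable {A B : Module.End K V}
variable {n0 : ℕ} {v : ℕ → V} {a x : ℕ → K} {τ : ℤ → K}

/-- sufficiency of the conditions -/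
theorem irr_of_cases (hp : PB A B (n0 : ℕ∞) v (fun n : ℕ => τ n) a x)
    (h : TSys p (n0 : ℕ∞) τ a x) (h1 : AW1 p A B) (hn : 0 < n0)
    (hc : Cases n0 τ a x) (h2 : (∀ i < n0, τ i = τ 0) → Irreducible (PP a x n0)) : Irr A B := by
  cases hc with
  | II h3 => exact irr_II hp hn (h2 h3)
  | III k hk hn hτ hd ha hr => exact irr_III hp h hn hτ hd hr
  | IVa h3 hM hs =>
    haveI := hp.finite
    exact irr_IVa hp h hM hp.finrank_eq.le hs
  | IVb M d s f h2 hd2 hn hM hs hs' hf hfm hfd hP =>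
    have hconst : ¬ Per τ 1 := by
      intro hc
      have := Int.le_of_dvd (by norm_num) (hM.dvd 1 hc)
      omega
    have hMn : M < n0 := by rw [hn]; nlinarith
    have hsg := sg_TT hp h hM.pos (by exact_mod_cast hMn) hM.per hconst hs (by
      rcases hs' with h | h | h
      · exact Or.inl h
      · exact Or.inr (Or.inl h.1)
      · exact Or.inr (Or.inr h))
    have hcom := comm_of_sg h1 hp.exists_poly (Sg.start hp) hsg
    refine irr_IVb hp h hM (by omega) hn hf hfd hcom (by rw [← hP]; exact hp.aeval_PP_zero) ?_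
    rcases hs' with rfl | ⟨rfl, ha⟩ | ⟨rfl, -⟩
    · exact Or.inl hs
    · exact Or.inr (Or.inr ⟨hs, ha⟩)
    · exact Or.inr (Or.inl hs)

end general

variable {D : Data K}

/-- the system for a continuation of `θ` -/
theorem Data.Ok.tsys (h : D.Ok p) {τ : ℤ → K} (hτ : D.Ext p τ) : TSys p D.N τ D.a D.x :=
  tsys_of_sys h.sys hτ.1 (fun n hn => (hτ.2 n hn).symm) h.x0 h.xN h.xne

theorem Data.Ok.exists_ext (h : D.Ok p) (hN : (1 : ℕ∞) < D.N) : ∃ τ : ℤ → K, D.Ext p τ := by
  obtain ⟨τ, hτ, hts⟩ := (Mod.pb h).exists_tsys (op_aw1 p _) (op_aw2 p _) hN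
  exact ⟨τ, hts.tau, fun n hn => (hτ n hn).symm⟩

theorem Data.Ok.pb' (h : D.Ok p) {τ : ℤ → K} (hτ : D.Ext p τ) :
    PB (AW.opA p (Mod h)) (AW.opB p (Mod h)) D.N (Mod.vec h) (fun n : ℕ => τ n) D.a D.x :=
  (Mod.pb h).congr fun n hn => (hτ.2 n hn).symm

/-- type IV gives a special window -/
theorem Data.IV.win {d : ℕ} (hd : D.IV p d) : ∃ (n0 : ℕ) (τ : ℤ → K) (M : ℕ) (s : ℤ),
    D.N = n0 ∧ 3 ≤ n0 ∧ D.Ext p τ ∧ Win n0 τ D.a M s := by
  obtain ⟨τ, M, s, hτ, hN, h3, h2, hM, hs, hs', -⟩ := hd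
  refine ⟨M * d, τ, M, s, hN, h3, hτ, h2, by omega, ⟨d, rfl⟩, hM, hs, ?_⟩
  rcases hs' with h | h | h
  · exact Or.inl h
  · exact Or.inr (Or.inl h)
  · exact Or.inr (Or.inr h.1)

/-- type III in terms of the continuation -/
theorem Data.III.ciii (hd : D.III) {τ : ℤ → K} (hτ : D.Ext p τ) : ∃ (n0 k : ℕ),
    D.N = n0 ∧ CIII n0 τ D.a D.x k := by
  obtain ⟨k, hk, hN, hθ, hdd, ha, hr⟩ := hd
  have hlt : ∀ n : ℕ, n < 2 * (k + 1) → (n : ℕ∞) < D.N := by
    intro n hn
    rw [hN]; exact_mod_cast hn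
  refine ⟨2 * (k + 1), k, hN, hk, rfl, ?_, ?_, ?_, hr⟩
  · rw [hτ.2 k (hlt _ (by omega)), hτ.2 (k + 1) (hlt _ (by omega))] at hθ
    push_cast at hθ
    exact hθ
  · intro i j hij hj
    have := hdd i j hij hj
    rwa [hτ.2 i (hlt _ (by omega)), hτ.2 j (hlt _ (by omega))] at this
  · rw [show 2 * (k + 1) - 1 = 2 * k + 1 by omega]
    exact ha

theorem PB.castN {V : Type*} [AddCommGroup V] [Module K V] {A B : Module.End K V} {N N' : ℕ∞}
    {v : ℕ → V} {θ a x : ℕ → K} (h : PB A B N v θ a x) (hN : N = N') : PB A B N' v θ a x := by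
  subst hN
  exact h

theorem TSys.castN {N N' : ℕ∞} {τ : ℤ → K} {a x : ℕ → K} (h : TSys p N τ a x) (hN : N = N') :
    TSys p N' τ a x := by
  subst hN
  exact h

/-- the irreducibility criterion -/
theorem simple_iff_types (h : D.Ok p) :
    IsSimpleModule (AWAlg p) (Mod h) ↔ (D.Dist ∨ D.II ∨ D.III ∨ ∃ d, D.IV p d) := by
  constructor
  · intro hs
    have hI := simple_iff.1 hs
    by_cases hd : D.Dist
    · exact Or.inl hd
    right
    have hco : ∃ i j : ℕ, i < j ∧ (j : ℕ∞) < D.N ∧ D.θ i = D.θ j := by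
      unfold Data.Dist at hd
      push Not at hd
      obtain ⟨i, j, hi, hj, he, hne⟩ := hd
      rcases Nat.lt_or_gt_of_ne hne with h1 | h1
      · exact ⟨i, j, h1, hj, he⟩
      · exact ⟨j, i, h1, hi, he.symm⟩
    obtain ⟨i, j, hij, hj, he⟩ := hco
    have hN1 : (1 : ℕ∞) < D.N := lt_of_le_of_lt (by exact_mod_cast (by omega : 1 ≤ j)) hj
    obtain ⟨τ, hτ⟩ := h.exists_ext hN1
    have hts := h.tsys hτ
    have hpb := h.pb' hτ
    have hNtop : D.N ≠ ⊤ := by
      intro hN
      have hinj := inj_of_infinite (hpb.castN hN) (hts.castN hN) (op_aw1 p _) hI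
      have := hinj i j (ENat.natCast_lt_top _) (ENat.natCast_lt_top _) (by
        simp only
        rw [← hτ.2 i (lt_trans (by exact_mod_cast hij) hj), ← hτ.2 j hj, he])
      omega
    obtain ⟨n0, hn0⟩ := ENat.ne_top_iff_exists.1 hNtop
    have hpb0 := hpb.castN hn0.symm
    have hts0 := hts.castN hn0.symm
    have hjn : j < n0 := by rw [← hn0] at hj; exact_mod_cast hj
    have hext : ∀ n : ℕ, n < n0 → D.θ n = τ n := fun n hn =>
      hτ.2 n (by rw [← hn0]; exact_mod_cast hn)
    obtain ⟨hc, hirr2⟩ := (irr_iff_cases hpb0 hts0 (op_aw1 p _) hij hjn (by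
      rw [← hext i (by omega), ← hext j hjn, he])).1 hI
    cases hc with
    | II h3 =>
      left
      refine ⟨n0, by omega, hn0.symm, ?_, hirr2 h3⟩
      intro i hi
      rw [hext i hi, hext 0 (by omega), h3 i hi]
      rfl
    | III k hk hn hτk hd ha hr =>
      right; left
      refine ⟨k, hk, by rw [← hn0, hn], ?_, ?_, ?_, hr⟩
      · rw [hext k (by omega), hext (k + 1) (by omega)]
        push_cast
        exact hτk
      · intro i j hij hj
        rw [hext i (by omega), hext j (by omega)]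
        exact hd i j hij hj
      · rw [← ha]; congr 1; omega
    | IVa h3 hM hs =>
      right; right
      rcases hs with hs | hs | ⟨hs, ha⟩
      · exact ⟨1, τ, n0, 0, hτ, by rw [← hn0, mul_one], by omega, by omega, hM, hs, Or.inl rfl,
          Or.inl rfl⟩
      · exact ⟨1, τ, n0, -2, hτ, by rw [← hn0, mul_one], by omega, by omega, hM, hs,
          Or.inr (Or.inr ⟨rfl, Or.inl rfl⟩), Or.inl rfl⟩
      · exact ⟨1, τ, n0, -1, hτ, by rw [← hn0, mul_one], by omega, by omega, hM, hs,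
          Or.inr (Or.inl ⟨rfl, by rw [mul_one]; exact ha⟩), Or.inl rfl⟩
    | IVb M d s f h2 hd2 hn hM hs hs' hf hfm hfd hP =>
      right; right
      subst hn
      refine ⟨d, τ, M, s, hτ, hn0.symm, by nlinarith, h2, hM, hs, ?_, Or.inr ⟨f, hf, hfm, hfd, hP⟩⟩
      rcases hs' with h | h | h
      · exact Or.inl h
      · exact Or.inr (Or.inl h)
      · exact Or.inr (Or.inr ⟨h.1, Or.inr h.2⟩)
  · intro ht
    rw [simple_iff]
    rcases ht with hd | hd | hd | ⟨d, hd⟩
    · exact (Mod.pb h).irr_of_inj h.N0 hd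
    · obtain ⟨n, hn2, hN, -, hirr⟩ := hd
      exact irr_II ((Mod.pb h).castN hN) (by omega) hirr
    · have hN1 : (1 : ℕ∞) < D.N := by
        obtain ⟨k, hk, hN, -⟩ := hd
        rw [hN]; exact_mod_cast (by omega : 1 < 2 * (k + 1))
      obtain ⟨τ, hτ⟩ := h.exists_ext hN1
      obtain ⟨n0, k, hN, hc⟩ := hd.ciii hτ
      exact irr_III ((h.pb' hτ).castN hN) ((h.tsys hτ).castN hN) hc.hn hc.hτ hc.hd hc.hr
    · obtain ⟨n0, τ, M, s, hN, h3, hτ, hw⟩ := hd.win
      have hne := hw.exists_ne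
      obtain ⟨τ, M, s, hτ, hN, h3, h2, hM, hs, hs', hf⟩ := hd
      have hnc : ¬ Per τ 1 := by
        intro hc
        have := Int.le_of_dvd (by norm_num) (hM.dvd 1 hc)
        omega
      have hw' : Win (M * d) τ D.a M s := by
        refine ⟨h2, by omega, ⟨d, rfl⟩, hM, hs, ?_⟩
        rcases hs' with h | h | h
        · exact Or.inl h
        · exact Or.inr (Or.inl h)
        · exact Or.inr (Or.inr h.1)
      refine irr_of_cases ((h.pb' hτ).castN hN) ((h.tsys hτ).castN hN) (op_aw1 p _) (by omega)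
        ?_ (fun hcon => ?_)
      · rcases hf with rfl | ⟨f, hf, hfm, hfd, hP⟩
        · rw [mul_one] at *
          refine Cases.IVa h3 hM ?_
          rcases hs' with rfl | ⟨rfl, ha⟩ | ⟨rfl, -⟩
          · exact Or.inl hs
          · exact Or.inr (Or.inr ⟨hs, ha⟩)
          · exact Or.inr (Or.inl hs)
        · by_cases hd1 : d = 1
          · subst hd1
            rw [mul_one] at *
            refine Cases.IVa h3 hM ?_
            rcases hs' with rfl | ⟨rfl, ha⟩ | ⟨rfl, -⟩
            · exact Or.inl hs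
            · exact Or.inr (Or.inr ⟨hs, ha⟩)
            · exact Or.inr (Or.inl hs)
          · have hd0 : d ≠ 0 := by
              rintro rfl
              omega
            refine Cases.IVb M d s f h2 (by omega) rfl hM hs ?_ hf hfm hfd hP
            rcases hs' with h | h | h
            · exact Or.inl h
            · exact Or.inr (Or.inl h)
            · exact Or.inr (Or.inr ⟨h.1, h.2.resolve_left hd1⟩)
      · obtain ⟨i, hi, hne⟩ := hw'.exists_ne
        exact absurd (hcon i hi) hne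

end Pool.Agent.TH10.AW
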