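import Pool.Agent.TH10.AW.Class

/-! The isomorphism criterion in terms of the parameters. -/

set_option autoImplicit false
set_option linter.unusedSectionVars false
set_option linter.style.haveILetI false

namespace Pool.Agent.TH10.AW

open Polynomial

variable {K : Type*} [Field K] {p : Scal K} {D D' : Data K}

theorem nonempty_iff (h : D.Ok p) (h' : D'.Ok p) :
    Nonempty (Mod h ≃ₗ[AWAlg p] Mod h') ↔
      Isom (opA p (Mod h)) (opB p (Mod h)) (opA p (Mod h')) (opB p (Mod h')) := by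
  constructor
  · rintro ⟨ψ⟩
    exact iso_restrict ψ
  · rintro ⟨φ, hA, hB⟩
    exact ⟨isoOf φ hA hB⟩

theorem kap_eq_Kap {τ : ℤ → K} (hτ : D.Ext p τ) (hN : (1 : ℕ∞) < D.N) :
    D.kap p = Kap p τ D.a := by
  have h0 : D.θ 0 = τ 0 := by
    have := hτ.2 0 (lt_of_le_of_lt bot_le hN)
    simpa using this
  have h1 : D.θ 1 = τ 1 := by
    have := hτ.2 1 (by exact_mod_cast hN)
    simpa using this
  have h2 : p.β * D.θ 0 + p.γs - D.θ 1 = τ (-1) := by
    have := hτ.1.recur 0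
    rw [zero_add, zero_sub] at this
    rw [h0, h1]
    linear_combination -this
  unfold Data.kap Kap
  rw [h2, h0, h1]

/-- a repeated value below the finite `N` -/
def Data.Rep (D : Data K) (n0 : ℕ) : Prop :=
  D.N = n0 ∧ ∃ i j : ℕ, i < j ∧ j < n0 ∧ D.θ i = D.θ j

theorem Data.II.rep (hd : D.II) : ∃ n0, D.Rep n0 := by
  obtain ⟨n, hn2, hN, hθ, -⟩ := hd
  exact ⟨n, hN, 0, 1, by omega, by omega, (hθ 1 (by omega)).symm⟩

theorem Data.III.rep (hd : D.III) : ∃ n0, D.Rep n0 := by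
  obtain ⟨k, hk, hN, hθ, -⟩ := hd
  exact ⟨2 * (k + 1), hN, k, k + 1, by omega, by omega, hθ⟩

theorem Data.IV.rep {d : ℕ} (hd : D.IV p d) : ∃ n0, D.Rep n0 := by
  obtain ⟨n0, τ, M, s, hN, h3, hτ, hw⟩ := hd.win
  obtain ⟨i, j, hij, hj, he⟩ := hw.exists_coinc h3
  refine ⟨n0, hN, i, j, hij, hj, ?_⟩
  rw [hτ.2 i (by rw [hN]; exact_mod_cast (by omega)), hτ.2 j (by rw [hN]; exact_mod_cast hj), he]

theorem Data.III.ne (hd : D.III) : ∃ n0 : ℕ, D.N = n0 ∧ ∃ i < n0, D.θ i ≠ D.θ 0 := by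
  obtain ⟨k, hk, hN, -, hd, -⟩ := hd
  exact ⟨2 * (k + 1), hN, 1, by omega, (hd 0 1 (by omega) hk).symm⟩

theorem Data.IV.ne {d : ℕ} (hd : D.IV p d) : ∃ n0 : ℕ, D.N = n0 ∧ ∃ i < n0, D.θ i ≠ D.θ 0 := by
  obtain ⟨n0, τ, M, s, hN, h3, hτ, hw⟩ := hd.win
  obtain ⟨i, hi, he⟩ := hw.exists_ne
  refine ⟨n0, hN, i, hi, ?_⟩
  rw [hτ.2 i (by rw [hN]; exact_mod_cast hi), hτ.2 0 (by rw [hN]; exact_mod_cast (by omega))]
  simpa using he

/-- distinct versus repeated -/
theorem no_dist (h : D.Ok p) (h' : D'.Ok p) (hd : D.Dist) (hr : ∃ n0, D'.Rep n0) :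
    ¬ Isom (opA p (Mod h)) (opB p (Mod h)) (opA p (Mod h')) (opB p (Mod h')) := by
  obtain ⟨n0, hN, i, j, hij, hj, he⟩ := hr
  exact not_isom_inj (Mod.pb h) ((Mod.pb h').castN hN) hd hij hj he

/-- scalar versus nonscalar -/
theorem no_II (h : D.Ok p) (h' : D'.Ok p) (hd : D.II)
    (hr : ∃ n0 : ℕ, D'.N = n0 ∧ ∃ i < n0, D'.θ i ≠ D'.θ 0) :
    ¬ Isom (opA p (Mod h)) (opB p (Mod h)) (opA p (Mod h')) (opB p (Mod h')) := by
  intro hi
  obtain ⟨n0, hN, i, hin, hne⟩ := hr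
  obtain ⟨n, hn2, hN', hθ, -⟩ := hd
  have hsp := spec_of_isom ((Mod.pb h').castN hN) ((Mod.pb h).castN hN') hi.symm
  obtain ⟨j, hj, hje⟩ := hsp i hin
  obtain ⟨l, hl, hle⟩ := hsp 0 (by omega)
  exact hne (by rw [← hje, ← hle, hθ j hj, hθ l hl])

theorem N_eq (h : D.Ok p) (h' : D'.Ok p) {n n' : ℕ} (hN : D.N = n) (hN' : D'.N = n')
    (hi : Isom (opA p (Mod h)) (opB p (Mod h)) (opA p (Mod h')) (opB p (Mod h'))) : n = n' := by
  obtain ⟨φ, hA, -⟩ := hi
  exact (pp_eq_of_iso ((Mod.pb h).castN hN) ((Mod.pb h').castN hN') φ hA).1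

theorem no_III_IV (h : D.Ok p) (h' : D'.Ok p) (hd : D.III) {d : ℕ} (hd' : D'.IV p d) :
    ¬ Isom (opA p (Mod h')) (opB p (Mod h')) (opA p (Mod h)) (opB p (Mod h)) := by
  intro hi
  have hN1 : (1 : ℕ∞) < D.N := by
    obtain ⟨k, hk, hN, -⟩ := hd
    rw [hN]; exact_mod_cast (by omega : 1 < 2 * (k + 1))
  obtain ⟨τ, hτ⟩ := h.exists_ext hN1
  obtain ⟨n0, k, hN, hc⟩ := hd.ciii hτ
  obtain ⟨n1, τ', M, s, hN', h3, hτ', hw⟩ := hd'.win
  have hn := N_eq h' h hN' hN hi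
  subst hn
  exact not_isom_III_IV hc hw ((h'.tsys hτ').castN hN') ((h.tsys hτ).castN hN)
    ((h'.pb' hτ').castN hN') ((h.pb' hτ).castN hN) hi

theorem iso_II_iff (h : D.Ok p) (h' : D'.Ok p) (hd : D.II) (hd' : D'.II)
    (hI : Irr (opA p (Mod h)) (opB p (Mod h))) (hI' : Irr (opA p (Mod h')) (opB p (Mod h'))) :
    Isom (opA p (Mod h)) (opB p (Mod h)) (opA p (Mod h')) (opB p (Mod h')) ↔
      (D.θ 0 = D'.θ 0 ∧ D.SameP D') := by
  obtain ⟨n, hn2, hN, hθ, -⟩ := hd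
  obtain ⟨n', hn2', hN', hθ', -⟩ := hd'
  constructor
  · intro hi
    have hn := N_eq h h' hN hN' hi
    subst hn
    have := (isom_II ((Mod.pb h).castN hN) ((Mod.pb h').castN hN') (op_aw1 p _) (op_aw1 p _) hI
      hI' (by omega) hθ hθ').1 hi
    refine ⟨this.1, by rw [hN, hN'], fun m hm => ?_⟩
    have : m = n := by rw [hN] at hm; exact_mod_cast hm.symm
    subst this
    exact this.2
  · rintro ⟨h0, h1, h2⟩
    have hn : n = n' := by rw [hN, hN'] at h1; exact_mod_cast h1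
    subst hn
    exact (isom_II ((Mod.pb h).castN hN) ((Mod.pb h').castN hN') (op_aw1 p _) (op_aw1 p _) hI
      hI' (by omega) hθ hθ').2 ⟨h0, h2 n hN⟩

theorem iso_III_iff (h : D.Ok p) (h' : D'.Ok p) (hd : D.III) (hd' : D'.III)
    (hI : Irr (opA p (Mod h)) (opB p (Mod h))) (hI' : Irr (opA p (Mod h')) (opB p (Mod h'))) :
    Isom (opA p (Mod h)) (opB p (Mod h)) (opA p (Mod h')) (opB p (Mod h')) ↔
      (D.N = D'.N ∧ D.θ 0 = D'.θ 0 ∧ D.θ 1 = D'.θ 1 ∧ D.a 0 = D'.a 0) := by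
  have hN1 : (1 : ℕ∞) < D.N := by
    obtain ⟨k, hk, hN, -⟩ := hd
    rw [hN]; exact_mod_cast (by omega : 1 < 2 * (k + 1))
  have hN1' : (1 : ℕ∞) < D'.N := by
    obtain ⟨k, hk, hN, -⟩ := hd'
    rw [hN]; exact_mod_cast (by omega : 1 < 2 * (k + 1))
  obtain ⟨τ, hτ⟩ := h.exists_ext hN1
  obtain ⟨τ', hτ'⟩ := h'.exists_ext hN1'
  obtain ⟨n, k, hN, hc⟩ := hd.ciii hτ
  obtain ⟨n', k', hN', hc'⟩ := hd'.ciii hτ'
  have e0 : D.θ 0 = τ 0 := by simpa using hτ.2 0 (lt_of_le_of_lt bot_le hN1)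
  have e1 : D.θ 1 = τ 1 := by simpa using hτ.2 1 (by exact_mod_cast hN1)
  have e0' : D'.θ 0 = τ' 0 := by simpa using hτ'.2 0 (lt_of_le_of_lt bot_le hN1')
  have e1' : D'.θ 1 = τ' 1 := by simpa using hτ'.2 1 (by exact_mod_cast hN1')
  have key : n = n' → (Isom (opA p (Mod h)) (opB p (Mod h)) (opA p (Mod h')) (opB p (Mod h')) ↔
      (τ 0 = τ' 0 ∧ τ 1 = τ' 1 ∧ D.a 0 = D'.a 0)) := by
    intro hn
    subst hn
    have hk : k' = k := by
      have h1 := hc.hn
      have h2 := hc'.hn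
      omega
    subst hk
    exact isom_III hc hc' ((h.tsys hτ).castN hN) ((h'.tsys hτ').castN hN') ((h.pb' hτ).castN hN)
      ((h'.pb' hτ').castN hN') (op_aw1 p _) (op_aw1 p _) hI hI'
  rw [e0, e1, e0', e1']
  constructor
  · intro hi
    have hn := N_eq h h' hN hN' hi
    exact ⟨by rw [hN, hN', hn], (key hn).1 hi⟩
  · rintro ⟨h1, h2⟩
    have hn : n = n' := by rw [hN, hN'] at h1; exact_mod_cast h1
    exact (key hn).2 h2

theorem spec_eq_iff {n : ℕ} {τ τ' : ℤ → K} (hN : D.N = n) (hN' : D'.N = n)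
    (hτ : D.Ext p τ) (hτ' : D'.Ext p τ') :
    D.spec = D'.spec ↔ ((∀ i < n, ∃ j < n, τ' j = τ i) ∧ (∀ j < n, ∃ i < n, τ i = τ' j)) := by
  have e : ∀ i : ℕ, i < n → D.θ i = τ i := fun i hi => hτ.2 i (by rw [hN]; exact_mod_cast hi)
  have e' : ∀ i : ℕ, i < n → D'.θ i = τ' i := fun i hi =>
    hτ'.2 i (by rw [hN']; exact_mod_cast hi)
  constructor
  · intro hs
    constructor
    · intro i hi
      have : τ i ∈ D.spec := ⟨i, by rw [hN]; exact_mod_cast hi, e i hi⟩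
      rw [hs] at this
      obtain ⟨j, hj, hje⟩ := this
      have hj' : j < n := by rw [hN'] at hj; exact_mod_cast hj
      exact ⟨j, hj', by rw [← e' j hj', hje]⟩
    · intro i hi
      have : τ' i ∈ D'.spec := ⟨i, by rw [hN']; exact_mod_cast hi, e' i hi⟩
      rw [← hs] at this
      obtain ⟨j, hj, hje⟩ := this
      have hj' : j < n := by rw [hN] at hj; exact_mod_cast hj
      exact ⟨j, hj', by rw [← e j hj', hje]⟩
  · rintro ⟨h1, h2⟩
    apply Set.Subset.antisymm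
    · rintro y ⟨i, hi, rfl⟩
      have hi' : i < n := by rw [hN] at hi; exact_mod_cast hi
      obtain ⟨j, hj, hje⟩ := h1 i hi'
      exact ⟨j, by rw [hN']; exact_mod_cast hj, by rw [e' j hj, hje, e i hi']⟩
    · rintro y ⟨i, hi, rfl⟩
      have hi' : i < n := by rw [hN'] at hi; exact_mod_cast hi
      obtain ⟨j, hj, hje⟩ := h2 i hi'
      exact ⟨j, by rw [hN]; exact_mod_cast hj, by rw [e j hj, hje, e' i hi']⟩

theorem iso_IV_iff (h : D.Ok p) (h' : D'.Ok p) {d d' : ℕ} (hd : D.IV p d) (hd' : D'.IV p d')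
    (hI : Irr (opA p (Mod h)) (opB p (Mod h))) (hI' : Irr (opA p (Mod h')) (opB p (Mod h'))) :
    Isom (opA p (Mod h)) (opB p (Mod h)) (opA p (Mod h')) (opB p (Mod h')) ↔
      (D.spec = D'.spec ∧ D.kap p = D'.kap p ∧ D.SameP D') := by
  obtain ⟨n, τ, M, s, hN, h3, hτ, hw⟩ := hd.win
  obtain ⟨n', τ', M', s', hN', h3', hτ', hw'⟩ := hd'.win
  have k1 := kap_eq_Kap hτ (by rw [hN]; exact_mod_cast (by omega : 1 < n))
  have k2 := kap_eq_Kap hτ' (by rw [hN']; exact_mod_cast (by omega : 1 < n'))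
  have key : n = n' → (Isom (opA p (Mod h)) (opB p (Mod h)) (opA p (Mod h')) (opB p (Mod h')) ↔
      (D.spec = D'.spec ∧ D.kap p = D'.kap p ∧ PP D.a D.x n = PP D'.a D'.x n)) := by
    intro hn
    subst hn
    rw [isom_IV hw hw' ((h.tsys hτ).castN hN) ((h'.tsys hτ').castN hN') ((h.pb' hτ).castN hN)
      ((h'.pb' hτ').castN hN') (op_aw1 p _) (op_aw1 p _) hI hI', spec_eq_iff hN hN' hτ hτ', k1, k2,
      and_assoc]
  constructor
  · intro hi
    have hn := N_eq h h' hN hN' hi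
    obtain ⟨h1, h2, h4⟩ := (key hn).1 hi
    refine ⟨h1, h2, by rw [hN, hN', hn], fun m hm => ?_⟩
    have : m = n := by rw [hN] at hm; exact_mod_cast hm.symm
    subst this
    exact h4
  · rintro ⟨h1, h2, h4, h5⟩
    have hn : n = n' := by rw [hN, hN'] at h4; exact_mod_cast h4
    exact (key hn).2 ⟨h1, h2, h5 n hN⟩

/-- the isomorphism criterion -/
theorem iso_iff_eqv (h : D.Ok p) (h' : D'.Ok p) (hs : IsSimpleModule (AWAlg p) (Mod h))
    (hs' : IsSimpleModule (AWAlg p) (Mod h')) :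
    Nonempty (Mod h ≃ₗ[AWAlg p] Mod h') ↔ D.Eqv D' p := by
  have hI := simple_iff.1 hs
  have hI' := simple_iff.1 hs'
  have ht := (simple_iff_types h).1 hs
  have ht' := (simple_iff_types h').1 hs'
  constructor
  · intro hψ
    have hi := (nonempty_iff h h').1 hψ
    rcases ht with hd | hd | hd | ⟨d, hd⟩
    · rcases ht' with hd' | hd' | hd' | ⟨d', hd'⟩
      · exact Or.inl ⟨hd, hd', (iso_iff h h' hd hd').1 hψ⟩
      · exact absurd hi (no_dist h h' hd hd'.rep)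
      · exact absurd hi (no_dist h h' hd hd'.rep)
      · exact absurd hi (no_dist h h' hd hd'.rep)
    · rcases ht' with hd' | hd' | hd' | ⟨d', hd'⟩
      · exact absurd hi.symm (no_dist h' h hd' hd.rep)
      · exact Or.inr (Or.inl ⟨hd, hd', (iso_II_iff h h' hd hd' hI hI').1 hi⟩)
      · exact absurd hi (no_II h h' hd hd'.ne)
      · exact absurd hi (no_II h h' hd hd'.ne)
    · rcases ht' with hd' | hd' | hd' | ⟨d', hd'⟩
      · exact absurd hi.symm (no_dist h' h hd' hd.rep)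
      · exact absurd hi.symm (no_II h' h hd' hd.ne)
      · exact Or.inr (Or.inr (Or.inl ⟨hd, hd', (iso_III_iff h h' hd hd' hI hI').1 hi⟩))
      · exact absurd hi.symm (no_III_IV h h' hd hd')
    · rcases ht' with hd' | hd' | hd' | ⟨d', hd'⟩
      · exact absurd hi.symm (no_dist h' h hd' hd.rep)
      · exact absurd hi.symm (no_II h' h hd' hd.ne)
      · exact absurd hi (no_III_IV h' h hd' hd)
      · exact Or.inr (Or.inr (Or.inr ⟨⟨d, hd⟩, ⟨d', hd'⟩,
          (iso_IV_iff h h' hd hd' hI hI').1 hi⟩))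
  · rintro (⟨hd, hd', he⟩ | ⟨hd, hd', he⟩ | ⟨hd, hd', he⟩ | ⟨⟨d, hd⟩, ⟨d', hd'⟩, he⟩)
    · exact (iso_iff h h' hd hd').2 he
    · exact (nonempty_iff h h').2 ((iso_II_iff h h' hd hd' hI hI').2 he)
    · exact (nonempty_iff h h').2 ((iso_III_iff h h' hd hd' hI hI').2 he)
    · exact (nonempty_iff h h').2 ((iso_IV_iff h h' hd hd' hI hI').2 he)

/-- over an algebraically closed field only the types I and IV with `d = 1` occur -/
theorem types_closed [IsAlgClosed K] :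
    (D.Dist ∨ D.II ∨ D.III ∨ ∃ d, D.IV p d) ↔ (D.Dist ∨ D.IV p 1) := by
  constructor
  · rintro (hd | hd | hd | ⟨d, hd⟩)
    · exact Or.inl hd
    · exfalso
      obtain ⟨n, hn2, -, -, hirr⟩ := hd
      have h1 := IsAlgClosed.degree_eq_one_of_irreducible K hirr
      rw [degree_eq_natDegree hirr.ne_zero, (PP_monic D.a D.x n).2] at h1
      have : n = 1 := by exact_mod_cast h1
      omega
    · exfalso
      obtain ⟨k, -, -, -, -, -, hr⟩ := hd
      have hm : ((X - C (D.a k)) * (X - C (D.a (k + 1)))).Monic :=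
        (monic_X_sub_C _).mul (monic_X_sub_C _)
      have hdeg : ((X - C (D.a k)) * (X - C (D.a (k + 1))) - C (D.x (k + 1))).natDegree = 2 := by
        rw [natDegree_sub_C, (monic_X_sub_C _).natDegree_mul (monic_X_sub_C _),
          natDegree_X_sub_C, natDegree_X_sub_C]
      obtain ⟨r, hr0⟩ := IsAlgClosed.exists_root
        ((X - C (D.a k)) * (X - C (D.a (k + 1))) - C (D.x (k + 1))) (by
          intro h0
          have h1 := natDegree_eq_of_degree_eq_some h0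
          rw [hdeg] at h1
          exact absurd h1 (by norm_num))
      apply hr r
      simp only [IsRoot.def, eval_sub, eval_mul, eval_X, eval_C] at hr0
      exact sub_eq_zero.1 hr0
    · right
      have hd0 := hd
      obtain ⟨τ, M, s, hτ, hN, h3, h2, hM, hs, hs', hf⟩ := hd
      rcases hf with rfl | ⟨f, hf, hfm, hfd, hP⟩
      · exact hd0
      · have h1 := IsAlgClosed.degree_eq_one_of_irreducible K hf
        rw [degree_eq_natDegree hf.ne_zero, hfd] at h1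
        have : d = 1 := by exact_mod_cast h1
        rw [← this]
        exact hd0
  · rintro (hd | hd)
    · exact Or.inl hd
    · exact Or.inr (Or.inr (Or.inr ⟨1, hd⟩))

end Pool.Agent.TH10.AW
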