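import Pool.Agent.TH10.AW.Kappa

/-! Coincidences of eigenvalues: combinatorics of the window. -/

set_option autoImplicit false
set_option linter.unusedSectionVars false

namespace Pool.Agent.TH10.AW

variable {K : Type*} [Field K] {p : Scal K}
variable {N : ℕ∞} {a x : ℕ → K} {τ : ℤ → K}

theorem exists_minPer {k : ℕ} (hk : 0 < k) (h : Per τ k) : ∃ M : ℕ, MinPer τ M := by
  classical
  have hex : ∃ k : ℕ, 0 < k ∧ Per τ k := ⟨k, hk, h⟩
  refine ⟨Nat.find hex, (Nat.find_spec hex).1, (Nat.find_spec hex).2, ?_⟩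
  intro j hj
  have hpos := (Nat.find_spec hex).1
  have hM := (Nat.find_spec hex).2
  generalize hMdef : Nat.find hex = M at hpos hM
  have hMpos : (0 : ℤ) < M := by exact_mod_cast hpos
  have hr : Per τ (j % M) := by
    have h1 := hj.add (hM.zsmul (-(j / M)))
    rwa [show j + -(j / M) * M = j % M by
      have := Int.emod_add_mul_ediv j M
      linarith] at h1
  have h0 : 0 ≤ j % M := Int.emod_nonneg _ hMpos.ne'
  have hlt : j % M < M := Int.emod_lt_of_pos _ hMpos
  obtain ⟨r, hr0⟩ := Int.eq_ofNat_of_zero_le h0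
  rw [hr0] at hr hlt
  have : r = 0 := by
    by_contra hne
    have := Nat.find_min' hex ⟨Nat.pos_of_ne_zero hne, hr⟩
    rw [hMdef] at this
    omega
  rw [this] at hr0
  exact Int.dvd_of_emod_eq_zero (by simpa using hr0)

theorem MinPer.cen_dvd {M : ℕ} (hM : MinPer τ M) {s c : ℤ} (hs : Cen τ s) (hc : Cen τ c) :
    (M : ℤ) ∣ c - s := hM.dvd _ (hs.per hc)

/-- coincidences when there is a centre `s` and a least period `M` -/
theorem MinPer.coinc {M : ℕ} (hM : MinPer τ M) (h : IsTau p τ) {s i j : ℤ} (hs : Cen τ s)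
    (hij : τ i = τ j) : (M : ℤ) ∣ j - i ∨ (M : ℤ) ∣ i + j - s := by
  rcases h.cen_or_per hij with h1 | h1
  · exact Or.inr (hM.cen_dvd hs h1)
  · exact Or.inl (hM.dvd _ h1)

theorem MinPer.coinc_iff {M : ℕ} (hM : MinPer τ M) (h : IsTau p τ) {s i j : ℤ} (hs : Cen τ s) :
    τ i = τ j ↔ ((M : ℤ) ∣ j - i ∨ (M : ℤ) ∣ i + j - s) := by
  refine ⟨hM.coinc h hs, ?_⟩
  rintro (⟨k, hk⟩ | ⟨k, hk⟩)
  · have := hM.per.zsmul k
    exact (this.at (by linarith)).symm
  · have := hs.add (hM.per.zsmul k)
    exact this.at (by linarith)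

namespace TSys

/-- the end edge, reflected into the window, gives a centre near its mirror image -/
theorem end_centre (h : TSys p N τ a x) {n0 : ℕ} (hN : N = n0) {c : ℤ} (hc : Cen τ c) {n : ℕ}
    (hn0 : 0 < n) (hn : n < n0) (hcn : (n : ℤ) = c - n0 + 1) :
    Cen τ (2 * n) ∨ Cen τ (2 * n - 1) ∨ Cen τ (2 * n - 2) := by
  subst hN
  have e1 : τ (n0 - 1) = τ n := hc.at (by rw [hcn]; ring)
  have e2 : τ n0 = τ (n - 1) := hc.at (by rw [hcn]; ring)
  by_cases hcor : τ (n - 1) = τ n
  · right; left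
    have := h.tau.cen_corner (n := (n : ℤ) - 1) (by rw [hcor]; congr 1; ring)
    rwa [show 2 * ((n : ℤ) - 1) + 1 = 2 * n - 1 by ring] at this
  · have et := h.t_eq (m := n) (n := n0) (by exact_mod_cast hn.le) le_rfl hcor
      (Or.inr ⟨e1, e2⟩)
    have t0 : t τ x n0 = 0 := by
      unfold t; rw [h.xN n0 le_rfl, mul_zero]
    rw [t0] at et
    unfold t at et
    have hx := h.xne n hn0 (by exact_mod_cast hn)
    rcases mul_eq_zero.1 et.symm with e | e
    · rcases mul_eq_zero.1 e with e | e
      · left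
        exact h.tau.cen_mirror (sub_eq_zero.1 e).symm
      · right; right
        have := h.tau.cen_mirror (n := (n : ℤ) - 1) (by
          rw [show (n : ℤ) - 1 - 1 = n - 2 by ring, show (n : ℤ) - 1 + 1 = n by ring]
          exact (sub_eq_zero.1 e).symm)
        rwa [show 2 * ((n : ℤ) - 1) = 2 * n - 2 by ring] at this
    · exact absurd e hx

/-- the start is not at a centre -/
def Reg (τ : ℤ → K) : Prop := ¬ Cen τ 0 ∧ ¬ Cen τ (-1) ∧ ¬ Cen τ (-2)

theorem Reg.ne (h : IsTau p τ) (hr : Reg τ) : τ (-1) ≠ τ 0 ∧ τ (-1) ≠ τ 1 ∧ τ (-2) ≠ τ 0 := by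
  obtain ⟨s0, s1, s2⟩ := hr
  refine ⟨?_, ?_, ?_⟩
  · intro h0
    exact s1 (h.cen_of (i := -1) (j := 0) (by ring) h0 (by norm_num; exact h0.symm))
  · intro h0
    exact s0 (by simpa using h.cen_mirror (n := 0) (by simpa using h0))
  · intro h0
    exact s2 (by simpa using h.cen_mirror (n := -1) (by norm_num; exact h0))

/-- regular start: all coincidences are symmetric about the middle of the window -/
theorem reg_sym (h : TSys p N τ a x) {n0 : ℕ} (hN : N = n0) (hr : Reg τ) {i j : ℕ} (hij : i < j)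
    (hj : j < n0) (he : τ i = τ j) : i + j + 1 = n0 ∧ Cen τ ((n0 : ℤ) - 1) := by
  obtain ⟨r1, r2, r3⟩ := Reg.ne h.tau hr
  have rc : ∀ c : ℕ, Cen τ c → n0 ≤ c + 1 := by
    intro c hc
    have := h.reg_cen r1 r2 r3 hc
    rw [hN] at this
    exact_mod_cast this
  have rp : ∀ M : ℕ, 0 < M → Per τ M → n0 ≤ M := by
    intro M hM0 hM
    have := h.reg_per r1 r2 r3 hM0 hM
    rw [hN] at this
    exact_mod_cast this
  rcases h.tau.cen_or_per he with hc | hc
  · have h1 := rc (i + j) (by push_cast; exact hc)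
    by_cases h2 : i + j + 1 = n0
    · refine ⟨h2, ?_⟩
      have : ((n0 : ℤ) - 1) = i + j := by omega
      rw [this]; exact hc
    · exfalso
      obtain ⟨n, hn⟩ : ∃ n : ℕ, (n : ℤ) = (i + j : ℤ) - n0 + 1 := ⟨i + j + 1 - n0, by omega⟩
      have key : ∀ c' : ℕ, Cen τ c' → 2 * n - 2 ≤ c' → c' ≤ 2 * n → False := by
        intro c' hc' hc1 hc2
        have h3 : Per τ ((i + j - c' : ℕ) : ℤ) := by
          have := hc'.per hc
          rwa [show (i : ℤ) + j - c' = ((i + j - c' : ℕ) : ℤ) by omega] at this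
        have h4 := rp _ (by omega) h3
        have h5 : c' = 0 := by omega
        subst h5
        exact hr.1 (by simpa using hc')
      rcases h.end_centre hN hc (n := n) (by omega) (by omega) hn with h3 | h3 | h3
      · exact key (2 * n) (by push_cast; exact h3) (by omega) le_rfl
      · exact key (2 * n - 1) (by
          rw [show ((2 * n - 1 : ℕ) : ℤ) = 2 * n - 1 by omega]; exact h3) (by omega) (by omega)
      · exact key (2 * n - 2) (by
          rw [show ((2 * n - 2 : ℕ) : ℤ) = 2 * n - 2 by omega]; exact h3) (by omega) (by omega)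
  · exfalso
    have := rp (j - i) (by omega) (by rw [Nat.cast_sub hij.le]; exact hc)
    omega

/-- special start, window at most one period -/
theorem spec_small (h : TSys p N τ a x) {n0 : ℕ} (hN : N = n0) {M : ℕ} (hM : MinPer τ M)
    {s : ℤ} (hs : Cen τ s) (hs' : s = 0 ∨ s = -1 ∨ s = -2) (hNM : n0 ≤ M) {i j : ℕ} (hij : i < j)
    (hj : j < n0) (he : τ i = τ j) :
    n0 = M ∨ (s = -2 ∧ n0 + 1 = M ∧ ∀ i j : ℕ, i < j → j < n0 → τ i = τ j → i + j + 1 = n0) := by
  have uniq : ∀ i j : ℕ, i < j → j < n0 → τ i = τ j → (i : ℤ) + j - s = M := by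
    intro i j hij hj he
    rcases hM.coinc h.tau hs he with hd | hd
    · obtain ⟨k, hk⟩ := hd
      exfalso
      have h1 : 0 < (M : ℤ) * k := by omega
      have hMp : (0 : ℤ) < M := by exact_mod_cast hM.pos
      have h2 : 0 < k := by
        by_contra hcon
        nlinarith
      nlinarith
    · obtain ⟨k, hk⟩ := hd
      have hMp : (0 : ℤ) < M := by exact_mod_cast hM.pos
      have h1 : 0 < (M : ℤ) * k := by omega
      have h2 : 0 < k := by
        by_contra hcon
        nlinarith
      have h3 : k < 2 := by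
        by_contra hcon
        have h2k : (2 : ℤ) ≤ k := by omega
        have h4 : (M : ℤ) * 2 ≤ M * k := mul_le_mul_of_nonneg_left h2k hMp.le
        omega
      have : k = 1 := by omega
      rw [this] at hk
      linarith
  have hc := uniq i j hij hj he
  have hcen : Cen τ ((i : ℤ) + j) := by
    have := hs.add hM.per
    rwa [show s + (M : ℤ) = i + j by linarith] at this
  by_cases hle : i + j + 1 ≤ n0
  · rcases hs' with rfl | rfl | rfl
    · omega
    · left; omega
    · by_cases h1 : n0 = M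
      · exact Or.inl h1
      · right
        refine ⟨rfl, by omega, ?_⟩
        intro i' j' hij' hj' he'
        have := uniq i' j' hij' hj' he'
        omega
  · left
    obtain ⟨n, hn⟩ : ∃ n : ℕ, (n : ℤ) = (i + j : ℤ) - n0 + 1 := ⟨i + j + 1 - n0, by omega⟩
    have key : ∀ c' : ℤ, Cen τ c' → 2 * (n : ℤ) - 2 ≤ c' → c' ≤ 2 * n → n0 = M := by
      intro c' hc' hc1 hc2
      obtain ⟨k, hk⟩ := hM.cen_dvd hs hc'
      have hMp : (0 : ℤ) < M := by exact_mod_cast hM.pos
      have h1 : 0 ≤ (M : ℤ) * k := by omega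
      have h2 : (M : ℤ) * k < M := by omega
      have h3 : 0 ≤ k := by
        by_contra hcon
        nlinarith
      have h4 : k < 1 := by
        by_contra hcon
        nlinarith
      have h5 : k = 0 := by omega
      rw [h5] at hk
      omega
    rcases h.end_centre hN hcen (n := n) (by omega) (by omega) hn with h3 | h3 | h3
    · exact key _ h3 (by omega) le_rfl
    · exact key _ h3 (by omega) (by omega)
    · exact key _ h3 (by omega) (by omega)

end TSys

end Pool.Agent.TH10.AW
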