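import Pool.Agent.TH10.AW.Defs

set_option autoImplicit false

namespace Pool.Agent.TH10.AW

variable {K : Type*} [Field K] {p : Scal K}
variable {V : Type*} [AddCommGroup V] [Module K V]
variable {A B : Module.End K V} {N : ℕ∞} {v : ℕ → V} {θ a x : ℕ → K}

/-- the coordinate functional of index `m < N` -/
theorem PB.exists_coord (h : PB A B N v θ a x) {m : ℕ} (hm : (m : ℕ∞) < N) :
    ∃ f : V →ₗ[K] K, ∀ i, f (v i) = if i = m then 1 else 0 := by
  classical
  have hsp : ⊤ ≤ Submodule.span K (Set.range (fun i : {i : ℕ // (i : ℕ∞) < N} => v i)) := by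
    rw [← h.sp, Submodule.span_le]
    rintro _ ⟨i, rfl⟩
    by_cases hi : (i : ℕ∞) < N
    · exact Submodule.subset_span ⟨⟨i, hi⟩, rfl⟩
    · rw [h.zero i (not_lt.1 hi)]
      exact Submodule.zero_mem _
  let b := Module.Basis.mk h.li hsp
  refine ⟨b.coord ⟨m, hm⟩, fun i => ?_⟩
  by_cases hi : (i : ℕ∞) < N
  · have : v i = b ⟨i, hi⟩ := by simp [b]
    rw [this, Module.Basis.coord_apply, Module.Basis.repr_self, Finsupp.single_apply]
    simp
  · rw [h.zero i (not_lt.1 hi), map_zero]
    have : i ≠ m := fun he => hi (he ▸ hm)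
    simp [this]

theorem lt_of_add {N : ℕ∞} {m n : ℕ} (h : ((n + m : ℕ) : ℕ∞) < N) : (n : ℕ∞) < N :=
  lt_of_le_of_lt (by exact_mod_cast Nat.le_add_right n m) h

theorem sys_of_aw (h : PB A B N v θ a x) (h1 : AW1 p A B) (h2 : AW2 p A B) :
    Sys p N θ a x := by
  have e1 : ∀ (f : V →ₗ[K] K) (n : ℕ),
      f (A (A (B (v n)))) - p.β * f (A (B (A (v n)))) + f (B (A (A (v n))))
        - p.γ * (f (A (B (v n))) + f (B (A (v n)))) - p.ρ * f (B (v n)) =
      p.γs * f (A (A (v n))) + p.ω * f (A (v n)) + p.η * f (v n) := by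
    intro f n
    have := congrArg (fun T : Module.End K V => f (T (v n))) h1
    simpa only [LinearMap.sub_apply, LinearMap.add_apply, LinearMap.smul_apply,
      Module.End.mul_apply, Module.End.one_apply, map_sub, map_add, map_smul, smul_eq_mul] using this
  have e2 : ∀ (f : V →ₗ[K] K) (n : ℕ),
      f (B (B (A (v n)))) - p.β * f (B (A (B (v n)))) + f (A (B (B (v n))))
        - p.γs * (f (B (A (v n))) + f (A (B (v n)))) - p.ρs * f (A (v n)) =
      p.γ * f (B (B (v n))) + p.ω * f (B (v n)) + p.ηs * f (v n) := by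
    intro f n
    have := congrArg (fun T : Module.End K V => f (T (v n))) h2
    simpa only [LinearMap.sub_apply, LinearMap.add_apply, LinearMap.smul_apply,
      Module.End.mul_apply, Module.End.one_apply, map_sub, map_add, map_smul, smul_eq_mul] using this
  constructor
  · intro n hn
    obtain ⟨f, hf⟩ := h.exists_coord hn
    have := e1 f n
    rcases n with _ | n
    · simp only [h.hA, h.hB, map_add, map_smul, smul_eq_mul, hf, h.x0] at this
      norm_num at this
      linear_combination this
    · simp only [h.hA, h.hB, map_add, map_smul, smul_eq_mul, hf, Nat.add_sub_cancel] at this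
      split_ifs at this <;> first | (exfalso; omega) | linear_combination this
  · intro n hn
    obtain ⟨f, hf⟩ := h.exists_coord hn
    have := e2 f n
    simp only [h.hA, h.hB, map_add, map_smul, smul_eq_mul, hf] at this
    have h0 : n - 1 ≠ n + 1 := by omega
    simp only [if_neg h0, if_true, if_neg (show n ≠ n + 1 by omega)] at this
    unfold Scal.P
    linear_combination this
  · intro n hn
    obtain ⟨f, hf⟩ := h.exists_coord hn
    have := e2 f n
    rcases n with _ | n
    · simp only [h.hA, h.hB, map_add, map_smul, smul_eq_mul, hf, h.x0] at this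
      norm_num at this
      unfold Scal.P Scal.u
      linear_combination this
    · simp only [h.hA, h.hB, map_add, map_smul, smul_eq_mul, hf, Nat.add_sub_cancel] at this
      unfold Scal.P Scal.u
      split_ifs at this <;> first | (exfalso; omega) | linear_combination this
  · intro n hn
    obtain ⟨f, hf⟩ := h.exists_coord hn
    have := e1 f n
    rcases n with _ | n
    · simp only [h.hA, h.hB, map_add, map_smul, smul_eq_mul, hf, h.x0] at this
      norm_num at this
      linear_combination this
    · simp only [h.hA, h.hB, map_add, map_smul, smul_eq_mul, hf, Nat.add_sub_cancel] at this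
      split_ifs at this <;> first | (exfalso; omega) | linear_combination this
  · intro n hn
    obtain ⟨f, hf⟩ := h.exists_coord hn
    have := e1 f n
    rcases n with _ | n
    · simp only [h.hA, h.hB, map_add, map_smul, smul_eq_mul, hf, h.x0] at this
      norm_num at this
      simp only [h.x0]
      linear_combination this
    · simp only [h.hA, h.hB, map_add, map_smul, smul_eq_mul, hf, Nat.add_sub_cancel] at this
      simp only [Nat.add_sub_cancel]
      split_ifs at this <;> first | (exfalso; omega) | linear_combination this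


theorem ext_on_v (h : PB A B N v θ a x) (T T' : Module.End K V)
    (hT : ∀ n : ℕ, (n : ℕ∞) < N → T (v n) = T' (v n)) : T = T' := by
  apply LinearMap.ext_on_range h.sp
  intro n
  by_cases hn : (n : ℕ∞) < N
  · exact hT n hn
  · rw [h.zero n (not_lt.1 hn), map_zero, map_zero]

theorem aw_of_sys (h : PB A B N v θ a x) (hs : Sys p N θ a x) : AW1 p A B ∧ AW2 p A B := by
  have hz : ∀ (m : ℕ) (c : K), ((m : ℕ∞) < N → c = 0) → c • v m = 0 := by
    intro m c hc
    by_cases hm : (m : ℕ∞) < N
    · rw [hc hm, zero_smul]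
    · rw [h.zero m (not_lt.1 hm), smul_zero]
  have c2 : ∀ n : ℕ, (θ n - p.β * θ (n + 1) + θ (n + 2) - p.γs) • v (n + 2) = 0 := fun n =>
    hz _ _ fun hn => by rw [hs.s1 n hn]; ring
  have c1 : ∀ n : ℕ, ((θ n + θ (n + 1)) * (a n + a (n + 1))
      - p.β * (a n * θ n + a (n + 1) * θ (n + 1))
      - p.γ * (θ n + θ (n + 1)) - (p.γs * (a n + a (n + 1)) + p.ω)) • v (n + 1) = 0 := fun n =>
    hz _ _ fun hn => by rw [hs.s4 n hn]; ring
  have c1' : ∀ n : ℕ, (x (n + 1) * ((θ n + θ (n + 1)) * (a n + a (n + 1))
      - p.β * (a n * θ n + a (n + 1) * θ (n + 1))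
      - p.γ * (θ n + θ (n + 1)) - (p.γs * (a n + a (n + 1)) + p.ω))) • v n = 0 := by
    intro n
    by_cases hn : ((n + 1 : ℕ) : ℕ∞) < N
    · rw [hs.s4 n hn]; simp
    · rw [h.xN (n + 1) (not_lt.1 hn)]; simp
  have c2' : ∀ n : ℕ, (x (n + 2) * x (n + 1) * (θ n - p.β * θ (n + 1) + θ (n + 2) - p.γs)) •
      v n = 0 := by
    intro n
    by_cases hn : ((n + 2 : ℕ) : ℕ∞) < N
    · rw [hs.s1 n hn]
      have : θ n - p.β * θ (n + 1) + (p.β * θ (n + 1) - θ n + p.γs) - p.γs = 0 := by ring
      rw [this]; simp
    · rw [h.xN (n + 2) (not_lt.1 hn)]; simp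
  have c0 : ∀ n : ℕ, ((2 * θ n - p.γs) * (x n + a n ^ 2 + x (n + 1))
      - p.β * (θ (n - 1) * x n + θ n * a n ^ 2 + θ (n + 1) * x (n + 1))
      - 2 * p.γ * a n * θ n - p.ρ * θ n - (p.ω * a n + p.η)) • v n = 0 := fun n =>
    hz _ _ fun hn => by rw [hs.s5 n hn]; ring
  have d1 : ∀ n : ℕ, (p.P (θ n) (θ (n + 1))) • v (n + 1) = 0 := fun n =>
    hz _ _ fun hn => hs.s2 n hn
  have d1' : ∀ n : ℕ, (x (n + 1) * p.P (θ n) (θ (n + 1))) • v n = 0 := by
    intro n
    by_cases hn : ((n + 1 : ℕ) : ℕ∞) < N
    · rw [hs.s2 n hn]; simp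
    · rw [h.xN (n + 1) (not_lt.1 hn)]; simp
  have d0 : ∀ n : ℕ, (p.P (θ n) (θ n) * a n - p.u (θ n)) • v n = 0 := fun n =>
    hz _ _ fun hn => by rw [hs.s3 n hn]; ring
  constructor
  · refine ext_on_v h _ _ fun n _ => ?_
    rw [← sub_eq_zero]
    simp only [LinearMap.sub_apply, LinearMap.add_apply, LinearMap.smul_apply,
      Module.End.mul_apply, Module.End.one_apply, h.hA, h.hB, map_add, map_smul]
    rcases n with _ | _ | n
    · have e2 := c2 0
      have e1 := c1 0
      have e0 := c0 0
      have e0' := c1' 0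
      simp only [h.x0, zero_add, Nat.zero_sub] at *
      linear_combination (norm := module) e2 + e1 + e0
    · have e2 := c2 1
      have e1 := c1 1
      have e0 := c0 1
      have e0' := c1' 0
      simp only [h.x0, zero_add, Nat.sub_self, Nat.add_sub_cancel] at *
      linear_combination (norm := module) e2 + e1 + e0 + e0'
    · have e2 := c2 (n + 2)
      have e1 := c1 (n + 2)
      have e0 := c0 (n + 2)
      have e0' := c1' (n + 1)
      have e0'' := c2' n
      simp only [Nat.add_sub_cancel, show n + 1 + 1 = n + 2 by rfl,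
        show n + 2 - 1 = n + 1 by rfl] at *
      linear_combination (norm := module) e2 + e1 + e0 + e0' + e0''
  · refine ext_on_v h _ _ fun n _ => ?_
    rw [← sub_eq_zero]
    simp only [LinearMap.sub_apply, LinearMap.add_apply, LinearMap.smul_apply,
      Module.End.mul_apply, Module.End.one_apply, h.hA, h.hB, map_add, map_smul]
    rcases n with _ | n
    · have e1 := d1 0
      have e0 := d0 0
      simp only [h.x0, zero_add, Nat.zero_sub, Scal.P, Scal.u] at *
      linear_combination (norm := module) e1 + e0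
    · have e1 := d1 (n + 1)
      have e0 := d0 (n + 1)
      have e0' := d1' n
      simp only [Nat.add_sub_cancel, Scal.P, Scal.u] at *
      linear_combination (norm := module) e1 + e0 + e0'

end Pool.Agent.TH10.AW
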