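import Pool.Agent.TH10.AW.Irr

/-! Isomorphisms when the eigenvalues of `B` are distinct, and reversal of a basis. -/

set_option autoImplicit false

namespace Pool.Agent.TH10.AW

variable {K : Type*} [Field K] {p : Scal K}
variable {V : Type*} [AddCommGroup V] [Module K V]
variable {V' : Type*} [AddCommGroup V'] [Module K V']
variable {A B : Module.End K V} {N : ℕ∞} {v : ℕ → V} {θ a x : ℕ → K}
variable {A' B' : Module.End K V'} {N' : ℕ∞} {v' : ℕ → V'} {θ' a' x' : ℕ → K}

/-- `θ` takes distinct values below `N` -/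
def Inj (N : ℕ∞) (θ : ℕ → K) : Prop :=
  ∀ i j : ℕ, (i : ℕ∞) < N → (j : ℕ∞) < N → θ i = θ j → i = j

/-- an eigenvector of `B`, distinct case -/
theorem PB.eig_of_inj (h : PB A B N v θ a x) (hinj : Inj N θ) {w : V} {m : K} (hw0 : w ≠ 0)
    (hw : B w = m • w) : ∃ k : ℕ, (k : ℕ∞) < N ∧ θ k = m ∧ ∃ c : K, c ≠ 0 ∧ w = c • v k := by
  classical
  have h1 : ∀ i : {i : ℕ // (i : ℕ∞) < N}, h.basis.repr w i ≠ 0 → θ i = m := by
    intro i hi
    have := h.repr_B w i
    rw [hw, map_smul, Finsupp.smul_apply, smul_eq_mul] at this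
    exact (mul_right_cancel₀ hi this).symm
  have hne : (h.basis.repr w).support.Nonempty := by
    rw [Finsupp.support_nonempty_iff]
    simpa using hw0
  obtain ⟨k, hk⟩ := hne
  rw [Finsupp.mem_support_iff] at hk
  refine ⟨k, k.2, h1 k hk, h.basis.repr w k, hk, ?_⟩
  apply h.basis.repr.injective
  ext i
  rw [map_smul, Finsupp.smul_apply, ← h.basis_apply k, Module.Basis.repr_self,
    Finsupp.single_apply]
  split_ifs with hki
  · rw [hki]; simp
  · by_contra hne
    have h2 : h.basis.repr w i ≠ 0 := fun h0 => hne (by rw [h0]; simp)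
    apply hki
    apply Subtype.ext
    exact hinj _ _ k.2 i.2 (by rw [h1 k hk, h1 i h2])

theorem enat_le_of_forall {N N' : ℕ∞} (h : ∀ n : ℕ, (n : ℕ∞) < N → (n : ℕ∞) < N') : N ≤ N' := by
  by_contra hcon
  have hlt := not_le.1 hcon
  obtain ⟨m, rfl⟩ := ENat.ne_top_iff_exists.1 (ne_top_of_lt hlt)
  exact lt_irrefl _ (h m hlt)

theorem iso_aux (h : PB A B N v θ a x) (h' : PB A' B' N' v' θ' a' x') (hinj : Inj N θ)
    (hN' : N' ≠ 0)
    (φ : V →ₗ[K] V') (hφ : Function.Injective φ) (hA : ∀ w, φ (A w) = A' (φ w))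
    (hB : ∀ w, φ (B w) = B' (φ w)) {c : K} (hc : c ≠ 0) (h0 : φ (v 0) = c • v' 0) :
    ∀ n : ℕ, (n : ℕ∞) < N → ((n : ℕ∞) < N' ∧ φ (v n) = c • v' n ∧ θ n = θ' n ∧
      a n = a' n ∧ x n = x' n) := by
  have hN0 : ((0 : ℕ) : ℕ∞) < N' := by
    rw [Nat.cast_zero]; exact pos_iff_ne_zero.2 hN'
  -- first part
  have key : ∀ n : ℕ, (n : ℕ∞) < N → ((n : ℕ∞) < N' ∧ φ (v n) = c • v' n ∧ θ n = θ' n) ∧
      (∀ m, m + 1 = n → θ m = θ' m ∧ φ (v m) = c • v' m ∧ (m : ℕ∞) < N') →
      φ (v (n + 1)) = c • (v' (n + 1) + (a' n - a n) • v' n + (x' n - x n) • v' (n - 1)) := by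
    rintro n hn ⟨⟨h1, h2, h3⟩, h4⟩
    have e : v (n + 1) = A (v n) - a n • v n - x n • v (n - 1) := by
      rw [h.hA]; module
    rw [e, map_sub, map_sub, hA, h2, map_smul, map_smul, map_smul, h'.hA, h2]
    rcases n with _ | n
    · rw [h.x0, h'.x0]; simp only [zero_smul]; module
    · obtain ⟨-, h5, -⟩ := h4 n rfl
      simp only [Nat.add_sub_cancel]
      rw [h5]; module
  have main : ∀ n : ℕ, (n : ℕ∞) < N → ((n : ℕ∞) < N' ∧ φ (v n) = c • v' n ∧ θ n = θ' n) ∧
      (∀ m, m + 1 = n → θ m = θ' m ∧ φ (v m) = c • v' m ∧ (m : ℕ∞) < N' ∧ a m = a' m ∧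
        x m = x' m) := by
    intro n
    induction n with
    | zero =>
      intro hn
      refine ⟨⟨hN0, h0, ?_⟩, fun m hm => by omega⟩
      have e1 := hB (v 0)
      rw [h.hB, map_smul, h0, map_smul, h'.hB, smul_smul, smul_smul] at e1
      have e2 : (θ 0 * c - c * θ' 0) • v' 0 = 0 := by rw [sub_smul, e1, sub_self]
      rcases smul_eq_zero.1 e2 with e3 | e3
      · have : c * (θ 0 - θ' 0) = 0 := by linear_combination e3
        rcases mul_eq_zero.1 this with e | e
        · exact absurd e hc
        · exact sub_eq_zero.1 e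
      · exact absurd e3 (h'.ne_zero hN0)
    | succ n ih =>
      intro hn
      obtain ⟨⟨g1, g2, g3⟩, g4⟩ := ih (lt_of_add hn)
      have hk := key n (lt_of_add hn) ⟨⟨g1, g2, g3⟩, fun m hm =>
        ⟨(g4 m hm).1, (g4 m hm).2.1, (g4 m hm).2.2.1⟩⟩
      have hne : φ (v (n + 1)) ≠ 0 := by
        intro h0
        exact h.ne_zero hn (hφ (by rw [h0, map_zero]))
      have hBk : B' (φ (v (n + 1))) = θ (n + 1) • φ (v (n + 1)) := by
        rw [← hB, h.hB, map_smul]
      -- coordinate n
      have ca : a n = a' n := by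
        obtain ⟨f, hf⟩ := h'.exists_coord g1
        have := congrArg f hBk
        rw [hk] at this
        simp only [map_smul, map_add, h'.hB, hf, smul_eq_mul] at this
        have i1 : (n + 1 = n) = False := eq_false (by omega)
        have i2 : (x' n - x n) * (if n - 1 = n then (1 : K) else 0) = 0 := by
          rcases n with _ | n
          · rw [h.x0, h'.x0]; simp
          · simp
        have i3 : (x' n - x n) * (θ' (n - 1) * (if n - 1 = n then (1 : K) else 0)) = 0 := by
          rcases n with _ | n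
          · rw [h.x0, h'.x0]; simp
          · simp
        simp only [i1, if_false, if_true, mul_add, i2, i3] at this
        have h5 : c * (a' n - a n) * (θ' n - θ (n + 1)) = 0 := by linear_combination this
        rcases mul_eq_zero.1 h5 with e | e
        · rcases mul_eq_zero.1 e with e | e
          · exact absurd e hc
          · exact (sub_eq_zero.1 e).symm
        · exfalso
          rw [← g3] at e
          have := hinj _ _ (lt_of_add hn) hn (sub_eq_zero.1 e)
          omega
      have cx : x n = x' n := by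
        rcases n with _ | n
        · rw [h.x0, h'.x0]
        · obtain ⟨g5, g6, g7, -, -⟩ := g4 n rfl
          obtain ⟨f, hf⟩ := h'.exists_coord g7
          have := congrArg f hBk
          rw [hk] at this
          simp only [map_smul, map_add, h'.hB, hf, smul_eq_mul, Nat.add_sub_cancel] at this
          have i1 : (n + 1 + 1 = n) = False := eq_false (by omega)
          have i2 : (n + 1 = n) = False := eq_false (by omega)
          simp only [i1, i2, if_false, if_true] at this
          have h5 : c * (x' (n + 1) - x (n + 1)) * (θ' n - θ (n + 1 + 1)) = 0 := by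
            linear_combination this
          rcases mul_eq_zero.1 h5 with e | e
          · rcases mul_eq_zero.1 e with e | e
            · exact absurd e hc
            · exact (sub_eq_zero.1 e).symm
          · exfalso
            rw [← g5] at e
            have := hinj _ _ (lt_of_add (m := 2) hn) hn (sub_eq_zero.1 e)
            omega
      rw [ca, cx, sub_self, sub_self, zero_smul, zero_smul, add_zero, add_zero] at hk
      have hv' : v' (n + 1) ≠ 0 := by
        intro h0
        rw [h0, smul_zero] at hk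
        exact hne hk
      have hlt : ((n + 1 : ℕ) : ℕ∞) < N' := by
        by_contra hcon
        exact hv' (h'.zero _ (not_lt.1 hcon))
      refine ⟨⟨hlt, hk, ?_⟩, fun m hm => ?_⟩
      · rw [hk, map_smul, h'.hB, smul_smul, smul_smul] at hBk
        have e2 : (c * θ' (n + 1) - θ (n + 1) * c) • v' (n + 1) = 0 := by
          rw [sub_smul, hBk, sub_self]
        rcases smul_eq_zero.1 e2 with e3 | e3
        · have : c * (θ' (n + 1) - θ (n + 1)) = 0 := by linear_combination e3
          rcases mul_eq_zero.1 this with e | e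
          · exact absurd e hc
          · exact (sub_eq_zero.1 e).symm
        · exact absurd e3 hv'
      · obtain rfl : m = n := by omega
        exact ⟨g3, g2, g1, ca, cx⟩
  intro n hn
  obtain ⟨⟨g1, g2, g3⟩, g4⟩ := main n hn
  by_cases hn1 : ((n + 1 : ℕ) : ℕ∞) < N
  · obtain ⟨-, g5⟩ := main (n + 1) hn1
    obtain ⟨-, -, -, g6, g7⟩ := g5 n rfl
    exact ⟨g1, g2, g3, g6, g7⟩
  · have hk := key n hn ⟨⟨g1, g2, g3⟩, fun m hm =>
        ⟨(g4 m hm).1, (g4 m hm).2.1, (g4 m hm).2.2.1⟩⟩
    rw [h.zero _ (not_lt.1 hn1), map_zero] at hk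
    have hk' := (smul_eq_zero.1 hk.symm).resolve_left hc
    have ca : a n = a' n := by
      obtain ⟨f, hf⟩ := h'.exists_coord g1
      have := congrArg f hk'
      simp only [map_smul, map_add, map_zero, hf, smul_eq_mul] at this
      have i1 : (n + 1 = n) = False := eq_false (by omega)
      have i2 : (x' n - x n) * (if n - 1 = n then (1 : K) else 0) = 0 := by
        rcases n with _ | n
        · rw [h.x0, h'.x0]; simp
        · simp
      simp only [i1, if_false, if_true, i2] at this
      linear_combination -this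
    have cx : x n = x' n := by
      rcases n with _ | n
      · rw [h.x0, h'.x0]
      · obtain ⟨g5, g6, g7, -, -⟩ := g4 n rfl
        obtain ⟨f, hf⟩ := h'.exists_coord g7
        have := congrArg f hk'
        simp only [map_smul, map_add, map_zero, hf, smul_eq_mul, Nat.add_sub_cancel] at this
        have i1 : (n + 1 + 1 = n) = False := eq_false (by omega)
        have i2 : (n + 1 = n) = False := eq_false (by omega)
        simp only [i1, i2, if_false, if_true] at this
        linear_combination -this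
    exact ⟨g1, g2, g3, ca, cx⟩

/-- equal data (below `N`) -/
def EqData (N : ℕ∞) (θ a x : ℕ → K) (N' : ℕ∞) (θ' a' x' : ℕ → K) : Prop :=
  N = N' ∧ ∀ n : ℕ, (n : ℕ∞) < N → θ n = θ' n ∧ a n = a' n ∧ x n = x' n

theorem iso_of_start (h : PB A B N v θ a x) (h' : PB A' B' N' v' θ' a' x') (hinj : Inj N θ)
    (hinj' : Inj N' θ') (hN : N ≠ 0) (hN' : N' ≠ 0)
    (φ : V ≃ₗ[K] V') (hA : ∀ w, φ (A w) = A' (φ w))
    (hB : ∀ w, φ (B w) = B' (φ w)) {c : K} (hc : c ≠ 0) (h0 : φ (v 0) = c • v' 0) :
    EqData N θ a x N' θ' a' x' := by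
  have e1 := iso_aux h h' hinj hN' φ.toLinearMap φ.injective hA hB hc h0
  have e2 := iso_aux h' h hinj' hN φ.symm.toLinearMap φ.symm.injective
    (fun w => by
      apply φ.injective
      have := hA (φ.symm w)
      simp only [LinearEquiv.coe_coe, LinearEquiv.apply_symm_apply] at this ⊢
      exact this.symm)
    (fun w => by
      apply φ.injective
      have := hB (φ.symm w)
      simp only [LinearEquiv.coe_coe, LinearEquiv.apply_symm_apply] at this ⊢
      exact this.symm) (inv_ne_zero hc)
    (by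
      apply φ.injective
      simp only [LinearEquiv.coe_coe, LinearEquiv.apply_symm_apply, map_smul]
      rw [h0, smul_smul, inv_mul_cancel₀ hc, one_smul])
  refine ⟨le_antisymm (enat_le_of_forall fun n hn => (e1 n hn).1)
    (enat_le_of_forall fun n hn => (e2 n hn).1), fun n hn => ?_⟩
  obtain ⟨-, -, h1, h2, h3⟩ := e1 n hn
  exact ⟨h1, h2, h3⟩

theorem start_or_end (h : PB A B N v θ a x) (h' : PB A' B' N' v' θ' a' x') (hinj' : Inj N' θ')
    (hN : N ≠ 0)
    (φ : V ≃ₗ[K] V') (hA : ∀ w, φ (A w) = A' (φ w)) (hB : ∀ w, φ (B w) = B' (φ w)) :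
    ∃ k : ℕ, (k : ℕ∞) < N' ∧ (k = 0 ∨ N' = ((k + 1 : ℕ) : ℕ∞)) ∧ ∃ c : K, c ≠ 0 ∧
      φ (v 0) = c • v' k := by
  have hN0 : ((0 : ℕ) : ℕ∞) < N := by
    rw [Nat.cast_zero]; exact pos_iff_ne_zero.2 hN
  have hne : φ (v 0) ≠ 0 := by
    intro h0
    exact h.ne_zero hN0 (φ.injective (by rw [h0, map_zero]))
  obtain ⟨k, hk, hk1, c, hc, hcv⟩ := h'.eig_of_inj hinj' hne
    (m := θ 0) (by rw [← hB, h.hB, map_smul])
  refine ⟨k, hk, ?_, c, hc, hcv⟩
  by_contra hcon
  push Not at hcon
  obtain ⟨hk0, hkN⟩ := hcon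
  have hk1N : ((k + 1 : ℕ) : ℕ∞) < N' := by
    refine lt_of_le_of_ne ?_ (Ne.symm hkN)
    have := Order.add_one_le_of_lt hk
    exact_mod_cast this
  obtain ⟨k, rfl⟩ := Nat.exists_eq_succ_of_ne_zero hk0
  have e1 : φ (v 1) = c • (v' (k + 2) + (a' (k + 1) - a 0) • v' (k + 1) + x' (k + 1) • v' k) := by
    have e : v 1 = A (v 0) - a 0 • v 0 := by
      rw [h.hA, h.x0]; module
    rw [e, map_sub, hA, hcv, map_smul, map_smul, h'.hA, hcv]
    simp only [Nat.succ_eq_add_one, Nat.add_sub_cancel]
    module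
  have hB1 : B' (φ (v 1)) = θ 1 • φ (v 1) := by rw [← hB, h.hB, map_smul]
  obtain ⟨f, hf⟩ := h'.exists_coord hk1N
  obtain ⟨g, hg⟩ := h'.exists_coord (lt_of_add (m := 1) hk : (k : ℕ∞) < N')
  have f1 := congrArg f hB1
  have g1 := congrArg g hB1
  rw [e1] at f1 g1
  simp only [map_smul, map_add, h'.hB, hf, smul_eq_mul] at f1
  simp only [map_smul, map_add, h'.hB, hg, smul_eq_mul] at g1
  have i1 : (k + 1 = k.succ + 1) = False := eq_false (by omega)
  have i2 : (k = k.succ + 1) = False := eq_false (by omega)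
  have i3 : (k + 1 = k) = False := eq_false (by omega)
  have i4 : (k + 2 = k) = False := eq_false (by omega)
  have i5 : (k + 2 = k.succ + 1) = True := eq_true (by omega)
  simp only [i1, i2, i5, if_true, if_false] at f1
  simp only [i3, i4, if_true, if_false] at g1
  have f2 : θ' (k + 2) = θ 1 := by
    have : c * (θ' (k + 2) - θ 1) = 0 := by linear_combination f1
    exact sub_eq_zero.1 ((mul_eq_zero.1 this).resolve_left hc)
  have hx := h'.xne (k + 1) (by omega) hk
  have g2 : θ' k = θ 1 := by
    have : c * x' (k + 1) * (θ' k - θ 1) = 0 := by linear_combination g1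
    exact sub_eq_zero.1 ((mul_eq_zero.1 this).resolve_left (mul_ne_zero hc hx))
  have := hinj' (k + 2) k hk1N (lt_of_add (m := 1) hk) (by rw [f2, g2])
  omega

/-- the reversed basis -/
theorem PB.rev {M : ℕ} (hM : M ≠ 0) (h : PB A B (M : ℕ∞) v θ a x) :
    PB A B (M : ℕ∞) (fun i => (∏ j ∈ Finset.range i, x (M - 1 - j)) • v (M - 1 - i))
      (fun i => θ (M - 1 - i)) (fun i => a (M - 1 - i)) (fun i => x (M - i)) := by
  have hc : ∀ i, i < M → ∏ j ∈ Finset.range i, x (M - 1 - j) ≠ 0 := by
    intro i hi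
    rw [Finset.prod_ne_zero_iff]
    intro j hj
    rw [Finset.mem_range] at hj
    exact h.xne _ (by omega) (by exact_mod_cast (by omega : M - 1 - j < M))
  have hz : ∀ i, M ≤ i → ∏ j ∈ Finset.range i, x (M - 1 - j) = 0 := by
    intro i hi
    apply Finset.prod_eq_zero (i := M - 1)
    · rw [Finset.mem_range]; omega
    · rw [Nat.sub_self]; exact h.x0
  refine ⟨?_, ?_, ?_, ?_, ?_, ?_, ?_, ?_⟩
  · have inj : Function.Injective (fun i : {i : ℕ // (i : ℕ∞) < (M : ℕ∞)} =>
        (⟨M - 1 - i, by exact_mod_cast (by omega : M - 1 - i < M)⟩ :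
          {i : ℕ // (i : ℕ∞) < (M : ℕ∞)})) := by
      intro i j hij
      have hi : (i : ℕ) < M := by exact_mod_cast i.2
      have hj : (j : ℕ) < M := by exact_mod_cast j.2
      have := congrArg Subtype.val hij
      simp only at this
      exact Subtype.ext (by omega)
    have h1 := h.li.comp _ inj
    have h2 := h1.units_smul (fun i : {i : ℕ // (i : ℕ∞) < (M : ℕ∞)} =>
      Units.mk0 _ (hc i (by exact_mod_cast i.2)))
    exact h2
  · rw [eq_top_iff, ← h.sp, Submodule.span_le]
    rintro _ ⟨n, rfl⟩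
    by_cases hn : n < M
    · have h1 : (∏ j ∈ Finset.range (M - 1 - n), x (M - 1 - j)) • v (M - 1 - (M - 1 - n)) ∈
          Submodule.span K (Set.range (fun i => (∏ j ∈ Finset.range i, x (M - 1 - j)) •
            v (M - 1 - i))) := Submodule.subset_span ⟨M - 1 - n, rfl⟩
      rw [Submodule.smul_mem_iff _ (hc _ (by omega)),
        show M - 1 - (M - 1 - n) = n by omega] at h1
      exact h1
    · rw [h.zero n (by exact_mod_cast not_lt.1 hn)]
      exact Submodule.zero_mem _
  · intro n hn
    rw [hz n (by exact_mod_cast hn), zero_smul]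
  · intro i
    by_cases hi : i < M
    · rw [map_smul, h.hA, Finset.prod_range_succ]
      rcases i with _ | i
      · simp only [Finset.prod_range_zero, one_mul, Nat.sub_zero]
        have e1 : v (M - 1 + 1) = 0 := h.zero _ (by exact_mod_cast (by omega : M ≤ M - 1 + 1))
        have e2 : x M = 0 := h.xN _ le_rfl
        rw [e1, e2]
        rw [show M - 1 - 1 = M - 1 - (0 + 1) by omega]
        module
      · rw [show M - (i + 1) = M - 1 - i by omega, show i + 1 - 1 = i by omega,
          show M - 1 - (i + 1) - 1 = M - 1 - (i + 1 + 1) by omega,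
          show M - 1 - (i + 1) + 1 = M - 1 - i by omega, Finset.prod_range_succ _ i]
        module
    · have h1 := hz i (not_lt.1 hi)
      have h2 := hz (i + 1) (by omega)
      rw [h1, h2, show M - i = 0 by omega, h.x0]
      simp
  · intro i
    rw [map_smul, h.hB, smul_comm]
  · exact h.xN _ le_rfl
  · intro i hi
    rw [show M - i = 0 by have : M ≤ i := by exact_mod_cast hi
                          omega]
    exact h.x0
  · intro i hi0 hi
    have hi' : i < M := by exact_mod_cast hi
    exact h.xne _ (by omega) (by exact_mod_cast (by omega : M - i < M))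

end Pool.Agent.TH10.AW
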