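import Mathlib

/-! The polynomials attached to a tridiagonal matrix. -/

set_option autoImplicit false

namespace Pool.Agent.TH10.AW

open Polynomial

variable {K : Type*} [Field K]

/-- the monic polynomials with `v n = P n (A) v 0` -/
noncomputable def PP (a x : ℕ → K) : ℕ → K[X]
  | 0 => 1
  | 1 => X - C (a 0)
  | n + 2 => (X - C (a (n + 1))) * PP a x (n + 1) - C (x (n + 1)) * PP a x n

/-- the polynomial of degree the period, for the three kinds of start: mirror at the first vertex
(`s = 0`), corner at the start (`s = -1`), mirror before the first vertex (`s = -2`) -/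
noncomputable def TT (a x : ℕ → K) (s : ℤ) (M : ℕ) : K[X] :=
  if s = 0 then PP a x M
  else if s = -1 then PP a x M + C (a 0 - a M) * PP a x (M - 1)
  else PP a x M - C (x M) * PP a x (M - 2)

end Pool.Agent.TH10.AW
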