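import Pool.Agent.TH10.AW.Irr
import Pool.Agent.TH10.AW.PolyDef

/-! The polynomials attached to a polynomial basis, and singular vectors. -/

set_option autoImplicit false
set_option linter.unusedSectionVars false

namespace Pool.Agent.TH10.AW

open Polynomial

variable {K : Type*} [Field K] {p : Scal K}
variable {V : Type*} [AddCommGroup V] [Module K V]
variable {A B : Module.End K V} {N : ℕ∞} {v : ℕ → V} {θ a x : ℕ → K}

theorem PP_succ (a x : ℕ → K) (x0 : x 0 = 0) (n : ℕ) :
    PP a x (n + 1) = (X - C (a n)) * PP a x n - C (x n) * PP a x (n - 1) := by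
  rcases n with _ | n
  · simp [PP, x0]
  · rfl

theorem PP_monic (a x : ℕ → K) (n : ℕ) : (PP a x n).Monic ∧ (PP a x n).natDegree = n := by
  induction n using Nat.strong_induction_on with
  | _ n ih =>
    match n, ih with
    | 0, _ => simp [PP]
    | 1, _ => exact ⟨monic_X_sub_C _, natDegree_X_sub_C _⟩
    | n + 2, ih =>
      obtain ⟨m1, d1⟩ := ih (n + 1) (by omega)
      obtain ⟨m0, d0⟩ := ih n (by omega)
      have h1 : ((X - C (a (n + 1))) * PP a x (n + 1)).Monic := (monic_X_sub_C _).mul m1
      have h2 : ((X - C (a (n + 1))) * PP a x (n + 1)).natDegree = n + 2 := by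
        rw [(monic_X_sub_C _).natDegree_mul m1, d1, natDegree_X_sub_C]; omega
      have h3 : (C (x (n + 1)) * PP a x n).degree < ((X - C (a (n + 1))) * PP a x (n + 1)).degree := by
        rw [degree_eq_natDegree h1.ne_zero, h2]
        refine lt_of_le_of_lt (degree_le_of_natDegree_le
          ((natDegree_C_mul_le _ _).trans d0.le)) ?_
        exact_mod_cast (by omega : n < n + 2)
      refine ⟨?_, ?_⟩
      · exact h1.sub_of_left h3
      · change ((X - C (a (n + 1))) * PP a x (n + 1) - C (x (n + 1)) * PP a x n).natDegree = n + 2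
        rw [natDegree_sub_eq_left_of_natDegree_lt, h2]
        rw [h2]
        exact lt_of_le_of_lt ((natDegree_C_mul_le _ _).trans d0.le) (by omega)

theorem PB.PP_apply (h : PB A B N v θ a x) (n : ℕ) : aeval A (PP a x n) (v 0) = v n := by
  induction n using Nat.strong_induction_on with
  | _ n ih =>
    rcases n with _ | n
    · simp [PP]
    · rw [PP_succ a x h.x0, map_sub, map_mul, map_mul, map_sub, aeval_X, aeval_C, aeval_C,
        LinearMap.sub_apply, Module.End.mul_apply, Module.End.mul_apply, LinearMap.sub_apply,
        ih n (by omega), ih (n - 1) (by omega), h.hA, Module.algebraMap_end_apply,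
        Module.algebraMap_end_apply]
      module

/-- `A^n v 0 = v n + lower terms` -/
theorem PB.pow_apply (h : PB A B N v θ a x) (n : ℕ) :
    (A ^ n) (v 0) - v n ∈ Submodule.span K (v '' {k | k < n}) := by
  induction n with
  | zero => simp
  | succ n ih =>
    have hA : ∀ w ∈ Submodule.span K (v '' {k | k < n}),
        A w ∈ Submodule.span K (v '' {k | k < n + 1}) := by
      intro w hw
      induction hw using Submodule.span_induction with
      | mem w hw =>
        obtain ⟨k, hk, rfl⟩ := hw
        simp only [Set.mem_ofPred_eq] at hk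
        rw [h.hA]
        refine Submodule.add_mem _ (Submodule.add_mem _ ?_ ?_) ?_
        · exact Submodule.subset_span ⟨k + 1, by simp only [Set.mem_ofPred_eq]; omega, rfl⟩
        · exact Submodule.smul_mem _ _ (Submodule.subset_span
            ⟨k, by simp only [Set.mem_ofPred_eq]; omega, rfl⟩)
        · exact Submodule.smul_mem _ _ (Submodule.subset_span
            ⟨k - 1, by simp only [Set.mem_ofPred_eq]; omega, rfl⟩)
      | zero => rw [map_zero]; exact Submodule.zero_mem _
      | add w w' _ _ hw hw' => rw [map_add]; exact Submodule.add_mem _ hw hw'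
      | smul c w _ hw => rw [map_smul]; exact Submodule.smul_mem _ _ hw
    have e := hA _ ih
    rw [map_sub, h.hA, ← Module.End.mul_apply, ← pow_succ'] at e
    have e2 : a n • v n + x n • v (n - 1) ∈ Submodule.span K (v '' {k | k < n + 1}) := by
      refine Submodule.add_mem _ ?_ ?_
      · exact Submodule.smul_mem _ _ (Submodule.subset_span
            ⟨n, by simp only [Set.mem_ofPred_eq]; omega, rfl⟩)
      · exact Submodule.smul_mem _ _ (Submodule.subset_span
            ⟨n - 1, by simp only [Set.mem_ofPred_eq]; omega, rfl⟩)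
    have := Submodule.add_mem _ e e2
    convert this using 1
    module

/-- a nonzero polynomial of degree `< N` does not kill `v 0` -/
theorem PB.aeval_ne_zero (h : PB A B N v θ a x) {f : K[X]} (hf : f ≠ 0)
    (hN : (f.natDegree : ℕ∞) < N) : aeval A f (v 0) ≠ 0 := by
  obtain ⟨φ, hφ⟩ := h.exists_coord hN
  have hlow : ∀ n, ∀ w ∈ Submodule.span K (v '' {k | k < n}), n ≤ f.natDegree → φ w = 0 := by
    intro n w hw hn
    induction hw using Submodule.span_induction with
    | mem w hw =>
      obtain ⟨k, hk, rfl⟩ := hw
      simp only [Set.mem_ofPred_eq] at hk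
      rw [hφ, if_neg (by omega)]
    | zero => rw [map_zero]
    | add w w' _ _ hw hw' => rw [map_add, hw, hw', add_zero]
    | smul c w _ hw => rw [map_smul, hw, smul_zero]
  intro h0
  have h1 : φ (aeval A f (v 0)) = f.leadingCoeff := by
    rw [aeval_eq_sum_range, LinearMap.sum_apply, map_sum, Finset.sum_eq_single f.natDegree]
    · rw [LinearMap.smul_apply, map_smul, smul_eq_mul]
      have e := hlow _ _ (h.pow_apply f.natDegree) le_rfl
      rw [map_sub, hφ, if_pos rfl] at e
      rw [sub_eq_zero.1 e, mul_one]
      rfl
    · intro k hk hk'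
      rw [Finset.mem_range] at hk
      rw [LinearMap.smul_apply, map_smul, smul_eq_mul]
      have e := hlow _ _ (h.pow_apply k) (by omega)
      rw [map_sub, hφ, if_neg hk'] at e
      rw [sub_eq_zero.1 e, mul_zero]
    · intro hk
      exact absurd (Finset.mem_range.2 (Nat.lt_succ_self _)) hk
  rw [h0, map_zero] at h1
  exact hf (leadingCoeff_eq_zero.1 h1.symm)

/-- every vector is `f(A) v 0` -/
theorem PB.exists_poly (h : PB A B N v θ a x) (w : V) : ∃ f : K[X], aeval A f (v 0) = w := by
  have hw : w ∈ Submodule.span K (Set.range v) := by rw [h.sp]; trivial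
  induction hw using Submodule.span_induction with
  | mem w hw =>
    obtain ⟨n, rfl⟩ := hw
    exact ⟨_, h.PP_apply n⟩
  | zero => exact ⟨0, by simp⟩
  | add w w' _ _ hw hw' =>
    obtain ⟨f, rfl⟩ := hw
    obtain ⟨g, rfl⟩ := hw'
    exact ⟨f + g, by rw [map_add, LinearMap.add_apply]⟩
  | smul c w _ hw =>
    obtain ⟨f, rfl⟩ := hw
    exact ⟨c • f, by rw [map_smul, LinearMap.smul_apply]⟩

/-- `g` is a singular vector with eigenvalue `m`, next eigenvalue `n` and diagonal entry `c` -/
structure Sg (A B : Module.End K V) (m n c : K) (g : V) : Prop where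
  e0 : B g = m • g
  e1 : B (A g - c • g) = n • (A g - c • g)

theorem aw1_apply (h : AW1 p A B) (w : V) : B (A (A w)) =
    -(A (A (B w))) + p.β • A (B (A w)) + p.γ • (A (B w) + B (A w)) + p.ρ • B w
      + p.γs • A (A w) + p.ω • A w + p.η • w := by
  have := congrArg (fun T : Module.End K V => T w) h
  simp only [LinearMap.sub_apply, LinearMap.add_apply, LinearMap.smul_apply,
      Module.End.mul_apply, Module.End.one_apply] at this
  linear_combination (norm := module) this

/-- the filtration `span {g, A g, …, A^n g}` is `B`-stable -/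
theorem Sg.stable_aux (h : AW1 p A B) {m n c : K} {g : V} (hg : Sg A B m n c g) (k : ℕ) :
    B ((A ^ k) g) ∈ Submodule.span K ((fun i => (A ^ i) g) '' {i | i ≤ k}) := by
  induction k using Nat.strong_induction_on with
  | _ k ih =>
    match k, ih with
    | 0, _ =>
      rw [pow_zero, Module.End.one_apply, hg.e0]
      exact Submodule.smul_mem _ _ (Submodule.subset_span ⟨0, by simp, by simp⟩)
    | 1, _ =>
      have e : B (A g) = n • A g + (c * m - n * c) • g := by
        have h1 := hg.e1
        rw [map_sub, map_smul, hg.e0] at h1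
        linear_combination (norm := module) h1
      rw [pow_one, e]
      refine Submodule.add_mem _ ?_ ?_
      · exact Submodule.smul_mem _ _ (Submodule.subset_span ⟨1, by simp, by simp⟩)
      · exact Submodule.smul_mem _ _ (Submodule.subset_span ⟨0, by simp, by simp⟩)
    | k + 2, ih =>
      have i0 := ih k (by omega)
      have i1 := ih (k + 1) (by omega)
      have hA : ∀ j, j ≤ k + 1 → ∀ w ∈ Submodule.span K ((fun i => (A ^ i) g) '' {i | i ≤ j}),
          A w ∈ Submodule.span K ((fun i => (A ^ i) g) '' {i | i ≤ k + 2}) := by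
        intro j hj w hw
        induction hw using Submodule.span_induction with
        | mem w hw =>
          obtain ⟨i, hi, rfl⟩ := hw
          simp only [Set.mem_ofPred_eq] at hi
          simp only
          rw [← Module.End.mul_apply, ← pow_succ']
          exact Submodule.subset_span ⟨i + 1, by simp only [Set.mem_ofPred_eq]; omega, rfl⟩
        | zero => rw [map_zero]; exact Submodule.zero_mem _
        | add w w' _ _ hw hw' => rw [map_add]; exact Submodule.add_mem _ hw hw'
        | smul c w _ hw => rw [map_smul]; exact Submodule.smul_mem _ _ hw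
      have hA' : ∀ w ∈ Submodule.span K ((fun i => (A ^ i) g) '' {i | i ≤ k}),
          A w ∈ Submodule.span K ((fun i => (A ^ i) g) '' {i | i ≤ k + 1}) := by
        intro w hw
        induction hw using Submodule.span_induction with
        | mem w hw =>
          obtain ⟨i, hi, rfl⟩ := hw
          simp only [Set.mem_ofPred_eq] at hi
          simp only
          rw [← Module.End.mul_apply, ← pow_succ']
          exact Submodule.subset_span ⟨i + 1, by simp only [Set.mem_ofPred_eq]; omega, rfl⟩
        | zero => rw [map_zero]; exact Submodule.zero_mem _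
        | add w w' _ _ hw hw' => rw [map_add]; exact Submodule.add_mem _ hw hw'
        | smul c w _ hw => rw [map_smul]; exact Submodule.smul_mem _ _ hw
      have mono : ∀ j, j ≤ k + 2 → Submodule.span K ((fun i => (A ^ i) g) '' {i | i ≤ j}) ≤
          Submodule.span K ((fun i => (A ^ i) g) '' {i | i ≤ k + 2}) := by
        intro j hj
        exact Submodule.span_mono (Set.image_mono fun i hi => le_trans hi hj)
      have s : ∀ j, j ≤ k + 2 →
          (A ^ j) g ∈ Submodule.span K ((fun i => (A ^ i) g) '' {i | i ≤ k + 2}) :=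
        fun j hj => Submodule.subset_span ⟨j, hj, rfl⟩
      have e := aw1_apply h ((A ^ k) g)
      have ek1 : A ((A ^ k) g) = (A ^ (k + 1)) g := by rw [← Module.End.mul_apply, ← pow_succ']
      have ek2 : A ((A ^ (k + 1)) g) = (A ^ (k + 2)) g := by
        rw [← Module.End.mul_apply, ← pow_succ']
      rw [ek1, ek2] at e
      rw [e]
      refine Submodule.add_mem _ (Submodule.add_mem _ (Submodule.add_mem _ (Submodule.add_mem _
        (Submodule.add_mem _ (Submodule.add_mem _ ?_ ?_) ?_) ?_) ?_) ?_) ?_
      · exact Submodule.neg_mem _ (hA (k + 1) (by omega) _ (hA' _ i0))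
      · exact Submodule.smul_mem _ _ (hA (k + 1) le_rfl _ i1)
      · exact Submodule.smul_mem _ _ (Submodule.add_mem _ (hA k (by omega) _ i0)
          (mono (k + 1) (by omega) i1))
      · exact Submodule.smul_mem _ _ (mono k (by omega) i0)
      · exact Submodule.smul_mem _ _ (s (k + 2) le_rfl)
      · exact Submodule.smul_mem _ _ (s (k + 1) (by omega))
      · exact Submodule.smul_mem _ _ (s k (by omega))

/-- the cyclic subspace of `g` -/
def Cyc (A : Module.End K V) (g : V) : Submodule K V :=
  Submodule.span K (Set.range fun i : ℕ => (A ^ i) g)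

theorem Cyc.self_mem (A : Module.End K V) (g : V) : g ∈ Cyc A g :=
  Submodule.subset_span ⟨0, by simp⟩

theorem Cyc.stable_A (A : Module.End K V) (g : V) : ∀ w ∈ Cyc A g, A w ∈ Cyc A g := by
  intro w hw
  induction hw using Submodule.span_induction with
  | mem w hw =>
    obtain ⟨i, rfl⟩ := hw
    simp only
    rw [← Module.End.mul_apply, ← pow_succ']
    exact Submodule.subset_span ⟨i + 1, rfl⟩
  | zero => rw [map_zero]; exact Submodule.zero_mem _
  | add w w' _ _ hw hw' => rw [map_add]; exact Submodule.add_mem _ hw hw'
  | smul c w _ hw => rw [map_smul]; exact Submodule.smul_mem _ _ hw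

theorem Cyc.exists_poly {A : Module.End K V} {g w : V} (hw : w ∈ Cyc A g) :
    ∃ f : K[X], aeval A f g = w := by
  induction hw using Submodule.span_induction with
  | mem w hw =>
    obtain ⟨i, rfl⟩ := hw
    exact ⟨X ^ i, by simp⟩
  | zero => exact ⟨0, by simp⟩
  | add w w' _ _ hw hw' =>
    obtain ⟨f, rfl⟩ := hw
    obtain ⟨g, rfl⟩ := hw'
    exact ⟨f + g, by rw [map_add, LinearMap.add_apply]⟩
  | smul c w _ hw =>
    obtain ⟨f, rfl⟩ := hw
    exact ⟨c • f, by rw [map_smul, LinearMap.smul_apply]⟩

theorem Sg.stable_B (h : AW1 p A B) {m n c : K} {g : V} (hg : Sg A B m n c g) :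
    ∀ w ∈ Cyc A g, B w ∈ Cyc A g := by
  intro w hw
  induction hw using Submodule.span_induction with
  | mem w hw =>
    obtain ⟨i, rfl⟩ := hw
    exact Submodule.span_mono (Set.image_subset_range _ _) (hg.stable_aux h i)
  | zero => rw [map_zero]; exact Submodule.zero_mem _
  | add w w' _ _ hw hw' => rw [map_add]; exact Submodule.add_mem _ hw hw'
  | smul c w _ hw => rw [map_smul]; exact Submodule.smul_mem _ _ hw

/-- a nonzero singular vector generates an irreducible module over `K[A]` -/
theorem Sg.cyc_eq_top (h : AW1 p A B) (hI : Irr A B) {m n c : K} {g : V} (hg : Sg A B m n c g)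
    (hg0 : g ≠ 0) : Cyc A g = ⊤ := by
  rcases hI.2 (Cyc A g) (Cyc.stable_A A g) (hg.stable_B h) with h1 | h1
  · exact absurd ((Submodule.eq_bot_iff _).1 h1 g (Cyc.self_mem A g)) hg0
  · exact h1

/-- no singular vectors of positive degree in an infinite dimensional irreducible module -/
theorem PB.no_sing (hp : PB A B ⊤ v θ a x) (h : AW1 p A B) (hI : Irr A B) {m n c : K} {G : K[X]}
    (hG : 0 < G.natDegree) (hg : Sg A B m n c (aeval A G (v 0))) : False := by
  have hG0 : G ≠ 0 := by
    rintro rfl
    simp at hG
  have hg0 : aeval A G (v 0) ≠ 0 := hp.aeval_ne_zero hG0 (ENat.natCast_lt_top _)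
  have ht := hg.cyc_eq_top h hI hg0
  obtain ⟨f, hf⟩ := Cyc.exists_poly (A := A) (g := aeval A G (v 0)) (w := v 0)
    (by rw [ht]; trivial)
  have e : aeval A (f * G - 1) (v 0) = 0 := by
    rw [map_sub, map_mul, map_one, LinearMap.sub_apply, Module.End.mul_apply, hf,
      Module.End.one_apply, sub_self]
  have e2 : f * G - 1 = 0 := by
    by_contra hne
    exact hp.aeval_ne_zero hne (ENat.natCast_lt_top _) e
  have hu : IsUnit G := IsUnit.of_mul_eq_one f (by
    rw [mul_comm]
    exact sub_eq_zero.1 e2)
  rw [natDegree_eq_zero_of_isUnit hu] at hG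
  exact lt_irrefl _ hG

end Pool.Agent.TH10.AW
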