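import Pool.Agent.TH10.AW.Kappa
import Pool.Agent.TH10.AW.Sing
import Pool.Agent.TH10.AW.Iso

/-! The central element attached to a period, and infinite dimensional modules. -/

set_option autoImplicit false
set_option linter.unusedSectionVars false
set_option linter.unusedSimpArgs false

namespace Pool.Agent.TH10.AW

open Polynomial

variable {K : Type*} [Field K] {p : Scal K}
variable {V : Type*} [AddCommGroup V] [Module K V]
variable {A B : Module.End K V} {N : ℕ∞} {v : ℕ → V} {a x : ℕ → K} {τ : ℤ → K}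

/-- corner at `-1/2`, period `M`: the value of `x M` -/
theorem TSys.xM_corner (h : TSys p N τ a x) {M : ℕ} (hM3 : 3 ≤ M) (hM : (M : ℕ∞) < N)
    (hper : Per τ M) (hc : Cen τ (-1)) (h01 : τ 0 ≠ τ 1) :
    x M = (a 0 - a M) * (a 0 - a (M - 1)) := by
  obtain ⟨m, rfl⟩ : ∃ m, M = m + 3 := ⟨M - 3, by omega⟩
  have hc' : Cen τ (2 * m + 5) := by
    have h1 := hc.add hper
    have h2 := h1.add hper
    push_cast at h2
    rwa [show (-1 : ℤ) + (m + 3) + (m + 3) = 2 * m + 5 by ring] at h2
  have t_1 : τ (-1) = τ 0 := hc.at (by ring)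
  have t_2 : τ (-2) = τ 1 := hc.at (by ring)
  have tm1 : τ (m + 1) = τ 1 := by
    rw [← t_2]; exact hper.at (by push_cast; ring)
  have tm0 : τ m = τ 2 := by
    have e : τ (-3) = τ 2 := hc.at (by ring)
    rw [← e]; exact hper.at (by push_cast; ring)
  have tm2 : τ (m + 2) = τ 0 := by
    rw [← t_1]; exact hper.at (by push_cast; ring)
  have tm3 : τ (m + 3) = τ 0 := hper.at (by push_cast; ring)
  have tm4 : τ (m + 4) = τ 1 := hper.at (by push_cast; ring)
  -- kappa on the edges (0,1) and (m+1,m+2)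
  have hM' : ((m + 2 + 1 : ℕ) : ℕ∞) < N := hM
  have hM2 : ((m + 2 : ℕ) : ℕ∞) < N := lt_of_add (m := 1) hM'
  have k := h.t_eq (m := 1) (n := m + 2) (le_trans (by exact_mod_cast (by omega : 1 ≤ m + 2))
    (le_of_lt hM2)) (le_of_lt hM2) (by simpa using h01) (Or.inr ⟨by
      push_cast
      rw [show (m : ℤ) + 2 - 1 = m + 1 by ring, tm1], by
      push_cast
      rw [tm2]⟩)
  have E0 := h.E 0 (lt_of_add (m := m + 3) (by rw [zero_add]; exact hM))
  have E2 := h.E (m + 2) hM2
  have D2 := h.D (m + 2) hM'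
  have r0 := h.tau.recur 0
  unfold TSys.t at k
  push_cast at k E0 E2 D2
  simp only [show (m : ℤ) + 2 + 1 = m + 3 by ring, show (m : ℤ) + 2 - 1 = m + 1 by ring,
    show (m : ℤ) + 2 - 2 = m by ring, show (m : ℤ) + 2 + 2 = m + 4 by ring,
    show (1 : ℤ) + 1 = 2 by norm_num, show (1 : ℤ) - 1 = 0 by norm_num,
    show (1 : ℤ) - 2 = -1 by norm_num, show (0 : ℤ) - 2 = -2 by norm_num,
    show (0 : ℤ) + 2 = 2 by norm_num, tm0, tm1, tm2, tm3, tm4, t_1, t_2, h.x0, zero_add,
    show m + 2 + 1 = m + 3 by rfl] at k E0 E2 D2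
  rw [show (0 : ℤ) - 1 = -1 by norm_num, t_1, zero_add] at r0
  rw [show m + 3 - 1 = m + 2 by rfl]
  unfold Scal.S at E0 E2
  have h01' : τ 1 - τ 0 ≠ 0 := sub_ne_zero.2 h01.symm
  apply mul_left_cancel₀ (mul_ne_zero h01' h01')
  linear_combination -k + (τ 1 - τ 0) * E0 - (τ 1 - τ 0) * E2
    - (τ 1 - τ 0) * (a 0 - a (m + 2)) * D2
    - (τ 1 - τ 0) * (a 0 - a (m + 2)) * (a 0 + a (m + 2)) * r0

/-- the diagonal entry is determined at a vertex which is not at a corner -/
theorem TSys.a_eq (h : TSys p N τ a x) {m n : ℕ} (hm : (m : ℕ∞) < N) (hn : (n : ℕ∞) < N)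
    (h0 : τ n = τ m) (h1 : (τ (n - 1) = τ (m - 1) ∧ τ (n + 1) = τ (m + 1)) ∨
      (τ (n - 1) = τ (m + 1) ∧ τ (n + 1) = τ (m - 1))) (h2 : τ m ≠ τ (m - 1))
    (h3 : τ m ≠ τ (m + 1)) : a n = a m := by
  have em := h.A m hm
  have en := h.A n hn
  have hne : (τ m - τ (m - 1)) * (τ m - τ (m + 1)) ≠ 0 :=
    mul_ne_zero (sub_ne_zero.2 h2) (sub_ne_zero.2 h3)
  apply mul_left_cancel₀ hne
  rw [em, ← h0, ← en]
  rcases h1 with ⟨e1, e2⟩ | ⟨e1, e2⟩
  · rw [e1, e2]
  · rw [e1, e2]; ring

theorem Sg.of_const (hB : ∀ w : V, B w = τ 0 • w) (h01 : τ 0 = τ 1) (c : K) (g : V) :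
    Sg A B (τ 0) (τ 1) c g :=
  ⟨hB g, by rw [← h01]; exact hB _⟩

theorem PB.B_scalar (hp : PB A B N v (fun n : ℕ => τ n) a x) (h1 : Per τ 1) :
    ∀ w : V, B w = τ 0 • w := by
  intro w
  have : B = τ 0 • (1 : Module.End K V) := by
    apply ext_on_v hp
    intro n _
    rw [hp.hB, LinearMap.smul_apply, Module.End.one_apply, h1.const n 0]
  rw [this]; simp

/-- mirror at the first vertex -/
theorem sg_T0 (hp : PB A B N v (fun n : ℕ => τ n) a x) (h : TSys p N τ a x) {M : ℕ}
    (hM0 : 0 < M) (hM : (M : ℕ∞) < N) (hper : Per τ M) (hconst : ¬ Per τ 1) (hc0 : Cen τ 0) :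
    Sg A B (τ 0) (τ 1) (a 0) (aeval A (PP a x M) (v 0)) := by
  rw [hp.PP_apply]
  have t1 : τ (-1) = τ 1 := hc0.at (by ring)
  have h01 : τ 0 ≠ τ 1 := by
    intro h0
    apply hconst
    apply h.tau.per_one_of (n := 0) (by rw [h0]; exact t1) (by simpa using h0)
  have tM : τ M = τ 0 := hper.at (by ring)
  have tM1 : τ (M + 1) = τ 1 := hper.at (by ring)
  have tM_1 : τ (M - 1) = τ 1 := by rw [← t1]; exact hper.at (by ring)
  have ha : a M = a 0 := h.a_eq (m := 0) (lt_of_le_of_lt bot_le hM) hM (by simpa using tM)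
    (Or.inl ⟨by simp only [Nat.cast_zero, zero_sub]; rw [t1]; exact tM_1,
      by simp only [Nat.cast_zero, zero_add]; exact tM1⟩)
    (by simp only [Nat.cast_zero, zero_sub]; rw [t1]; exact h01)
    (by simp only [Nat.cast_zero, zero_add]; exact h01)
  obtain ⟨m, rfl⟩ : ∃ m, M = m + 1 := ⟨M - 1, by omega⟩
  constructor
  · rw [hp.hB, tM]
  · have e : A (v (m + 1)) - a 0 • v (m + 1) = v (m + 2) + x (m + 1) • v m := by
      rw [hp.hA, ha, Nat.add_sub_cancel]; module
    rw [e, map_add, map_smul, hp.hB, hp.hB]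
    push_cast at *
    rw [show (m : ℤ) + 2 = m + 1 + 1 by ring, tM1]
    rw [show (m : ℤ) + 1 - 1 = m by ring] at tM_1
    rw [tM_1]
    module

/-- corner at the start -/
theorem sg_T1 (hp : PB A B N v (fun n : ℕ => τ n) a x) (h : TSys p N τ a x) {M : ℕ}
    (hM0 : 0 < M) (hM : (M : ℕ∞) < N) (hper : Per τ M) (hconst : ¬ Per τ 1) (hc1 : Cen τ (-1)) :
    Sg A B (τ 0) (τ 1) (a 0) (aeval A (PP a x M + C (a 0 - a M) * PP a x (M - 1)) (v 0)) := by
  have t_1 : τ (-1) = τ 0 := hc1.at (by ring)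
  have t_2 : τ (-2) = τ 1 := hc1.at (by ring)
  have h01 : τ 0 ≠ τ 1 := by
    intro h0
    apply hconst
    apply h.tau.per_one_of (n := 0) (by simpa using t_1) (by simpa using h0)
  have hM3 : 3 ≤ M := by
    by_contra hlt
    push Not at hlt
    rcases (by omega : M = 1 ∨ M = 2) with rfl | rfl
    · exact hconst (by simpa using hper)
    · apply h01
      rw [← t_1]
      exact (hper.at (by norm_num)).symm
  have tM : τ M = τ 0 := hper.at (by ring)
  have tM1 : τ (M + 1) = τ 1 := hper.at (by ring)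
  have tM_1 : τ (M - 1) = τ 0 := by rw [← t_1]; exact hper.at (by ring)
  have tM_2 : τ (M - 2) = τ 1 := by rw [← t_2]; exact hper.at (by ring)
  have hx := h.xM_corner hM3 hM hper hc1 h01
  obtain ⟨m, rfl⟩ : ∃ m, M = m + 3 := ⟨M - 3, by omega⟩
  rw [show m + 3 - 1 = m + 2 by rfl] at hx ⊢
  rw [map_add, map_mul, aeval_C, LinearMap.add_apply, Module.End.mul_apply,
    Module.algebraMap_end_apply, hp.PP_apply, hp.PP_apply]
  push_cast at *
  rw [show (m : ℤ) + 3 - 1 = m + 2 by ring] at tM_1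
  rw [show (m : ℤ) + 3 - 2 = m + 1 by ring] at tM_2
  rw [show (m : ℤ) + 3 + 1 = m + 4 by ring] at tM1
  constructor
  · rw [map_add, map_smul, hp.hB, hp.hB]
    push_cast
    rw [tM, tM_1]; module
  · have e : A (v (m + 3) + (a 0 - a (m + 3)) • v (m + 2)) -
        a 0 • (v (m + 3) + (a 0 - a (m + 3)) • v (m + 2)) =
        v (m + 4) + ((a 0 - a (m + 3)) * x (m + 2)) • v (m + 1) := by
      rw [map_add, map_smul, hp.hA, hp.hA, hx, show m + 3 - 1 = m + 2 by rfl,
        show m + 2 - 1 = m + 1 by rfl]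
      module
    rw [e, map_add, map_smul, hp.hB, hp.hB]
    push_cast
    rw [tM1, tM_2]; module

/-- mirror just before the first vertex -/
theorem sg_T2 (hp : PB A B N v (fun n : ℕ => τ n) a x) (h : TSys p N τ a x) {M : ℕ}
    (hM0 : 0 < M) (hM : (M : ℕ∞) < N) (hper : Per τ M) (hc0 : ¬ Cen τ 0) (hc1 : ¬ Cen τ (-1))
    (hc2 : Cen τ (-2)) :
    Sg A B (τ 0) (τ 1) (a 0) (aeval A (PP a x M - C (x M) * PP a x (M - 2)) (v 0)) := by
  have hconst : ¬ Per τ 1 := fun hc => hc0 fun k => hc.const _ _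
  have t_2 : τ (-2) = τ 0 := hc2.at (by ring)
  have t_3 : τ (-3) = τ 1 := hc2.at (by ring)
  have hn0 : τ 0 ≠ τ (-1) := by
    intro h0
    apply hc1
    exact h.tau.cen_of (i := -1) (j := 0) (by ring) h0.symm (by norm_num; exact h0)
  have hM3 : 3 ≤ M := by
    by_contra hlt
    push Not at hlt
    rcases (by omega : M = 1 ∨ M = 2) with rfl | rfl
    · exact hconst (by simpa using hper)
    · apply hc0
      have := hc2.add hper
      simpa using this
  have tM : τ M = τ 0 := hper.at (by ring)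
  have tM1 : τ (M + 1) = τ 1 := hper.at (by ring)
  have tM_1 : τ (M - 1) = τ (-1) := hper.at (by ring)
  have tM_2 : τ (M - 2) = τ 0 := by rw [← t_2]; exact hper.at (by ring)
  have tM_3 : τ (M - 3) = τ 1 := by rw [← t_3]; exact hper.at (by ring)
  obtain ⟨m, rfl⟩ : ∃ m, M = m + 3 := ⟨M - 3, by omega⟩
  rw [show m + 3 - 2 = m + 1 by rfl]
  push_cast at *
  rw [show (m : ℤ) + 3 - 1 = m + 2 by ring] at tM_1
  rw [show (m : ℤ) + 3 - 2 = m + 1 by ring] at tM_2
  rw [show (m : ℤ) + 3 - 3 = m by ring] at tM_3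
  rw [show (m : ℤ) + 3 + 1 = m + 4 by ring] at tM1
  rw [map_sub, map_mul, aeval_C, LinearMap.sub_apply, Module.End.mul_apply,
    Module.algebraMap_end_apply, hp.PP_apply, hp.PP_apply]
  have e : A (v (m + 3) - x (m + 3) • v (m + 1)) -
        a 0 • (v (m + 3) - x (m + 3) • v (m + 1)) =
        v (m + 4) + (a (m + 3) - a 0) • v (m + 3) - (x (m + 3) * (a (m + 1) - a 0)) • v (m + 1)
          - (x (m + 3) * x (m + 1)) • v m := by
    rw [map_sub, map_smul, hp.hA, hp.hA, show m + 3 - 1 = m + 2 by rfl,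
      show m + 1 - 1 = m by rfl]
    module
  constructor
  · rw [map_sub, map_smul, hp.hB, hp.hB]
    push_cast
    rw [tM, tM_2]; module
  · by_cases h01 : τ 0 = τ 1
    · rw [e, map_sub, map_sub, map_add, map_smul, map_smul, map_smul, hp.hB, hp.hB, hp.hB,
        hp.hB]
      push_cast
      rw [tM1, tM_3, tM, tM_2, ← h01]; module
    · have ha : a (m + 3) = a 0 := h.a_eq (m := 0) (lt_of_le_of_lt bot_le hM)
        (by exact_mod_cast hM) (by push_cast; simpa using tM)
        (Or.inl ⟨by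
          push_cast
          rw [show (m : ℤ) + 3 - 1 = m + 2 by ring, tM_1], by
          push_cast
          rw [show (m : ℤ) + 3 + 1 = m + 4 by ring, tM1]⟩)
        (by simpa using hn0) (by simpa using h01)
      have ha2 : a (m + 1) = a 0 := h.a_eq (m := 0) (lt_of_le_of_lt bot_le hM)
        (lt_of_add (m := 2) (by exact_mod_cast hM)) (by push_cast; simpa using tM_2)
        (Or.inr ⟨by
          push_cast
          simpa using tM_3, by
          push_cast
          rw [show (m : ℤ) + 1 + 1 = m + 2 by ring, tM_1]⟩)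
        (by simpa using hn0) (by simpa using h01)
      rw [e, ha, ha2, map_sub, map_sub, map_add, map_smul, map_smul, map_smul, hp.hB, hp.hB,
        hp.hB, hp.hB]
      push_cast
      rw [tM1, tM_3]; module

theorem PP_add_natDegree (a x : ℕ → K) (c : K) {m n : ℕ} (hmn : n < m) :
    (PP a x m + C c * PP a x n).Monic ∧ (PP a x m + C c * PP a x n).natDegree = m := by
  constructor
  · apply (PP_monic a x m).1.add_of_left
    refine lt_of_le_of_lt (degree_le_of_natDegree_le
        ((natDegree_C_mul_le _ _).trans (PP_monic a x n).2.le)) ?_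
    rw [degree_eq_natDegree (PP_monic a x m).1.ne_zero, (PP_monic a x m).2]
    exact_mod_cast hmn
  · rw [natDegree_add_eq_left_of_natDegree_lt, (PP_monic a x m).2]
    rw [(PP_monic a x m).2]
    exact lt_of_le_of_lt ((natDegree_C_mul_le _ _).trans (PP_monic a x n).2.le) hmn

theorem TT_monic (a x : ℕ → K) (s : ℤ) {M : ℕ} (hM : s = 0 ∨ (s = -1 ∧ 1 ≤ M) ∨ 2 ≤ M) :
    (TT a x s M).Monic ∧ (TT a x s M).natDegree = M := by
  unfold TT
  split_ifs with h1 h2
  · exact PP_monic a x M
  · exact PP_add_natDegree a x _ (by omega)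
  · have := PP_add_natDegree a x (-x M) (m := M) (n := M - 2) (by omega)
    rwa [C_neg, neg_mul, ← sub_eq_add_neg] at this

theorem sg_TT (hp : PB A B N v (fun n : ℕ => τ n) a x) (h : TSys p N τ a x) {M : ℕ}
    (hM0 : 0 < M) (hM : (M : ℕ∞) < N) (hper : Per τ M) (hconst : ¬ Per τ 1) {s : ℤ}
    (hs : Cen τ s) (hs' : s = 0 ∨ s = -1 ∨ (s = -2 ∧ ¬ Cen τ 0)) :
    Sg A B (τ 0) (τ 1) (a 0) (aeval A (TT a x s M) (v 0)) := by
  rcases hs' with rfl | rfl | ⟨rfl, h0⟩
  · rw [TT, if_pos rfl]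
    exact sg_T0 hp h hM0 hM hper hconst hs
  · rw [TT, if_neg (by norm_num), if_pos rfl]
    exact sg_T1 hp h hM0 hM hper hconst hs
  · rw [TT, if_neg (by norm_num), if_neg (by norm_num)]
    refine sg_T2 hp h hM0 hM hper h0 (fun h1 => hconst ?_) hs
    have := hs.per h1
    simpa using this

/-- special start and a period: a monic polynomial `T` of degree the period such that `T(A) v 0` is
singular with the same parameters as `v 0` -/
theorem exists_T (hp : PB A B N v (fun n : ℕ => τ n) a x) (h : TSys p N τ a x) {M : ℕ}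
    (hM0 : 0 < M) (hM : (M : ℕ∞) < N) (hper : Per τ M)
    (hs : Cen τ 0 ∨ Cen τ (-1) ∨ Cen τ (-2)) :
    ∃ T : K[X], T.Monic ∧ T.natDegree = M ∧ Sg A B (τ 0) (τ 1) (a 0) (aeval A T (v 0)) := by
  by_cases hconst : Per τ 1
  · exact ⟨PP a x M, (PP_monic a x M).1, (PP_monic a x M).2,
      Sg.of_const (hp.B_scalar hconst) (hconst.const _ _) _ _⟩
  by_cases hc0 : Cen τ 0
  · exact ⟨_, (PP_monic a x M).1, (PP_monic a x M).2, sg_T0 hp h hM0 hM hper hconst hc0⟩
  by_cases hc1 : Cen τ (-1)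
  · obtain ⟨h1, h2⟩ := TT_monic a x (-1) (M := M) (Or.inr (Or.inl ⟨rfl, hM0⟩))
    exact ⟨_, h1, h2, sg_TT hp h hM0 hM hper hconst hc1 (Or.inr (Or.inl rfl))⟩
  · have hc2 : Cen τ (-2) := by
      rcases hs with h1 | h1 | h1
      · exact absurd h1 hc0
      · exact absurd h1 hc1
      · exact h1
    have hM2 : 2 ≤ M := by
      by_contra hlt
      have : M = 1 := by omega
      subst this
      exact hconst (by simpa using hper)
    obtain ⟨h1, h2⟩ := TT_monic a x (-2) (M := M) (Or.inr (Or.inr hM2))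
    exact ⟨_, h1, h2, sg_TT hp h hM0 hM hper hconst hc2 (Or.inr (Or.inr ⟨rfl, hc0⟩))⟩

/-- an infinite dimensional irreducible module has distinct eigenvalues of `B` -/
theorem inj_of_infinite (hp : PB A B ⊤ v (fun n : ℕ => τ n) a x) (h : TSys p ⊤ τ a x)
    (h1 : AW1 p A B) (hI : Irr A B) : Inj ⊤ (fun n : ℕ => τ n) := by
  have key : ∀ i j : ℕ, i < j → τ i ≠ τ j := by
    intro i j hij he
    have hcp := h.tau.cen_or_per he
    by_cases hs : Cen τ 0 ∨ Cen τ (-1) ∨ Cen τ (-2)
    · have hM : ∃ M : ℕ, 0 < M ∧ Per τ M := by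
        rcases hcp with hc | hc
        · rcases hs with h2 | h2 | h2
          · refine ⟨i + j, by omega, ?_⟩
            have := h2.per hc
            simpa using this
          · refine ⟨i + j + 1, by omega, ?_⟩
            have := h2.per hc
            push_cast
            convert this using 1
            ring
          · refine ⟨i + j + 2, by omega, ?_⟩
            have := h2.per hc
            push_cast
            convert this using 1
            ring
        · refine ⟨j - i, by omega, ?_⟩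
          rw [Nat.cast_sub hij.le]
          exact hc
      obtain ⟨M, hM0, hM⟩ := hM
      obtain ⟨T, hT, hT1, hT2⟩ := exists_T hp h hM0 (ENat.natCast_lt_top M) hM hs
      exact hp.no_sing h1 hI (by rw [hT1]; exact hM0) hT2
    · push Not at hs
      obtain ⟨s0, s1, s2⟩ := hs
      have r1 : τ (-1) ≠ τ 0 := by
        intro h0
        exact s1 (h.tau.cen_of (i := -1) (j := 0) (by ring) h0 (by norm_num; exact h0.symm))
      have r2 : τ (-1) ≠ τ 1 := by
        intro h0
        exact s0 (by simpa using h.tau.cen_mirror (n := 0) (by simpa using h0))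
      have r3 : τ (-2) ≠ τ 0 := by
        intro h0
        exact s2 (by simpa using h.tau.cen_mirror (n := -1) (by norm_num; exact h0))
      rcases hcp with hc | hc
      · have := h.reg_cen r1 r2 r3 (c := i + j) (by push_cast; exact hc)
        exact absurd this (not_le.2 (ENat.natCast_lt_top _))
      · have := h.reg_per r1 r2 r3 (M := j - i) (by omega)
          (by rw [Nat.cast_sub hij.le]; exact hc)
        exact absurd this (not_le.2 (ENat.natCast_lt_top _))
  intro i j _ _ he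
  rcases Nat.lt_trichotomy i j with hlt | heq | hgt
  · exact absurd he (key i j hlt)
  · exact heq
  · exact absurd he.symm (key j i hgt)

end Pool.Agent.TH10.AW
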