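import Pool.Agent.TH10.AW.EndF
import Pool.Agent.TH10.AW.Inf

/-! The structure of an irreducible module with repeated eigenvalues over its endomorphism ring. -/

set_option autoImplicit false
set_option linter.unusedSectionVars false
set_option linter.style.haveILetI false

namespace Pool.Agent.TH10.AW

open Polynomial

variable {K : Type*} [Field K] {p : Scal K}
variable {V : Type*} [AddCommGroup V] [Module K V]
variable {A B : Module.End K V}

section F

variable {F : Type*} [DivisionRing F] [Algebra K F] [Module F V] [IsScalarTower K F V]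
variable {n0 : ℕ} {v : ℕ → V} {a x : ℕ → K} {τ : ℤ → K}

theorem aeval_smul_F (cA : ∀ (c : F) (w : V), A (c • w) = c • A w) (g : K[X]) (c : F) (w : V) :
    aeval A g (c • w) = c • aeval A g w := by
  induction g using Polynomial.induction_on' with
  | add f g hf hg => rw [map_add, LinearMap.add_apply, LinearMap.add_apply, hf, hg, smul_add]
  | monomial n k =>
    rw [aeval_monomial, Module.End.mul_apply, Module.End.mul_apply, Module.algebraMap_end_apply,
      Module.algebraMap_end_apply, smul_comm c k]
    congr 1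
    induction n with
    | zero => simp
    | succ n ih => rw [pow_succ', Module.End.mul_apply, Module.End.mul_apply, ih, cA]

/-- the corner case -/
theorem core_corner [Module.Finite F V]
    (hp : PB A B (n0 : ℕ∞) v (fun n : ℕ => τ n) a x) (h : TSys p (n0 : ℕ∞) τ a x)
    (hrec : Rec F A B v (fun n : ℕ => τ n) a x) (hconst : ¬ Per τ 1) {k : ℕ}
    (hm : Module.finrank F V = k + 1) (hlt : k + 1 < n0)
    (hJ : ∀ i : Fin (Module.finrank F V), hrec.bas.repr (v (k + 1)) i ≠ 0 → (i : ℕ) = k) :
    τ k = τ (k + 1) ∧ n0 ≤ 2 * (k + 1) ∧ (∀ r : K, (r - a k) * (r - a (k + 1)) ≠ x (k + 1)) ∧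
      (n0 = 2 * (k + 1) → PP a x n0 = PP a x (k + 1) ^ 2 +
        C (a k - a (k + 1)) * (PP a x (k + 1) * PP a x k) - C (x (k + 1)) * PP a x k ^ 2) := by
  have cA := hrec.cA
  have hvk1 : v (k + 1) ≠ 0 := hp.ne_zero (by exact_mod_cast hlt)
  have hvk : v k ≠ 0 := hp.ne_zero (by exact_mod_cast (by omega : k < n0))
  obtain ⟨c, hc⟩ : ∃ c : F, v (k + 1) = c • v k := by
    refine ⟨hrec.bas.repr (v (k + 1)) ⟨k, by omega⟩, ?_⟩
    apply hrec.bas.repr.injective
    ext i
    have e : v k = hrec.bas ⟨k, by omega⟩ := (hrec.bas_apply ⟨k, by omega⟩).symm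
    rw [map_smul, Finsupp.smul_apply, e, Module.Basis.repr_self, Finsupp.single_apply, smul_eq_mul]
    split_ifs with hi
    · rw [hi, mul_one]
    · rw [mul_zero]
      by_contra hne
      exact hi (Fin.ext (hJ i hne).symm)
  have hτ : τ k = τ (k + 1) := by
    have e1 := hp.hB (k + 1)
    have e2 := hp.hB k
    have e3 : B (v (k + 1)) = τ k • v (k + 1) := by
      rw [hc, hrec.cB, e2, smul_comm]
    rw [e3] at e1
    have e4 : (τ k - τ ((k + 1 : ℕ) : ℤ)) • v (k + 1) = 0 := by rw [sub_smul, e1, sub_self]
    rcases smul_eq_zero.1 e4 with e5 | e5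
    · have := sub_eq_zero.1 e5
      push_cast at this
      exact this
    · exact absurd e5 hvk1
  have hcen := h.tau.cen_corner hτ
  have hk2 : τ (k + 2) = τ (k - 1) := hcen.at (by ring)
  have hne : τ k ≠ τ (k + 2) := by
    intro h0
    apply hconst
    exact h.tau.per_one_of (n := k) (by rw [← hk2, h0]) hτ
  -- the quadratic equation
  set e : F := c * c + (algebraMap K F (a k) - algebraMap K F (a (k + 1))) * c -
    algebraMap K F (x (k + 1)) with he
  have hv2 : v (k + 2) = e • v k + c • x k • v (k - 1) := by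
    have e1 : v (k + 2) = A (v (k + 1)) - a (k + 1) • v (k + 1) - x (k + 1) • v k := by
      rw [hp.hA, Nat.add_sub_cancel]; module
    rw [e1]
    conv_lhs => rw [hc]
    rw [cA, hp.hA, hc, he, sub_smul, add_smul, mul_smul, mul_smul, sub_smul, algebraMap_smul,
      algebraMap_smul, algebraMap_smul, smul_add, smul_add, smul_comm c (a k)]
    abel
  have he0 : e = 0 := by
    have hz := eig_zero (B := B) (w1 := e • v k) (w2 := c • x k • v (k - 1) - v (k + 2))
      (m1 := τ k) (m2 := τ (k + 2))
      (by rw [hrec.cB, hp.hB, smul_comm])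
      (by
        have e2 := hp.hB (k + 2)
        push_cast at e2
        have e3 : B (x k • v (k - 1)) = τ (k + 2) • x k • v (k - 1) := by
          rcases k with _ | k
          · rw [h.x0]; simp
          · rw [map_smul, hp.hB, hk2, smul_comm]
            simp only [Nat.add_sub_cancel]
            push_cast
            rw [show (k : ℤ) + 1 - 1 = k by ring]
        rw [map_sub, hrec.cB, e3, e2, smul_sub, smul_comm c (τ (k + 2))])
      hne (by rw [hv2]; abel)
    rcases smul_eq_zero.1 hz with h1 | h1
    · exact h1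
    · exact absurd h1 hvk
  -- a monic polynomial of degree `2 (k+1)` killing `v 0`
  set R : K[X] := PP a x (k + 1) ^ 2 + C (a k - a (k + 1)) * (PP a x (k + 1) * PP a x k) -
    C (x (k + 1)) * PP a x k ^ 2 with hR
  have hRv : aeval A R (v 0) = 0 := by
    set P := aeval A (PP a x (k + 1)) with hP
    set Q := aeval A (PP a x k) with hQ
    have hPv : P (v 0) = c • Q (v 0) := by rw [hP, hQ, hp.PP_apply, hp.PP_apply, hc]
    have hPQ : ∀ w, P (Q w) = Q (P w) := by
      intro w
      rw [hP, hQ, ← Module.End.mul_apply, ← Module.End.mul_apply, ← map_mul, ← map_mul, mul_comm]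
    have hPc : ∀ w : V, P (c • w) = c • P w := aeval_smul_F cA _ c
    have hQc : ∀ w : V, Q (c • w) = c • Q w := aeval_smul_F cA _ c
    rw [hR, map_sub, map_add, map_mul, map_mul, map_mul, map_pow, map_pow, aeval_C, aeval_C,
      LinearMap.sub_apply, LinearMap.add_apply, Module.End.mul_apply, Module.End.mul_apply,
      Module.End.mul_apply, Module.algebraMap_end_apply, Module.algebraMap_end_apply, pow_two,
      pow_two, Module.End.mul_apply, Module.End.mul_apply]
    change P (P (v 0)) + (a k - a (k + 1)) • P (Q (v 0)) - x (k + 1) • Q (Q (v 0)) = 0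
    rw [hPv, hPc, hPQ, hPv, hQc]
    have e1 : e • Q (Q (v 0)) = 0 := by rw [he0, zero_smul]
    rw [he, sub_smul, add_smul, mul_smul, mul_smul, sub_smul, algebraMap_smul,
      algebraMap_smul, algebraMap_smul] at e1
    rw [sub_smul]
    exact e1
  have hPm := PP_monic a x (k + 1)
  have hQm := PP_monic a x k
  have hR1 : (PP a x (k + 1) ^ 2).Monic ∧ (PP a x (k + 1) ^ 2).natDegree = 2 * (k + 1) := by
    refine ⟨hPm.1.pow 2, ?_⟩
    rw [hPm.1.natDegree_pow, hPm.2]
  have hR2 : R.Monic ∧ R.natDegree = 2 * (k + 1) := by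
    have d1 : (C (a k - a (k + 1)) * (PP a x (k + 1) * PP a x k)).natDegree < 2 * (k + 1) := by
      refine lt_of_le_of_lt (natDegree_C_mul_le _ _) ?_
      rw [hPm.1.natDegree_mul hQm.1, hPm.2, hQm.2]; omega
    have d2 : (C (x (k + 1)) * PP a x k ^ 2).natDegree < 2 * (k + 1) := by
      refine lt_of_le_of_lt (natDegree_C_mul_le _ _) ?_
      rw [hQm.1.natDegree_pow, hQm.2]; omega
    have d3 : (C (a k - a (k + 1)) * (PP a x (k + 1) * PP a x k) -
        C (x (k + 1)) * PP a x k ^ 2).natDegree < 2 * (k + 1) :=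
      lt_of_le_of_lt (natDegree_sub_le _ _) (max_lt d1 d2)
    have hRe : R = PP a x (k + 1) ^ 2 + (C (a k - a (k + 1)) * (PP a x (k + 1) * PP a x k) -
        C (x (k + 1)) * PP a x k ^ 2) := by rw [hR]; ring
    rw [hRe]
    constructor
    · apply hR1.1.add_of_left
      rw [degree_eq_natDegree hR1.1.ne_zero, hR1.2]
      exact lt_of_le_of_lt degree_le_natDegree (by exact_mod_cast d3)
    · rw [natDegree_add_eq_left_of_natDegree_lt, hR1.2]
      rw [hR1.2]; exact d3
  have hle : n0 ≤ 2 * (k + 1) := by
    by_contra hcon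
    exact hp.aeval_ne_zero hR2.1.ne_zero (by rw [hR2.2]; exact_mod_cast not_le.1 hcon) hRv
  refine ⟨hτ, hle, ?_, ?_⟩
  · intro r hr
    have hcK : ∀ s : K, c ≠ algebraMap K F s := by
      intro s hs
      rw [hs, algebraMap_smul] at hc
      obtain ⟨φ, hφ⟩ := hp.exists_coord (m := k + 1) (by exact_mod_cast hlt)
      have := congrArg φ hc
      rw [map_smul, hφ, hφ, if_pos rfl, if_neg (by omega)] at this
      simp at this
    have hprod : (c - algebraMap K F (r - a k)) * (c - algebraMap K F (a (k + 1) - r)) = 0 := by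
      rw [← he0, he, ← hr]
      simp only [map_sub, map_mul]
      have c1 := Algebra.commutes (a (k + 1)) c
      have c2 := Algebra.commutes r c
      have c3 := Algebra.commutes (a k) c
      generalize algebraMap K F (a (k + 1)) = α1 at *
      have c4 : algebraMap K F r * algebraMap K F (a k) = algebraMap K F (a k) * algebraMap K F r :=
        Algebra.commutes _ _
      generalize algebraMap K F r = ρ at *
      generalize algebraMap K F (a k) = α0 at *
      have : (c - (ρ - α0)) * (c - (α1 - ρ)) =
          c * c - c * α1 + c * ρ - ρ * c + α0 * c - (ρ - α0) * (ρ - α1) := by noncomm_ring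
      rw [this, ← c1, ← c2]
      noncomm_ring
    rcases mul_eq_zero.1 hprod with h1 | h1
    · exact hcK _ (sub_eq_zero.1 h1)
    · exact hcK _ (sub_eq_zero.1 h1)
  · intro hn
    have hN := PP_monic a x n0
    by_contra hne
    have hsub : PP a x n0 - R ≠ 0 := sub_ne_zero.2 hne
    apply hp.aeval_ne_zero hsub
    · have : (PP a x n0 - R).degree < (PP a x n0).degree := by
        apply degree_sub_lt_left
        · rw [degree_eq_natDegree hN.1.ne_zero, degree_eq_natDegree hR2.1.ne_zero, hN.2, hR2.2, hn]
        · exact hN.1.ne_zero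
        · rw [hN.1.leadingCoeff, hR2.1.leadingCoeff]
      have := natDegree_lt_natDegree hsub this
      rw [hN.2] at this
      exact_mod_cast this
    · rw [map_sub, LinearMap.sub_apply, hp.PP_apply, hRv, hp.zero n0 le_rfl, sub_zero]

/-- the coordinate along the last basis vector of `A w`, when `w` has no component along it -/
theorem repr_A_last [Module.Finite F V]
    (hrec : Rec F A B v (fun n : ℕ => τ n) a x) {k : ℕ} (hm : Module.finrank F V = k + 2) {w : V}
    (hw : hrec.bas.repr w ⟨k + 1, by omega⟩ = 0) :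
    hrec.bas.repr (A w) ⟨k + 1, by omega⟩ = hrec.bas.repr w ⟨k, by omega⟩ := by
  have hv : ∀ j, j < k + 2 → hrec.bas.repr (v j) ⟨k + 1, by omega⟩ = if j = k + 1 then 1 else 0 := by
    intro j hj
    have e : v j = hrec.bas ⟨j, by omega⟩ := (hrec.bas_apply ⟨j, by omega⟩).symm
    rw [e, Module.Basis.repr_self, Finsupp.single_apply]
    simp only [Fin.mk.injEq]
  have e1 : A w = ∑ i, hrec.bas.repr w i • A (hrec.bas i) := by
    conv_lhs => rw [← hrec.bas.sum_repr w]
    rw [map_sum]
    exact Finset.sum_congr rfl fun i _ => hrec.cA _ _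
  rw [e1, map_sum, Finsupp.finsetSum_apply, Finset.sum_eq_single (⟨k, by omega⟩ : Fin _)]
  · rw [map_smul, Finsupp.smul_apply, smul_eq_mul, hrec.bas_apply, hrec.rA, map_add, map_add,
      ← algebraMap_smul F (a k), ← algebraMap_smul F (x k), map_smul, map_smul,
      Finsupp.add_apply, Finsupp.add_apply, Finsupp.smul_apply, Finsupp.smul_apply]
    simp only
    rw [hv (k + 1) (by omega), hv k (by omega), hv (k - 1) (by omega), if_pos rfl,
      if_neg (by omega), if_neg (by omega)]
    simp
  · intro i _ hi
    have hi2 := i.2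
    by_cases h1 : (i : ℕ) = k + 1
    · have : i = ⟨k + 1, by omega⟩ := Fin.ext h1
      rw [this, hw, zero_smul]; simp
    · have hik : (i : ℕ) ≠ k := fun h0 => hi (Fin.ext h0)
      rw [map_smul, Finsupp.smul_apply, smul_eq_mul, hrec.bas_apply, hrec.rA, map_add, map_add,
        ← algebraMap_smul F (a i), ← algebraMap_smul F (x i), map_smul, map_smul,
        Finsupp.add_apply, Finsupp.add_apply, Finsupp.smul_apply, Finsupp.smul_apply]
      rw [hv (i + 1) (by omega), hv i (by omega), hv (i - 1) (by omega), if_neg (by omega),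
        if_neg (by omega), if_neg (by omega)]
      simp
  · intro hi
    exact absurd (Finset.mem_univ _) hi

/-- special start: the vector after the `F`-basis involves only the last basis vector -/
theorem hJ_special [Module.Finite F V]
    (hp : PB A B (n0 : ℕ∞) v (fun n : ℕ => τ n) a x) (h : TSys p (n0 : ℕ∞) τ a x)
    (hrec : Rec F A B v (fun n : ℕ => τ n) a x) {M : ℕ} (hM : MinPer τ M) {s : ℤ} (hs : Cen τ s)
    (hs' : s = 0 ∨ s = -1 ∨ s = -2) {k : ℕ}
    (hm : Module.finrank F V = k + 1) (hlt : k + 1 < n0) (hkM : k + 1 < M) :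
    ∀ i : Fin (Module.finrank F V), hrec.bas.repr (v (k + 1)) i ≠ 0 → (i : ℕ) = k := by
  have hMp : (0 : ℤ) < M := by exact_mod_cast hM.pos
  -- divisibility of small numbers
  have dv0 : ∀ y : ℤ, (M : ℤ) ∣ y → 0 < y → y < M → False := by
    intro y hy h1 h2
    have := Int.le_of_dvd h1 hy
    omega
  have dv1 : ∀ y : ℤ, (M : ℤ) ∣ y → 0 < y → y < 2 * M → y = M := by
    intro y hy h1 h2
    obtain ⟨j, rfl⟩ := hy
    have h3 : 0 < j := by
      by_contra hcon
      nlinarith
    have h4 : j < 2 := by
      by_contra hcon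
      have : (2 : ℤ) ≤ j := by omega
      have : (M : ℤ) * 2 ≤ M * j := mul_le_mul_of_nonneg_left this hMp.le
      omega
    have : j = 1 := by omega
    rw [this, mul_one]
  have hJ : ∀ i : Fin (Module.finrank F V), hrec.bas.repr (v (k + 1)) i ≠ 0 →
      (M : ℤ) ∣ i + (k + 1) - s := by
    intro i hi
    have hi2 := i.2
    have e := hrec.repr_eig (hrec.rB (k + 1)) i hi
    push_cast at e
    rcases hM.coinc h.tau hs e with h1 | h1
    · exfalso
      exact dv0 _ h1 (by omega) (by omega)
    · exact h1
  rcases k with _ | k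
  · intro i _
    have := i.2
    omega
  -- now `dim = k + 2`
  intro i hi
  have hi2 := i.2
  by_contra hik
  have hd := hJ i hi
  push_cast at hd
  have hlast : hrec.bas.repr (v (k + 2)) ⟨k + 1, by omega⟩ = 0 := by
    by_contra hne
    have h1 := hJ _ hne
    push_cast at h1
    have h2 := dv1 _ h1 (by omega) (by omega)
    exact dv0 _ hd (by omega) (by omega)
  have hA := repr_A_last hrec hm hlast
  have e3 : v (k + 3) = A (v (k + 2)) - a (k + 2) • v (k + 2) - x (k + 2) • v (k + 1) := by
    rw [hp.hA, show k + 2 - 1 = k + 1 by rfl]; module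
  have e4 : hrec.bas.repr (v (k + 3)) ⟨k + 1, by omega⟩ =
      hrec.bas.repr (v (k + 2)) ⟨k, by omega⟩ - algebraMap K F (x (k + 2)) := by
    have e5 : hrec.bas.repr (v (k + 1)) ⟨k + 1, by omega⟩ = 1 := by
      have e : v (k + 1) = hrec.bas ⟨k + 1, by omega⟩ := (hrec.bas_apply ⟨k + 1, by omega⟩).symm
      rw [e, Module.Basis.repr_self, Finsupp.single_apply, if_pos rfl]
    rw [e3, ← algebraMap_smul F (a (k + 2)), ← algebraMap_smul F (x (k + 2)), map_sub, map_sub,
      map_smul, map_smul, Finsupp.sub_apply, Finsupp.sub_apply, Finsupp.smul_apply,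
      Finsupp.smul_apply, hA, hlast, e5]
    simp
  by_cases h5 : hrec.bas.repr (v (k + 3)) ⟨k + 1, by omega⟩ = 0
  · -- mirror at `k + 1`
    rw [h5] at e4
    have e5 : hrec.bas.repr (v (k + 2)) ⟨k, by omega⟩ = algebraMap K F (x (k + 2)) :=
      (sub_eq_zero.1 e4.symm)
    have hx : x (k + 2) ≠ 0 := h.xne (k + 2) (by omega) (by exact_mod_cast hlt)
    have h6 : hrec.bas.repr (v (k + 2)) ⟨k, by omega⟩ ≠ 0 := by
      rw [e5]
      simpa using hx
    have h7 := hJ _ h6
    push_cast at h7
    have h8 := dv1 _ h7 (by omega) (by omega)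
    -- all other coordinates vanish
    have h9 : v (k + 2) = x (k + 2) • v k := by
      apply hrec.bas.repr.injective
      ext j
      have e : v k = hrec.bas ⟨k, by omega⟩ := (hrec.bas_apply ⟨k, by omega⟩).symm
      rw [← algebraMap_smul F (x (k + 2)), map_smul, Finsupp.smul_apply, e,
        Module.Basis.repr_self, Finsupp.single_apply, smul_eq_mul]
      split_ifs with hj
      · rw [← hj, mul_one, e5]
      · rw [mul_zero]
        by_contra hne
        have hj2 := j.2
        have h10 := hJ j hne
        push_cast at h10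
        have hjk : (j : ℕ) ≠ k := fun h0 => hj (Fin.ext h0.symm)
        have hjk1 : (j : ℕ) ≠ k + 1 := by
          intro h0
          apply hne
          have : j = ⟨k + 1, by omega⟩ := Fin.ext h0
          rw [this]; exact hlast
        exact dv0 _ h10 (by omega) (by omega)
    obtain ⟨φ, hφ⟩ := hp.exists_coord (m := k + 2) (by exact_mod_cast hlt)
    have := congrArg φ h9
    rw [map_smul, hφ, hφ, if_pos rfl, if_neg (by omega)] at this
    simp at this
  · -- mirror at `k + 2`
    have e := hrec.repr_eig (hrec.rB (k + 3)) _ h5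
    simp only at e
    push_cast at e
    rcases hM.coinc h.tau hs e with h6 | h6
    · rcases Int.eq_nat_or_neg ((k : ℤ) + 3 - (k + 1)) with _ | _
      · exact dv0 _ h6 (by omega) (by omega)
      · exact dv0 _ h6 (by omega) (by omega)
    · have h7 : (k : ℤ) + 1 + (k + 3) - s = M ∨ (k : ℤ) + 1 + (k + 3) - s = 2 * M := by
        by_cases h8 : (k : ℤ) + 1 + (k + 3) - s < 2 * M
        · exact Or.inl (dv1 _ h6 (by omega) h8)
        · right; omega
      rcases h7 with h7 | h7
      · exact dv0 _ hd (by omega) (by omega)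
      · -- `s = -2`, `M = k + 3`
        have h8 : (M : ℤ) ∣ (i : ℤ) + 1 := by
          have h9 : (M : ℤ) ∣ ((i : ℤ) + (k + 1 + 1) - s) - M := dvd_sub_self_right.2 hd
          have h10 : ((i : ℤ) + (k + 1 + 1) - s) - M = i + 1 := by omega
          rwa [h10] at h9
        exact dv0 _ h8 (by omega) (by omega)

end F

end Pool.Agent.TH10.AW
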