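import Pool.Agent.TH10.AW.SymDef
import Pool.Agent.TH10.AW.PolyDef

/-! Parameters of the model modules, the four types, and the closed forms. -/

set_option autoImplicit false

namespace Pool.Agent.TH10.AW

open Polynomial

/-- Parameters of a model module. -/
structure Data (K : Type*) where
  N : ℕ∞
  θ : ℕ → K
  a : ℕ → K
  x : ℕ → K

variable {K : Type*} [Field K]

/-- The parameters satisfy the Askey-Wilson system and the nonvanishing conditions. -/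
structure Data.Ok (D : Data K) (p : Scal K) : Prop where
  N0 : D.N ≠ 0
  x0 : D.x 0 = 0
  xN : ∀ n : ℕ, D.N ≤ n → D.x n = 0
  xne : ∀ n : ℕ, 0 < n → (n : ℕ∞) < D.N → D.x n ≠ 0
  sys : Sys p D.N D.θ D.a D.x

/-- The space of the model module: the vector space with basis indexed by the `i < N`. -/
abbrev Data.Sp (D : Data K) := {i : ℕ // (i : ℕ∞) < D.N} →₀ K

open scoped Classical in
/-- basis vector `v n`, zero for `n ≥ N` -/
noncomputable def Data.vec (D : Data K) (n : ℕ) : D.Sp :=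
  if h : (n : ℕ∞) < D.N then Finsupp.single ⟨n, h⟩ 1 else 0

/-- the operator `A` of the model -/
noncomputable def Data.opA (D : Data K) : Module.End K D.Sp :=
  Finsupp.linearCombination K (fun i : {i : ℕ // (i : ℕ∞) < D.N} =>
    D.vec (i + 1) + D.a i • D.vec i + D.x i • D.vec (i - 1))

/-- the operator `A*` of the model -/
noncomputable def Data.opB (D : Data K) : Module.End K D.Sp :=
  Finsupp.linearCombination K (fun i : {i : ℕ // (i : ℕ∞) < D.N} => D.θ i • D.vec i)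

/-- the two parameter sets agree (below `N`) -/
def Data.Same (D D' : Data K) : Prop :=
  D.N = D'.N ∧ ∀ n : ℕ, (n : ℕ∞) < D.N → D.θ n = D'.θ n ∧ D.a n = D'.a n ∧ D.x n = D'.x n

/-- the parameters read backwards (for `N = M` finite) -/
def Data.rev (D : Data K) (M : ℕ) : Data K :=
  ⟨M, fun i => D.θ (M - 1 - i), fun i => D.a (M - 1 - i), fun i => D.x (M - i)⟩

/-- distinct eigenvalues of `A*` -/
def Data.Dist (D : Data K) : Prop :=
  ∀ i j : ℕ, (i : ℕ∞) < D.N → (j : ℕ∞) < D.N → D.θ i = D.θ j → i = j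

/-- `τ : ℤ → K` is a two-sided continuation of `θ` -/
def Data.Ext (D : Data K) (p : Scal K) (τ : ℤ → K) : Prop :=
  IsTau p τ ∧ ∀ n : ℕ, (n : ℕ∞) < D.N → D.θ n = τ n

/-- type II: `A*` is a scalar, `N ≥ 2` is finite and the polynomial `P_N` is irreducible -/
def Data.II (D : Data K) : Prop :=
  ∃ n : ℕ, 2 ≤ n ∧ D.N = n ∧ (∀ i < n, D.θ i = D.θ 0) ∧ Irreducible (PP D.a D.x n)

/-- type III: `N = 2(k+1)`, the sequence `θ` is symmetric with distinct entries in each half, and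
the quadratic polynomial at the centre has no root -/
def Data.III (D : Data K) : Prop :=
  ∃ k : ℕ, 1 ≤ k ∧ D.N = ((2 * (k + 1) : ℕ) : ℕ∞) ∧ D.θ k = D.θ (k + 1) ∧
    (∀ i j : ℕ, i < j → j ≤ k → D.θ i ≠ D.θ j) ∧ D.a (2 * k + 1) = D.a 0 ∧
    ∀ r : K, (r - D.a k) * (r - D.a (k + 1)) ≠ D.x (k + 1)

/-- type IV: `N` is `d` times the least period `M` of the continuation `τ`, which is symmetric about
`s / 2`, where `s = 0, -1, -2`; for `d ≥ 2` the polynomial `P_N` is `f(T)` with `f` irreducible of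
degree `d` -/
def Data.IV (D : Data K) (p : Scal K) (d : ℕ) : Prop :=
  ∃ (τ : ℤ → K) (M : ℕ) (s : ℤ), D.Ext p τ ∧ D.N = ((M * d : ℕ) : ℕ∞) ∧ 3 ≤ M * d ∧ 2 ≤ M ∧
    MinPer τ M ∧ Cen τ s ∧
    (s = 0 ∨ (s = -1 ∧ D.a 0 ≠ D.a (M * d - 1)) ∨ (s = -2 ∧ (d = 1 ∨ ¬ Cen τ 0))) ∧
    (d = 1 ∨ ∃ f : K[X], Irreducible f ∧ f.Monic ∧ f.natDegree = d ∧
      PP D.a D.x (M * d) = f.comp (TT D.a D.x s M))

/-- the set of the `θ n`, `n < N` -/
def Data.spec (D : Data K) : Set K := {y | ∃ n : ℕ, (n : ℕ∞) < D.N ∧ D.θ n = y}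

/-- the same `N` and the same polynomial `P_N` -/
def Data.SameP (D D' : Data K) : Prop :=
  D.N = D'.N ∧ ∀ n : ℕ, D.N = n → PP D.a D.x n = PP D'.a D'.x n

open scoped Classical in
/-- the Casimir value -/
noncomputable def Data.kap (D : Data K) (p : Scal K) : K :=
  if p.β * D.θ 0 + p.γs - D.θ 1 = D.θ 0 then
    p.Phi (D.θ 0) (D.θ 1) + (D.θ 1 - D.θ 0) * p.S (D.θ 0) (D.a 0)
  else p.Phi (p.β * D.θ 0 + p.γs - D.θ 1) (D.θ 0)

/-- the equivalence relation of isomorphism, in terms of the parameters -/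
def Data.Eqv (D D' : Data K) (p : Scal K) : Prop :=
  (D.Dist ∧ D'.Dist ∧ (D.Same D' ∨ ∃ M : ℕ, D'.N = M ∧ D.Same (D'.rev M))) ∨
  (D.II ∧ D'.II ∧ D.θ 0 = D'.θ 0 ∧ D.SameP D') ∨
  (D.III ∧ D'.III ∧ D.N = D'.N ∧ D.θ 0 = D'.θ 0 ∧ D.θ 1 = D'.θ 1 ∧ D.a 0 = D'.a 0) ∨
  ((∃ d, D.IV p d) ∧ (∃ d, D'.IV p d) ∧ D.spec = D'.spec ∧ D.kap p = D'.kap p ∧ D.SameP D')

/-- Closed forms of the diagonal entries `a n` and off-diagonal entries `x n`, in terms of the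
eigenvalues `τ` and the Casimir value `κ`. -/
structure Expl (p : Scal K) (N : ℕ∞) (τ : ℤ → K) (κ : K) (a x : ℕ → K) : Prop where
  /-- diagonal entries -/
  A : ∀ n : ℕ, (n : ℕ∞) < N → (τ n - τ (n - 1)) * (τ n - τ (n + 1)) * a n = p.u (τ n)
  /-- diagonal entries at a corner `τ n = τ (n + 1)` -/
  C : ∀ n : ℕ, ((n + 1 : ℕ) : ℕ∞) < N → τ n = τ (n + 1) →
    (τ n - τ (n - 1)) * (a n + a (n + 1)) = 2 * p.γ * τ n + p.ω
  /-- off-diagonal entries -/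
  X : ∀ n : ℕ, (n : ℕ∞) ≤ N → τ (n - 1) ≠ τ n →
    (τ (n + 1) - τ (n - 1)) * (τ n - τ (n - 2)) * x n = p.Phi (τ (n - 1)) (τ n) - κ
  /-- off-diagonal entries at a mirror `τ (n - 1) = τ (n + 1)` -/
  M : ∀ n : ℕ, (n : ℕ∞) < N → τ (n - 1) = τ (n + 1) →
    (τ n - τ (n + 2)) * (x n + x (n + 1)) = p.S (τ n) (a n)
  /-- off-diagonal entries at a corner, seen from the left -/
  L : ∀ n : ℕ, (n : ℕ∞) < N → τ n = τ (n + 1) → (τ n - τ (n - 1)) ^ 2 * x (n + 1) =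
    κ - p.Phi (τ (n - 1)) (τ n) + (τ n - τ (n - 1)) * p.S (τ n) (a n)
  /-- off-diagonal entries at a corner, seen from the right -/
  R : ∀ n : ℕ, (n : ℕ∞) < N → τ (n - 1) = τ n → (τ n - τ (n + 1)) ^ 2 * x n =
    κ - p.Phi (τ (n + 1)) (τ n) + (τ n - τ (n + 1)) * p.S (τ n) (a n)

/-- `x 0 = 0`, `x n ≠ 0` for `0 < n < N`, `x n = 0` for `n ≥ N` -/
structure Data.Xok (D : Data K) : Prop where
  x0 : D.x 0 = 0
  xN : ∀ n : ℕ, D.N ≤ n → D.x n = 0
  xne : ∀ n : ℕ, 0 < n → (n : ℕ∞) < D.N → D.x n ≠ 0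

/-- the case of a scalar `A*` with constant continuation -/
structure Data.Const (D : Data K) (p : Scal K) : Prop where
  c : ∀ n : ℕ, (n : ℕ∞) < D.N → D.θ n = D.θ 0
  g : (2 - p.β) * D.θ 0 = p.γs
  P : p.P (D.θ 0) (D.θ 0) = 0
  u : p.u (D.θ 0) = 0
  w : 2 * p.γ * D.θ 0 + p.ω = 0
  e : p.ρ * D.θ 0 + p.η = 0

end Pool.Agent.TH10.AW
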