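import Mathlib

/-! Askey-Wilson pairs of operators and their normalised polynomial bases. -/

set_option autoImplicit false

namespace Pool.Agent.TH10.AW

/-- The eight scalars of the Askey-Wilson relations. -/
@[ext]
structure Scal (K : Type*) where
  β : K
  γ : K
  γs : K
  ρ : K
  ρs : K
  ω : K
  η : K
  ηs : K

variable {K : Type*} [Field K] (p : Scal K)

/-- `P(x,y) = x² - β x y + y² - γ* (x + y) - ϱ*` -/
def Scal.P (x y : K) : K := x ^ 2 - p.β * x * y + y ^ 2 - p.γs * (x + y) - p.ρs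

/-- `u(x) = γ x² + ω x + η*` -/
def Scal.u (x : K) : K := p.γ * x ^ 2 + p.ω * x + p.ηs

/-- `S(x,a) = ϱ x + η + (ω + 2 γ x) a - ((2 - β) x - γ*) a²` -/
def Scal.S (x a : K) : K :=
  p.ρ * x + p.η + (p.ω + 2 * p.γ * x) * a - ((2 - p.β) * x - p.γs) * a ^ 2

/-- `Φ(x,y) = (γ x y + ω x + η*) (γ x y + ω y + η*) / (x - y)² - ϱ x y - η (x + y)` -/
def Scal.Phi (x y : K) : K :=
  (p.γ * x * y + p.ω * x + p.ηs) * (p.γ * x * y + p.ω * y + p.ηs) / (x - y) ^ 2
    - p.ρ * x * y - p.η * (x + y)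

variable {V : Type*} [AddCommGroup V] [Module K V]

/-- the first Askey-Wilson relation -/
def AW1 (A B : Module.End K V) : Prop :=
  A * A * B - p.β • (A * B * A) + B * A * A - p.γ • (A * B + B * A) - p.ρ • B =
    p.γs • (A * A) + p.ω • A + p.η • (1 : Module.End K V)

/-- the second Askey-Wilson relation -/
def AW2 (A B : Module.End K V) : Prop :=
  B * B * A - p.β • (B * A * B) + A * B * B - p.γs • (B * A + A * B) - p.ρs • A =
    p.γ • (B * B) + p.ω • B + p.ηs • (1 : Module.End K V)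

/-- no invariant subspace but `0` and `V` -/
def Irr (A B : Module.End K V) : Prop :=
  Nontrivial V ∧ ∀ W : Submodule K V, (∀ w ∈ W, A w ∈ W) → (∀ w ∈ W, B w ∈ W) → W = ⊥ ∨ W = ⊤

/-- `v 0, v 1, …` (those with index `< N`, the others being `0`) is a basis of `V`, in which `B` is
diagonal with entries `θ n` and `A` is tridiagonal with entries `1` below, `a n` on and `x n` above
the diagonal. -/
structure PB (A B : Module.End K V) (N : ℕ∞) (v : ℕ → V) (θ a x : ℕ → K) : Prop where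
  li : LinearIndependent K (fun i : {i : ℕ // (i : ℕ∞) < N} => v i)
  sp : Submodule.span K (Set.range v) = ⊤
  zero : ∀ n : ℕ, N ≤ n → v n = 0
  hA : ∀ n, A (v n) = v (n + 1) + a n • v n + x n • v (n - 1)
  hB : ∀ n, B (v n) = θ n • v n
  x0 : x 0 = 0
  xN : ∀ n : ℕ, N ≤ n → x n = 0
  xne : ∀ n : ℕ, 0 < n → (n : ℕ∞) < N → x n ≠ 0

/-- The relations between the entries that express the two Askey-Wilson relations. -/
structure Sys (N : ℕ∞) (θ a x : ℕ → K) : Prop where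
  s1 : ∀ n : ℕ, ((n + 2 : ℕ) : ℕ∞) < N → θ (n + 2) = p.β * θ (n + 1) - θ n + p.γs
  s2 : ∀ n : ℕ, ((n + 1 : ℕ) : ℕ∞) < N → p.P (θ n) (θ (n + 1)) = 0
  s3 : ∀ n : ℕ, (n : ℕ∞) < N → p.P (θ n) (θ n) * a n = p.u (θ n)
  s4 : ∀ n : ℕ, ((n + 1 : ℕ) : ℕ∞) < N →
    (θ n + θ (n + 1)) * (a n + a (n + 1)) - p.β * (a n * θ n + a (n + 1) * θ (n + 1))
      - p.γ * (θ n + θ (n + 1)) = p.γs * (a n + a (n + 1)) + p.ω
  s5 : ∀ n : ℕ, (n : ℕ∞) < N →
    (2 * θ n - p.γs) * (x n + a n ^ 2 + x (n + 1))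
      - p.β * (θ (n - 1) * x n + θ n * a n ^ 2 + θ (n + 1) * x (n + 1))
      - 2 * p.γ * a n * θ n - p.ρ * θ n = p.ω * a n + p.η

section PBlemmas

variable {p} {A B : Module.End K V} {N : ℕ∞} {v : ℕ → V} {θ a x : ℕ → K}

theorem PB.ne_zero (h : PB A B N v θ a x) {n : ℕ} (hn : (n : ℕ∞) < N) : v n ≠ 0 :=
  h.li.ne_zero (⟨n, hn⟩ : {i : ℕ // (i : ℕ∞) < N})

/-- comparing coefficients -/
theorem PB.coef_zero (h : PB A B N v θ a x) (s : Finset ℕ) (c : ℕ → K)
    (hc : ∑ i ∈ s, c i • v i = 0) : ∀ i ∈ s, (i : ℕ∞) < N → c i = 0 := by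
  classical
  intro i hi hiN
  have h1 : ∑ j ∈ s.subtype (fun i : ℕ => (i : ℕ∞) < N), c j • v j = 0 := by
    rw [Finset.sum_subtype_eq_sum_filter (f := fun j => c j • v j)]
    rw [← hc, Finset.sum_filter_of_ne]
    intro j _ hj
    by_contra hjN
    exact hj (by rw [h.zero j (not_lt.1 hjN), smul_zero])
  have h2 := (linearIndependent_iff'.1 h.li) (s.subtype (fun i : ℕ => (i : ℕ∞) < N))
    (fun j => c j) h1 ⟨i, hiN⟩ (by simpa using hi)
  exact h2

end PBlemmas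

end Pool.Agent.TH10.AW
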