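import Pool.Agent.TH10.AW.Suff

/-! Endomorphisms: polynomials in `A` commuting with `B`, and the division ring of
endomorphisms. -/

set_option autoImplicit false
set_option linter.unusedSectionVars false
set_option linter.style.haveILetI false

namespace Pool.Agent.TH10.AW

open Polynomial

variable {K : Type*} [Field K] {p : Scal K}
variable {V : Type*} [AddCommGroup V] [Module K V]
variable {A B : Module.End K V}

theorem commute_aeval {R : Type*} [Ring R] [Algebra K R] {z b : R} (h : Commute b z) (g : K[X]) :
    Commute b (aeval z g) := by
  induction g using Polynomial.induction_on' with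
  | add f g hf hg => rw [map_add]; exact hf.add_right hg
  | monomial n c =>
    rw [aeval_monomial]
    have h1 : Commute b (algebraMap K R c) := (Algebra.commutes c b).symm
    exact h1.mul_right (h.pow_right n)

/-- a polynomial in `A` which maps a cyclic singular vector to a singular vector with the same
parameters commutes with `B` -/
theorem comm_of_sg (h : AW1 p A B) {v0 : V} (hc : ∀ w, ∃ f : K[X], aeval A f v0 = w) {m n c : K}
    (h0 : Sg A B m n c v0) {G : K[X]} (hg : Sg A B m n c (aeval A G v0)) :
    Commute B (aeval A G) := by
  set g : Module.End K V := aeval A G with hgdef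
  have hgA : Commute A g := commute_aeval (Commute.refl A) G
  have hAg : ∀ w, A (g w) = g (A w) := fun w => congrArg (fun T : Module.End K V => T w) hgA
  have key : ∀ k : ℕ, B (g ((A ^ k) v0)) = g (B ((A ^ k) v0)) := by
    intro k
    induction k using Nat.strong_induction_on with
    | _ k ih =>
      match k, ih with
      | 0, _ =>
        rw [pow_zero, Module.End.one_apply, hg.e0, h0.e0, map_smul]
      | 1, _ =>
        rw [pow_one, ← hAg]
        have e1 : B (A (g v0)) = n • A (g v0) + (c * m - n * c) • g v0 := by
          have h1 := hg.e1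
          rw [map_sub, map_smul, hg.e0] at h1
          linear_combination (norm := module) h1
        have e2 : B (A v0) = n • A v0 + (c * m - n * c) • v0 := by
          have h1 := h0.e1
          rw [map_sub, map_smul, h0.e0] at h1
          linear_combination (norm := module) h1
        rw [e1, e2, map_add, map_smul, map_smul, hAg]
      | k + 2, ih =>
        have i0 := ih k (by omega)
        have i1 := ih (k + 1) (by omega)
        have ek1 : (A ^ (k + 1)) v0 = A ((A ^ k) v0) := by
          rw [← Module.End.mul_apply, ← pow_succ']
        have ek2 : (A ^ (k + 2)) v0 = A (A ((A ^ k) v0)) := by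
          rw [pow_succ', pow_succ']
          rfl
        rw [ek1] at i1
        rw [ek2]
        generalize (A ^ k) v0 = w at i0 i1
        rw [← hAg, ← hAg, aw1_apply h, aw1_apply h]
        simp only [map_add, map_neg, map_smul]
        rw [← hAg w] at i1
        rw [i1, i0, hAg, hAg, hAg, hAg, hAg]
  have key2 : ∀ f : K[X], B (g (aeval A f v0)) = g (B (aeval A f v0)) := by
    intro f
    induction f using Polynomial.induction_on' with
    | add f f' hf hf' => rw [map_add, LinearMap.add_apply, map_add, map_add, map_add, map_add, hf,
        hf']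
    | monomial n c =>
      rw [aeval_monomial, Module.End.mul_apply, Module.algebraMap_end_apply]
      simp only [map_smul]
      rw [key]
  apply LinearMap.ext
  intro w
  obtain ⟨f, rfl⟩ := hc w
  exact key2 f

/-- irreducibility: window of length `d` periods, `f(T(A)) = 0` with `f` irreducible -/
theorem irr_IVb {n0 M d : ℕ} {v : ℕ → V} {a x : ℕ → K} {τ : ℤ → K}
    (hp : PB A B (n0 : ℕ∞) v (fun n : ℕ => τ n) a x) (h : TSys p (n0 : ℕ∞) τ a x)
    (hM : MinPer τ M) (hn0 : n0 ≠ 0) (hd : n0 = M * d) {f T : K[X]} (hf : Irreducible f)
    (hfd : f.natDegree = d) (hT : Commute B (aeval A T)) (hfT : aeval A (f.comp T) = 0)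
    (hs : Cen τ 0 ∨ Cen τ (-2) ∨ (Cen τ (-1) ∧ a 0 ≠ a (n0 - 1))) : Irr A B := by
  have : Finite {i : ℕ // (i : ℕ∞) < (n0 : ℕ∞)} :=
    Finite.of_injective (fun i => (⟨i, by exact_mod_cast i.2⟩ : Fin n0))
      fun i j hij => Subtype.ext (congrArg Fin.val hij)
  have hfinV : Module.Finite K V := Module.Finite.of_basis hp.basis
  have hdim : Module.finrank K V = n0 := by
    rw [Module.finrank_eq_nat_card_basis hp.basis]
    let e : {i : ℕ // (i : ℕ∞) < (n0 : ℕ∞)} ≃ Fin n0 :=
      { toFun := fun i => ⟨i, by exact_mod_cast i.2⟩
        invFun := fun i => ⟨i, by exact_mod_cast i.2⟩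
        left_inv := fun i => rfl
        right_inv := fun i => rfl }
    rw [Nat.card_congr e, Nat.card_fin]
  haveI : Fact (Irreducible f) := ⟨hf⟩
  set z : Module.End K V := aeval A T with hz
  have hzf : aeval z f = 0 := by
    rw [hz, ← aeval_comp]; exact hfT
  let ρ : (K[X] ⧸ Ideal.span {f}) →+* Module.End K V :=
    Ideal.Quotient.lift (Ideal.span {f}) (aeval z : K[X] →ₐ[K] Module.End K V).toRingHom (by
      intro g hg
      obtain ⟨g', rfl⟩ := Ideal.mem_span_singleton'.1 hg
      change aeval z (g' * f) = 0
      rw [map_mul, hzf, mul_zero])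
  have hρ : ∀ g : K[X], ρ (AdjoinRoot.mk f g) = aeval z g := fun g => rfl
  letI : Module (AdjoinRoot f) V := Module.compHom V ρ
  have hsm : ∀ (g : K[X]) (w : V), AdjoinRoot.mk f g • w = aeval z g w := fun g w => rfl
  haveI : IsScalarTower K (AdjoinRoot f) V := ⟨fun k c w => by
    obtain ⟨g, rfl⟩ := AdjoinRoot.mk_surjective c
    have : k • AdjoinRoot.mk f g = AdjoinRoot.mk f (k • g) := by
      rw [← AdjoinRoot.smul_mk]
    rw [this, hsm, hsm, map_smul, LinearMap.smul_apply]⟩
  have cA : ∀ (c : AdjoinRoot f) (w : V), A (c • w) = c • A w := by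
    intro c w
    obtain ⟨g, rfl⟩ := AdjoinRoot.mk_surjective c
    rw [hsm, hsm]
    have : Commute A (aeval z g) := commute_aeval (commute_aeval (Commute.refl A) T) g
    exact congrArg (fun T : Module.End K V => T w) this
  have cB : ∀ (c : AdjoinRoot f) (w : V), B (c • w) = c • B w := by
    intro c w
    obtain ⟨g, rfl⟩ := AdjoinRoot.mk_surjective c
    rw [hsm, hsm]
    have : Commute B (aeval z g) := commute_aeval hT g
    exact congrArg (fun T : Module.End K V => T w) this
  haveI : Module.Finite (AdjoinRoot f) V := Module.Finite.of_restrictScalars_finite K _ V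
  have hdF : Module.finrank K (AdjoinRoot f) = d := by
    rw [PowerBasis.finrank (AdjoinRoot.powerBasis hf.ne_zero), AdjoinRoot.powerBasis_dim, hfd]
  have hmul := Module.finrank_mul_finrank K (AdjoinRoot f) V
  rw [hdF, hdim, hd] at hmul
  have hd0 : 0 < d := Nat.pos_of_ne_zero fun h0 => hn0 (by rw [hd, h0, mul_zero])
  have hfr : Module.finrank (AdjoinRoot f) V = M := by
    apply Nat.eq_of_mul_eq_mul_left hd0
    rw [hmul, mul_comm]
  refine ⟨⟨⟨v 0, 0, hp.ne_zero (by exact_mod_cast Nat.pos_of_ne_zero hn0)⟩⟩,
    fun W hA hB => ?_⟩
  let W' : Submodule (AdjoinRoot f) V :=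
    { W with
      smul_mem' := by
        intro c w hw
        obtain ⟨g, rfl⟩ := AdjoinRoot.mk_surjective c
        have hst : ∀ h : K[X], ∀ w ∈ W, aeval A h w ∈ W := by
          intro h
          induction h using Polynomial.induction_on' with
          | add h h' i i' =>
            intro w hw
            rw [map_add, LinearMap.add_apply]
            exact W.add_mem (i w hw) (i' w hw)
          | monomial n c =>
            intro w hw
            rw [aeval_monomial, Module.End.mul_apply, Module.algebraMap_end_apply]
            apply W.smul_mem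
            induction n with
            | zero => simpa using hw
            | succ n ih =>
              rw [pow_succ', Module.End.mul_apply]
              exact hA _ ih
        change AdjoinRoot.mk f g • w ∈ W
        rw [hsm, hz, ← aeval_comp]
        exact hst _ w hw }
  have := suff_aux (F := AdjoinRoot f) hp h cA cB hM hn0 ⟨d, hd⟩ hfr.le hs W' hA hB
  rcases this with h1 | h1
  · left
    rw [Submodule.eq_bot_iff] at h1 ⊢
    exact fun w hw => h1 w hw
  · right
    rw [Submodule.eq_top_iff'] at h1 ⊢
    exact fun w => h1 w

/-- the endomorphisms: operators commuting with `A` and `B` -/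
abbrev CF (A B : Module.End K V) : Subalgebra K (Module.End K V) :=
  Subalgebra.centralizer K {A, B}

theorem CF.commA (c : CF A B) (w : V) : A (c • w) = c • A w := by
  have := (Subalgebra.mem_centralizer_iff K).1 c.2 A (by simp)
  exact congrArg (fun T : Module.End K V => T w) this

theorem CF.commB (c : CF A B) (w : V) : B (c • w) = c • B w := by
  have := (Subalgebra.mem_centralizer_iff K).1 c.2 B (by simp)
  exact congrArg (fun T : Module.End K V => T w) this

theorem mem_CF {c : Module.End K V} (hA : Commute A c) (hB : Commute B c) : c ∈ CF A B := by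
  rw [Subalgebra.mem_centralizer_iff]
  intro g hg
  rcases hg with rfl | rfl
  · exact hA
  · exact hB

theorem CF.isUnit_or (hI : Irr A B) (c : CF A B) : IsUnit c ∨ c = 0 := by
  by_cases hc : c = 0
  · exact Or.inr hc
  left
  have hker : LinearMap.ker (c : Module.End K V) = ⊥ := by
    rcases hI.2 (LinearMap.ker (c : Module.End K V)) (fun w hw => by
      rw [LinearMap.mem_ker] at hw ⊢
      have := CF.commA c w
      change A ((c : Module.End K V) w) = (c : Module.End K V) (A w) at this
      rw [← this, hw, map_zero]) (fun w hw => by
      rw [LinearMap.mem_ker] at hw ⊢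
      have := CF.commB c w
      change B ((c : Module.End K V) w) = (c : Module.End K V) (B w) at this
      rw [← this, hw, map_zero]) with h1 | h1
    · exact h1
    · exfalso
      apply hc
      apply Subtype.ext
      exact LinearMap.ker_eq_top.1 h1
  have hran : LinearMap.range (c : Module.End K V) = ⊤ := by
    rcases hI.2 (LinearMap.range (c : Module.End K V)) (fun w hw => by
      obtain ⟨w, rfl⟩ := hw
      have := CF.commA c w
      change A ((c : Module.End K V) w) = (c : Module.End K V) (A w) at this
      exact ⟨A w, this.symm⟩) (fun w hw => by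
      obtain ⟨w, rfl⟩ := hw
      have := CF.commB c w
      change B ((c : Module.End K V) w) = (c : Module.End K V) (B w) at this
      exact ⟨B w, this.symm⟩) with h1 | h1
    · exfalso
      apply hc
      apply Subtype.ext
      exact LinearMap.range_eq_bot.1 h1
    · exact h1
  let e : V ≃ₗ[K] V := LinearEquiv.ofBijective (c : Module.End K V)
    ⟨LinearMap.ker_eq_bot.1 hker, LinearMap.range_eq_top.1 hran⟩
  have he : ∀ w, e w = (c : Module.End K V) w := fun w => rfl
  have hmem : (e.symm : Module.End K V) ∈ CF A B := by
    apply mem_CF
    · apply LinearMap.ext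
      intro w
      change A (e.symm w) = e.symm (A w)
      apply e.injective
      rw [e.apply_symm_apply, he]
      have := CF.commA c (e.symm w)
      change A ((c : Module.End K V) (e.symm w)) = (c : Module.End K V) (A (e.symm w)) at this
      rw [← this, ← he, e.apply_symm_apply]
    · apply LinearMap.ext
      intro w
      change B (e.symm w) = e.symm (B w)
      apply e.injective
      rw [e.apply_symm_apply, he]
      have := CF.commB c (e.symm w)
      change B ((c : Module.End K V) (e.symm w)) = (c : Module.End K V) (B (e.symm w)) at this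
      rw [← this, ← he, e.apply_symm_apply]
  refine ⟨⟨c, ⟨_, hmem⟩, ?_, ?_⟩, rfl⟩
  · apply Subtype.ext
    apply LinearMap.ext
    intro w
    exact e.apply_symm_apply w
  · apply Subtype.ext
    apply LinearMap.ext
    intro w
    exact e.symm_apply_apply w

end Pool.Agent.TH10.AW
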