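import Pool.Agent.TH10.AW.TSys

/-! Symmetries of the eigenvalue sequence and constancy of the Casimir value. -/

set_option autoImplicit false
set_option linter.unusedSectionVars false

namespace Pool.Agent.TH10.AW

variable {K : Type*} [Field K] {p : Scal K}

section sym

variable {τ : ℤ → K}

theorem Cen.at {c : ℤ} (h : Cen τ c) {i j : ℤ} (hij : i + j = c) : τ i = τ j := by
  have := h j
  rwa [show c - j = i by omega] at this

theorem Per.at {M : ℤ} (h : Per τ M) {i j : ℤ} (hij : i = j + M) : τ i = τ j := by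
  have := h j
  rwa [← hij] at this

theorem Cen.per {c c' : ℤ} (h : Cen τ c) (h' : Cen τ c') : Per τ (c' - c) := by
  intro k
  rw [← h k, ← h' (c - k)]
  congr 1; ring

theorem Cen.add {c M : ℤ} (h : Cen τ c) (h' : Per τ M) : Cen τ (c + M) := by
  intro k
  rw [← h k, ← h' (c - k)]
  congr 1; ring

theorem Per.neg {M : ℤ} (h : Per τ M) : Per τ (-M) := by
  intro k
  rw [← h (k + -M)]
  congr 1; ring

theorem Cen.sub {c M : ℤ} (h : Cen τ c) (h' : Per τ M) : Cen τ (c - M) := by
  rw [sub_eq_add_neg]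
  exact h.add h'.neg

theorem Per.add {M M' : ℤ} (h : Per τ M) (h' : Per τ M') : Per τ (M + M') := by
  intro k
  rw [← h k, ← h' (k + M), add_assoc]

theorem Per.nsmul {M : ℤ} (h : Per τ M) (n : ℕ) : Per τ (n * M) := by
  induction n with
  | zero => intro k; simp
  | succ n ih =>
    have := ih.add h
    rwa [show (n : ℤ) * M + M = ((n + 1 : ℕ) : ℤ) * M by push_cast; ring] at this

theorem Per.zsmul {M : ℤ} (h : Per τ M) (n : ℤ) : Per τ (n * M) := by
  rcases Int.eq_nat_or_neg n with ⟨m, rfl | rfl⟩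
  · exact h.nsmul m
  · have := (h.nsmul m).neg
    rwa [show -((m : ℤ) * M) = -(m : ℤ) * M by ring] at this

theorem IsTau.cen_of {c i j : ℤ} (h : IsTau p τ) (hij : i + j = c) (h0 : τ i = τ j)
    (h1 : τ (i + 1) = τ (j - 1)) : Cen τ c := by
  intro k
  have := h.refl_of h0 h1 (j - k)
  rw [show i + (j - k) = c - k by omega, show j - (j - k) = k by ring] at this
  exact this

theorem IsTau.cen_corner {n : ℤ} (h : IsTau p τ) (h0 : τ n = τ (n + 1)) : Cen τ (2 * n + 1) :=
  h.cen_of (i := n) (j := n + 1) (by ring) h0 (by rw [← h0]; congr 1; ring)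

theorem IsTau.cen_mirror {n : ℤ} (h : IsTau p τ) (h0 : τ (n - 1) = τ (n + 1)) :
    Cen τ (2 * n) :=
  h.cen_of (i := n) (j := n) (by ring) rfl h0.symm

theorem IsTau.cen_or_per {i j : ℤ} (h : IsTau p τ) (h0 : τ i = τ j) :
    Cen τ (i + j) ∨ Per τ (j - i) := by
  rcases h.eq_cases h0 with ⟨h1, -⟩ | ⟨h1, -⟩
  · right
    intro k
    have := h.trans_of h0 h1 (k - i)
    rw [show i + (k - i) = k by ring, show j + (k - i) = k + (j - i) by ring] at this
    exact this.symm
  · left
    exact h.cen_of rfl h0 h1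

theorem IsTau.per_one_of {n : ℤ} (h : IsTau p τ) (h0 : τ (n - 1) = τ n) (h1 : τ n = τ (n + 1)) :
    Per τ 1 := by
  have e1 := h.cen_corner h1
  have e2 : Cen τ (2 * n - 1) := h.cen_of (i := n - 1) (j := n) (by ring) h0
    (by rw [show n - 1 + 1 = n by ring]; exact h0.symm)
  have e3 : Cen τ (2 * n) := h.cen_mirror (h0.trans h1)
  have := e2.per e3
  rwa [show 2 * n - (2 * n - 1) = 1 by ring] at this

theorem Per.const (h : Per τ 1) (i j : ℤ) : τ i = τ j := by
  have := h.zsmul (i - j)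
  exact this.at (by ring)

end sym

theorem Phi_symm (p : Scal K) (y z : K) : p.Phi y z = p.Phi z y := by
  unfold Scal.Phi
  rw [show (y - z) ^ 2 = (z - y) ^ 2 by ring]
  ring

namespace TSys

variable {N : ℕ∞} {τ : ℤ → K} {a x : ℕ → K} (h : TSys p N τ a x)
include h

theorem kap_eq {m n : ℕ} (hmn : m ≤ n) (hn : (n : ℕ∞) ≤ N) (hm1 : τ (m - 1) ≠ τ m)
    (hn1 : τ (n - 1) ≠ τ n) :
    p.Phi (τ (n - 1)) (τ n) - t τ x n = p.Phi (τ (m - 1)) (τ m) - t τ x m := by
  induction n using Nat.strong_induction_on with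
  | _ n ih =>
    rcases Nat.eq_or_lt_of_le hmn with rfl | hlt
    · rfl
    obtain ⟨k, rfl⟩ : ∃ k, n = k + 1 := ⟨n - 1, by omega⟩
    have hk : (k : ℕ∞) < N := lt_of_lt_of_le (by exact_mod_cast Nat.lt_succ_self k) hn
    have hn1' : τ k ≠ τ (k + 1) := by
      have := hn1
      push_cast at this
      rwa [show (k : ℤ) + 1 - 1 = k by ring] at this
    by_cases hk1 : τ (k - 1) = τ k
    · obtain ⟨j, rfl⟩ : ∃ j, k = j + 1 := by
        refine ⟨k - 1, ?_⟩
        have : m ≠ k := fun h0 => hm1 (h0 ▸ hk1)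
        omega
      have hc : τ j = τ (j + 1) := by
        have := hk1
        push_cast at this
        rwa [show (j : ℤ) + 1 - 1 = j by ring] at this
      have hj1 : τ (j - 1) ≠ τ j := by
        intro h0
        have := h.tau.per_one_of h0 hc
        exact hn1' (this.const _ _)
      have hmj : m ≤ j := by
        have : m ≠ j + 1 := by
          intro h0
          exact hm1 (h0 ▸ hk1)
        omega
      have e1 := h.kappa_corner (n := j) (by exact_mod_cast hk) hc
      have e2 := ih j (by omega) hmj (le_of_lt (lt_of_add (m := 1) hk)) hj1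
      rw [← e2, ← e1]
      push_cast
      rw [show (j : ℤ) + 1 + 1 - 1 = j + 1 by ring, show (j : ℤ) + 1 + 1 = j + 2 by ring]
    · have e1 := h.kappa_step hk hk1 hn1'
      have hmk : m ≤ k := by omega
      have e2 := ih k (by omega) hmk (le_of_lt hk) hk1
      rw [← e2, ← e1]
      push_cast
      rw [show (k : ℤ) + 1 - 1 = k by ring]

/-- equal edges have equal `t` -/
theorem t_eq {m n : ℕ} (hm : (m : ℕ∞) ≤ N) (hn : (n : ℕ∞) ≤ N) (hm1 : τ (m - 1) ≠ τ m)
    (he : (τ (n - 1) = τ (m - 1) ∧ τ n = τ m) ∨ (τ (n - 1) = τ m ∧ τ n = τ (m - 1))) :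
    t τ x n = t τ x m := by
  have hn1 : τ (n - 1) ≠ τ n := by
    rcases he with ⟨e1, e2⟩ | ⟨e1, e2⟩
    · rw [e1, e2]; exact hm1
    · rw [e1, e2]; exact hm1.symm
  have hP : p.Phi (τ (n - 1)) (τ n) = p.Phi (τ (m - 1)) (τ m) := by
    rcases he with ⟨e1, e2⟩ | ⟨e1, e2⟩
    · rw [e1, e2]
    · rw [e1, e2, Phi_symm]
  rcases Nat.le_total m n with h1 | h1
  · have := h.kap_eq h1 hn hm1 hn1
    rw [hP] at this
    linear_combination -this
  · have := h.kap_eq h1 hm hn1 hm1
    rw [hP] at this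
    linear_combination this

theorem t_zero : t τ x 0 = 0 := by
  unfold t; rw [h.x0, mul_zero]

/-- regular start and a reflection: the window ends at or before the mirror image of the start -/
theorem reg_cen (h1 : τ (-1) ≠ τ 0) (h2 : τ (-1) ≠ τ 1) (h3 : τ (-2) ≠ τ 0) {c : ℕ}
    (hc : Cen τ c) : N ≤ ((c + 1 : ℕ) : ℕ∞) := by
  by_contra hcon
  have hlt := not_le.1 hcon
  have e := h.t_eq (m := 0) (n := c + 1) bot_le (le_of_lt hlt) (by simpa using h1)
    (Or.inr ⟨by
      push_cast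
      exact hc.at (by ring), by
      push_cast
      exact hc.at (by ring)⟩)
  rw [h.t_zero] at e
  unfold t at e
  push_cast at e
  rw [show τ ((c : ℤ) + 1 + 1) = τ (-2) from hc.at (by ring),
    show τ ((c : ℤ) + 1 - 1) = τ 0 from hc.at (by ring),
    show τ ((c : ℤ) + 1) = τ (-1) from hc.at (by ring),
    show τ ((c : ℤ) + 1 - 2) = τ 1 from hc.at (by ring)] at e
  exact (mul_ne_zero (mul_ne_zero (sub_ne_zero.2 h3) (sub_ne_zero.2 h2))
    (h.xne (c + 1) (by omega) hlt)) e

/-- regular start and a period -/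
theorem reg_per (h1 : τ (-1) ≠ τ 0) (h2 : τ (-1) ≠ τ 1) (h3 : τ (-2) ≠ τ 0) {M : ℕ}
    (hM : 0 < M) (hc : Per τ M) : N ≤ (M : ℕ∞) := by
  by_contra hcon
  have hlt := not_le.1 hcon
  have e := h.t_eq (m := 0) (n := M) bot_le (le_of_lt hlt) (by simpa using h1)
    (Or.inl ⟨by
      push_cast
      exact hc.at (by ring), hc.at (by push_cast; ring)⟩)
  rw [h.t_zero] at e
  unfold t at e
  rw [show τ ((M : ℤ) + 1) = τ 1 from hc.at (by ring),
    show τ ((M : ℤ) - 1) = τ (-1) from hc.at (by ring),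
    show τ (M : ℤ) = τ 0 from hc.at (by ring),
    show τ ((M : ℤ) - 2) = τ (-2) from hc.at (by ring)] at e
  exact (mul_ne_zero (mul_ne_zero (sub_ne_zero.2 h2.symm) (sub_ne_zero.2 h3.symm))
    (h.xne M hM hlt)) e

end TSys

end Pool.Agent.TH10.AW
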