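import Pool.Agent.TH10.AW.ExplDef
import Pool.Agent.TH10.AW.ClassIso

/-! Closed forms of the entries: proofs. -/

set_option autoImplicit false
set_option linter.unusedSectionVars false

namespace Pool.Agent.TH10.AW

variable {K : Type*} [Field K] {p : Scal K}
variable {N : ℕ∞} {a x : ℕ → K} {τ : ℤ → K}

theorem expl_of_tsys (h : TSys p N τ a x) (hN : N ≠ 0) (hconst : ¬ Per τ 1) :
    Expl p N τ (Kap p τ a) a x := by
  refine ⟨h.A, ?_, ?_, ?_, ?_, ?_⟩
  · intro n hn hc
    have hD := h.D n hn
    have hc2 : τ (n + 2) = τ (n - 1) := (h.tau.cen_corner hc).at (by ring)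
    rw [hc2, ← hc] at hD
    linear_combination hD
  · intro n hn hne
    have := h.kap_edge hN hconst hn hne
    unfold TSys.t at this
    linear_combination -this
  · intro n hn hm
    have hE := h.E n hn
    have hm2 : τ (n - 2) = τ (n + 2) := (h.tau.cen_mirror hm).at (by ring)
    rw [hm2] at hE
    linear_combination hE
  · intro n hn hc
    have hne : τ (n - 1) ≠ τ n := fun h0 => not_per_left h.tau hconst h0 hc
    have hc2 : τ (n + 2) = τ (n - 1) := (h.tau.cen_corner hc).at (by ring)
    have k := h.kap_edge hN hconst hn.le hne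
    have k2 := h.t_succ hn
    have k3 : TSys.t τ x (n + 1) = -(τ n - τ (n - 1)) ^ 2 * x (n + 1) := by
      unfold TSys.t
      push_cast
      rw [show (n : ℤ) + 1 + 1 = n + 2 by ring, show (n : ℤ) + 1 - 1 = n by ring,
        show (n : ℤ) + 1 - 2 = n - 1 by ring, hc2, ← hc]
      ring
    rw [k3, ← hc] at k2
    linear_combination -k2 + k
  · intro n hn hc
    have hne : τ n ≠ τ (n + 1) := not_per_left h.tau hconst hc
    have hcen : Cen τ (2 * n - 1) := h.tau.cen_of (i := n - 1) (j := n) (by ring) hc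
      (by rw [show (n : ℤ) - 1 + 1 = n by ring]; exact hc.symm)
    have hc2 : τ (n - 2) = τ (n + 1) := hcen.at (by ring)
    have hn1 : ((n + 1 : ℕ) : ℕ∞) ≤ N := by
      have := Order.add_one_le_of_lt hn
      exact_mod_cast this
    have k := h.kap_edge hN hconst hn1 (by
      push_cast
      rw [show (n : ℤ) + 1 - 1 = n by ring]; exact hne)
    have k2 := h.t_succ hn
    have k3 : TSys.t τ x n = -(τ n - τ (n + 1)) ^ 2 * x n := by
      unfold TSys.t
      rw [hc2, hc]
      ring
    push_cast at k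
    rw [show (n : ℤ) + 1 - 1 = n by ring, Phi_symm] at k
    rw [k3, hc] at k2
    linear_combination k + k2

theorem tsys_of_expl (hτ : IsTau p τ) {κ : K} (h : Expl p N τ κ a x) (x0 : x 0 = 0)
    (xN : ∀ n : ℕ, N ≤ n → x n = 0) (xne : ∀ n : ℕ, 0 < n → (n : ℕ∞) < N → x n ≠ 0) :
    TSys p N τ a x := by
  refine ⟨hτ, h.A, ?_, ?_, x0, xN, xne⟩
  · intro n hn
    by_cases hc : τ n = τ (n + 1)
    · have hC := h.C n hn hc
      have hc2 : τ (n + 2) = τ (n - 1) := (hτ.cen_corner hc).at (by ring)
      rw [hc2, ← hc]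
      linear_combination hC
    · have a1 := h.A n (lt_of_add hn)
      have a2 := h.A (n + 1) hn
      push_cast at a2
      rw [show (n : ℤ) + 1 - 1 = n by ring, show (n : ℤ) + 1 + 1 = n + 2 by ring] at a2
      apply mul_left_cancel₀ (sub_ne_zero.2 hc)
      unfold Scal.u at a1 a2
      linear_combination a1 - a2
  · intro n hn
    have hn1 : ((n + 1 : ℕ) : ℕ∞) ≤ N := by
      have := Order.add_one_le_of_lt hn
      exact_mod_cast this
    by_cases hm : τ (n - 1) = τ (n + 1)
    · have hM := h.M n hn hm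
      have hm2 : τ (n - 2) = τ (n + 2) := (hτ.cen_mirror hm).at (by ring)
      rw [hm2]
      linear_combination hM
    · by_cases h1 : τ (n - 1) = τ n
      · have hR := h.R n hn h1
        have hne : τ n ≠ τ (n + 1) := fun h0 => hm (h1.trans h0)
        have hcen : Cen τ (2 * n - 1) := hτ.cen_of (i := n - 1) (j := n) (by ring) h1
          (by rw [show (n : ℤ) - 1 + 1 = n by ring]; exact h1.symm)
        have hc2 : τ (n - 2) = τ (n + 1) := hcen.at (by ring)
        have hX := h.X (n + 1) hn1 (by
          push_cast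
          rw [show (n : ℤ) + 1 - 1 = n by ring]; exact hne)
        push_cast at hX
        rw [show (n : ℤ) + 1 - 1 = n by ring, show (n : ℤ) + 1 + 1 = n + 2 by ring,
          show (n : ℤ) + 1 - 2 = n - 1 by ring, h1, Phi_symm] at hX
        rw [hc2]
        apply mul_left_cancel₀ (sub_ne_zero.2 hne.symm)
        linear_combination -hR - hX
      · by_cases h2 : τ n = τ (n + 1)
        · have hL := h.L n hn h2
          have hX := h.X n hn.le h1
          have hc2 : τ (n + 2) = τ (n - 1) := (hτ.cen_corner h2).at (by ring)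
          rw [hc2]
          rw [← h2] at hX
          apply mul_left_cancel₀ (sub_ne_zero.2 (Ne.symm h1))
          linear_combination hX + hL
        · have e1 := h.X n hn.le h1
          have e2 := h.X (n + 1) hn1 (by
            push_cast
            rw [show (n : ℤ) + 1 - 1 = n by ring]; exact h2)
          have hA := h.A n hn
          have hr := hτ.recur n
          push_cast at e2
          rw [show (n : ℤ) + 1 - 1 = n by ring, show (n : ℤ) + 1 + 1 = n + 2 by ring,
            show (n : ℤ) + 1 - 2 = n - 1 by ring] at e2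
          have ps := TSys.phi_step p h1 h2 hr hA
          apply mul_left_cancel₀ (sub_ne_zero.2 (Ne.symm hm))
          linear_combination e1 - e2 - ps

variable {D : Data K}

/-- the admissible parameters for `N ≥ 2` -/
theorem ok_iff_expl (D : Data K) (hN : (1 : ℕ∞) < D.N) :
    D.Ok p ↔ (D.Xok ∧ (D.Const p ∨ ∃ (τ : ℤ → K) (κ : K), D.Ext p τ ∧ ¬ Per τ 1 ∧
      Expl p D.N τ κ D.a D.x)) := by
  have hN0 : D.N ≠ 0 := by
    intro h0
    rw [h0] at hN
    exact not_lt_bot hN
  constructor
  · intro h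
    refine ⟨⟨h.x0, h.xN, h.xne⟩, ?_⟩
    obtain ⟨τ, hτ⟩ := h.exists_ext hN
    have hts := h.tsys hτ
    by_cases hc : Per τ 1
    · left
      have h0 : ∀ n : ℕ, (n : ℕ∞) < D.N → D.θ n = τ 0 := fun n hn => by
        rw [hτ.2 n hn]; exact hc.const _ _
      have hlt0 : ((0 : ℕ) : ℕ∞) < D.N := lt_of_le_of_lt bot_le hN
      have hθ := h0 0 hlt0
      have hr := hτ.1.recur 0
      rw [hc.const (0 + 1) 0, hc.const (0 - 1) 0] at hr
      have hP := hτ.1.P0
      rw [hc.const 1 0] at hP
      have hA := hts.A 0 hlt0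
      have hD := hts.D 0 (by exact_mod_cast hN)
      have hE := hts.E 0 hlt0
      simp only [hc.const _ 0, sub_self, zero_mul] at hA hD hE
      have hw : 2 * p.γ * τ 0 + p.ω = 0 := by linear_combination -hD
      refine ⟨fun n hn => by rw [h0 n hn, hθ], ?_, ?_, ?_, ?_, ?_⟩
      · rw [hθ]; linear_combination hr
      · rw [hθ]; exact hP
      · rw [hθ]; exact hA.symm
      · rw [hθ]; exact hw
      · rw [hθ]
        unfold Scal.S at hE
        linear_combination -hE - D.a 0 * hw + (D.a 0) ^ 2 * hr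
    · right
      exact ⟨τ, Kap p τ D.a, hτ, hc, expl_of_tsys hts hN0 hc⟩
  · rintro ⟨hx, hc | ⟨τ, κ, hτ, -, he⟩⟩
    · refine ⟨hN0, hx.x0, hx.xN, hx.xne, ?_⟩
      have g := hc.g
      have P := hc.P
      have u := hc.u
      have w := hc.w
      have e := hc.e
      refine ⟨?_, ?_, ?_, ?_, ?_⟩
      · intro n hn
        rw [hc.c _ hn, hc.c _ (lt_of_add (m := 1) hn), hc.c _ (lt_of_add (m := 2) hn)]
        linear_combination g
      · intro n hn
        rw [hc.c _ hn, hc.c _ (lt_of_add (m := 1) hn)]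
        exact P
      · intro n hn
        rw [hc.c _ hn, P, u, zero_mul]
      · intro n hn
        rw [hc.c _ hn, hc.c _ (lt_of_add (m := 1) hn)]
        linear_combination (D.a n + D.a (n + 1)) * g - w
      · intro n hn
        have e1 : D.θ (n - 1) * D.x n = D.θ 0 * D.x n := by
          rw [hc.c _ (lt_of_le_of_lt (by exact_mod_cast Nat.sub_le n 1) hn)]
        have e2 : D.θ (n + 1) * D.x (n + 1) = D.θ 0 * D.x (n + 1) := by
          by_cases hn1 : ((n + 1 : ℕ) : ℕ∞) < D.N
          · rw [hc.c _ hn1]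
          · rw [hx.xN (n + 1) (not_lt.1 hn1)]; simp
        rw [e1, e2, hc.c n hn]
        linear_combination (D.x n + D.a n ^ 2 + D.x (n + 1)) * g - D.a n * w - e
    · have hts := tsys_of_expl hτ.1 he hx.x0 hx.xN hx.xne
      refine ⟨hN0, hx.x0, hx.xN, hx.xne, ?_⟩
      have hs := sys_of_tsys hts
      refine ⟨?_, ?_, ?_, ?_, ?_⟩
      · intro n hn
        have := hs.s1 n hn
        rw [hτ.2 _ hn, hτ.2 _ (lt_of_add (m := 1) hn), hτ.2 _ (lt_of_add (m := 2) hn)]
        exact this
      · intro n hn
        have := hs.s2 n hn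
        rw [hτ.2 _ hn, hτ.2 _ (lt_of_add (m := 1) hn)]
        exact this
      · intro n hn
        have := hs.s3 n hn
        rw [hτ.2 _ hn]
        exact this
      · intro n hn
        have := hs.s4 n hn
        rw [hτ.2 _ hn, hτ.2 _ (lt_of_add (m := 1) hn)]
        exact this
      · intro n hn
        have := hs.s5 n hn
        have e1 : D.θ (n - 1) * D.x n = τ ((n - 1 : ℕ) : ℤ) * D.x n := by
          rw [hτ.2 (n - 1) (lt_of_le_of_lt (by exact_mod_cast Nat.sub_le n 1) hn)]
        have e2 : D.θ (n + 1) * D.x (n + 1) = τ ((n + 1 : ℕ) : ℤ) * D.x (n + 1) := by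
          by_cases hn1 : ((n + 1 : ℕ) : ℕ∞) < D.N
          · rw [hτ.2 (n + 1) hn1]
          · rw [hx.xN (n + 1) (not_lt.1 hn1)]; simp
        rw [e1, e2, hτ.2 _ hn]
        exact this

end Pool.Agent.TH10.AW
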