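import Pool.Agent.TH10.AW.Inf

/-! Closed forms of the entries when the eigenvalues of `B` are distinct. -/

set_option autoImplicit false
set_option linter.unusedSectionVars false
set_option linter.unusedSimpArgs false

namespace Pool.Agent.TH10.AW

variable {K : Type*} [Field K] {p : Scal K}
variable {N : ℕ∞} {a x : ℕ → K} {τ : ℤ → K}

/-- the Casimir value computed at the start -/
def kap0 (p : Scal K) (τ : ℤ → K) (a : ℕ → K) : K :=
  p.Phi (τ 0) (τ 1) + (τ 1 - τ (-1)) * p.S (τ 0) (a 0)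

/-- Closed forms of the entries `a n`, `x n` (for `N ≥ 2`). -/
structure Closed (p : Scal K) (N : ℕ∞) (τ : ℤ → K) (a x : ℕ → K) : Prop where
  tau : IsTau p τ
  A : ∀ n : ℕ, (n : ℕ∞) < N → (τ n - τ (n - 1)) * (τ n - τ (n + 1)) * a n = p.u (τ n)
  X : ∀ n : ℕ, 0 < n → (n : ℕ∞) < N →
    (τ (n + 1) - τ (n - 1)) * (τ n - τ (n - 2)) * x n = p.Phi (τ (n - 1)) (τ n) - kap0 p τ a
  first : (τ 0 - τ 2) * x 1 = p.S (τ 0) (a 0)
  last : ∀ m : ℕ, N = ((m + 1 : ℕ) : ℕ∞) → (τ m - τ (m - 2)) * x m = p.S (τ m) (a m)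
  x0 : x 0 = 0
  xN : ∀ n : ℕ, N ≤ n → x n = 0
  xne : ∀ n : ℕ, 0 < n → (n : ℕ∞) < N → x n ≠ 0

theorem closed_of_tsys (h : TSys p N τ a x) (hN : (1 : ℕ∞) < N) (h01 : τ 0 ≠ τ 1)
    (hinj : Inj N (fun n : ℕ => τ n)) :
    Closed p N τ a x := by
  have hN0 : ((0 : ℕ) : ℕ∞) < N := lt_of_le_of_lt bot_le hN
  have hN1 : ((1 : ℕ) : ℕ∞) < N := by exact_mod_cast hN
  have E0 := h.E 0 hN0
  rw [h.x0] at E0
  push_cast at E0
  simp only [zero_add, mul_zero, zero_sub] at E0
  have f : (τ 0 - τ 2) * x 1 = p.S (τ 0) (a 0) := by linear_combination E0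
  refine ⟨h.tau, h.A, ?_, f, ?_, h.x0, h.xN, h.xne⟩
  · intro n hn0 hn
    have hne : τ (n - 1) ≠ τ n := by
      obtain ⟨m, rfl⟩ : ∃ m, n = m + 1 := ⟨n - 1, by omega⟩
      push_cast
      rw [show (m : ℤ) + 1 - 1 = m by ring]
      intro h0
      have := hinj m (m + 1) (lt_of_add hn) hn (by push_cast; exact h0)
      omega
    have k := h.kap_eq (m := 1) (n := n) hn0 (le_of_lt hn) (by simpa using h01) hne
    unfold TSys.t at k
    norm_num at k
    unfold kap0
    linear_combination -k - (τ 1 - τ (-1)) * f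
  · intro m hm
    have e := h.E m (by rw [hm]; exact_mod_cast Nat.lt_succ_self m)
    rw [h.xN (m + 1) (by rw [hm])] at e
    linear_combination e

theorem tsys_of_closed (h : Closed p N τ a x)
    (hinj : Inj N (fun n : ℕ => τ n)) : TSys p N τ a x := by
  refine ⟨h.tau, h.A, ?_, ?_, h.x0, h.xN, h.xne⟩
  · intro n hn
    have a1 := h.A n (lt_of_add hn)
    have a2 := h.A (n + 1) hn
    have hne : τ n - τ (n + 1) ≠ 0 := by
      rw [sub_ne_zero]
      intro h0
      have := hinj n (n + 1) (lt_of_add hn) hn (by push_cast; exact h0)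
      omega
    push_cast at a2
    rw [show (n : ℤ) + 1 - 1 = n by ring, show (n : ℤ) + 1 + 1 = n + 2 by ring] at a2
    apply mul_left_cancel₀ hne
    unfold Scal.u at a1 a2
    linear_combination a1 - a2
  · intro n hn
    rcases Nat.eq_zero_or_pos n with rfl | hn0
    · rw [h.x0]
      push_cast
      simp only [zero_add, mul_zero, zero_sub]
      linear_combination h.first
    by_cases hlast : ((n + 1 : ℕ) : ℕ∞) < N
    · obtain ⟨m, rfl⟩ : ∃ m, n = m + 1 := ⟨n - 1, by omega⟩
      have e1 := h.X (m + 1) hn0 hn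
      have e2 := h.X (m + 2) (by omega) hlast
      have hA := h.A (m + 1) hn
      have hr := h.tau.recur (m + 1)
      push_cast at *
      rw [show (m : ℤ) + 1 + 1 = m + 2 by ring] at *
      rw [show (m : ℤ) + 1 - 1 = m by ring] at *
      rw [show (m : ℤ) + 2 + 1 = m + 3 by ring, show (m : ℤ) + 2 - 1 = m + 1 by ring,
        show (m : ℤ) + 2 - 2 = m by ring] at e2
      have hne : ∀ i j : ℕ, i ≠ j → i ≤ m + 2 → j ≤ m + 2 → τ i ≠ τ j := by
        intro i j hij hi hj h0
        refine hij (hinj i j ?_ ?_ h0)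
        · exact lt_of_le_of_lt (by exact_mod_cast hi) hlast
        · exact lt_of_le_of_lt (by exact_mod_cast hj) hlast
      have n1 : τ m ≠ τ (m + 1) := by
        have := hne m (m + 1) (by omega) (by omega) (by omega)
        exact_mod_cast this
      have n2 : τ (m + 1) ≠ τ (m + 2) := by
        have := hne (m + 1) (m + 2) (by omega) (by omega) (by omega)
        exact_mod_cast this
      have n3 : τ (m + 2) ≠ τ m := by
        have := hne (m + 2) m (by omega) (by omega) (by omega)
        exact_mod_cast this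
      have ps := TSys.phi_step p n1 n2 hr hA
      apply mul_left_cancel₀ (sub_ne_zero.2 n3)
      rw [show (m : ℤ) + 1 + 2 = m + 3 by ring]
      rw [show (m + 1 + 1) = m + 2 by rfl]
      linear_combination e1 - e2 - ps
    · have hNn : N = ((n + 1 : ℕ) : ℕ∞) := by
        apply le_antisymm (not_lt.1 hlast)
        have := Order.add_one_le_of_lt hn
        exact_mod_cast this
      have e := h.last n hNn
      rw [h.xN (n + 1) (by rw [hNn])]
      linear_combination e

/-- closed form of the eigenvalues, `β = q + 1/q` with `q² ≠ 1`, in any extension field -/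
theorem IsTau.closed_q (h : IsTau p τ) {L : Type*} [Field L] [Algebra K L] {q : L} (hq0 : q ≠ 0)
    (hq : q + q⁻¹ = algebraMap K L p.β) (hq2 : q ^ 2 ≠ 1) :
    ∃ b0 b1 b2 : L, ∀ n : ℤ, algebraMap K L (τ n) = b0 + b1 * q ^ n + b2 * q ^ (-n) := by
  have h2β : 2 - algebraMap K L p.β ≠ 0 := by
    rw [← hq]
    intro h0
    have : (q - 1) ^ 2 = 0 := by
      have e : 2 * q - q ^ 2 - 1 = 0 := by
        have := congrArg (· * q) h0
        simp only [zero_mul] at this
        rw [sub_mul, add_mul, inv_mul_cancel₀ hq0] at this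
        linear_combination this
      linear_combination -e
    have h1 : q = 1 := sub_eq_zero.1 (pow_eq_zero_iff (two_ne_zero) |>.1 this)
    exact hq2 (by rw [h1]; ring)
  have hd : q - q⁻¹ ≠ 0 := by
    intro h0
    apply hq2
    have := congrArg (· * q) h0
    simp only [zero_mul, sub_mul, inv_mul_cancel₀ hq0] at this
    linear_combination this
  let s : ℤ → L := fun n => algebraMap K L (τ n)
  have hs : ∀ n, s (n + 1) + s (n - 1) = algebraMap K L p.β * s n + algebraMap K L p.γs := by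
    intro n
    have := congrArg (algebraMap K L) (h.recur n)
    simpa only [map_add, map_mul] using this
  set b0 : L := algebraMap K L p.γs / (2 - algebraMap K L p.β) with hb0
  have hb0' : b0 * (2 - algebraMap K L p.β) = algebraMap K L p.γs := by
    rw [hb0, div_mul_cancel₀ _ h2β]
  set b1 : L := ((s 1 - b0) - q⁻¹ * (s 0 - b0)) / (q - q⁻¹) with hb1
  set b2 : L := (q * (s 0 - b0) - (s 1 - b0)) / (q - q⁻¹) with hb2
  have e0 : s 0 = b0 + b1 + b2 := by
    rw [hb1, hb2]
    field_simp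
    ring
  have e1 : s 1 = b0 + b1 * q + b2 * q⁻¹ := by
    have : b1 * q + b2 * q⁻¹ = s 1 - b0 := by
      rw [hb1, hb2, div_mul_eq_mul_div, div_mul_eq_mul_div, ← add_div, div_eq_iff hd]
      field_simp
      ring
    linear_combination -this
  refine ⟨b0, b1, b2, ?_⟩
  let r : ℤ → L := fun n => b0 + b1 * q ^ n + b2 * q ^ (-n)
  have hr : ∀ n, r (n + 1) + r (n - 1) = algebraMap K L p.β * r n + algebraMap K L p.γs := by
    intro n
    simp only [r]
    rw [← hb0', ← hq, zpow_add₀ hq0, zpow_sub₀ hq0, neg_add, neg_sub, zpow_add₀ hq0,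
      zpow_sub₀ hq0, zpow_one, zpow_neg, zpow_neg, zpow_one]
    field_simp
    ring
  have key : ∀ k : ℕ, (s k = r k ∧ s (k + 1) = r (k + 1)) ∧
      (s (-k) = r (-k) ∧ s (-k + 1) = r (-k + 1)) := by
    intro k
    induction k with
    | zero =>
      have r0 : s 0 = r 0 := by simp only [r]; rw [e0]; simp
      have r1 : s 1 = r 1 := by simp only [r]; rw [e1]; simp
      simp [r0, r1]
    | succ k ih =>
      obtain ⟨⟨a1, a2⟩, c1, c2⟩ := ih
      refine ⟨⟨?_, ?_⟩, ?_, ?_⟩
      · push_cast; exact a2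
      · push_cast
        have f1 := hs (k + 1)
        have f2 := hr (k + 1)
        rw [show (k : ℤ) + 1 - 1 = k by ring] at f1 f2
        rw [a1, a2] at f1
        linear_combination f1 - f2
      · push_cast
        have f1 := hs (-k)
        have f2 := hr (-k)
        rw [c1, c2] at f1
        rw [show -((k : ℤ) + 1) = -k - 1 by ring]
        linear_combination f1 - f2
      · push_cast
        rw [show -((k : ℤ) + 1) + 1 = -k by ring]
        exact c1
  intro n
  rcases Int.eq_nat_or_neg n with ⟨m, rfl | rfl⟩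
  · exact (key m).1.1
  · exact (key m).2.1

/-- closed form of the eigenvalues, `β = 2` -/
theorem IsTau.closed_two (h : IsTau p τ) (hβ : p.β = 2) (n : ℤ) :
    τ n = τ 0 + n * (τ 1 - τ 0) + ((n * (n - 1) / 2 : ℤ) : K) * p.γs := by
  have hdiv : ∀ n : ℤ, ((n + 1) * n / 2 : ℤ) = n * (n - 1) / 2 + n := by
    intro n
    rw [show (n + 1) * n = n * (n - 1) + n * 2 by ring, Int.add_mul_ediv_right _ _ (by norm_num)]
  have key : ∀ k : ℕ, (τ k = τ 0 + k * (τ 1 - τ 0) + (((k : ℤ) * (k - 1) / 2 : ℤ) : K) * p.γs ∧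
      τ (k + 1) = τ 0 + (k + 1) * (τ 1 - τ 0) + ((((k : ℤ) + 1) * k / 2 : ℤ) : K) * p.γs) ∧
      (τ (-k) = τ 0 - k * (τ 1 - τ 0) + (((-k : ℤ) * (-k - 1) / 2 : ℤ) : K) * p.γs ∧
      τ (-k + 1) = τ 0 + (-k + 1) * (τ 1 - τ 0) + (((-(k : ℤ) + 1) * (-k) / 2 : ℤ) : K) * p.γs) := by
    intro k
    induction k with
    | zero => simp
    | succ k ih =>
      obtain ⟨⟨a1, a2⟩, c1, c2⟩ := ih
      refine ⟨⟨?_, ?_⟩, ?_, ?_⟩
      · push_cast
        rw [a2, show (k : ℤ) + 1 - 1 = k by ring]
      · push_cast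
        have e := h.succ2 k
        rw [hβ] at e
        have H1 : ((k : ℤ) + 1 + 1) * (k + 1) / 2 = ((k : ℤ) + 1) * k / 2 + (k + 1) := by
          have := hdiv (k + 1)
          rwa [show ((k : ℤ) + 1) * (k + 1 - 1) = (k + 1) * k by ring] at this
        have H0 := hdiv k
        rw [H1, show (k : ℤ) + 1 + 1 = k + 2 by ring, e, a1, a2, H0]
        push_cast
        ring
      · push_cast
        have e := h.recur (-k)
        rw [hβ] at e
        rw [show -((k : ℤ) + 1) = -k - 1 by ring]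
        have h1 := hdiv (-k)
        have h2 := hdiv (-k - 1)
        rw [show (-(k : ℤ) - 1 + 1) * (-k - 1) = -k * (-k - 1) by ring] at h2
        rw [h1] at c2
        rw [h2] at c1 c2
        push_cast at c1 c2
        linear_combination e - c2 + 2 * c1
      · push_cast
        rw [show -((k : ℤ) + 1) + 1 = -k by ring, c1]
        rw [show -(k : ℤ) * -((k : ℤ) + 1) = -k * (-k - 1) by ring]
        ring
  rcases Int.eq_nat_or_neg n with ⟨m, rfl | rfl⟩
  · have := (key m).1.1
    push_cast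
    exact this
  · have := (key m).2.1
    push_cast
    rw [this]
    ring

/-- closed form of the eigenvalues, `β = -2` -/
theorem IsTau.closed_neg_two (h : IsTau p τ) (hβ : p.β = -2) (h4 : (4 : K) ≠ 0) :
    ∀ n : ℤ, τ n = p.γs / 4 + (-1) ^ n *
      ((τ 0 - p.γs / 4) - n * ((τ 0 - p.γs / 4) + (τ 1 - p.γs / 4))) := by
  have hm : (-1 : K) ≠ 0 := by simp
  have key : ∀ k : ℕ, (τ k = p.γs / 4 + (-1) ^ (k : ℤ) *
      ((τ 0 - p.γs / 4) - (k : K) * ((τ 0 - p.γs / 4) + (τ 1 - p.γs / 4))) ∧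
      τ (k + 1) = p.γs / 4 + (-1) ^ ((k : ℤ) + 1) *
      ((τ 0 - p.γs / 4) - ((k : K) + 1) * ((τ 0 - p.γs / 4) + (τ 1 - p.γs / 4)))) ∧
      (τ (-k) = p.γs / 4 + (-1) ^ (-(k : ℤ)) *
      ((τ 0 - p.γs / 4) + (k : K) * ((τ 0 - p.γs / 4) + (τ 1 - p.γs / 4))) ∧
      τ (-k + 1) = p.γs / 4 + (-1) ^ (-(k : ℤ) + 1) *
      ((τ 0 - p.γs / 4) - (-(k : K) + 1) * ((τ 0 - p.γs / 4) + (τ 1 - p.γs / 4)))) := by
    intro k
    induction k with
    | zero => 
      simp
    | succ k ih =>
      obtain ⟨⟨a1, a2⟩, c1, c2⟩ := ih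
      refine ⟨⟨?_, ?_⟩, ?_, ?_⟩
      · push_cast; exact a2
      · push_cast
        have e := h.succ2 k
        rw [hβ] at e
        rw [zpow_add₀ hm] at a2
        rw [show (k : ℤ) + 1 + 1 = k + 2 by ring, e, a1, a2, zpow_add₀ hm]
        field_simp
        norm_num
        ring
      · push_cast
        have e := h.recur (-k)
        rw [hβ] at e
        have e' : τ (-k - 1) = -2 * τ (-k) + p.γs - τ (-k + 1) := by linear_combination e
        rw [zpow_add₀ hm] at c2
        rw [show -((k : ℤ) + 1) = -k - 1 by ring, e', c1, c2, zpow_sub₀ hm]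
        field_simp
        norm_num
        ring
      · push_cast
        rw [show -((k : ℤ) + 1) + 1 = -k by ring, c1]
        ring
  intro n
  rcases Int.eq_nat_or_neg n with ⟨m, rfl | rfl⟩
  · have := (key m).1.1
    push_cast
    exact this
  · have := (key m).2.1
    push_cast
    rw [this]
    ring

end Pool.Agent.TH10.AW
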