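import Pool.Agent.TH10.AW.Sing

/-! Bases over a division ring of endomorphisms, obtained from the first vectors of a sequence
satisfying a three-term recurrence. -/

set_option autoImplicit false
set_option linter.unusedSectionVars false

namespace Pool.Agent.TH10.AW

open Polynomial

variable {K : Type*} [Field K]
variable {V : Type*} [AddCommGroup V] [Module K V]

/-- A sequence of eigenvectors of `B` satisfying a three-term recurrence with respect to `A`,
spanning `V` over `F`, where `F` acts by endomorphisms commuting with `A` and `B`. -/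
structure Rec (F : Type*) [DivisionRing F] [Algebra K F] [Module F V]
    (A B : Module.End K V) (u : ℕ → V) (θ a x : ℕ → K) : Prop where
  cA : ∀ (c : F) (w : V), A (c • w) = c • A w
  cB : ∀ (c : F) (w : V), B (c • w) = c • B w
  rA : ∀ n, A (u n) = u (n + 1) + a n • u n + x n • u (n - 1)
  rB : ∀ n, B (u n) = θ n • u n
  sp : Submodule.span F (Set.range u) = ⊤

variable {F : Type*} [DivisionRing F] [Algebra K F] [Module F V] [IsScalarTower K F V]
variable {A B : Module.End K V} {u : ℕ → V} {θ a x : ℕ → K}

namespace Rec

variable (h : Rec F A B u θ a x)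
include h

theorem stable_A {k : ℕ} (hk : u k ∈ Submodule.span F (u '' {j | j < k})) :
    ∀ w ∈ Submodule.span F (u '' {j | j < k}), A w ∈ Submodule.span F (u '' {j | j < k}) := by
  have hs : ∀ j, j ≤ k → u j ∈ Submodule.span F (u '' {j | j < k}) := by
    intro j hj
    rcases Nat.lt_or_ge j k with h1 | h1
    · exact Submodule.subset_span ⟨j, h1, rfl⟩
    · rwa [show j = k by omega]
  intro w hw
  induction hw using Submodule.span_induction with
  | mem w hw =>
    obtain ⟨j, hj, rfl⟩ := hw
    simp only [Set.mem_ofPred_eq] at hj
    rw [h.rA]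
    refine Submodule.add_mem _ (Submodule.add_mem _ (hs _ (by omega)) ?_) ?_
    · rw [← algebraMap_smul F (a j)]
      exact Submodule.smul_mem _ _ (hs _ (by omega))
    · rw [← algebraMap_smul F (x j)]
      exact Submodule.smul_mem _ _ (hs _ (by omega))
  | zero => rw [map_zero]; exact Submodule.zero_mem _
  | add w w' _ _ hw hw' => rw [map_add]; exact Submodule.add_mem _ hw hw'
  | smul c w _ hw => rw [h.cA]; exact Submodule.smul_mem _ _ hw

theorem span_top {k : ℕ} (hk : u k ∈ Submodule.span F (u '' {j | j < k})) :
    Submodule.span F (u '' {j | j < k}) = ⊤ := by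
  have key : ∀ n, u n ∈ Submodule.span F (u '' {j | j < k}) := by
    intro n
    induction n using Nat.strong_induction_on with
    | _ n ih =>
      rcases Nat.lt_trichotomy n k with h1 | h1 | h1
      · exact Submodule.subset_span ⟨n, h1, rfl⟩
      · rwa [h1]
      · obtain ⟨m, rfl⟩ : ∃ m, n = m + 1 := ⟨n - 1, by omega⟩
        have e : u (m + 1) = A (u m) - a m • u m - x m • u (m - 1) := by
          rw [h.rA]; module
        rw [e]
        refine Submodule.sub_mem _ (Submodule.sub_mem _ (h.stable_A hk _ (ih m (by omega))) ?_) ?_
        · rw [← algebraMap_smul F (a m)]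
          exact Submodule.smul_mem _ _ (ih m (by omega))
        · rw [← algebraMap_smul F (x m)]
          exact Submodule.smul_mem _ _ (ih (m - 1) (by omega))
  rw [eq_top_iff, ← h.sp, Submodule.span_le]
  rintro _ ⟨n, rfl⟩
  exact key n

omit h in
theorem li_of (u : ℕ → V) (k : ℕ) (hk : ∀ j < k, u j ∉ Submodule.span F (u '' {i | i < j})) :
    LinearIndependent F (fun i : Fin k => u i) := by
  induction k with
  | zero => exact linearIndependent_empty_type
  | succ k ih =>
    have e : (fun i : Fin (k + 1) => u i) = Fin.snoc (fun i : Fin k => u i) (u k) := by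
      funext i
      refine Fin.lastCases ?_ (fun j => ?_) i
      · simp
      · simp
    rw [e, linearIndependent_finSnoc]
    refine ⟨ih fun j hj => hk j (by omega), ?_⟩
    have e2 : Set.range (fun i : Fin k => u i) = u '' {i | i < k} := by
      ext w
      constructor
      · rintro ⟨i, rfl⟩
        exact ⟨i, i.2, rfl⟩
      · rintro ⟨i, hi, rfl⟩
        exact ⟨⟨i, hi⟩, rfl⟩
    rw [e2]
    exact hk k (by omega)

/-- the first `m = dim_F V` vectors form an `F`-basis -/
theorem basis [Module.Finite F V] : LinearIndependent F (fun i : Fin (Module.finrank F V) => u i) ∧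
    Submodule.span F (u '' {j | j < Module.finrank F V}) = ⊤ := by
  classical
  have hex : ∃ k, u k ∈ Submodule.span F (u '' {j | j < k}) := by
    by_contra hcon
    push Not at hcon
    have h1 := li_of (F := F) u (Module.finrank F V + 1) fun j _ => hcon j
    have h2 := h1.fintype_card_le_finrank
    simp at h2
  have hk := Nat.find_spec hex
  have hmin : ∀ j < Nat.find hex, u j ∉ Submodule.span F (u '' {i | i < j}) :=
    fun j hj => Nat.find_min hex hj
  generalize Nat.find hex = k at hk hmin
  have h1 := li_of u k hmin
  have h2 := h.span_top hk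
  have e2 : Set.range (fun i : Fin k => u i) = u '' {i | i < k} := by
    ext w
    constructor
    · rintro ⟨i, rfl⟩
      exact ⟨i, i.2, rfl⟩
    · rintro ⟨i, hi, rfl⟩
      exact ⟨⟨i, hi⟩, rfl⟩
  let b : Module.Basis (Fin k) F V := Module.Basis.mk h1 (by rw [e2, h2])
  have hfin : Module.finrank F V = k := by
    rw [Module.finrank_eq_card_basis b, Fintype.card_fin]
  rw [hfin]
  exact ⟨h1, h2⟩

/-- the `F`-basis -/
noncomputable def bas [Module.Finite F V] : Module.Basis (Fin (Module.finrank F V)) F V :=
  Module.Basis.mk h.basis.1 (by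
    rw [← h.basis.2]
    apply Submodule.span_mono
    rintro _ ⟨i, hi, rfl⟩
    exact ⟨⟨i, hi⟩, rfl⟩)

theorem bas_apply [Module.Finite F V] (i : Fin (Module.finrank F V)) : h.bas i = u i := by
  simp [bas]

/-- coordinates of an eigenvector of `B` -/
theorem repr_eig [Module.Finite F V] {w : V} {m : K} (hw : B w = m • w)
    (i : Fin (Module.finrank F V)) (hi : h.bas.repr w i ≠ 0) : θ i = m := by
  have e : ∀ w, h.bas.repr (B w) i = h.bas.repr w i * algebraMap K F (θ i) := by
    intro w
    have hw : w ∈ Submodule.span F (Set.range h.bas) := by rw [h.bas.span_eq]; trivial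
    induction hw using Submodule.span_induction with
    | mem w hw =>
      obtain ⟨j, rfl⟩ := hw
      rw [h.bas_apply, h.rB, ← algebraMap_smul F (θ j), map_smul, ← h.bas_apply,
        Module.Basis.repr_self, Finsupp.smul_apply, Finsupp.single_apply, smul_eq_mul]
      split_ifs with hij
      · rw [hij]; simp
      · simp
    | zero => simp
    | add w w' _ _ hw hw' => rw [map_add, map_add, Finsupp.add_apply, hw, hw', map_add,
        Finsupp.add_apply, add_mul]
    | smul c w _ hw => rw [h.cB, map_smul, Finsupp.smul_apply, hw, map_smul, Finsupp.smul_apply,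
        smul_eq_mul, smul_eq_mul, mul_assoc]
  have e1 := e w
  rw [hw, ← algebraMap_smul F m, map_smul, Finsupp.smul_apply, smul_eq_mul,
    Algebra.commutes] at e1
  have := mul_left_cancel₀ hi e1
  exact (FaithfulSMul.algebraMap_injective K F this).symm

end Rec

end Pool.Agent.TH10.AW
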