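import Pool.Agent.TH10.AW.TSys

/-! Invariant subspaces, and irreducibility when the eigenvalues of `B` are distinct. -/

set_option autoImplicit false

namespace Pool.Agent.TH10.AW

variable {K : Type*} [Field K] {p : Scal K}
variable {V : Type*} [AddCommGroup V] [Module K V]
variable {A B : Module.End K V} {N : ℕ∞} {v : ℕ → V} {θ a x : ℕ → K}

theorem PB.span_sub (h : PB A B N v θ a x) :
    ⊤ ≤ Submodule.span K (Set.range (fun i : {i : ℕ // (i : ℕ∞) < N} => v i)) := by
  rw [← h.sp, Submodule.span_le]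
  rintro _ ⟨i, rfl⟩
  by_cases hi : (i : ℕ∞) < N
  · exact Submodule.subset_span ⟨⟨i, hi⟩, rfl⟩
  · rw [h.zero i (not_lt.1 hi)]
    exact Submodule.zero_mem _

/-- the basis -/
noncomputable def PB.basis (h : PB A B N v θ a x) : Module.Basis {i : ℕ // (i : ℕ∞) < N} K V :=
  Module.Basis.mk h.li h.span_sub

theorem PB.basis_apply (h : PB A B N v θ a x) (i : {i : ℕ // (i : ℕ∞) < N}) :
    h.basis i = v i := by
  simp [PB.basis]

theorem PB.repr_B (h : PB A B N v θ a x) (w : V) (i : {i : ℕ // (i : ℕ∞) < N}) :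
    h.basis.repr (B w) i = θ i * h.basis.repr w i := by
  have : (h.basis.coord i).comp B = θ i • h.basis.coord i := by
    apply h.basis.ext
    intro j
    simp only [LinearMap.comp_apply, h.basis_apply, h.hB, map_smul, LinearMap.smul_apply]
    rw [← h.basis_apply, Module.Basis.coord_apply, Module.Basis.repr_self, Finsupp.single_apply]
    split_ifs with hij
    · rw [hij]
    · simp
  exact congrArg (fun f : V →ₗ[K] K => f w) this

/-- a nonzero `B`-stable subspace contains an eigenvector of `B` -/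
theorem PB.exists_eig (h : PB A B N v θ a x) (W : Submodule K V) (hW : W ≠ ⊥)
    (hB : ∀ w ∈ W, B w ∈ W) :
    ∃ w ∈ W, w ≠ 0 ∧ ∃ j : ℕ, (j : ℕ∞) < N ∧ B w = θ j • w ∧
      ∀ i : {i : ℕ // (i : ℕ∞) < N}, h.basis.repr w i ≠ 0 → θ i = θ j := by
  classical
  obtain ⟨w0, hw0, hw0'⟩ := Submodule.exists_mem_ne_zero_of_ne_bot hW
  let S : Set ℕ := {n | ∃ w ∈ W, w ≠ 0 ∧ (h.basis.repr w).support.card = n}
  have hS : S.Nonempty := ⟨_, w0, hw0, hw0', rfl⟩
  obtain ⟨w, hw, hw1, hw2⟩ := Nat.sInf_mem hS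
  refine ⟨w, hw, hw1, ?_⟩
  have hne : (h.basis.repr w).support.Nonempty := by
    rw [Finsupp.support_nonempty_iff]
    simpa using hw1
  obtain ⟨j, hj⟩ := hne
  have key : ∀ i, h.basis.repr w i ≠ 0 → θ i = θ j := by
    by_contra hcon
    push Not at hcon
    obtain ⟨i, hi, hij⟩ := hcon
    have hw' : B w - θ j • w ∈ W := W.sub_mem (hB w hw) (W.smul_mem _ hw)
    have hrep : ∀ i, h.basis.repr (B w - θ j • w) i = (θ i - θ j) * h.basis.repr w i := by
      intro i
      rw [map_sub, map_smul, Finsupp.sub_apply, h.repr_B, Finsupp.smul_apply, smul_eq_mul]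
      ring
    have hw0 : B w - θ j • w ≠ 0 := by
      intro h0
      have := hrep i
      rw [h0, map_zero, Finsupp.zero_apply] at this
      rcases mul_eq_zero.1 this.symm with h1 | h1
      · exact hij (sub_eq_zero.1 h1)
      · exact hi h1
    have hlt : (h.basis.repr (B w - θ j • w)).support.card < (h.basis.repr w).support.card := by
      apply Finset.card_lt_card
      refine ⟨?_, ?_⟩
      · intro k hk
        rw [Finsupp.mem_support_iff, hrep] at hk
        rw [Finsupp.mem_support_iff]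
        exact right_ne_zero_of_mul hk
      · intro hsub
        have := hsub hj
        rw [Finsupp.mem_support_iff, hrep] at this
        simp at this
    have : sInf S ≤ (h.basis.repr (B w - θ j • w)).support.card :=
      Nat.sInf_le ⟨_, hw', hw0, rfl⟩
    omega
  refine ⟨j, j.2, ?_, key⟩
  apply h.basis.repr.injective
  ext i
  rw [h.repr_B, map_smul, Finsupp.smul_apply, smul_eq_mul]
  by_cases hi : h.basis.repr w i = 0
  · rw [hi]; simp
  · rw [key i hi]

/-- separating two eigencomponents -/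
theorem sep_two {W : Submodule K V} (hB : ∀ w ∈ W, B w ∈ W) {w1 w2 : V} {m1 m2 : K}
    (h1 : B w1 = m1 • w1) (h2 : B w2 = m2 • w2) (hm : m1 ≠ m2) (hw : w1 + w2 ∈ W) :
    w1 ∈ W ∧ w2 ∈ W := by
  have e1 : B (w1 + w2) - m2 • (w1 + w2) ∈ W := W.sub_mem (hB _ hw) (W.smul_mem _ hw)
  have e2 : B (w1 + w2) - m2 • (w1 + w2) = (m1 - m2) • w1 := by
    rw [map_add, h1, h2]; module
  rw [e2] at e1
  have h3 : w1 ∈ W := by
    have := W.smul_mem (m1 - m2)⁻¹ e1
    rwa [smul_smul, inv_mul_cancel₀ (sub_ne_zero.2 hm), one_smul] at this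
  exact ⟨h3, by simpa using W.sub_mem hw h3⟩

theorem PB.top_of_mem (h : PB A B N v θ a x) {W : Submodule K V} (hA : ∀ w ∈ W, A w ∈ W)
    (h0 : v 0 ∈ W) : W = ⊤ := by
  have key : ∀ n : ℕ, v n ∈ W := by
    intro n
    induction n using Nat.strong_induction_on with
    | _ n ih =>
      rcases n with _ | n
      · exact h0
      · have e : v (n + 1) = A (v n) - a n • v n - x n • v (n - 1) := by
          rw [h.hA]; module
        rw [e]
        exact W.sub_mem (W.sub_mem (hA _ (ih n (by omega))) (W.smul_mem _ (ih n (by omega))))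
          (W.smul_mem _ (ih (n - 1) (by omega)))
  rw [eq_top_iff, ← h.sp, Submodule.span_le]
  rintro _ ⟨n, rfl⟩
  exact key n

/-- distinct eigenvalues: irreducible -/
theorem PB.irr_of_inj (h : PB A B N v θ a x) (hN : N ≠ 0)
    (hinj : ∀ i j : ℕ, (i : ℕ∞) < N → (j : ℕ∞) < N → θ i = θ j → i = j) : Irr A B := by
  have hN' : ((0 : ℕ) : ℕ∞) < N := by
    rw [Nat.cast_zero]; exact pos_iff_ne_zero.2 hN
  refine ⟨⟨⟨v 0, 0, h.ne_zero hN'⟩⟩, fun W hWA hWB => ?_⟩
  by_cases hW : W = ⊥
  · exact Or.inl hW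
  right
  obtain ⟨w, hw, hw0, j, hj, -, hk⟩ := h.exists_eig W hW hWB
  have hwj : w = h.basis.repr w ⟨j, hj⟩ • v j := by
    apply h.basis.repr.injective
    ext i
    have : v j = h.basis ⟨j, hj⟩ := (h.basis_apply ⟨j, hj⟩).symm
    rw [map_smul, Finsupp.smul_apply, this, Module.Basis.repr_self, Finsupp.single_apply]
    split_ifs with hij
    · rw [hij]; simp
    · by_contra hne
      have h1 : h.basis.repr w i ≠ 0 := fun h0 => hne (by rw [h0]; simp)
      exact hij (Subtype.ext (hinj _ _ i.2 hj (hk i h1)).symm)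
  have hc : h.basis.repr w ⟨j, hj⟩ ≠ 0 := by
    intro h0
    rw [h0, zero_smul] at hwj
    exact hw0 hwj
  have hvj : v j ∈ W := by
    generalize h.basis.repr w ⟨j, hj⟩ = c at hwj hc
    rw [hwj] at hw
    exact (W.smul_mem_iff hc).1 hw
  have down : ∀ n : ℕ, (n : ℕ∞) < N → v n ∈ W → v 0 ∈ W := by
    intro n
    induction n with
    | zero => intro _ h; exact h
    | succ n ih =>
      intro hn hv
      apply ih (lt_of_add hn)
      have e1 : v (n + 2) + x (n + 1) • v n ∈ W := by
        have e2 : v (n + 2) + x (n + 1) • v n = A (v (n + 1)) - a (n + 1) • v (n + 1) := by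
          rw [h.hA]; simp only [Nat.add_sub_cancel]; module
        rw [e2]
        exact W.sub_mem (hWA _ hv) (W.smul_mem _ hv)
      have e3 : x (n + 1) • v n ∈ W := by
        by_cases hn2 : ((n + 2 : ℕ) : ℕ∞) < N
        · refine (sep_two hWB (h.hB (n + 2)) (m2 := θ n) ?_ ?_ e1).2
          · rw [map_smul, h.hB, smul_comm]
          · intro he
            have := hinj _ _ hn2 (lt_of_add hn) he
            omega
        · rwa [h.zero (n + 2) (not_lt.1 hn2), zero_add] at e1
      have hx := h.xne (n + 1) (by omega) hn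
      have := W.smul_mem (x (n + 1))⁻¹ e3
      rwa [smul_smul, inv_mul_cancel₀ hx, one_smul] at this
  exact h.top_of_mem hWA (down j hj hvj)

end Pool.Agent.TH10.AW
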