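import Pool.Agent.TH10.AW.SuffB

/-! Isomorphisms of finite dimensional irreducible modules: the general criterion. -/

set_option autoImplicit false
set_option linter.unusedSectionVars false
set_option linter.style.haveILetI false

namespace Pool.Agent.TH10.AW

open Polynomial

variable {K : Type*} [Field K] {p : Scal K}
variable {V : Type*} [AddCommGroup V] [Module K V]
variable {V' : Type*} [AddCommGroup V'] [Module K V']
variable {A B : Module.End K V} {A' B' : Module.End K V'}
variable {n0 n0' : ℕ} {v : ℕ → V} {θ a x : ℕ → K} {v' : ℕ → V'} {θ' a' x' : ℕ → K}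

theorem aeval_inter {φ : V →ₗ[K] V'} (hA : ∀ w, φ (A w) = A' (φ w)) (f : K[X]) (w : V) :
    φ (aeval A f w) = aeval A' f (φ w) := by
  induction f using Polynomial.induction_on' with
  | add f g hf hg => rw [map_add, map_add, LinearMap.add_apply, LinearMap.add_apply, map_add, hf, hg]
  | monomial n c =>
    rw [aeval_monomial, aeval_monomial, Module.End.mul_apply, Module.End.mul_apply,
      Module.algebraMap_end_apply, Module.algebraMap_end_apply, map_smul]
    congr 1
    induction n with
    | zero => simp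
    | succ n ih => rw [pow_succ', pow_succ', Module.End.mul_apply, Module.End.mul_apply, hA, ih]

/-- the polynomial `P_N` is an invariant -/
theorem pp_eq_of_iso (hp : PB A B (n0 : ℕ∞) v θ a x) (hp' : PB A' B' (n0' : ℕ∞) v' θ' a' x')
    (φ : V ≃ₗ[K] V') (hA : ∀ w, φ (A w) = A' (φ w)) : n0 = n0' ∧ PP a x n0 = PP a' x' n0' := by
  have hn : n0 = n0' := by
    rw [← hp.finrank_eq, ← hp'.finrank_eq]
    exact φ.finrank_eq
  subst hn
  refine ⟨rfl, ?_⟩
  have hm := PP_monic a x n0
  have hm' := PP_monic a' x' n0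
  by_contra hne
  have hsub : PP a x n0 - PP a' x' n0 ≠ 0 := sub_ne_zero.2 hne
  apply hp'.aeval_ne_zero hsub
  · have := degree_sub_lt_left (p := PP a x n0) (q := PP a' x' n0) (by
      rw [degree_eq_natDegree hm.1.ne_zero, degree_eq_natDegree hm'.1.ne_zero, hm.2, hm'.2])
      hm.1.ne_zero (by rw [hm.1.leadingCoeff, hm'.1.leadingCoeff])
    have := natDegree_lt_natDegree hsub this
    rw [hm.2] at this
    exact_mod_cast this
  · rw [map_sub, LinearMap.sub_apply, hp'.PP_apply, hp'.zero n0 le_rfl, sub_zero]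
    have e := aeval_inter (φ := φ.toLinearMap) hA (PP a x n0) (φ.symm (v' 0))
    rw [hp.aeval_PP_zero] at e
    simp only [LinearMap.zero_apply, map_zero, LinearEquiv.coe_coe,
      LinearEquiv.apply_symm_apply] at e
    exact e.symm

/-- construction of an isomorphism from a singular vector with the right parameters -/
theorem iso_of_sing (h1 : AW1 p A B) (h1' : AW1 p A' B') (hI' : Irr A' B') (hI : Irr A B)
    (hp : PB A B (n0 : ℕ∞) v θ a x) (hp' : PB A' B' (n0 : ℕ∞) v' θ' a' x')
    (hP : PP a x n0 = PP a' x' n0) {m n c : K} (hs : Sg A B m n c (v 0)) {g : V'} (hg : g ≠ 0)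
    (hsg : Sg A' B' m n c g) :
    ∃ φ : V ≃ₗ[K] V', (∀ w, φ (A w) = A' (φ w)) ∧ (∀ w, φ (B w) = B' (φ w)) := by
  -- the map `f(A) v 0 ↦ f(A') g`
  let φ : V →ₗ[K] V' := hp.basis.constr K fun i => aeval A' (PP a x i) g
  have hφ : ∀ i : ℕ, φ (v i) = aeval A' (PP a x i) g := by
    intro i
    by_cases hi : (i : ℕ∞) < (n0 : ℕ∞)
    · have e : v i = hp.basis ⟨i, hi⟩ := (hp.basis_apply ⟨i, hi⟩).symm
      rw [e, Module.Basis.constr_basis]
    · rw [hp.zero i (not_lt.1 hi), map_zero]
      have hi' : n0 ≤ i := by exact_mod_cast not_lt.1 hi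
      clear hi
      -- `P_{n0}` divides `P_i` for `i ≥ n0`
      have key : ∀ k, aeval A' (PP a x (n0 + k)) g = 0 ∧ aeval A' (PP a x (n0 + k + 1)) g = 0 := by
        have z0 : aeval A' (PP a x n0) g = 0 := by
          rw [hP, hp'.aeval_PP_zero, LinearMap.zero_apply]
        intro k
        induction k with
        | zero =>
          refine ⟨z0, ?_⟩
          rw [add_zero, PP_succ a x hp.x0, hp.xN n0 le_rfl, C_0, zero_mul, sub_zero, map_mul,
            Module.End.mul_apply, z0, map_zero]
        | succ k ih =>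
          refine ⟨by rw [← add_assoc]; exact ih.2, ?_⟩
          rw [← add_assoc, PP_succ a x hp.x0, Nat.add_sub_cancel, map_sub, map_mul, map_mul,
            LinearMap.sub_apply, Module.End.mul_apply, Module.End.mul_apply, ih.1, ih.2, map_zero,
            map_zero, sub_zero]
      have := (key (i - n0)).1
      rw [show n0 + (i - n0) = i by omega] at this
      exact this.symm
  have hA : ∀ w, φ (A w) = A' (φ w) := by
    intro w
    have : φ.comp A = A'.comp φ := by
      apply LinearMap.ext_on_range hp.sp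
      intro i
      rw [LinearMap.comp_apply, LinearMap.comp_apply, hp.hA, map_add, map_add, map_smul, map_smul,
        hφ, hφ, hφ, PP_succ a x hp.x0, map_sub, map_mul, map_mul, map_sub, aeval_X, aeval_C,
        aeval_C, LinearMap.sub_apply, Module.End.mul_apply, Module.End.mul_apply,
        LinearMap.sub_apply, Module.algebraMap_end_apply, Module.algebraMap_end_apply]
      module
    exact congrArg (fun f : V →ₗ[K] V' => f w) this
  have hφ0 : φ (v 0) = g := by rw [hφ]; simp [PP]
  have hφf : ∀ f : K[X], φ (aeval A f (v 0)) = aeval A' f g := by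
    intro f
    rw [aeval_inter hA, hφ0]
  have hB0 : ∀ k : ℕ, φ (B ((A ^ k) (v 0))) = B' (φ ((A ^ k) (v 0))) := by
    intro k
    induction k using Nat.strong_induction_on with
    | _ k ih =>
      match k, ih with
      | 0, _ => rw [pow_zero, Module.End.one_apply, hφ0, hs.e0, hsg.e0, map_smul, hφ0]
      | 1, _ =>
        have e1 : B' (A' g) = n • A' g + (c * m - n * c) • g := by
          have h1 := hsg.e1
          rw [map_sub, map_smul, hsg.e0] at h1
          linear_combination (norm := module) h1
        have e2 : B (A (v 0)) = n • A (v 0) + (c * m - n * c) • v 0 := by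
          have h1 := hs.e1
          rw [map_sub, map_smul, hs.e0] at h1
          linear_combination (norm := module) h1
        rw [pow_one, hA, hφ0, e1, e2, map_add, map_smul, map_smul, hA, hφ0]
      | k + 2, ih =>
        have i0 := ih k (by omega)
        have i1 := ih (k + 1) (by omega)
        have ek1 : (A ^ (k + 1)) (v 0) = A ((A ^ k) (v 0)) := by
          rw [← Module.End.mul_apply, ← pow_succ']
        have ek2 : (A ^ (k + 2)) (v 0) = A (A ((A ^ k) (v 0))) := by
          rw [pow_succ', pow_succ']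
          rfl
        rw [ek1] at i1
        rw [ek2]
        generalize (A ^ k) (v 0) = w at i0 i1
        rw [hA, hA, aw1_apply h1, aw1_apply h1']
        simp only [map_add, map_neg, map_smul]
        rw [hA] at i1
        simp only [hA, i0, i1]
  have hB : ∀ w, φ (B w) = B' (φ w) := by
    intro w
    obtain ⟨f, rfl⟩ := hp.exists_poly w
    induction f using Polynomial.induction_on' with
    | add f f' hf hf' => rw [map_add, LinearMap.add_apply, map_add, map_add, map_add, map_add, hf,
        hf']
    | monomial n c =>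
      rw [aeval_monomial, Module.End.mul_apply, Module.algebraMap_end_apply]
      simp only [map_smul]
      rw [hB0]
  have hker : LinearMap.ker φ = ⊥ := by
    rcases hI.2 (LinearMap.ker φ) (fun w hw => by
      rw [LinearMap.mem_ker] at hw ⊢
      rw [hA, hw, map_zero]) (fun w hw => by
      rw [LinearMap.mem_ker] at hw ⊢
      rw [hB, hw, map_zero]) with h | h
    · exact h
    · exfalso
      apply hg
      rw [← hφ0]
      have : v 0 ∈ LinearMap.ker φ := by rw [h]; trivial
      exact this
  have hran : LinearMap.range φ = ⊤ := by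
    rcases hI'.2 (LinearMap.range φ) (fun w hw => by
      obtain ⟨w, rfl⟩ := hw
      exact ⟨A w, hA w⟩) (fun w hw => by
      obtain ⟨w, rfl⟩ := hw
      exact ⟨B w, hB w⟩) with h | h
    · exfalso
      apply hg
      rw [← hφ0]
      have : φ (v 0) ∈ LinearMap.range φ := ⟨v 0, rfl⟩
      rw [h] at this
      exact (Submodule.mem_bot K).1 this
    · exact h
  refine ⟨LinearEquiv.ofBijective φ
    ⟨LinearMap.ker_eq_bot.1 hker, LinearMap.range_eq_top.1 hran⟩, hA, hB⟩

theorem Sg.map {m n c : K} {g : V} (hg : Sg A B m n c g) {φ : V →ₗ[K] V'}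
    (hA : ∀ w, φ (A w) = A' (φ w)) (hB : ∀ w, φ (B w) = B' (φ w)) : Sg A' B' m n c (φ g) := by
  constructor
  · rw [← hB, hg.e0, map_smul]
  · rw [← hA, ← map_smul, ← map_sub, ← hB, hg.e1, map_smul]

/-- an eigenvalue of `B` is one of the `θ i` -/
theorem PB.eig_mem {N : ℕ∞} (hp : PB A B N v θ a x) {w : V} {m : K} (hw0 : w ≠ 0)
    (hw : B w = m • w) : ∃ i : ℕ, (i : ℕ∞) < N ∧ θ i = m ∧ ∀ j : {i : ℕ // (i : ℕ∞) < N},
      hp.basis.repr w j ≠ 0 → θ j = m := by
  have h1 : ∀ i : {i : ℕ // (i : ℕ∞) < N}, hp.basis.repr w i ≠ 0 → θ i = m := by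
    intro i hi
    have := hp.repr_B w i
    rw [hw, map_smul, Finsupp.smul_apply, smul_eq_mul] at this
    exact (mul_right_cancel₀ hi this).symm
  have hne : (hp.basis.repr w).support.Nonempty := by
    rw [Finsupp.support_nonempty_iff]
    simpa using hw0
  obtain ⟨k, hk⟩ := hne
  rw [Finsupp.mem_support_iff] at hk
  exact ⟨k, k.2, h1 k hk, h1⟩

/-- the set of eigenvalues is an invariant -/
theorem spec_sub {N N' : ℕ∞} (hp : PB A B N v θ a x) (hp' : PB A' B' N' v' θ' a' x')
    (φ : V ≃ₗ[K] V') (hB : ∀ w, φ (B w) = B' (φ w)) :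
    ∀ i : ℕ, (i : ℕ∞) < N → ∃ j : ℕ, (j : ℕ∞) < N' ∧ θ' j = θ i := by
  intro i hi
  have hne : φ (v i) ≠ 0 := by
    intro h0
    exact hp.ne_zero hi (φ.injective (by rw [h0, map_zero]))
  obtain ⟨j, hj, hj2, -⟩ := hp'.eig_mem hne (m := θ i) (by rw [← hB, hp.hB, map_smul])
  exact ⟨j, hj, hj2⟩

end Pool.Agent.TH10.AW
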