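import Pool.Agent.TH10.AW.IsoGen

/-! Isomorphisms between modules of type III. -/

set_option autoImplicit false
set_option linter.unusedSectionVars false
set_option linter.style.haveILetI false

namespace Pool.Agent.TH10.AW

open Polynomial

variable {K : Type*} [Field K] {p : Scal K}
variable {V : Type*} [AddCommGroup V] [Module K V]
variable {A B : Module.End K V}
variable {n0 : ℕ} {v : ℕ → V} {a x : ℕ → K} {τ : ℤ → K}

/-- coordinates of an eigenvector -/
theorem PB.coord_eig {N : ℕ∞} {θ : ℕ → K} (hp : PB A B N v θ a x) {m : ℕ} {f : V →ₗ[K] K}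
    (hf : ∀ i, f (v i) = if i = m then 1 else 0) {w : V} {n : K} (hw : B w = n • w)
    (hne : f w ≠ 0) : θ m = n := by
  have e : f.comp B = θ m • f := by
    apply LinearMap.ext_on_range hp.sp
    intro i
    rw [LinearMap.comp_apply, hp.hB, map_smul, LinearMap.smul_apply, hf]
    split_ifs with h
    · rw [h]
    · simp
  have e1 := congrArg (fun g : V →ₗ[K] K => g w) e
  simp only [LinearMap.comp_apply, LinearMap.smul_apply, hw, map_smul, smul_eq_mul] at e1
  exact (mul_right_cancel₀ hne e1).symm

/-- type III conditions -/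
structure CIII (n0 : ℕ) (τ : ℤ → K) (a x : ℕ → K) (k : ℕ) : Prop where
  hk : 1 ≤ k
  hn : n0 = 2 * (k + 1)
  hτ : τ k = τ (k + 1)
  hd : ∀ i j : ℕ, i < j → j ≤ k → τ i ≠ τ j
  ha : a (n0 - 1) = a 0
  hr : ∀ r : K, (r - a k) * (r - a (k + 1)) ≠ x (k + 1)

namespace CIII

variable {k : ℕ} (hc : CIII n0 τ a x k)
include hc

theorem cen (h : IsTau p τ) : Cen τ ((n0 : ℤ) - 1) := by
  have := h.cen_corner hc.hτ
  rwa [show 2 * (k : ℤ) + 1 = (n0 : ℤ) - 1 by rw [hc.hn]; push_cast; ring] at this

theorem inj : ∀ i j : ℕ, i ≤ k → j ≤ k → τ i = τ j → i = j := by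
  intro i j hi hj he
  rcases Nat.lt_trichotomy i j with h1 | h1 | h1
  · exact absurd he (hc.hd i j h1 hj)
  · exact h1
  · exact absurd he.symm (hc.hd j i h1 hi)

/-- eigenvectors of `B` in a module of type III -/
theorem eig (h : IsTau p τ) (hp : PB A B (n0 : ℕ∞) v (fun n : ℕ => τ n) a x) {w : V} {m : K}
    (hw0 : w ≠ 0) (hw : B w = m • w) : ∃ j, j ≤ k ∧ τ j = m ∧ ∃ α β : K, (α ≠ 0 ∨ β ≠ 0) ∧
      w = α • v j + β • v (n0 - 1 - j) := by
  have hcen := hc.cen h
  have hn := hc.hn
  obtain ⟨j', hj', hjm, hsupp⟩ := hp.eig_mem hw0 hw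
  have hj'n : j' < n0 := by exact_mod_cast hj'
  obtain ⟨j, hj, hjj⟩ : ∃ j, j ≤ k ∧ τ j = τ j' := by
    by_cases h1 : j' ≤ k
    · exact ⟨j', h1, rfl⟩
    · exact ⟨n0 - 1 - j', by omega, hcen.at (by omega)⟩
  have hjn : j < n0 := by omega
  have hjn' : n0 - 1 - j < n0 := by omega
  have hw' : hp.basis.repr w ⟨j, by exact_mod_cast hjn⟩ • v j +
      hp.basis.repr w ⟨n0 - 1 - j, by exact_mod_cast hjn'⟩ • v (n0 - 1 - j) = w := by
    apply hp.basis.repr.injective
    ext i
    have e1 : v j = hp.basis ⟨j, by exact_mod_cast hjn⟩ :=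
      (hp.basis_apply ⟨j, by exact_mod_cast hjn⟩).symm
    have e2 : v (n0 - 1 - j) = hp.basis ⟨n0 - 1 - j, by exact_mod_cast hjn'⟩ :=
      (hp.basis_apply ⟨n0 - 1 - j, by exact_mod_cast hjn'⟩).symm
    rw [e1, e2, map_add, map_smul, map_smul, Finsupp.add_apply, Finsupp.smul_apply,
      Finsupp.smul_apply, Module.Basis.repr_self, Module.Basis.repr_self,
      Finsupp.single_apply, Finsupp.single_apply]
    have hi2 : (i : ℕ) < n0 := by exact_mod_cast i.2
    by_cases h1 : (i : ℕ) = j
    · have e3 : (⟨j, by exact_mod_cast hjn⟩ : {i : ℕ // (i : ℕ∞) < (n0 : ℕ∞)}) = i :=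
        Subtype.ext h1.symm
      rw [if_pos e3, if_neg (by
        intro h0
        have := congrArg Subtype.val h0
        simp only at this
        omega), e3]
      simp
    · by_cases h2 : (i : ℕ) = n0 - 1 - j
      · have e3 : (⟨n0 - 1 - j, by exact_mod_cast hjn'⟩ :
            {i : ℕ // (i : ℕ∞) < (n0 : ℕ∞)}) = i := Subtype.ext h2.symm
        rw [if_neg (by
          intro h0
          have := congrArg Subtype.val h0
          simp only at this
          omega), if_pos e3, e3]
        simp
      · rw [if_neg (fun h0 => h1 (congrArg Subtype.val h0).symm),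
          if_neg (fun h0 => h2 (congrArg Subtype.val h0).symm)]
        by_contra hne
        have h3 : hp.basis.repr w i ≠ 0 := fun h0 => hne (by rw [h0]; simp)
        have h4 := hsupp i h3
        rw [← hjm, ← hjj] at h4
        by_cases h5 : (i : ℕ) ≤ k
        · exact h1 (hc.inj _ _ h5 hj h4)
        · have h6 : τ ((n0 - 1 - (i : ℕ) : ℕ) : ℤ) = τ j := by
            rw [← h4]; exact hcen.at (by omega)
          have := hc.inj _ _ (by omega) hj h6
          omega
  refine ⟨j, hj, by rw [hjj]; exact hjm, _, _, ?_, hw'.symm⟩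
  by_contra hcon
  push Not at hcon
  rw [hcon.1, hcon.2, zero_smul, zero_smul, add_zero] at hw'
  exact hw0 hw'.symm

/-- singular vectors in a module of type III have the parameters of the first vector -/
theorem sing (h : IsTau p τ) (hp : PB A B (n0 : ℕ∞) v (fun n : ℕ => τ n) a x) {g : V}
    {m n c : K} (hg0 : g ≠ 0) (hg : Sg A B m n c g) : τ 0 = m ∧ τ 1 = n ∧ a 0 = c := by
  have hcen := hc.cen h
  have hn := hc.hn
  have hk := hc.hk
  obtain ⟨j, hj, hjm, α, β, hαβ, rfl⟩ := hc.eig h hp hg0 hg.e0
  have e1 := hg.e1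
  set w := A (α • v j + β • v (n0 - 1 - j)) - c • (α • v j + β • v (n0 - 1 - j)) with hw
  have hw2 : w = α • v (j + 1) + (α * (a j - c)) • v j + (α * x j) • v (j - 1) +
      β • v (n0 - j) + (β * (a (n0 - 1 - j) - c)) • v (n0 - 1 - j) +
      (β * x (n0 - 1 - j)) • v (n0 - 2 - j) := by
    rw [hw, map_add, map_smul, map_smul, hp.hA, hp.hA, show n0 - 1 - j + 1 = n0 - j by omega,
      show n0 - 1 - j - 1 = n0 - 2 - j by omega]
    module
  -- values of the eigenvalues at the mirrored indices
  have tm : ∀ i : ℕ, i ≤ n0 - 1 → τ ((n0 - 1 - i : ℕ) : ℤ) = τ i := fun i hi =>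
    hcen.at (by omega)
  have key : ∀ i : ℕ, i < n0 → ∀ f : V →ₗ[K] K, (∀ l, f (v l) = if l = i then 1 else 0) →
      f w ≠ 0 → τ i = n := fun i _ f hf hne => hp.coord_eig hf e1 hne
  rcases Nat.eq_zero_or_pos j with rfl | hj0
  · -- first eigenspace
    have t01 : τ 0 ≠ τ 1 := by
      have := hc.hd 0 1 (by omega) hk
      simpa using this
    have hvn : v (n0 - 0) = 0 := by
      rw [Nat.sub_zero]; exact hp.zero n0 le_rfl
    have hw3 : w = α • v 1 + (α * (a 0 - c)) • v 0 + (β * (a 0 - c)) • v (n0 - 1) +
        (β * x (n0 - 1)) • v (n0 - 2) := by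
      rw [hw2, hvn, hp.x0, Nat.sub_zero, Nat.sub_zero, zero_add, hc.ha]
      module
    obtain ⟨f0, hf0⟩ := hp.exists_coord (m := 0) (by exact_mod_cast (by omega : 0 < n0))
    obtain ⟨f1, hf1⟩ := hp.exists_coord (m := 1) (by exact_mod_cast (by omega : 1 < n0))
    obtain ⟨g0, hg0'⟩ := hp.exists_coord (m := n0 - 1)
      (by exact_mod_cast (by omega : n0 - 1 < n0))
    obtain ⟨g1, hg1⟩ := hp.exists_coord (m := n0 - 2)
      (by exact_mod_cast (by omega : n0 - 2 < n0))
    have v0 : f0 w = α * (a 0 - c) := by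
      rw [hw3]
      simp only [map_add, map_smul, hf0, smul_eq_mul]
      split_ifs <;> first | (exfalso; omega) | ring
    have v1 : f1 w = α := by
      rw [hw3]
      simp only [map_add, map_smul, hf1, smul_eq_mul]
      split_ifs <;> first | (exfalso; omega) | ring
    have u0 : g0 w = β * (a 0 - c) := by
      rw [hw3]
      simp only [map_add, map_smul, hg0', smul_eq_mul]
      split_ifs <;> first | (exfalso; omega) | ring
    have u1 : g1 w = β * x (n0 - 1) := by
      rw [hw3]
      simp only [map_add, map_smul, hg1, smul_eq_mul]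
      split_ifs <;> first | (exfalso; omega) | ring
    have hx : x (n0 - 1) ≠ 0 := hp.xne _ (by omega) (by exact_mod_cast (by omega))
    refine ⟨by simpa using hjm, ?_⟩
    rcases hαβ with hα | hβ
    · have t1 := key 1 (by omega) f1 hf1 (by rw [v1]; exact hα)
      refine ⟨by simpa using t1, ?_⟩
      by_contra hne
      have := key 0 (by omega) f0 hf0 (by rw [v0]; exact mul_ne_zero hα (sub_ne_zero.2 hne))
      apply t01
      rw [← t1] at this
      simpa using this
    · have t1 := key (n0 - 2) (by omega) g1 hg1 (by rw [u1]; exact mul_ne_zero hβ hx)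
      have t1' : τ ((n0 - 2 : ℕ) : ℤ) = τ 1 := hcen.at (by omega)
      rw [t1'] at t1
      refine ⟨t1, ?_⟩
      by_contra hne
      have := key (n0 - 1) (by omega) g0 hg0' (by
        rw [u0]; exact mul_ne_zero hβ (sub_ne_zero.2 hne))
      have t0 : τ ((n0 - 1 : ℕ) : ℤ) = τ 0 := hcen.at (by omega)
      rw [t0] at this
      exact t01 (this.trans t1.symm)
  · exfalso
    rcases Nat.lt_or_ge j k with hjk | hjk
    · have hne : τ ((j + 1 : ℕ) : ℤ) ≠ τ ((j - 1 : ℕ) : ℤ) :=
        (hc.hd (j - 1) (j + 1) (by omega) (by omega)).symm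
      rcases hαβ with hα | hβ
      · obtain ⟨f1, hf1⟩ := hp.exists_coord (m := j + 1)
          (by exact_mod_cast (by omega : j + 1 < n0))
        obtain ⟨f2, hf2⟩ := hp.exists_coord (m := j - 1)
          (by exact_mod_cast (by omega : j - 1 < n0))
        have v1 : f1 w = α := by
          rw [hw2]
          simp only [map_add, map_smul, hf1, smul_eq_mul]
          split_ifs <;> first | (exfalso; omega) | ring
        have v2 : f2 w = α * x j := by
          rw [hw2]
          simp only [map_add, map_smul, hf2, smul_eq_mul]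
          split_ifs <;> first | (exfalso; omega) | ring
        have hx : x j ≠ 0 := hp.xne _ (by omega) (by exact_mod_cast (by omega))
        have t1 := key (j + 1) (by omega) f1 hf1 (by rw [v1]; exact hα)
        have t2 := key (j - 1) (by omega) f2 hf2 (by rw [v2]; exact mul_ne_zero hα hx)
        exact hne (t1.trans t2.symm)
      · obtain ⟨f1, hf1⟩ := hp.exists_coord (m := n0 - 2 - j)
          (by exact_mod_cast (by omega : n0 - 2 - j < n0))
        obtain ⟨f2, hf2⟩ := hp.exists_coord (m := n0 - j)
          (by exact_mod_cast (by omega : n0 - j < n0))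
        have v1 : f1 w = β * x (n0 - 1 - j) := by
          rw [hw2]
          simp only [map_add, map_smul, hf1, smul_eq_mul]
          split_ifs <;> first | (exfalso; omega) | ring
        have v2 : f2 w = β := by
          rw [hw2]
          simp only [map_add, map_smul, hf2, smul_eq_mul]
          split_ifs <;> first | (exfalso; omega) | ring
        have hx : x (n0 - 1 - j) ≠ 0 := hp.xne _ (by omega) (by exact_mod_cast (by omega))
        have t1 := key (n0 - 2 - j) (by omega) f1 hf1 (by rw [v1]; exact mul_ne_zero hβ hx)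
        have t2 := key (n0 - j) (by omega) f2 hf2 (by rw [v2]; exact hβ)
        have s1 : τ ((n0 - 2 - j : ℕ) : ℤ) = τ ((j + 1 : ℕ) : ℤ) := hcen.at (by omega)
        have s2 : τ ((n0 - j : ℕ) : ℤ) = τ ((j - 1 : ℕ) : ℤ) := hcen.at (by omega)
        rw [s1] at t1
        rw [s2] at t2
        exact hne (t1.trans t2.symm)
    · have hjk' : j = k := by omega
      subst hjk'
      have hne : τ j ≠ τ ((j - 1 : ℕ) : ℤ) := (hc.hd (j - 1) j (by omega) le_rfl).symm
      rw [show n0 - 1 - j = j + 1 by omega, show n0 - j = j + 2 by omega,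
        show n0 - 2 - j = j by omega] at hw2
      obtain ⟨f0, hf0⟩ := hp.exists_coord (m := j) (by exact_mod_cast (by omega : j < n0))
      obtain ⟨f1, hf1⟩ := hp.exists_coord (m := j + 1)
        (by exact_mod_cast (by omega : j + 1 < n0))
      obtain ⟨f2, hf2⟩ := hp.exists_coord (m := j - 1)
        (by exact_mod_cast (by omega : j - 1 < n0))
      obtain ⟨f3, hf3⟩ := hp.exists_coord (m := j + 2)
        (by exact_mod_cast (by omega : j + 2 < n0))
      have v0 : f0 w = α * (a j - c) + β * x (j + 1) := by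
        rw [hw2]
        simp only [map_add, map_smul, hf0, smul_eq_mul]
        split_ifs <;> first | (exfalso; omega) | ring
      have v1 : f1 w = α + β * (a (j + 1) - c) := by
        rw [hw2]
        simp only [map_add, map_smul, hf1, smul_eq_mul]
        split_ifs <;> first | (exfalso; omega) | ring
      have v2 : f2 w = α * x j := by
        rw [hw2]
        simp only [map_add, map_smul, hf2, smul_eq_mul]
        split_ifs <;> first | (exfalso; omega) | ring
      have v3 : f3 w = β := by
        rw [hw2]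
        simp only [map_add, map_smul, hf3, smul_eq_mul]
        split_ifs <;> first | (exfalso; omega) | ring
      have hx : x j ≠ 0 := hp.xne _ (by omega) (by exact_mod_cast (by omega))
      have tn : τ ((j - 1 : ℕ) : ℤ) = n := by
        rcases hαβ with hα | hβ
        · exact key (j - 1) (by omega) f2 hf2 (by rw [v2]; exact mul_ne_zero hα hx)
        · have t3 := key (j + 2) (by omega) f3 hf3 (by rw [v3]; exact hβ)
          have s3 : τ ((j + 2 : ℕ) : ℤ) = τ ((j - 1 : ℕ) : ℤ) := hcen.at (by omega)
          rwa [s3] at t3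
      have z0 : α * (a j - c) + β * x (j + 1) = 0 := by
        by_contra h0
        have := key j (by omega) f0 hf0 (by rw [v0]; exact h0)
        exact hne (this.trans tn.symm)
      have z1 : α + β * (a (j + 1) - c) = 0 := by
        by_contra h0
        have := key (j + 1) (by omega) f1 hf1 (by rw [v1]; exact h0)
        push_cast at this
        rw [← hc.hτ] at this
        exact hne (this.trans tn.symm)
      have hβ : β ≠ 0 := by
        rintro rfl
        rw [zero_mul, add_zero] at z1
        rcases hαβ with h1 | h1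
        · exact h1 z1
        · exact h1 rfl
      apply hc.hr c
      apply mul_left_cancel₀ hβ
      linear_combination (a j - c) * z1 - z0

theorem t01 : τ 0 ≠ τ 1 := by
  have := hc.hd 0 1 (by omega) hc.hk
  simpa using this

theorem not_const : ¬ Per τ 1 := fun h => hc.t01 (h.const _ _)

theorem sym (h : IsTau p τ) : ∀ i j : ℕ, i < j → j < n0 → τ i = τ j → i + j + 1 = n0 := by
  have hcen := hc.cen h
  have hn := hc.hn
  intro i j hij hj he
  have tm : ∀ i : ℕ, i ≤ n0 - 1 → τ ((n0 - 1 - i : ℕ) : ℤ) = τ i := fun i hi =>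
    hcen.at (by omega)
  by_cases hjk : j ≤ k
  · exact absurd he (hc.hd i j hij hjk)
  · by_cases hik : i ≤ k
    · have := hc.inj i (n0 - 1 - j) hik (by omega) (by rw [tm j (by omega), he])
      omega
    · have := hc.inj (n0 - 1 - i) (n0 - 1 - j) (by omega) (by omega)
        (by rw [tm i (by omega), tm j (by omega), he])
      omega

/-- the polynomial `P_N` of an irreducible module of type III -/
theorem pp (hp : PB A B (n0 : ℕ∞) v (fun n : ℕ => τ n) a x) (h : TSys p (n0 : ℕ∞) τ a x)
    (h1 : AW1 p A B) (hI : Irr A B) :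
    PP a x n0 = PP a x (k + 1) ^ 2 +
        C (a k - a (k + 1)) * (PP a x (k + 1) * PP a x k) - C (x (k + 1)) * PP a x k ^ 2 := by
  have hn := hc.hn
  have hk := hc.hk
  have hcen := hc.cen h.tau
  have hsg := sg_end hp (by omega) hcen hc.ha
  have hcom := comm_of_sg h1 hp.exists_poly (Sg.start hp) hsg
  have hg : ∀ r : K, aeval A (PP a x (n0 - 1)) (v 0) ≠ r • v 0 := by
    intro r hr
    rw [hp.PP_apply] at hr
    obtain ⟨φ, hφ⟩ := hp.exists_coord (m := n0 - 1) (by exact_mod_cast (by omega))
    have := congrArg φ hr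
    rw [map_smul, hφ, hφ, if_pos rfl, if_neg (by omega)] at this
    simp at this
  rcases nec_core hp h (by omega) hI hc.not_const (commute_aeval (Commute.refl A) _) hcom hg
    (Or.inl (hc.sym h.tau)) with hT | ⟨M, d, hM, hnd, hd2, -⟩
  · obtain ⟨k', k1, k2, k3, k4, k5⟩ := hT
    have hkk : k' = k := by omega
    rw [hkk] at k4
    exact k4
  · exfalso
    have hMp := hM.pos
    have h4 : M * 2 ≤ M * d := Nat.mul_le_mul_left _ hd2
    have h5 := hc.sym h.tau 0 M hMp (by omega) (hM.per.at (by simp)).symm
    have h6 : M = 1 := by omega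
    subst h6
    exact hc.not_const (by simpa using hM.per)

variable {a' x' : ℕ → K}

/-- the entries before the corner are determined by `a 0` -/
theorem det (h : TSys p (n0 : ℕ∞) τ a x) (h' : TSys p (n0 : ℕ∞) τ a' x') (h0 : a 0 = a' 0) :
    (∀ n < k, a n = a' n) ∧ (∀ n ≤ k, x n = x' n) ∧ a k + a (k + 1) = a' k + a' (k + 1) ∧
      a k * a (k + 1) - x (k + 1) = a' k * a' (k + 1) - x' (k + 1) := by
  have hn := hc.hn
  have hk := hc.hk
  have hτ := hc.hτ
  have hcen := hc.cen h.tau
  have ha : ∀ n < k, a n = a' n := by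
    intro n hnk
    rcases Nat.eq_zero_or_pos n with rfl | hn0
    · exact h0
    · have e1 := h.A n (by exact_mod_cast (by omega : n < n0))
      have e2 := h'.A n (by exact_mod_cast (by omega : n < n0))
      have n1 : τ n ≠ τ (n - 1) := by
        have := hc.hd (n - 1) n (by omega) (by omega)
        rw [show ((n - 1 : ℕ) : ℤ) = (n : ℤ) - 1 by omega] at this
        exact this.symm
      have n2 : τ n ≠ τ (n + 1) := by
        have := hc.hd n (n + 1) (by omega) (by omega)
        push_cast at this
        exact this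
      apply mul_left_cancel₀ (mul_ne_zero (sub_ne_zero.2 n1) (sub_ne_zero.2 n2))
      rw [e1, e2]
  have hx : ∀ n ≤ k, x n = x' n := by
    intro n
    induction n with
    | zero => intro _; rw [h.x0, h'.x0]
    | succ n ih =>
      intro hnk
      have e1 := h.E n (by exact_mod_cast (by omega : n < n0))
      have e2 := h'.E n (by exact_mod_cast (by omega : n < n0))
      rw [ih (by omega), ha n (by omega)] at e1
      have ne : τ (n + 2) ≠ τ n := by
        by_cases h2 : n + 2 ≤ k
        · have := hc.hd n (n + 2) (by omega) h2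
          push_cast at this
          exact this.symm
        · have h3 : n + 1 = k := by omega
          subst h3
          have := hc.hd n (n + 1) (by omega) le_rfl
          push_cast at this hτ
          rw [show (n : ℤ) + 1 + 1 = n + 2 by ring] at hτ
          rw [← hτ]
          exact this.symm
      apply mul_left_cancel₀ (sub_ne_zero.2 ne)
      linear_combination e2 - e1
  have nk : τ k - τ (k - 1) ≠ 0 := by
    have := hc.hd (k - 1) k (by omega) (by omega)
    rw [show ((k - 1 : ℕ) : ℤ) = (k : ℤ) - 1 by omega] at this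
    exact sub_ne_zero.2 this.symm
  have hk2 : τ (k + 2) = τ (k - 1) := (h.tau.cen_corner hτ).at (by ring)
  have hD : a k + a (k + 1) = a' k + a' (k + 1) := by
    have d1 := h.D k (by exact_mod_cast (by omega : k + 1 < n0))
    have d2 := h'.D k (by exact_mod_cast (by omega : k + 1 < n0))
    rw [hk2, ← hτ] at d1 d2
    apply mul_left_cancel₀ nk
    linear_combination d1 - d2
  refine ⟨ha, hx, hD, ?_⟩
  have d2 := h'.D k (by exact_mod_cast (by omega : k + 1 < n0))
  have e1 := h.E k (by exact_mod_cast (by omega : k < n0))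
  have e2 := h'.E k (by exact_mod_cast (by omega : k < n0))
  have r := h.tau.recur k
  rw [hk2, ← hτ] at d2
  rw [hk2, hx k le_rfl] at e1
  rw [hk2] at e2
  rw [← hτ] at r
  unfold Scal.S at e1 e2
  apply mul_left_cancel₀ nk
  linear_combination e2 - e1 + (a k - a' k) * d2 + (a k - a' k) * (a k + a' k) * r
    + (τ k - τ (k - 1)) * a k * hD

theorem pp_eq (h : TSys p (n0 : ℕ∞) τ a x) (h' : TSys p (n0 : ℕ∞) τ a' x') (h0 : a 0 = a' 0)
    {V' : Type*} [AddCommGroup V'] [Module K V'] {A' B' : Module.End K V'} {v' : ℕ → V'}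
    (hc' : CIII n0 τ a' x' k)
    (hp : PB A B (n0 : ℕ∞) v (fun n : ℕ => τ n) a x) (h1 : AW1 p A B) (hI : Irr A B)
    (hp' : PB A' B' (n0 : ℕ∞) v' (fun n : ℕ => τ n) a' x') (h1' : AW1 p A' B')
    (hI' : Irr A' B') : PP a x n0 = PP a' x' n0 := by
  obtain ⟨ha, hx, hs, hD⟩ := hc.det h h' h0
  have hk := hc.hk
  have key : ∀ n ≤ k, PP a x n = PP a' x' n := by
    intro n
    induction n using Nat.strong_induction_on with
    | _ n ih =>
      intro hn
      rcases n with _ | n
      · rfl
      · rw [PP_succ a x h.x0, PP_succ a' x' h'.x0, ih n (by omega) (by omega),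
          ih (n - 1) (by omega) (by omega), ha n (by omega), hx n (by omega)]
  rw [hc.pp hp h h1 hI, hc'.pp hp' h' h1' hI', PP_succ a x h.x0, PP_succ a' x' h'.x0,
    key k le_rfl, key (k - 1) (by omega), hx k le_rfl]
  have hs' := congrArg (C : K → K[X]) hs
  have hD' := congrArg (C : K → K[X]) hD
  simp only [C_add, C_sub, C_mul] at hs' hD' ⊢
  linear_combination (-((X * PP a' x' k - C (x' k) * PP a' x' (k - 1)) * PP a' x' k)) * hs' +
    (PP a' x' k) ^ 2 * hD'

end CIII

end Pool.Agent.TH10.AW
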