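import Pool.Agent.TH10.AW.KapIV

/-! Isomorphisms between modules of type IV. -/

set_option autoImplicit false
set_option linter.unusedSectionVars false
set_option linter.style.haveILetI false

namespace Pool.Agent.TH10.AW

open Polynomial

variable {K : Type*} [Field K] {p : Scal K}
variable {V : Type*} [AddCommGroup V] [Module K V]
variable {V' : Type*} [AddCommGroup V'] [Module K V']
variable {A B : Module.End K V} {A' B' : Module.End K V'}

section cf

variable {N : ℕ∞} {v : ℕ → V} {θ a x : ℕ → K}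

open scoped Classical in
/-- coordinate functionals, zero for indices `≥ N` -/
noncomputable def PB.cf (hp : PB A B N v θ a x) (j : ℕ) : V →ₗ[K] K :=
  if h : (j : ℕ∞) < N then hp.basis.coord ⟨j, h⟩ else 0

open scoped Classical in
theorem PB.cf_apply (hp : PB A B N v θ a x) (j i : ℕ) :
    hp.cf j (v i) = if i = j ∧ (j : ℕ∞) < N then 1 else 0 := by
  unfold PB.cf
  split_ifs with h1 h2 h2
  · obtain ⟨rfl, h2⟩ := h2
    have e : v i = hp.basis ⟨i, h1⟩ := (hp.basis_apply ⟨i, h1⟩).symm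
    rw [e, Module.Basis.coord_apply, Module.Basis.repr_self, Finsupp.single_apply, if_pos rfl]
  · have hij : i ≠ j := fun h0 => h2 ⟨h0, h1⟩
    by_cases hi : (i : ℕ∞) < N
    · have e : v i = hp.basis ⟨i, hi⟩ := (hp.basis_apply ⟨i, hi⟩).symm
      rw [e, Module.Basis.coord_apply, Module.Basis.repr_self, Finsupp.single_apply, if_neg]
      intro h0
      exact hij (congrArg Subtype.val h0)
    · rw [hp.zero i (not_lt.1 hi), map_zero]
  · exact absurd h2.2 h1
  · rfl

theorem PB.cf_out (hp : PB A B N v θ a x) {j : ℕ} (hj : N ≤ j) (w : V) : hp.cf j w = 0 := by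
  unfold PB.cf
  rw [dif_neg (not_lt.2 hj)]
  rfl

theorem PB.cf_B (hp : PB A B N v θ a x) (j : ℕ) (w : V) :
    hp.cf j (B w) = θ j * hp.cf j w := by
  classical
  have e : (hp.cf j).comp B = θ j • hp.cf j := by
    apply LinearMap.ext_on_range hp.sp
    intro i
    rw [LinearMap.comp_apply, hp.hB, map_smul, LinearMap.smul_apply, hp.cf_apply]
    split_ifs with h
    · rw [h.1]
    · simp
  exact congrArg (fun g : V →ₗ[K] K => g w) e

theorem PB.cf_A (hp : PB A B N v θ a x) {j : ℕ} (hj : (j : ℕ∞) < N) (w : V) :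
    hp.cf j (A w) = (if j = 0 then 0 else hp.cf (j - 1) w) + a j * hp.cf j w +
      x (j + 1) * hp.cf (j + 1) w := by
  classical
  have hj1 : ((j - 1 : ℕ) : ℕ∞) < N := lt_of_le_of_lt (by exact_mod_cast Nat.sub_le j 1) hj
  have e : (hp.cf j).comp A = (if j = 0 then 0 else hp.cf (j - 1)) + a j • hp.cf j +
      x (j + 1) • hp.cf (j + 1) := by
    apply LinearMap.ext_on_range hp.sp
    intro i
    rw [LinearMap.comp_apply, hp.hA, map_add, map_add, map_smul, map_smul, LinearMap.add_apply,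
      LinearMap.add_apply, LinearMap.smul_apply, LinearMap.smul_apply, hp.cf_apply, hp.cf_apply,
      hp.cf_apply, hp.cf_apply]
    have hif : (if j = 0 then (0 : V →ₗ[K] K) else hp.cf (j - 1)) (v i) =
        if i + 1 = j then 1 else 0 := by
      by_cases h1 : j = 0
      · rw [if_pos h1, if_neg (by omega)]; rfl
      · rw [if_neg h1, hp.cf_apply]
        by_cases h2 : i + 1 = j
        · have h3 : i = j - 1 := by omega
          rw [if_pos ⟨h3, hj1⟩, if_pos h2]
        · rw [if_neg (fun h3 : i = j - 1 ∧ ((j - 1 : ℕ) : ℕ∞) < N => h2 (by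
            have := h3.1; omega)), if_neg h2]
    rw [hif]
    simp only [hj, and_true, smul_eq_mul]
    by_cases h1 : i = j
    · subst h1
      rcases i with _ | i
      · simp [hp.x0]
      · simp
    · rw [if_neg h1]
      by_cases h2 : i = j + 1
      · subst h2
        rw [if_neg (by omega), if_pos (by omega)]
        by_cases h3 : ((j + 1 : ℕ) : ℕ∞) < N
        · rw [if_pos ⟨rfl, h3⟩]
          ring
        · rw [hp.xN _ (not_lt.1 h3)]; simp
      · rw [if_neg (show ¬ (i = j + 1 ∧ ((j + 1 : ℕ) : ℕ∞) < N) from fun h => h2 h.1)]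
        by_cases h3 : i - 1 = j
        · have : i = 0 := by omega
          subst this
          rw [hp.x0]; simp
        · rw [if_neg h3]; simp
  have := congrArg (fun g : V →ₗ[K] K => g w) e
  simp only [LinearMap.comp_apply, LinearMap.add_apply, LinearMap.smul_apply, smul_eq_mul] at this
  rw [this]
  split_ifs <;> rfl

theorem PB.cf_eig (hp : PB A B N v θ a x) {j : ℕ} {w : V} {n : K} (hw : B w = n • w)
    (hne : hp.cf j w ≠ 0) : θ j = n := by
  have e := hp.cf_B j w
  rw [hw, map_smul, smul_eq_mul] at e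
  exact (mul_right_cancel₀ hne e).symm

theorem PB.exists_cf (hp : PB A B N v θ a x) {w : V} (hw : w ≠ 0) :
    ∃ j : ℕ, (j : ℕ∞) < N ∧ hp.cf j w ≠ 0 := by
  by_contra hcon
  push Not at hcon
  apply hw
  apply hp.basis.repr.injective
  ext i
  have := hcon i i.2
  unfold PB.cf at this
  rw [dif_pos i.2] at this
  rw [map_zero, Finsupp.zero_apply]
  exact this

end cf

variable {n0 : ℕ} {v : ℕ → V} {a x : ℕ → K} {τ : ℤ → K}
variable {v' : ℕ → V'} {a' x' : ℕ → K} {τ' : ℤ → K} {s' : ℤ}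

/-- special windows: full periods starting at a centre -/
structure Win (n0 : ℕ) (τ : ℤ → K) (a : ℕ → K) (M : ℕ) (s : ℤ) : Prop where
  M2 : 2 ≤ M
  pos : 0 < n0
  dvd : M ∣ n0
  min : MinPer τ M
  cen : Cen τ s
  sc : s = 0 ∨ (s = -1 ∧ a 0 ≠ a (n0 - 1)) ∨ s = -2

namespace Win

variable {M : ℕ} {s : ℤ} (hw : Win n0 τ a M s)
include hw

theorem not_const : ¬ Per τ 1 := by
  intro hc
  have h1 := Int.le_of_dvd (by norm_num) (hw.min.dvd 1 hc)
  have := hw.M2
  omega

theorem per : Per τ n0 := by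
  obtain ⟨d, hd⟩ := hw.dvd
  have := hw.min.per.nsmul d
  rw [hd]
  push_cast
  rwa [mul_comm]

theorem two_le : 2 ≤ n0 := (hw.M2).trans (Nat.le_of_dvd hw.pos hw.dvd)

theorem mem (k : ℤ) : ∃ i : ℕ, i < n0 ∧ τ i = τ k := by
  have hpos : (0 : ℤ) < n0 := by exact_mod_cast hw.pos
  obtain ⟨i, hi⟩ := Int.eq_ofNat_of_zero_le (Int.emod_nonneg k hpos.ne')
  have hlt := Int.emod_lt_of_pos k hpos
  refine ⟨i, by omega, ?_⟩
  rw [← hi]
  have := hw.per.zsmul (k / n0)
  refine (this.at ?_).symm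
  have := Int.emod_add_mul_ediv k n0
  linarith

theorem last : τ ((n0 - 1 : ℕ) : ℤ) = τ (-1) := by
  have := hw.pos
  exact hw.per.at (by omega)

theorem last2 : τ ((n0 - 2 : ℕ) : ℤ) = τ (-2) := by
  have := hw.two_le
  exact hw.per.at (by omega)

/-- a corner at the start -/
theorem start_corner (h0 : τ (-1) = τ 0) (h : IsTau p τ) : s = -1 ∧ a 0 ≠ a (n0 - 1) := by
  have hc : Cen τ (-1) := h.cen_of (i := -1) (j := 0) (by ring) h0 (by norm_num; exact h0.symm)
  rcases hw.sc with rfl | hs | rfl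
  · exfalso
    apply hw.not_const
    have := hc.per hw.cen
    simpa using this
  · exact hs
  · exfalso
    apply hw.not_const
    have := hw.cen.per hc
    simpa using this

end Win

/-- the last basis vector is singular -/
theorem Sg.last (hp : PB A B (n0 : ℕ∞) v (fun n : ℕ => τ n) a x) (hn : 2 ≤ n0) :
    Sg A B (τ ((n0 - 1 : ℕ) : ℤ)) (τ ((n0 - 2 : ℕ) : ℤ)) (a (n0 - 1)) (v (n0 - 1)) := by
  constructor
  · rw [hp.hB]
  · have e : A (v (n0 - 1)) - a (n0 - 1) • v (n0 - 1) = x (n0 - 1) • v (n0 - 2) := by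
      rw [hp.hA, hp.zero (n0 - 1 + 1) (by exact_mod_cast (by omega : n0 ≤ n0 - 1 + 1)),
        show n0 - 1 - 1 = n0 - 2 by omega]
      module
    rw [e, map_smul, hp.hB, smul_comm]

/-- diagonal entries at corresponding vertices away from corners -/
theorem a_cross {N N' : ℕ∞} (h : TSys p N τ a x) (h' : TSys p N' τ' a' x') {m n : ℕ}
    (hm : (m : ℕ∞) < N) (hn : (n : ℕ∞) < N')
    (h0 : τ' n = τ m) (h1 : (τ' (n - 1) = τ (m - 1) ∧ τ' (n + 1) = τ (m + 1)) ∨
      (τ' (n - 1) = τ (m + 1) ∧ τ' (n + 1) = τ (m - 1))) (h2 : τ m ≠ τ (m - 1))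
    (h3 : τ m ≠ τ (m + 1)) : a' n = a m := by
  have em := h.A m hm
  have en := h'.A n hn
  have hne : (τ m - τ (m - 1)) * (τ m - τ (m + 1)) ≠ 0 :=
    mul_ne_zero (sub_ne_zero.2 h2) (sub_ne_zero.2 h3)
  apply mul_left_cancel₀ hne
  rw [em, ← h0, ← en]
  rcases h1 with ⟨e1, e2⟩ | ⟨e1, e2⟩
  · rw [e1, e2]
  · rw [e1, e2]; ring

theorem Sg.change {m c : K} {g : V} (hg : Sg A B m m c g) (c' : K) : Sg A B m m c' g := by
  refine ⟨hg.e0, ?_⟩
  have h1 := hg.e1
  have h0 := hg.e0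
  rw [map_sub, map_smul, h0] at h1 ⊢
  linear_combination (norm := module) h1

theorem sing_mirror0 {M M' : ℕ} (hw : Win n0 τ a M 0) (hw' : Win n0 τ' a' M' s')
    (h : TSys p (n0 : ℕ∞) τ a x) (h' : TSys p (n0 : ℕ∞) τ' a' x')
    (hp' : PB A' B' (n0 : ℕ∞) v' (fun n : ℕ => τ' n) a' x')
    (hsp : ∀ i < n0, ∃ j < n0, τ' j = τ i) :
    ∃ g : V', g ≠ 0 ∧ Sg A' B' (τ 0) (τ 1) (a 0) g := by
  obtain ⟨e, he, het⟩ := hsp 0 hw.pos
  have he' : (e : ℕ∞) < (n0 : ℕ∞) := by exact_mod_cast he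
  have het0 : τ' e = τ 0 := by simpa using het
  have t1 : τ (-1) = τ 1 := hw.cen.at (by ring)
  have ne : τ 0 ≠ τ 1 := by
    have := not_per_mirror h.tau hw.not_const (n := 0) (by simpa using t1)
    rw [zero_sub, t1] at this
    exact this.symm
  obtain ⟨e1, e2⟩ : τ' (e + 1) = τ 1 ∧ τ' (e - 1) = τ 1 := by
    rcases orbit h.tau h'.tau het0 with ho | ho
    · have o1 := ho 1
      have o2 := ho (-1)
      rw [zero_add] at o1 o2
      exact ⟨o1, by rw [← t1, ← o2]; rfl⟩
    · have o1 := ho 1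
      have o2 := ho (-1)
      rw [zero_add] at o1 o2
      rw [sub_neg_eq_add] at o2
      exact ⟨by rw [o2, t1], o1⟩
  have ha : a' e = a 0 := a_cross h h' (m := 0) (by exact_mod_cast hw.pos) he'
    (by simpa using het0) (Or.inl ⟨by rw [e2]; simp [t1], by rw [e1]; simp⟩)
    (by simp only [Nat.cast_zero, zero_sub]; rw [t1]; exact ne) (by simpa using ne)
  refine ⟨v' e, hp'.ne_zero he', ?_, ?_⟩
  · rw [hp'.hB, het0]
  · have e3 : A' (v' e) - a 0 • v' e = v' (e + 1) + x' e • v' (e - 1) := by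
      rw [hp'.hA, ha]; module
    have e4 : x' e • (τ' ((e - 1 : ℕ) : ℤ) • v' (e - 1)) = x' e • (τ 1 • v' (e - 1)) := by
      rcases e with _ | e
      · rw [h'.x0]; simp
      · rw [Nat.add_sub_cancel]
        push_cast at e2
        rw [show (e : ℤ) + 1 - 1 = e by ring] at e2
        rw [e2]
    rw [e3, map_add, map_smul, hp'.hB, hp'.hB, e4]
    push_cast
    rw [e1]; module

theorem sing_mirror2 {M M' : ℕ} (hw : Win n0 τ a M (-2)) (hw' : Win n0 τ' a' M' s')
    (h : TSys p (n0 : ℕ∞) τ a x) (h' : TSys p (n0 : ℕ∞) τ' a' x')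
    (hp' : PB A' B' (n0 : ℕ∞) v' (fun n : ℕ => τ' n) a' x')
    (hsp : ∀ i < n0, ∃ j < n0, τ' j = τ i) :
    ∃ g : V', g ≠ 0 ∧ Sg A' B' (τ 0) (τ 1) (a 0) g := by
  have hn2 := hw.two_le
  obtain ⟨e, he, het⟩ := hsp (n0 - 1) (by omega)
  have he' : (e : ℕ∞) < (n0 : ℕ∞) := by exact_mod_cast he
  have het0 : τ' e = τ (-1) := by rw [het, hw.last]
  have t2 : τ (-2) = τ 0 := hw.cen.at (by ring)
  have t3 : τ (-3) = τ 1 := hw.cen.at (by ring)
  have ne : τ 0 ≠ τ (-1) := by
    have := not_per_mirror h.tau hw.not_const (n := -1) (by simpa using t2)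
    norm_num at this
    rwa [t2] at this
  -- neighbours of the mirror
  obtain ⟨⟨e1, e2⟩, e3, e4⟩ : (τ' (e + 1) = τ 0 ∧ τ' (e - 1) = τ 0) ∧
      (τ' (e + 2) = τ 1 ∧ τ' (e - 2) = τ 1) := by
    rcases orbit h.tau h'.tau het0 with ho | ho
    · have o1 := ho 1
      have o2 := ho (-1)
      have o3 := ho 2
      have o4 := ho (-2)
      norm_num at o1 o2 o3 o4
      refine ⟨⟨o1, ?_⟩, o3, ?_⟩
      · rw [← t2, ← o2]; rfl
      · rw [← t3, ← o4]; rfl
    · have o1 := ho 1
      have o2 := ho (-1)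
      have o3 := ho 2
      have o4 := ho (-2)
      norm_num at o1 o2 o3 o4
      refine ⟨⟨?_, o1⟩, ?_, o3⟩
      · rw [o2, t2]
      · rw [o4, t3]
  have a_of : ∀ n : ℕ, (n : ℕ∞) < (n0 : ℕ∞) → τ' n = τ 0 →
      ((τ' (n - 1) = τ (-1) ∧ τ' (n + 1) = τ 1) ∨ (τ' (n - 1) = τ 1 ∧ τ' (n + 1) = τ (-1))) →
      τ 0 ≠ τ 1 → a' n = a 0 := by
    intro n hn h0 h1 h2
    refine a_cross h h' (m := 0) (by exact_mod_cast hw.pos) hn (by simpa using h0) ?_
      (by simpa using ne) (by simpa using h2)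
    simpa using h1
  have sg_of : ∀ (n : ℕ) (w : V'), Sg A' B' (τ 0) (τ 1) (a' n) w → (τ 0 ≠ τ 1 → a' n = a 0) →
      Sg A' B' (τ 0) (τ 1) (a 0) w := by
    intro n w h1 h2
    by_cases h01 : τ 0 = τ 1
    · rw [← h01] at h1 ⊢
      exact h1.change _
    · rw [← h2 h01]; exact h1
  by_cases he0 : e = 0
  · -- mirror at the first vertex: take the last vector
    subst he0
    have l1 : τ' ((n0 - 1 : ℕ) : ℤ) = τ 0 := by
      rw [hw'.last, ← e2]; simp
    have l2 : τ' ((n0 - 2 : ℕ) : ℤ) = τ 1 := by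
      rw [hw'.last2, ← e4]; simp
    have l0 : τ' (((n0 - 1 : ℕ) : ℤ) + 1) = τ (-1) := by
      rw [← het0]
      exact hw'.per.at (by push_cast; omega)
    refine ⟨v' (n0 - 1), hp'.ne_zero (by exact_mod_cast (by omega)), ?_⟩
    have hs := Sg.last hp' hn2
    rw [l1, l2] at hs
    refine sg_of (n0 - 1) _ hs fun h01 => a_of (n0 - 1) (by exact_mod_cast (by omega)) l1
      (Or.inr ⟨?_, l0⟩) h01
    rw [← l2]
    congr 1
    omega
  by_cases hen : e = n0 - 1
  · subst hen
    have l0 : τ' 0 = τ 0 := by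
      rw [← e1]
      exact (hw'.per.at (by push_cast; omega)).symm
    have l1 : τ' 1 = τ 1 := by
      rw [← e3]
      exact (hw'.per.at (by push_cast; omega)).symm
    have l_1 : τ' (-1) = τ (-1) := by
      rw [← het0, hw'.last]
    refine ⟨v' 0, hp'.ne_zero (by exact_mod_cast hw.pos), ?_⟩
    have hs := Sg.start hp'
    rw [l0, l1] at hs
    exact sg_of 0 _ hs fun h01 => a_of 0 (by exact_mod_cast hw.pos) (by simpa using l0)
      (Or.inl ⟨by simpa using l_1, by simpa using l1⟩) h01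
  · obtain ⟨m, rfl⟩ : ∃ m, e = m + 1 := ⟨e - 1, by omega⟩
    have hlt : m + 2 < n0 := by omega
    push_cast at e1 e2 e3 e4 het0
    rw [show (m : ℤ) + 1 + 1 = m + 2 by ring] at e1
    rw [show (m : ℤ) + 1 - 1 = m by ring] at e2
    rw [show (m : ℤ) + 1 + 2 = m + 3 by ring] at e3
    rw [show (m : ℤ) + 1 - 2 = m - 1 by ring] at e4
    have b2 : A' (v' (m + 2) - x' (m + 2) • v' m) - a 0 • (v' (m + 2) - x' (m + 2) • v' m) =
        v' (m + 3) + (a' (m + 2) - a 0) • v' (m + 2) - (x' (m + 2) * (a' m - a 0)) • v' m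
          - (x' (m + 2) * x' m) • v' (m - 1) := by
      rw [map_sub, map_smul, hp'.hA, hp'.hA, show m + 2 - 1 = m + 1 by rfl]
      module
    have b3 : (x' (m + 2) * x' m) • (τ' ((m - 1 : ℕ) : ℤ) • v' (m - 1)) =
        (x' (m + 2) * x' m) • (τ 1 • v' (m - 1)) := by
      rcases m with _ | m
      · rw [h'.x0]; simp
      · rw [Nat.add_sub_cancel]
        push_cast at e4
        rw [show (m : ℤ) + 1 - 1 = m by ring] at e4
        rw [e4]
    refine ⟨v' (m + 2) - x' (m + 2) • v' m, ?_, ?_, ?_⟩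
    · intro h0
      obtain ⟨f, hf⟩ := hp'.exists_coord (m := m + 2) (by exact_mod_cast hlt)
      have := congrArg f h0
      rw [map_sub, map_smul, hf, hf, if_pos rfl, if_neg (by omega), map_zero] at this
      simp at this
    · rw [map_sub, map_smul, hp'.hB, hp'.hB]
      push_cast
      rw [e1, e2]; module
    · rw [b2, map_sub, map_sub, map_add, map_smul, map_smul, map_smul, hp'.hB, hp'.hB,
        hp'.hB, hp'.hB, b3]
      push_cast
      rw [e1, e2, e3]
      by_cases h01 : τ 0 = τ 1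
      · rw [← h01]; module
      · have c1 : a' (m + 2) = a 0 := a_of (m + 2) (by exact_mod_cast hlt)
          (by push_cast; exact e1) (Or.inl ⟨by
            push_cast
            rw [show (m : ℤ) + 2 - 1 = m + 1 by ring, het0], by
            push_cast
            rw [show (m : ℤ) + 2 + 1 = m + 3 by ring, e3]⟩) h01
        have c2 : a' m = a 0 := a_of m (by exact_mod_cast (by omega)) e2
          (Or.inr ⟨e4, het0⟩) h01
        rw [c1, c2]; module

end Pool.Agent.TH10.AW
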