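import Pool.Agent.TH10.AW.IsoIV

/-! Isomorphisms between modules of type IV: corners, and the criterion. -/

set_option autoImplicit false
set_option linter.unusedSectionVars false
set_option linter.style.haveILetI false

namespace Pool.Agent.TH10.AW

open Polynomial

variable {K : Type*} [Field K] {p : Scal K}
variable {V : Type*} [AddCommGroup V] [Module K V]
variable {V' : Type*} [AddCommGroup V'] [Module K V']
variable {A B : Module.End K V} {A' B' : Module.End K V'}
variable {n0 : ℕ} {v : ℕ → V} {a x : ℕ → K} {τ : ℤ → K}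
variable {v' : ℕ → V'} {a' x' : ℕ → K} {τ' : ℤ → K} {s' : ℤ}

/-- the relation at a corner value -/
theorem corner_rel (h : IsTau p τ) (t1 : τ (-1) = τ 0) :
    τ 0 + τ 1 = p.β * τ 0 + p.γs := by
  have := h.recur 0
  rw [zero_add, zero_sub, t1] at this
  linear_combination this

theorem sing_corner {M M' : ℕ} (hw : Win n0 τ a M (-1)) (hw' : Win n0 τ' a' M' s')
    (h : TSys p (n0 : ℕ∞) τ a x) (h' : TSys p (n0 : ℕ∞) τ' a' x')
    (hp' : PB A' B' (n0 : ℕ∞) v' (fun n : ℕ => τ' n) a' x')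
    (hsp : ∀ i < n0, ∃ j < n0, τ' j = τ i) (hk : Kap p τ a = Kap p τ' a') :
    ∃ g : V', g ≠ 0 ∧ Sg A' B' (τ 0) (τ 1) (a 0) g := by
  have hn2 := hw.two_le
  obtain ⟨e, he, het⟩ := hsp 0 hw.pos
  have het0 : τ' e = τ 0 := by simpa using het
  have t1 : τ (-1) = τ 0 := hw.cen.at (by ring)
  have t2 : τ (-2) = τ 1 := hw.cen.at (by ring)
  have ne : τ 0 ≠ τ 1 := by
    have := not_per_left h.tau hw.not_const (n := 0) (by simpa using t1)
    simpa using this
  have hrel := corner_rel h.tau t1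
  have hkap : Kap p τ a = GG p (τ 0) (τ 1) (a 0) := TSys.kap_start_corner t1
  -- the position of the corner
  obtain ⟨q, q1, q2, c0, c1, c_1, c2⟩ : ∃ q : ℤ, -1 ≤ q ∧ q ≤ (n0 : ℤ) - 1 ∧ τ' q = τ 0 ∧
      τ' (q + 1) = τ 0 ∧ τ' (q - 1) = τ 1 ∧ τ' (q + 2) = τ 1 := by
    rcases orbit h.tau h'.tau het0 with ho | ho
    · have o1 := ho 1
      have o2 := ho (-1)
      have o4 := ho (-2)
      norm_num at o1 o2 o4
      refine ⟨(e : ℤ) - 1, by omega, by omega, ?_, ?_, ?_, ?_⟩
      · rw [← t1, ← o2]; rfl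
      · rw [show (e : ℤ) - 1 + 1 = e by ring]; exact het0
      · rw [show (e : ℤ) - 1 - 1 = e + -2 by ring, o4, t2]
      · rw [show (e : ℤ) - 1 + 2 = e + 1 by ring]; exact o1
    · have o1 := ho 1
      have o2 := ho (-1)
      have o4 := ho (-2)
      norm_num at o1 o2 o4
      refine ⟨(e : ℤ), by omega, by omega, het0, ?_, o1, ?_⟩
      · rw [o2, t1]
      · rw [o4, t2]
  have ends : τ' 0 = τ 0 → τ' (-1) = τ 0 → τ' 1 = τ 1 → τ' (-2) = τ 1 →
      ∃ g : V', g ≠ 0 ∧ Sg A' B' (τ 0) (τ 1) (a 0) g := by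
    intro d0 d_1 d1 d_2
    obtain ⟨-, hne⟩ := hw'.start_corner (by rw [d0, d_1]) h'.tau
    have k1 : Kap p τ' a' = GG p (τ 0) (τ 1) (a' 0) := by
      rw [TSys.kap_start_corner (by rw [d0, d_1]), d0, d1]
    have l1 : τ' ((n0 - 1 : ℕ) : ℤ) = τ 0 := by rw [hw'.last, d_1]
    have l2 : τ' ((n0 - 2 : ℕ) : ℤ) = τ 1 := by rw [hw'.last2, d_2]
    have k2 : Kap p τ' a' = GG p (τ 0) (τ 1) (a' (n0 - 1)) := by
      have := h'.kap_end_corner hw'.not_const (n := n0 - 1)
        (by congr 1; omega) (by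
          rw [l1, ← d0]
          exact (hw'.per.at (by push_cast; omega)).symm)
      rw [this, l1, ← l2]
      congr 1
      congr 1
      omega
    have g1 := GG_sub (p := p) hrel (a 0) (a' 0)
    have g2 := GG_sub (p := p) hrel (a' 0) (a' (n0 - 1))
    rw [← hkap, ← k1, hk, sub_self] at g1
    rw [← k1, ← k2, sub_self] at g2
    have ne' : τ 0 - τ 1 ≠ 0 := sub_ne_zero.2 ne
    have g3 := (mul_eq_zero.1 g2.symm).resolve_left (mul_ne_zero ne' (sub_ne_zero.2 hne))
    have g4 : (τ 0 - τ 1) * (τ 0 - τ 1) * ((a 0 - a' 0) * (a 0 - a' (n0 - 1))) = 0 := by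
      linear_combination -g1 - (τ 0 - τ 1) * (a 0 - a' 0) * g3
    rcases mul_eq_zero.1 ((mul_eq_zero.1 g4).resolve_left (mul_ne_zero ne' ne')) with g5 | g5
    · refine ⟨v' 0, hp'.ne_zero (by exact_mod_cast hw.pos), ?_⟩
      have hs := Sg.start hp'
      rwa [d0, d1, ← sub_eq_zero.1 g5] at hs
    · refine ⟨v' (n0 - 1), hp'.ne_zero (by exact_mod_cast (by omega)), ?_⟩
      have hs := Sg.last hp' hn2
      rwa [l1, l2, ← sub_eq_zero.1 g5] at hs
  by_cases hq1 : q = -1
  · subst hq1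
    norm_num at c0 c1 c_1 c2
    exact ends c1 c0 c2 c_1
  by_cases hqn : q = (n0 : ℤ) - 1
  · subst hqn
    apply ends
    · rw [← c1]; exact (hw'.per.at (by ring)).symm
    · rw [← c0]; exact (hw'.per.at (by ring)).symm
    · rw [← c2]; exact (hw'.per.at (by ring)).symm
    · rw [← c_1]; exact (hw'.per.at (by ring)).symm
  · obtain ⟨m, rfl⟩ : ∃ m : ℕ, q = m := ⟨q.toNat, by omega⟩
    have hlt : m + 1 < n0 := by omega
    have kc := h'.kap_int_corner hw'.not_const (q := m) (by exact_mod_cast hlt)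
      (by rw [c0, c1]) (a 0)
    rw [c0, c_1, ← hk, hkap, sub_self] at kc
    have ne' : (τ 0 - τ 1) ^ 2 ≠ 0 := pow_ne_zero _ (sub_ne_zero.2 ne)
    have hx := (mul_eq_zero.1 kc.symm).resolve_left ne'
    have b2 : A' (v' (m + 1) + (a 0 - a' (m + 1)) • v' m) -
        a 0 • (v' (m + 1) + (a 0 - a' (m + 1)) • v' m) =
        v' (m + 2) + ((a 0 - a' (m + 1)) * x' m) • v' (m - 1) := by
      have e1 : (x' (m + 1) - (a 0 - a' m) * (a 0 - a' (m + 1))) • v' m = 0 := by
        rw [show x' (m + 1) - (a 0 - a' m) * (a 0 - a' (m + 1)) = 0 by linear_combination -hx,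
          zero_smul]
      rw [map_add, map_smul, hp'.hA, hp'.hA, Nat.add_sub_cancel]
      linear_combination (norm := module) e1
    have b3 : ((a 0 - a' (m + 1)) * x' m) • (τ' ((m - 1 : ℕ) : ℤ) • v' (m - 1)) =
        ((a 0 - a' (m + 1)) * x' m) • (τ 1 • v' (m - 1)) := by
      rcases m with _ | m
      · rw [h'.x0]; simp
      · rw [Nat.add_sub_cancel]
        push_cast at c_1
        rw [show (m : ℤ) + 1 - 1 = m by ring] at c_1
        rw [c_1]
    refine ⟨v' (m + 1) + (a 0 - a' (m + 1)) • v' m, ?_, ?_, ?_⟩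
    · intro h0
      obtain ⟨f, hf⟩ := hp'.exists_coord (m := m + 1) (by exact_mod_cast hlt)
      have := congrArg f h0
      rw [map_add, map_smul, hf, hf, if_pos rfl, if_neg (by omega), map_zero] at this
      simp at this
    · rw [map_add, map_smul, hp'.hB, hp'.hB]
      push_cast
      rw [c1, c0]; module
    · rw [b2, map_add, map_smul, hp'.hB, hp'.hB, b3]
      push_cast
      rw [c2]; module

/-- a singular vector with the parameters of a given window -/
theorem exists_sing_IV {M M' : ℕ} {s : ℤ} (hw : Win n0 τ a M s) (hw' : Win n0 τ' a' M' s')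
    (h : TSys p (n0 : ℕ∞) τ a x) (h' : TSys p (n0 : ℕ∞) τ' a' x')
    (hp' : PB A' B' (n0 : ℕ∞) v' (fun n : ℕ => τ' n) a' x')
    (hsp : ∀ i < n0, ∃ j < n0, τ' j = τ i) (hk : Kap p τ a = Kap p τ' a') :
    ∃ g : V', g ≠ 0 ∧ Sg A' B' (τ 0) (τ 1) (a 0) g := by
  rcases hw.sc with rfl | ⟨rfl, -⟩ | rfl
  · exact sing_mirror0 hw hw' h h' hp' hsp
  · exact sing_corner hw hw' h h' hp' hsp hk
  · exact sing_mirror2 hw hw' h h' hp' hsp

/-- the Casimir values agree if one of the windows has a mirror -/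
theorem kap_eq_of_mirror (h : TSys p (n0 : ℕ∞) τ a x) (h' : TSys p (n0 : ℕ∞) τ' a' x')
    (hc : ¬ Per τ 1) (hc' : ¬ Per τ' 1) {e : ℕ} (he : e < n0) (hm : τ (e - 1) = τ (e + 1))
    (hsp : ∃ j < n0, τ' j = τ e) : Kap p τ a = Kap p τ' a' := by
  obtain ⟨j, hj, hje⟩ := hsp
  have k1 := h.kap_mirror hc (by exact_mod_cast he) hm
  obtain ⟨j1, j2⟩ : τ' (j + 1) = τ (e + 1) ∧ τ' (j - 1) = τ (e + 1) := by
    rcases orbit h.tau h'.tau hje with ho | ho
    · have o1 := ho 1
      have o2 := ho (-1)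
      exact ⟨o1, by rw [← hm]; exact o2⟩
    · have o1 := ho 1
      have o2 := ho (-1)
      rw [sub_neg_eq_add] at o2
      refine ⟨by rw [← hm]; exact o2, o1⟩
  have k2 := h'.kap_mirror hc' (e := j) (by exact_mod_cast hj) (by rw [j1, j2])
  rw [k1, k2, j2, hje, hm]

/-- the Casimir value is an invariant, corner case -/
theorem kap_eq_corner {M M' : ℕ} (hw : Win n0 τ a M (-1)) (hw' : Win n0 τ' a' M' s')
    (h : TSys p (n0 : ℕ∞) τ a x) (h' : TSys p (n0 : ℕ∞) τ' a' x')
    (hp' : PB A' B' (n0 : ℕ∞) v' (fun n : ℕ => τ' n) a' x') {g : V'} (hg0 : g ≠ 0)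
    (hg : Sg A' B' (τ 0) (τ 1) (a 0) g) : Kap p τ a = Kap p τ' a' := by
  have hn2 := hw.two_le
  have t1 : τ (-1) = τ 0 := hw.cen.at (by ring)
  have t2 : τ (-2) = τ 1 := hw.cen.at (by ring)
  have ne : τ 0 ≠ τ 1 := by
    have := not_per_left h.tau hw.not_const (n := 0) (by simpa using t1)
    simpa using this
  have hkap : Kap p τ a = GG p (τ 0) (τ 1) (a 0) := TSys.kap_start_corner t1
  obtain ⟨i, hi, hi0⟩ := hp'.exists_cf hg0
  have hin : i < n0 := by exact_mod_cast hi
  have hti : τ' i = τ 0 := hp'.cf_eig hg.e0 hi0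
  -- the vector `w = A g - a₀ g` has no component along eigenvectors with eigenvalue `τ 0`
  have hz : ∀ j : ℕ, τ' j = τ 0 → hp'.cf j (A' g - a 0 • g) = 0 := by
    intro j hj
    by_contra hne
    have := hp'.cf_eig hg.e1 hne
    rw [hj] at this
    exact ne this
  have hz1 : ∀ j : ℕ, τ' j = τ 1 → hp'.cf j g = 0 := by
    intro j hj
    by_contra hne
    have := hp'.cf_eig hg.e0 hne
    rw [hj] at this
    exact ne this.symm
  have row : ∀ j : ℕ, (j : ℕ∞) < (n0 : ℕ∞) → τ' j = τ 0 →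
      (if j = 0 then 0 else hp'.cf (j - 1) g) + (a' j - a 0) * hp'.cf j g +
        x' (j + 1) * hp'.cf (j + 1) g = 0 := by
    intro j hj hjt
    have := hz j hjt
    rw [map_sub, map_smul, hp'.cf_A hj, smul_eq_mul] at this
    linear_combination this
  -- a corner inside the window
  have inner : ∀ q : ℕ, q + 1 < n0 → τ' q = τ 0 → τ' (q + 1) = τ 0 → τ' (q - 1) = τ 1 →
      τ' (q + 2) = τ 1 → (hp'.cf q g ≠ 0 ∨ hp'.cf (q + 1) g ≠ 0) → Kap p τ a = Kap p τ' a' := by
    intro q hq c0 c1 c_1 c2 hne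
    have r0 := row q (by exact_mod_cast (by omega)) c0
    have r1 := row (q + 1) (by exact_mod_cast hq) (by push_cast; exact c1)
    have z0 : (if q = 0 then (0 : K) else hp'.cf (q - 1) g) = 0 := by
      split_ifs with h0
      · rfl
      · apply hz1
        rw [← c_1]
        congr 1
        omega
    have z1 : hp'.cf (q + 2) g = 0 := hz1 _ (by push_cast; exact c2)
    rw [z0] at r0
    rw [if_neg (by omega), Nat.add_sub_cancel, show q + 1 + 1 = q + 2 by rfl, z1] at r1
    have hne1 : hp'.cf (q + 1) g ≠ 0 := by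
      intro h0
      rw [h0] at r1
      rcases hne with h2 | h2
      · exact h2 (by linear_combination r1)
      · exact h2 h0
    have hx : (a 0 - a' q) * (a 0 - a' (q + 1)) - x' (q + 1) = 0 := by
      apply mul_left_cancel₀ hne1
      linear_combination -r0 + (a' q - a 0) * r1
    have kc := h'.kap_int_corner hw'.not_const (q := q) (by exact_mod_cast hq)
      (by rw [c0, c1]) (a 0)
    rw [hx, mul_zero, c0, c_1, ← hkap] at kc
    exact sub_eq_zero.1 kc
  rcases orbit h.tau h'.tau (i := 0) hti with ho | ho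
  · -- the partner is `i - 1`
    have o1 := ho 1
    have o2 := ho (-1)
    have o4 := ho (-2)
    norm_num at o1 o2 o4
    by_cases h0 : i = 0
    · subst h0
      have r0 := row 0 hi hti
      have z1 : hp'.cf (0 + 1) g = 0 := hz1 _ (by
        push_cast
        simpa using o1)
      rw [if_pos rfl, z1] at r0
      have ha : a' 0 = a 0 := by
        have : (a' 0 - a 0) * hp'.cf 0 g = 0 := by linear_combination r0
        exact sub_eq_zero.1 ((mul_eq_zero.1 this).resolve_right hi0)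
      norm_num at o1 o2 o4 hti
      rw [hkap, TSys.kap_start_corner (by rw [o2, hti, t1]), hti, o1, ha]
    · obtain ⟨q, rfl⟩ : ∃ q, i = q + 1 := ⟨i - 1, by omega⟩
      push_cast at o1 o2 o4 hti
      refine inner q hin ?_ hti ?_ ?_ (Or.inr hi0)
      · rw [← t1, ← o2]; congr 1; ring
      · rw [← t2, ← o4]; congr 1; ring
      · rw [← o1]; congr 1
  · -- the partner is `i + 1`
    have o1 := ho 1
    have o2 := ho (-1)
    have o4 := ho (-2)
    norm_num at o1 o2 o4
    by_cases h0 : i + 1 = n0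
    · have r0 := row i hi hti
      rw [hp'.cf_out (j := i + 1) (by exact_mod_cast (by omega : n0 ≤ i + 1))] at r0
      have z0 : (if i = 0 then (0 : K) else hp'.cf (i - 1) g) = 0 := by
        split_ifs with h1
        · rfl
        · apply hz1
          rw [← o1]
          congr 1
          omega
      rw [z0] at r0
      have ha : a' i = a 0 := by
        have : (a' i - a 0) * hp'.cf i g = 0 := by linear_combination r0
        exact sub_eq_zero.1 ((mul_eq_zero.1 this).resolve_right hi0)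
      have kc := h'.kap_end_corner hw'.not_const (n := i) (by rw [h0]) (by
        rw [hti, o2, t1])
      rw [hkap, kc, hti, o1, ha]
    · refine inner i (by omega) hti ?_ o1 ?_ (Or.inl hi0)
      · rw [o2, t1]
      · rw [o4, t2]

/-- the Casimir value is an invariant of the module -/
theorem kap_eq_of_iso {M M' : ℕ} {s : ℤ} (hw : Win n0 τ a M s) (hw' : Win n0 τ' a' M' s')
    (h : TSys p (n0 : ℕ∞) τ a x) (h' : TSys p (n0 : ℕ∞) τ' a' x')
    (hp : PB A B (n0 : ℕ∞) v (fun n : ℕ => τ n) a x)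
    (hp' : PB A' B' (n0 : ℕ∞) v' (fun n : ℕ => τ' n) a' x')
    (φ : V ≃ₗ[K] V') (hA : ∀ w, φ (A w) = A' (φ w)) (hB : ∀ w, φ (B w) = B' (φ w)) :
    Kap p τ a = Kap p τ' a' := by
  have hsp : ∀ i < n0, ∃ j < n0, τ' j = τ i := by
    intro i hi
    obtain ⟨j, hj, hje⟩ := spec_sub hp hp' φ hB i (by exact_mod_cast hi)
    exact ⟨j, by exact_mod_cast hj, hje⟩
  have hn2 := hw.two_le
  rcases hw.sc with rfl | ⟨rfl, -⟩ | rfl
  · exact kap_eq_of_mirror h h' hw.not_const hw'.not_const (e := 0) hw.pos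
      (hw.cen.at (by push_cast)) (hsp 0 hw.pos)
  · refine kap_eq_corner hw hw' h h' hp' (g := φ (v 0)) ?_ ?_
    · intro h0
      exact hp.ne_zero (n := 0) (by exact_mod_cast hw.pos) (φ.injective (by rw [h0, map_zero]))
    · exact (Sg.start hp).map (φ := φ.toLinearMap) hA hB
  · refine kap_eq_of_mirror h h' hw.not_const hw'.not_const (e := n0 - 1) (by omega)
      ?_ (hsp _ (by omega))
    have e1 : τ (((n0 - 1 : ℕ) : ℤ) - 1) = τ (-2) := hw.per.at (by omega)
    have e2 : τ (((n0 - 1 : ℕ) : ℤ) + 1) = τ 0 := hw.per.at (by omega)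
    rw [e1, e2]
    exact hw.cen.at (by ring)

end Pool.Agent.TH10.AW
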