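import Pool.Agent.TH10.AW.IsoIII

/-! The Casimir value of a window, and its behaviour at corners and mirrors. -/

set_option autoImplicit false
set_option linter.unusedSectionVars false
set_option linter.style.haveILetI false

namespace Pool.Agent.TH10.AW

open Polynomial

variable {K : Type*} [Field K] {p : Scal K}

section orbit

variable {τ τ' : ℤ → K}

theorem IsTau.shift (h : IsTau p τ) (i : ℤ) : IsTau p (fun n => τ (i + n)) := by
  constructor
  · intro n
    have := h.recur (i + n)
    rw [add_assoc, add_sub_assoc] at this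
    exact this
  · have := h.P_succ i
    simpa using this

theorem IsTau.reflect (h : IsTau p τ) (i : ℤ) : IsTau p (fun n => τ (i - n)) := by
  constructor
  · intro n
    have := h.recur (i - n)
    rw [show i - n + 1 = i - (n - 1) by ring, show i - n - 1 = i - (n + 1) by ring] at this
    rw [add_comm]
    exact this
  · have := h.P_eq i (τ (i - 1))
    simp only [sub_zero]
    rw [this]; ring

/-- two sequences with a common value agree up to translation and reflection -/
theorem orbit (h : IsTau p τ) (h' : IsTau p τ') {e i : ℤ} (he : τ' e = τ i) :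
    (∀ k, τ' (e + k) = τ (i + k)) ∨ (∀ k, τ' (e - k) = τ (i + k)) := by
  have e1 := h.P_eq i (τ' (e + 1))
  rw [← he, h'.P_succ e] at e1
  rcases mul_eq_zero.1 e1.symm with e2 | e2
  · left
    have := tau_unique (h'.shift e) (h.shift i) (by simpa using he) (sub_eq_zero.1 e2)
    exact fun k => congrFun this k
  · right
    have r1 := h.recur i
    have r2 := h'.recur e
    rw [he] at r2
    have := tau_unique (h'.reflect e) (h.shift i) (by simpa using he) (by
      linear_combination r2 - r1 - e2)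
    exact fun k => congrFun this k

end orbit

variable {N : ℕ∞} {a x : ℕ → K} {τ : ℤ → K}

open scoped Classical in
/-- the Casimir value of a window, computed at its start -/
noncomputable def Kap (p : Scal K) (τ : ℤ → K) (a : ℕ → K) : K :=
  if τ (-1) = τ 0 then p.Phi (τ 0) (τ 1) + (τ 1 - τ 0) * p.S (τ 0) (a 0)
  else p.Phi (τ (-1)) (τ 0)

/-- `G(y, z, c) = Φ(z, y) - (y - z) S(y, c)` -/
def GG (p : Scal K) (y z c : K) : K := p.Phi z y - (y - z) * p.S y c

theorem GG_sub {y z : K} (hyz : y + z = p.β * y + p.γs) (c c' : K) :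
    GG p y z c - GG p y z c' =
      (y - z) * (c - c') * ((y - z) * (c + c') - (p.ω + 2 * p.γ * y)) := by
  have hg : p.γs = y + z - p.β * y := by linear_combination -hyz
  unfold GG Scal.S
  rw [hg]; ring

theorem not_per_left (h : IsTau p τ) (hconst : ¬ Per τ 1) {n : ℤ} (h0 : τ (n - 1) = τ n) :
    τ n ≠ τ (n + 1) := fun h1 => hconst (h.per_one_of h0 h1)

theorem not_per_mirror (h : IsTau p τ) (hconst : ¬ Per τ 1) {n : ℤ} (h0 : τ (n - 1) = τ (n + 1)) :
    τ (n - 1) ≠ τ n := fun h1 => hconst (h.per_one_of h1 (by rw [← h1, h0]))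

namespace TSys

variable (h : TSys p N τ a x)
include h

theorem kap_edge (hN : N ≠ 0) (hconst : ¬ Per τ 1) {n : ℕ} (hn : (n : ℕ∞) ≤ N)
    (hne : τ (n - 1) ≠ τ n) : p.Phi (τ (n - 1)) (τ n) - t τ x n = Kap p τ a := by
  have hN0 : ((0 : ℕ) : ℕ∞) < N := by
    rw [Nat.cast_zero]; exact pos_iff_ne_zero.2 hN
  unfold Kap
  split_ifs with h0
  · have hn0 : n ≠ 0 := by
      rintro rfl
      exact hne (by simpa using h0)
    have h01 : τ 0 ≠ τ 1 := by
      have := not_per_left h.tau hconst (n := 0) (by simpa using h0)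
      simpa using this
    have k := h.kap_eq (m := 1) (n := n) (by omega) hn (by simpa using h01) hne
    have k2 := h.t_succ (n := 0) hN0
    rw [h.t_zero] at k2
    rw [k]
    norm_num at k2 ⊢
    rw [k2, h0]
    ring
  · have k := h.kap_eq (m := 0) (n := n) (by omega) hn (by simpa using h0) hne
    rw [k, h.t_zero]
    norm_num

/-- the Casimir value at a mirror of the window -/
theorem kap_mirror (hconst : ¬ Per τ 1) {e : ℕ} (he : (e : ℕ∞) < N)
    (hm : τ (e - 1) = τ (e + 1)) : Kap p τ a = p.Phi (τ (e - 1)) (τ e) := by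
  have hN : N ≠ 0 := fun h0 => by rw [h0] at he; exact not_lt_bot he
  rw [← h.kap_edge hN hconst he.le (not_per_mirror h.tau hconst hm)]
  unfold t
  rw [hm]; ring

theorem kap_int_corner (hconst : ¬ Per τ 1) {q : ℕ} (hq : ((q + 1 : ℕ) : ℕ∞) < N)
    (hc : τ q = τ (q + 1)) (c : K) :
    GG p (τ q) (τ (q - 1)) c - Kap p τ a =
      (τ q - τ (q - 1)) ^ 2 * ((c - a q) * (c - a (q + 1)) - x (q + 1)) := by
  have hN : N ≠ 0 := fun h0 => by rw [h0] at hq; exact not_lt_bot hq
  have hq0 := lt_of_add (m := 1) hq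
  have hc2 : τ (q + 2) = τ (q - 1) := (h.tau.cen_corner hc).at (by ring)
  have hne : τ (q - 1) ≠ τ q := by
    intro h0
    exact not_per_left h.tau hconst h0 hc
  have k := h.kap_edge hN hconst hq0.le hne
  have k2 := h.t_succ hq0
  have hD := h.D q hq
  have hr := h.tau.recur q
  rw [← hc] at hr k2
  rw [hc2, ← hc] at hD
  have k3 : t τ x (q + 1) = -(τ q - τ (q - 1)) ^ 2 * x (q + 1) := by
    unfold t
    push_cast
    rw [show (q : ℤ) + 1 + 1 = q + 2 by ring, show (q : ℤ) + 1 - 1 = q by ring,
      show (q : ℤ) + 1 - 2 = q - 1 by ring, hc2, ← hc]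
    ring
  rw [k3] at k2
  unfold GG
  unfold Scal.S at k2 ⊢
  linear_combination k - k2 + (τ q - τ (q - 1)) * (c - a q) * hD
    + (τ q - τ (q - 1)) * (c - a q) * (c + a q) * hr

omit h in
theorem kap_start_corner (hc : τ (-1) = τ 0) :
    Kap p τ a = GG p (τ 0) (τ 1) (a 0) := by
  unfold Kap GG
  rw [if_pos hc, Phi_symm p (τ 1) (τ 0)]
  ring

theorem kap_end_corner (hconst : ¬ Per τ 1) {n : ℕ} (hn : N = ((n + 1 : ℕ) : ℕ∞))
    (hc : τ n = τ (n + 1)) : Kap p τ a = GG p (τ n) (τ (n - 1)) (a n) := by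
  have hN : N ≠ 0 := fun h0 => by rw [h0] at hn; exact absurd hn.symm (by simp)
  have hlt : (n : ℕ∞) < N := by rw [hn]; exact_mod_cast Nat.lt_succ_self n
  have hne : τ (n - 1) ≠ τ n := by
    intro h0
    exact not_per_left h.tau hconst h0 hc
  have k := h.kap_edge hN hconst hlt.le hne
  have k2 := h.t_succ hlt
  have k3 : t τ x (n + 1) = 0 := by
    unfold t
    rw [h.xN (n + 1) (by rw [hn]), mul_zero]
  rw [k3, ← hc] at k2
  unfold GG
  linear_combination -k + k2

end TSys

end Pool.Agent.TH10.AW
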