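import Pool.Agent.TH10.AW.DataDef
import Pool.Agent.TH10.AW.Alg
import Pool.Agent.TH10.AW.Coord

/-! The model modules. -/

set_option autoImplicit false

namespace Pool.Agent.TH10.AW

section model

variable {K : Type*} [Field K]

theorem Data.pb (D : Data K) (x0 : D.x 0 = 0) (xN : ∀ n : ℕ, D.N ≤ n → D.x n = 0)
    (xne : ∀ n : ℕ, 0 < n → (n : ℕ∞) < D.N → D.x n ≠ 0) :
    PB D.opA D.opB D.N D.vec D.θ D.a D.x := by
  have hv : ∀ n : ℕ, ∀ h : (n : ℕ∞) < D.N, D.vec n = Finsupp.single ⟨n, h⟩ 1 :=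
    fun n h => dif_pos h
  have hv0 : ∀ n : ℕ, ¬ (n : ℕ∞) < D.N → D.vec n = 0 := fun n h => dif_neg h
  refine ⟨?_, ?_, fun n hn => hv0 n (not_lt.2 hn), ?_, ?_, x0, xN, xne⟩
  · have h1 := (Finsupp.basisSingleOne (R := K) (ι := {i : ℕ // (i : ℕ∞) < D.N})).linearIndependent
    have h2 : (fun i : {i : ℕ // (i : ℕ∞) < D.N} => D.vec i) =
        (Finsupp.basisSingleOne (R := K) (ι := {i : ℕ // (i : ℕ∞) < D.N}) : _ → D.Sp) := by
      funext i
      rw [hv i i.2, Finsupp.coe_basisSingleOne]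
    rw [h2]
    exact h1
  · rw [eq_top_iff,
      ← (Finsupp.basisSingleOne (R := K) (ι := {i : ℕ // (i : ℕ∞) < D.N})).span_eq,
      Submodule.span_le]
    rintro _ ⟨i, rfl⟩
    rw [Finsupp.coe_basisSingleOne]
    exact Submodule.subset_span ⟨i, hv i i.2⟩
  · intro n
    by_cases hn : (n : ℕ∞) < D.N
    · rw [hv n hn, Data.opA, Finsupp.linearCombination_single, one_smul]
      simp only
      rw [hv n hn]
    · have hn1 : ¬ ((n + 1 : ℕ) : ℕ∞) < D.N := fun h => hn (lt_of_add h)
      rw [hv0 n hn, hv0 _ hn1, xN n (not_lt.1 hn)]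
      simp
  · intro n
    by_cases hn : (n : ℕ∞) < D.N
    · rw [hv n hn, Data.opB, Finsupp.linearCombination_single, one_smul]
      simp only
      rw [hv n hn]
    · rw [hv0 n hn]; simp

theorem Data.Ok.pb {D : Data K} {p : Scal K} (h : D.Ok p) :
    PB D.opA D.opB D.N D.vec D.θ D.a D.x := D.pb h.x0 h.xN h.xne

/-- The model module with parameters `D`. -/
def Mod {p : Scal K} {D : Data K} (_ : D.Ok p) : Type _ := D.Sp

variable {p : Scal K} {D : Data K} (h : D.Ok p)

noncomputable instance : AddCommGroup (Mod h) := inferInstanceAs (AddCommGroup D.Sp)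

noncomputable instance : Module K (Mod h) := inferInstanceAs (Module K D.Sp)

/-- the operator `A` on the model module -/
noncomputable def Mod.A : Module.End K (Mod h) := D.opA

/-- the operator `A*` on the model module -/
noncomputable def Mod.B : Module.End K (Mod h) := D.opB

theorem Mod.aw1 : AW1 p (Mod.A h) (Mod.B h) := (aw_of_sys h.pb h.sys).1

theorem Mod.aw2 : AW2 p (Mod.A h) (Mod.B h) := (aw_of_sys h.pb h.sys).2

noncomputable instance : Module (AWAlg p) (Mod h) :=
  Module.compHom (Mod h) (repOf (Mod.aw1 h) (Mod.aw2 h)).toRingHom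

theorem Mod.smul_def (r : AWAlg p) (w : Mod h) :
    r • w = repOf (Mod.aw1 h) (Mod.aw2 h) r w := rfl

instance : IsScalarTower K (AWAlg p) (Mod h) :=
  ⟨fun c r w => by
    rw [Mod.smul_def, Mod.smul_def, map_smul]
    rfl⟩

theorem Mod.opA_eq : opA p (Mod h) = Mod.A h := by
  ext1 w
  rw [opA_apply, Mod.smul_def, repOf_gA]

theorem Mod.opB_eq : opB p (Mod h) = Mod.B h := by
  ext1 w
  rw [opB_apply, Mod.smul_def, repOf_gB]

/-- the basis vectors of the model module -/
noncomputable def Mod.vec (n : ℕ) : Mod h := D.vec n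

theorem Mod.pb : PB (opA p (Mod h)) (opB p (Mod h)) D.N (Mod.vec h) D.θ D.a D.x := by
  rw [Mod.opA_eq, Mod.opB_eq]
  exact h.pb

end model

end Pool.Agent.TH10.AW
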