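import Pool.Agent.TH10.AW.Iso
import Pool.Agent.TH10.AW.ModDef

/-! Normal form of modules of polynomial type, and the model modules. -/

set_option autoImplicit false

namespace Pool.Agent.TH10.AW

open scoped Classical in
/-- polynomial type gives a normalised polynomial basis -/
theorem exists_PB {K : Type*} [Field K] {p : Scal K} {V : Type*} [AddCommGroup V] [Module K V]
    [Module (AWAlg p) V] [IsScalarTower K (AWAlg p) V] (h : PolyType p V) :
    ∃ (N : ℕ∞) (v : ℕ → V) (θ a x : ℕ → K), PB (opA p V) (opB p V) N v θ a x := by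
  obtain ⟨N, b, hT, hI, hD⟩ := h
  let u : ℕ → V := fun n => if h : (n : ℕ∞) < N then b ⟨n, h⟩ else 0
  let m : ℕ → ℕ → K := fun i j => if h : (i : ℕ∞) < N ∧ (j : ℕ∞) < N then
    b.repr (gA p • b ⟨j, h.2⟩) ⟨i, h.1⟩ else 0
  let c : ℕ → K := fun n => if ((n + 1 : ℕ) : ℕ∞) < N then m (n + 1) n else 1
  let y : ℕ → K := fun n => if n = 0 then 0 else m (n - 1) n
  have hu : ∀ n : ℕ, ∀ h : (n : ℕ∞) < N, u n = b ⟨n, h⟩ := fun n h => dif_pos h
  have hu0 : ∀ n : ℕ, ¬ (n : ℕ∞) < N → u n = 0 := fun n h => dif_neg h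
  have hm : ∀ i j : ℕ, ∀ hi : (i : ℕ∞) < N, ∀ hj : (j : ℕ∞) < N,
      m i j = b.repr (gA p • b ⟨j, hj⟩) ⟨i, hi⟩ := fun i j hi hj => dif_pos ⟨hi, hj⟩
  have hc : ∀ n, c n ≠ 0 := by
    intro n
    by_cases hn : ((n + 1 : ℕ) : ℕ∞) < N
    · simp only [c, if_pos hn]
      rw [hm (n + 1) n hn (lt_of_add hn)]
      exact hI _ _ (Or.inr rfl)
    · simp only [c, if_neg hn]
      exact one_ne_zero
  have hy : ∀ n : ℕ, 0 < n → (n : ℕ∞) < N → y n ≠ 0 := by
    intro n hn0 hn
    simp only [y, if_neg (show n ≠ 0 by omega)]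
    have hn1 : ((n - 1 : ℕ) : ℕ∞) < N := lt_of_le_of_lt (by exact_mod_cast Nat.sub_le n 1) hn
    rw [hm (n - 1) n hn1 hn]
    exact hI _ _ (Or.inl (by simp only; omega))
  have hAu : ∀ n, gA p • u n = c n • u (n + 1) + m n n • u n + y n • u (n - 1) := by
    intro n
    by_cases hn : (n : ℕ∞) < N
    · apply b.repr.injective
      ext i
      simp only [map_add, map_smul, Finsupp.add_apply, Finsupp.smul_apply, smul_eq_mul]
      rw [hu n hn]
      have r1 : ∀ k : ℕ, b.repr (u k) i = if k = i then 1 else 0 := by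
        intro k
        by_cases hk : (k : ℕ∞) < N
        · rw [hu k hk, Module.Basis.repr_self, Finsupp.single_apply]
          simp only [Subtype.ext_iff]
        · rw [hu0 k hk, map_zero, Finsupp.zero_apply, if_neg]
          intro hki
          exact hk (hki ▸ i.2)
      rw [r1, r1, ← hu n hn, r1]
      rcases lt_trichotomy (i : ℕ) n with hlt | heq | hgt
      · rw [if_neg (by omega), if_neg (by omega)]
        by_cases h1 : n - 1 = i
        · rw [if_pos h1]
          simp only [y, if_neg (show n ≠ 0 by omega), h1]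
          rw [hm i n i.2 hn, hu n hn]
          simp
        · rw [if_neg h1, hu n hn, hT i ⟨n, hn⟩ (Or.inl (by simp only; omega))]
          simp
      · rw [if_neg (by omega), if_pos heq.symm, hu n hn, hm n n hn hn]
        by_cases h0 : n = 0
        · simp only [y, if_pos h0]
          have : i = ⟨n, hn⟩ := Subtype.ext heq
          rw [this]
          simp
        · rw [if_neg (by omega)]
          have : i = ⟨n, hn⟩ := Subtype.ext heq
          rw [this]
          simp
      · rw [if_neg (show n ≠ i by omega), if_neg (show n - 1 ≠ i by omega)]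
        by_cases h1 : n + 1 = i
        · rw [if_pos h1]
          have hn1 : ((n + 1 : ℕ) : ℕ∞) < N := by rw [h1]; exact i.2
          simp only [c, if_pos hn1]
          rw [hm (n + 1) n hn1 hn, hu n hn]
          have : i = ⟨n + 1, hn1⟩ := Subtype.ext h1.symm
          rw [this]
          simp
        · rw [if_neg h1, hu n hn, hT i ⟨n, hn⟩ (Or.inr (by simp only; omega))]
          simp
    · have hn1 : ¬ ((n + 1 : ℕ) : ℕ∞) < N := fun h => hn (lt_of_add h)
      rw [hu0 n hn, hu0 _ hn1]
      have : y n = 0 := by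
        simp only [y, m]
        split_ifs with h1 h2
        · rfl
        · exact absurd h2.2 hn
        · rfl
      rw [this]; simp
  let θ : ℕ → K := fun n => if h : (n : ℕ∞) < N then b.repr (gB p • b ⟨n, h⟩) ⟨n, h⟩ else 0
  have hBu : ∀ n, gB p • u n = θ n • u n := by
    intro n
    by_cases hn : (n : ℕ∞) < N
    · apply b.repr.injective
      ext i
      rw [hu n hn, LinearEquiv.map_smul b.repr (θ n) (b ⟨n, hn⟩), Finsupp.smul_apply,
        Module.Basis.repr_self, Finsupp.single_apply]
      simp only [θ, dif_pos hn]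
      split_ifs with h1
      · rw [h1]; simp
      · rw [hD i ⟨n, hn⟩ (Ne.symm h1)]; simp
    · rw [hu0 n hn]; simp
  let C : ℕ → K := fun n => ∏ j ∈ Finset.range n, c j
  have hC : ∀ n, C n ≠ 0 := fun n => Finset.prod_ne_zero_iff.2 fun j _ => hc j
  have hCs : ∀ n, C (n + 1) = C n * c n := fun n => Finset.prod_range_succ _ _
  refine ⟨N, fun n => C n • u n, θ, fun n => m n n, fun n => c (n - 1) * y n, ?_, ?_, ?_, ?_, ?_,
    ?_, ?_, ?_⟩
  · have h1 := b.linearIndependent
    have h2 := h1.units_smul (fun i : {i : ℕ // (i : ℕ∞) < N} => Units.mk0 (C i) (hC i))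
    have h3 : (fun i : {i : ℕ // (i : ℕ∞) < N} => C i • u i) =
        (fun i : {i : ℕ // (i : ℕ∞) < N} => Units.mk0 (C i) (hC i)) • (b : _ → V) := by
      funext i
      simp only [Pi.smul_apply', Units.smul_def, Units.val_mk0]
      rw [hu i i.2]
    rw [h3]
    exact h2
  · rw [eq_top_iff, ← b.span_eq, Submodule.span_le]
    rintro _ ⟨i, rfl⟩
    have h1 : C i • u i ∈ Submodule.span K (Set.range fun n => C n • u n) :=
      Submodule.subset_span ⟨i, rfl⟩
    rw [Submodule.smul_mem_iff _ (hC _), hu i i.2] at h1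
    exact h1
  · intro n hn
    rw [hu0 n (not_lt.2 hn), smul_zero]
  · intro n
    rw [map_smul, opA_apply, hAu, hCs]
    rcases n with _ | n
    · have : y 0 = 0 := by simp [y]
      rw [this]
      simp only [mul_zero, zero_smul]
      module
    · simp only [Nat.add_sub_cancel]
      rw [hCs n]
      module
  · intro n
    rw [map_smul, opB_apply, hBu, smul_comm]
  · simp [y]
  · intro n hn
    have hn' : ¬ (n : ℕ∞) < N := not_lt.2 hn
    simp only [y, m]
    split_ifs with h1 h2
    · simp
    · exact absurd h2.2 hn'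
    · simp
  · intro n hn0 hn
    exact mul_ne_zero (hc _) (hy n hn0 hn)

/-- a polynomial basis shows polynomial type -/
theorem polyType_of_PB {K : Type*} [Field K] {p : Scal K} {V : Type*} [AddCommGroup V] [Module K V]
    [Module (AWAlg p) V] [IsScalarTower K (AWAlg p) V] {N : ℕ∞} {v : ℕ → V} {θ a x : ℕ → K}
    (h : PB (opA p V) (opB p V) N v θ a x) : PolyType p V := by
  classical
  refine ⟨N, h.basis, ?_, ?_, ?_⟩
  · intro i j hij
    rw [h.basis_apply, ← opA_apply, h.hA, map_add, map_add, map_smul, map_smul]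
    have r1 : ∀ k : ℕ, h.basis.repr (v k) i = if k = i then 1 else 0 := by
      intro k
      by_cases hk : (k : ℕ∞) < N
      · have : v k = h.basis ⟨k, hk⟩ := (h.basis_apply ⟨k, hk⟩).symm
        rw [this, Module.Basis.repr_self, Finsupp.single_apply]
        simp only [Subtype.ext_iff]
      · rw [h.zero k (not_lt.1 hk), map_zero, Finsupp.zero_apply, if_neg]
        intro hki
        exact hk (hki ▸ i.2)
    simp only [Finsupp.add_apply, Finsupp.smul_apply, smul_eq_mul, r1]
    rw [if_neg (by omega), if_neg (by omega)]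
    split_ifs with h3
    · have : (j : ℕ) = 0 := by omega
      rw [this, h.x0]; simp
    · simp
  · intro i j hij
    rw [h.basis_apply, ← opA_apply, h.hA, map_add, map_add, map_smul, map_smul]
    have r1 : ∀ k : ℕ, h.basis.repr (v k) i = if k = i then 1 else 0 := by
      intro k
      by_cases hk : (k : ℕ∞) < N
      · have : v k = h.basis ⟨k, hk⟩ := (h.basis_apply ⟨k, hk⟩).symm
        rw [this, Module.Basis.repr_self, Finsupp.single_apply]
        simp only [Subtype.ext_iff]
      · rw [h.zero k (not_lt.1 hk), map_zero, Finsupp.zero_apply, if_neg]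
        intro hki
        exact hk (hki ▸ i.2)
    simp only [Finsupp.add_apply, Finsupp.smul_apply, smul_eq_mul, r1]
    rcases hij with hij | hij
    · rw [if_neg (by omega), if_neg (by omega), if_pos (by omega)]
      simpa using h.xne j (by omega) j.2
    · rw [if_pos (by omega), if_neg (by omega), if_neg (by omega)]
      simp
  · intro i j hij
    rw [h.basis_apply, ← opB_apply, h.hB, map_smul, ← h.basis_apply, Module.Basis.repr_self,
      Finsupp.smul_apply, Finsupp.single_apply, if_neg (Ne.symm hij), smul_zero]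

/-- two modules with polynomial bases and the same data are isomorphic -/
theorem exists_iso_of_eqData {K : Type*} [Field K] {V V' : Type*} [AddCommGroup V] [Module K V]
    [AddCommGroup V'] [Module K V'] {A B : Module.End K V} {A' B' : Module.End K V'}
    {N : ℕ∞} {v : ℕ → V} {θ a x : ℕ → K} {N' : ℕ∞} {v' : ℕ → V'} {θ' a' x' : ℕ → K}
    (h : PB A B N v θ a x) (h' : PB A' B' N' v' θ' a' x')
    (he : EqData N θ a x N' θ' a' x') :
    ∃ φ : V ≃ₗ[K] V', (∀ w, φ (A w) = A' (φ w)) ∧ (∀ w, φ (B w) = B' (φ w)) := by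
  obtain ⟨rfl, he⟩ := he
  let φ : V ≃ₗ[K] V' := h.basis.equiv h'.basis (Equiv.refl _)
  have hφ : ∀ n, φ (v n) = v' n := by
    intro n
    by_cases hn : (n : ℕ∞) < N
    · have e1 : v n = h.basis ⟨n, hn⟩ := (h.basis_apply ⟨n, hn⟩).symm
      have e2 : v' n = h'.basis ⟨n, hn⟩ := (h'.basis_apply ⟨n, hn⟩).symm
      rw [e1, e2]
      simp [φ]
    · rw [h.zero n (not_lt.1 hn), h'.zero n (not_lt.1 hn), map_zero]
  refine ⟨φ, fun w => ?_, fun w => ?_⟩
  · have : φ.toLinearMap.comp A = A'.comp φ.toLinearMap := by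
      apply LinearMap.ext_on_range h.sp
      intro n
      simp only [LinearMap.comp_apply, LinearEquiv.coe_coe]
      rw [h.hA, hφ, h'.hA, map_add, map_add, map_smul, map_smul, hφ, hφ, hφ]
      by_cases hn : (n : ℕ∞) < N
      · obtain ⟨-, e2, e3⟩ := he n hn
        rw [e2, e3]
      · rw [h'.zero n (not_lt.1 hn), h.xN n (not_lt.1 hn), h'.xN n (not_lt.1 hn)]
        simp
    exact congrArg (fun f : V →ₗ[K] V' => f w) this
  · have : φ.toLinearMap.comp B = B'.comp φ.toLinearMap := by
      apply LinearMap.ext_on_range h.sp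
      intro n
      simp only [LinearMap.comp_apply, LinearEquiv.coe_coe]
      rw [h.hB, hφ, h'.hB, map_smul, hφ]
      by_cases hn : (n : ℕ∞) < N
      · obtain ⟨e1, -, -⟩ := he n hn
        rw [e1]
      · rw [h'.zero n (not_lt.1 hn)]
        simp
    exact congrArg (fun f : V →ₗ[K] V' => f w) this

end Pool.Agent.TH10.AW
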