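import Pool.Agent.TH10.AW.Core

/-! Necessary conditions for irreducibility when eigenvalues are repeated. -/

set_option autoImplicit false
set_option linter.unusedSectionVars false
set_option linter.style.haveILetI false

namespace Pool.Agent.TH10.AW

open Polynomial

variable {K : Type*} [Field K] {p : Scal K}
variable {V : Type*} [AddCommGroup V] [Module K V]
variable {A B : Module.End K V}
variable {n0 : ℕ} {v : ℕ → V} {a x : ℕ → K} {τ : ℤ → K}

theorem finite_index (n0 : ℕ) : Finite {i : ℕ // (i : ℕ∞) < (n0 : ℕ∞)} :=
  Finite.of_injective (fun i => (⟨i, by exact_mod_cast i.2⟩ : Fin n0))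
    fun _ _ hij => Subtype.ext (congrArg Fin.val hij)

theorem PB.finite {θ : ℕ → K} (hp : PB A B (n0 : ℕ∞) v θ a x) : Module.Finite K V := by
  have := finite_index n0
  exact Module.Finite.of_basis hp.basis

theorem PB.finrank_eq {θ : ℕ → K} (hp : PB A B (n0 : ℕ∞) v θ a x) :
    Module.finrank K V = n0 := by
  have := finite_index n0
  rw [Module.finrank_eq_nat_card_basis hp.basis]
  let e : {i : ℕ // (i : ℕ∞) < (n0 : ℕ∞)} ≃ Fin n0 :=
    { toFun := fun i => ⟨i, by exact_mod_cast i.2⟩
      invFun := fun i => ⟨i, by exact_mod_cast i.2⟩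
      left_inv := fun i => rfl
      right_inv := fun i => rfl }
  rw [Nat.card_congr e, Nat.card_fin]

/-- the conclusion of type III -/
def TIII (n0 : ℕ) (τ : ℤ → K) (a x : ℕ → K) : Prop :=
  ∃ k : ℕ, n0 = 2 * (k + 1) ∧ τ k = τ (k + 1) ∧
    (∀ r : K, (r - a k) * (r - a (k + 1)) ≠ x (k + 1)) ∧
    PP a x n0 = PP a x (k + 1) ^ 2 +
        C (a k - a (k + 1)) * (PP a x (k + 1) * PP a x k) - C (x (k + 1)) * PP a x k ^ 2 ∧
    ((∀ i j : ℕ, i < j → j < n0 → τ i = τ j → i + j + 1 = n0) ∨
      ∃ M : ℕ, MinPer τ M ∧ k + 1 < M)

/-- Main structure theorem: an irreducible module with a nonscalar endomorphism. -/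
theorem nec_core (hp : PB A B (n0 : ℕ∞) v (fun n : ℕ => τ n) a x) (h : TSys p (n0 : ℕ∞) τ a x)
    (hn0 : n0 ≠ 0)
    (hI : Irr A B) (hconst : ¬ Per τ 1) {g : Module.End K V} (hgA : Commute A g)
    (hgB : Commute B g) (hg : ∀ r : K, g (v 0) ≠ r • v 0)
    (hcase : (∀ i j : ℕ, i < j → j < n0 → τ i = τ j → i + j + 1 = n0) ∨
      ∃ (M : ℕ) (s : ℤ), MinPer τ M ∧ Cen τ s ∧ (s = 0 ∨ s = -1 ∨ s = -2) ∧
        (M < n0 → ∃ T : K[X], T.Monic ∧ T.natDegree = M ∧ Commute B (aeval A T)) ∧ M ≤ n0) :
    TIII n0 τ a x ∨ ∃ (M d : ℕ), MinPer τ M ∧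
      n0 = M * d ∧ 2 ≤ d ∧ ∀ T : K[X], T.Monic → T.natDegree = M → Commute B (aeval A T) →
        ∃ f : K[X], Irreducible f ∧ f.Monic ∧ f.natDegree = d ∧ PP a x n0 = f.comp T ∧
          ∀ g : K[X], Commute B (aeval A g) → ∃ g' : K[X], g'.natDegree < d ∧
            aeval A g (v 0) = aeval A (g'.comp T) (v 0) := by
  haveI hfinV := hp.finite
  have hdim := hp.finrank_eq
  haveI : Nontrivial V := hI.1
  letI : DivisionRing (CF A B) := DivisionRing.ofIsUnitOrEqZero (CF.isUnit_or hI)
  have cA : ∀ (c : CF A B) (w : V), A (c • w) = c • A w := CF.commA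
  have cB : ∀ (c : CF A B) (w : V), B (c • w) = c • B w := CF.commB
  haveI : Module.Finite (CF A B) V := Module.Finite.of_restrictScalars_finite K _ V
  have hrec : Rec (CF A B) A B v (fun n : ℕ => τ n) a x := rec_of_pb hp cA cB
  have hmul := Module.finrank_mul_finrank K (CF A B) V
  rw [hdim] at hmul
  have hv0 : v 0 ≠ 0 := hp.ne_zero (by exact_mod_cast Nat.pos_of_ne_zero hn0)
  have hd2 : 2 ≤ Module.finrank K (CF A B) := by
    let g' : CF A B := ⟨g, mem_CF hgA hgB⟩
    have hli : LinearIndependent K ![(1 : CF A B), g'] := by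
      rw [LinearIndependent.pair_iff]
      intro s t hst
      have e : s • v 0 + t • g (v 0) = 0 := by
        have := congrArg (fun c : CF A B => (c : Module.End K V) (v 0)) hst
        simpa using this
      by_cases ht : t = 0
      · rw [ht, zero_smul, add_zero] at e
        exact ⟨(smul_eq_zero.1 e).resolve_right hv0, ht⟩
      · exfalso
        apply hg (-(t⁻¹ * s))
        have : t • g (v 0) = -(s • v 0) := by linear_combination (norm := module) e
        have h2 := congrArg (fun w => t⁻¹ • w) this
        simp only [smul_smul, smul_neg, inv_mul_cancel₀ ht, one_smul] at h2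
        rw [h2, neg_smul]
    have := hli.fintype_card_le_finrank
    simpa using this
  have hm0 : 0 < Module.finrank (CF A B) V := Module.finrank_pos
  obtain ⟨k, hk⟩ : ∃ k, Module.finrank (CF A B) V = k + 1 :=
    ⟨Module.finrank (CF A B) V - 1, by omega⟩
  have hle : 2 * (k + 1) ≤ n0 := by
    rw [← hmul, hk]
    exact Nat.mul_le_mul_right _ hd2
  have finish : (∀ i : Fin (Module.finrank (CF A B) V),
      hrec.bas.repr (v (k + 1)) i ≠ 0 → (i : ℕ) = k) →
      ((∀ i j : ℕ, i < j → j < n0 → τ i = τ j → i + j + 1 = n0) ∨
        ∃ M : ℕ, MinPer τ M ∧ k + 1 < M) → TIII n0 τ a x := by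
    intro hJ hx
    obtain ⟨c1, c2, c3, c4⟩ := core_corner hp h hrec hconst hk (by omega) hJ
    exact ⟨k, by omega, c1, c3, c4 (by omega), hx⟩
  rcases hcase with hsym | ⟨M, s, hM, hs, hs', hT, hMn⟩
  · left
    refine finish ?_ (Or.inl hsym)
    intro i hi
    have hi2 := i.2
    have e := hrec.repr_eig (hrec.rB (k + 1)) i hi
    have := hsym i (k + 1) (by omega) (by omega) e
    omega
  · by_cases hkM : k + 1 < M
    · left
      exact finish (hJ_special hp h hrec hM hs hs' hk (by omega) hkM) (Or.inr ⟨M, hM, hkM⟩)
    · right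
      -- `dim V = M`
      have hMn0 : M < n0 := by omega
      obtain ⟨T0, hT0, hT1, hT2⟩ := hT hMn0
      have hkM2 : k + 1 = M := by
        by_contra hne
        have hlt : M < k + 1 := by omega
        -- `v M` is an `F`-combination of the previous vectors
        have hli := hrec.basis.1
        have hz : aeval A T0 ∈ CF A B := mem_CF (commute_aeval (Commute.refl A) T0) hT2
        have hbig : v M ∈ Submodule.span (CF A B) (v '' {j | j < M}) := by
          have e1 : aeval A T0 (v 0) - v M ∈ Submodule.span (CF A B) (v '' {j | j < M}) := by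
            have hdeg : ∀ g : K[X], g.natDegree < M →
                aeval A g (v 0) ∈ Submodule.span (CF A B) (v '' {j | j < M}) := by
              intro g hg
              rw [aeval_eq_sum_range, LinearMap.sum_apply]
              refine Submodule.sum_mem _ fun i hi => ?_
              rw [Finset.mem_range] at hi
              rw [LinearMap.smul_apply, ← algebraMap_smul (CF A B) (g.coeff i)]
              apply Submodule.smul_mem
              have h1 := hp.pow_apply i
              have h2 : (A ^ i) (v 0) = ((A ^ i) (v 0) - v i) + v i := by abel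
              rw [h2]
              refine Submodule.add_mem _ ?_ (Submodule.subset_span ⟨i, by
                simp only [Set.mem_ofPred_eq]; omega, rfl⟩)
              have h3 : Submodule.span K (v '' {k | k < i}) ≤
                  (Submodule.span (CF A B) (v '' {j | j < M})).restrictScalars K := by
                rw [Submodule.span_le]
                rintro _ ⟨j, hj, rfl⟩
                simp only [Set.mem_ofPred_eq] at hj
                exact Submodule.subset_span ⟨j, by simp only [Set.mem_ofPred_eq]; omega, rfl⟩
              exact h3 h1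
            have hPM := PP_monic a x M
            have e2 : aeval A T0 (v 0) - v M = aeval A (T0 - PP a x M) (v 0) := by
              rw [map_sub, LinearMap.sub_apply, hp.PP_apply]
            rw [e2]
            by_cases hz0 : T0 - PP a x M = 0
            · rw [hz0]; simp
            · apply hdeg
              have := degree_sub_lt_left (p := T0) (q := PP a x M) (by
                rw [degree_eq_natDegree hT0.ne_zero, degree_eq_natDegree hPM.1.ne_zero, hT1, hPM.2])
                hT0.ne_zero (by rw [hT0.leadingCoeff, hPM.1.leadingCoeff])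
              have := natDegree_lt_natDegree hz0 this
              rwa [hT1] at this
          have e3 : aeval A T0 (v 0) ∈ Submodule.span (CF A B) (v '' {j | j < M}) := by
            have : aeval A T0 (v 0) = (⟨_, hz⟩ : CF A B) • v 0 := rfl
            rw [this]
            exact Submodule.smul_mem _ _ (Submodule.subset_span ⟨0, hM.pos, rfl⟩)
          have e4 : v M = aeval A T0 (v 0) - (aeval A T0 (v 0) - v M) := by abel
          rw [e4]
          exact Submodule.sub_mem _ e3 e1
        have htop := hrec.span_top hbig
        have : Module.finrank (CF A B) V ≤ M := by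
          classical
          rw [← finrank_top (CF A B) V, ← htop]
          have h1 : v '' {j | j < M} = ((Finset.range M).image v : Finset V) := by
            ext w; simp
          rw [h1]
          exact (finrank_span_finset_le_card _).trans
            (Finset.card_image_le.trans (Finset.card_range M).le)
        omega
      rw [hk, hkM2] at hmul
      refine ⟨M, Module.finrank K (CF A B), hM, by rw [← hmul, mul_comm], hd2, ?_⟩
      intro T hTm hTd hTB
      let z : CF A B := ⟨aeval A T, mem_CF (commute_aeval (Commute.refl A) T) hTB⟩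
      haveI : Module.Finite K (CF A B) := inferInstance
      have hint : IsIntegral K z := IsIntegral.of_finite K z
      have hirr := minpoly.irreducible hint
      have hfm := minpoly.monic hint
      have hzf : aeval (aeval A T) (minpoly K z) = 0 := by
        have h1 := minpoly.aeval K z
        have h2 := congrArg (fun c : CF A B => (c : Module.End K V)) h1
        have h3 := Polynomial.aeval_algHom_apply (CF A B).val z (minpoly K z)
        rw [h1, map_zero] at h3
        exact h3
      have hcomp : aeval A ((minpoly K z).comp T) (v 0) = 0 := by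
        rw [aeval_comp, hzf]; rfl
      have hNm := PP_monic a x n0
      have hdvd : PP a x n0 ∣ (minpoly K z).comp T := by
        rw [← modByMonic_eq_zero_iff_dvd hNm.1]
        by_contra hne
        apply hp.aeval_ne_zero hne
        · have := natDegree_modByMonic_lt ((minpoly K z).comp T) hNm.1 (by
            intro h1
            have := hNm.2
            rw [h1, natDegree_one] at this
            exact hn0 this.symm)
          rw [hNm.2] at this
          exact_mod_cast this
        · have e := modByMonic_add_div ((minpoly K z).comp T) (PP a x n0)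
          have e2 : (minpoly K z).comp T %ₘ PP a x n0 =
              (minpoly K z).comp T - ((minpoly K z).comp T /ₘ PP a x n0) * PP a x n0 := by
            linear_combination e
          rw [e2, map_sub, map_mul, LinearMap.sub_apply, Module.End.mul_apply, hcomp,
            hp.PP_apply, hp.zero n0 le_rfl, map_zero, sub_zero]
      have hcm : ((minpoly K z).comp T).Monic := hfm.comp hTm (by rw [hTd]; exact hM.pos.ne')
      have hcd : ((minpoly K z).comp T).natDegree = (minpoly K z).natDegree * M := by
        rw [natDegree_comp, hTd]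
      have hge : n0 ≤ (minpoly K z).natDegree * M := by
        have := natDegree_le_of_dvd hdvd hcm.ne_zero
        rwa [hNm.2, hcd] at this
      have hdeg : (minpoly K z).natDegree = Module.finrank K (CF A B) := by
        apply le_antisymm (minpoly.natDegree_le z)
        rw [← hmul] at hge
        exact Nat.le_of_mul_le_mul_right hge hM.pos
      have heq : PP a x n0 = (minpoly K z).comp T := by
        have := eq_leadingCoeff_mul_of_monic_of_dvd_of_natDegree_le hNm.1 hdvd (by
          rw [hcd, hNm.2, hdeg, hmul])
        rw [hcm.leadingCoeff, C_1, one_mul] at this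
        exact this.symm
      refine ⟨minpoly K z, hirr, hfm, hdeg, heq, ?_⟩
      intro q hq
      let q' : CF A B := ⟨aeval A q, mem_CF (commute_aeval (Commute.refl A) q) hq⟩
      have hli := linearIndependent_pow (K := K) z
      haveI : Nonempty (Fin (minpoly K z).natDegree) := ⟨⟨0, by omega⟩⟩
      have hsp := hli.span_eq_top_of_card_eq_finrank (by rw [Fintype.card_fin, hdeg])
      have hq' : q' ∈ Submodule.span K (Set.range fun i : Fin (minpoly K z).natDegree =>
          z ^ (i : ℕ)) := by rw [hsp]; trivial
      rw [Submodule.mem_span_range_iff_exists_fun] at hq'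
      obtain ⟨c, hc⟩ := hq'
      refine ⟨∑ i, C (c i) * X ^ (i : ℕ), ?_, ?_⟩
      · rw [← hdeg]
        have hpos : 0 < (minpoly K z).natDegree := by omega
        apply lt_of_le_of_lt (natDegree_sum_le_of_forall_le (n := (minpoly K z).natDegree - 1) _ _
          ?_) (by omega)
        intro i _
        refine (natDegree_C_mul_X_pow_le _ _).trans ?_
        have := i.2
        omega
      · have e1 := congrArg (fun c : CF A B => (c : Module.End K V) (v 0)) hc
        have e2 : ((∑ i, c i • z ^ (i : ℕ) : CF A B) : Module.End K V) =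
            aeval A ((∑ i, C (c i) * X ^ (i : ℕ)).comp T) := by
          rw [aeval_comp, map_sum, AddSubmonoidClass.coe_finsetSum]
          refine Finset.sum_congr rfl fun i _ => ?_
          rw [map_mul, map_pow, aeval_C, aeval_X]
          change c i • (aeval A T) ^ (i : ℕ) = _
          rw [Algebra.smul_def]
        rw [← e2]
        exact e1.symm

/-- the last vector is singular with the parameters of the first -/
theorem sg_end (hp : PB A B (n0 : ℕ∞) v (fun n : ℕ => τ n) a x) (hn : 2 ≤ n0)
    (hc : Cen τ ((n0 : ℤ) - 1)) (ha : a (n0 - 1) = a 0) :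
    Sg A B (τ 0) (τ 1) (a 0) (aeval A (PP a x (n0 - 1)) (v 0)) := by
  rw [hp.PP_apply]
  obtain ⟨m, rfl⟩ : ∃ m, n0 = m + 2 := ⟨n0 - 2, by omega⟩
  simp only [show m + 2 - 1 = m + 1 by omega] at *
  push_cast at hc
  constructor
  · rw [hp.hB]
    congr 1
    exact hc.at (by push_cast; ring)
  · have e : A (v (m + 1)) - a 0 • v (m + 1) = x (m + 1) • v m := by
      rw [hp.hA, ha, hp.zero (m + 1 + 1) (by push_cast; exact le_of_eq (by ring)),
        Nat.add_sub_cancel]
      module
    rw [e, map_smul, hp.hB, smul_comm]
    congr 1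
    exact hc.at (by ring)

theorem a_end_eq (h : TSys p (n0 : ℕ∞) τ a x) (hn : 0 < n0)
    (hc : Cen τ ((n0 : ℤ) - 1)) (h1 : τ 0 ≠ τ (-1)) (h2 : τ 0 ≠ τ 1) : a (n0 - 1) = a 0 := by
  refine h.a_eq (m := 0) (n := n0 - 1) (by exact_mod_cast hn) (by exact_mod_cast (by omega)) ?_
    (Or.inr ⟨?_, ?_⟩) (by simpa using h1) (by simpa using h2)
  · exact hc.at (by push_cast; omega)
  · exact hc.at (by push_cast; omega)
  · exact hc.at (by push_cast; omega)

/-- the possible windows of an irreducible module with repeated eigenvalues -/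
inductive Cases (n0 : ℕ) (τ : ℤ → K) (a x : ℕ → K) : Prop
  | II (h : ∀ i < n0, τ i = τ 0)
  | III (k : ℕ) (hk : 1 ≤ k) (hn : n0 = 2 * (k + 1)) (hτ : τ k = τ (k + 1))
      (hd : ∀ i j : ℕ, i < j → j ≤ k → τ i ≠ τ j) (ha : a (n0 - 1) = a 0)
      (hr : ∀ r : K, (r - a k) * (r - a (k + 1)) ≠ x (k + 1))
  | IVa (h3 : 3 ≤ n0) (hM : MinPer τ n0) (hs : Cen τ 0 ∨ Cen τ (-2) ∨
      (Cen τ (-1) ∧ a 0 ≠ a (n0 - 1)))
  | IVb (M d : ℕ) (s : ℤ) (f : K[X]) (h2 : 2 ≤ M) (hd2 : 2 ≤ d) (hn : n0 = M * d)
      (hM : MinPer τ M) (hs : Cen τ s)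
      (hs' : s = 0 ∨ (s = -1 ∧ a 0 ≠ a (n0 - 1)) ∨ (s = -2 ∧ ¬ Cen τ 0))
      (hf : Irreducible f) (hfm : f.Monic) (hfd : f.natDegree = d)
      (hP : PP a x n0 = f.comp (TT a x s M))

theorem nec_sym (hp : PB A B (n0 : ℕ∞) v (fun n : ℕ => τ n) a x) (h : TSys p (n0 : ℕ∞) τ a x)
    (h1 : AW1 p A B) (hI : Irr A B) (hn : 2 ≤ n0) (hconst : ¬ Per τ 1)
    (hsym : ∀ i j : ℕ, i < j → j < n0 → τ i = τ j → i + j + 1 = n0)
    (hc : Cen τ ((n0 : ℤ) - 1)) (h0 : τ 0 ≠ τ (-1)) : Cases n0 τ a x := by
  by_cases hn2 : n0 = 2
  · subst hn2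
    apply Cases.II
    intro i hi
    rcases (by omega : i = 0 ∨ i = 1) with rfl | rfl
    · simp
    · exact hc.at (by norm_num)
  · have h01 : τ 0 ≠ τ 1 := by
      intro h0
      have := hsym 0 1 (by omega) (by omega) (by simpa using h0)
      omega
    have ha := a_end_eq h (by omega) hc h0 h01
    have hsg := sg_end hp hn hc ha
    have hcom := comm_of_sg h1 hp.exists_poly (m := τ 0) (n := τ 1) (c := a 0)
      ⟨by rw [hp.hB]; simp, by
        have e : A (v 0) - a 0 • v 0 = v 1 := by rw [hp.hA, h.x0]; module
        rw [e, hp.hB]; simp⟩ hsg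
    have hg : ∀ r : K, aeval A (PP a x (n0 - 1)) (v 0) ≠ r • v 0 := by
      intro r hr
      rw [hp.PP_apply] at hr
      obtain ⟨φ, hφ⟩ := hp.exists_coord (m := n0 - 1) (by exact_mod_cast (by omega))
      have := congrArg φ hr
      rw [map_smul, hφ, hφ, if_pos rfl, if_neg (by omega)] at this
      simp at this
    rcases nec_core hp h (by omega) hI hconst (commute_aeval (Commute.refl A) _) hcom hg
      (Or.inl hsym) with hT | ⟨M, d, hM, hnd, hd2, -⟩
    · obtain ⟨k, k1, k2, k3, k4, k5⟩ := hT
      refine Cases.III k (by omega) k1 k2 ?_ ha k3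
      intro i j hij hjk he
      have := hsym i j hij (by omega) he
      omega
    · exfalso
      have hMp := hM.pos
      have hMn : M < n0 := by rw [hnd]; nlinarith
      have h3 := hsym 0 M hMp hMn (hM.per.at (by simp)).symm
      have h4 : M * 2 ≤ M * d := Nat.mul_le_mul_left _ hd2
      have h5 : M = 1 := by omega
      subst h5
      exact hconst (by simpa using hM.per)

/-- necessary conditions -/
theorem nec (hp : PB A B (n0 : ℕ∞) v (fun n : ℕ => τ n) a x) (h : TSys p (n0 : ℕ∞) τ a x)
    (h1 : AW1 p A B) (hI : Irr A B) {i j : ℕ} (hij : i < j) (hj : j < n0) (he : τ i = τ j) :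
    Cases n0 τ a x := by
  by_cases hconst : Per τ 1
  · exact Cases.II fun i _ => hconst.const _ _
  by_cases hr : TSys.Reg τ
  · have hsym : ∀ i j : ℕ, i < j → j < n0 → τ i = τ j → i + j + 1 = n0 :=
      fun i j hij hj he => (h.reg_sym rfl hr hij hj he).1
    have hc := (h.reg_sym rfl hr hij hj he).2
    exact nec_sym hp h h1 hI (by omega) hconst hsym hc (TSys.Reg.ne h.tau hr).1.symm
  · obtain ⟨s, hs, hs'⟩ : ∃ s : ℤ, Cen τ s ∧ (s = 0 ∨ s = -1 ∨ (s = -2 ∧ ¬ Cen τ 0)) := by
      by_cases c0 : Cen τ 0
      · exact ⟨0, c0, Or.inl rfl⟩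
      by_cases c1 : Cen τ (-1)
      · exact ⟨-1, c1, Or.inr (Or.inl rfl)⟩
      · refine ⟨-2, ?_, Or.inr (Or.inr ⟨rfl, c0⟩)⟩
        by_contra c2
        exact hr ⟨c0, c1, c2⟩
    have hs'' : s = 0 ∨ s = -1 ∨ s = -2 := by
      rcases hs' with h2 | h2 | h2
      · exact Or.inl h2
      · exact Or.inr (Or.inl h2)
      · exact Or.inr (Or.inr h2.1)
    obtain ⟨M, hM⟩ : ∃ M, MinPer τ M := by
      rcases h.tau.cen_or_per he with hc | hc
      · have h2 := hs.per hc
        obtain ⟨q, hq⟩ : ∃ q : ℕ, (q : ℤ) = i + j - s := ⟨(i + j - s).toNat, by omega⟩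
        rw [← hq] at h2
        exact exists_minPer (by omega) h2
      · obtain ⟨q, hq⟩ : ∃ q : ℕ, (q : ℤ) = j - i := ⟨j - i, by omega⟩
        rw [← hq] at hc
        exact exists_minPer (by omega) hc
    have hM1 : M ≠ 1 := by
      rintro rfl
      exact hconst (by simpa using hM.per)
    have hMp := hM.pos
    have t01 : s = 0 ∨ s = -1 → τ 0 ≠ τ 1 := by
      intro h2 h0
      apply hconst
      rcases h2 with rfl | rfl
      · exact h.tau.per_one_of (n := 0) (by
          have : τ (-1) = τ 1 := hs.at (by ring)
          simp [this, h0]) (by simpa using h0)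
      · exact h.tau.per_one_of (n := 0) (by
          have : τ (-1) = τ 0 := hs.at (by ring)
          simpa using this) (by simpa using h0)
    have sg0 : Sg A B (τ 0) (τ 1) (a 0) (v 0) :=
      ⟨by rw [hp.hB]; simp, by
        have e : A (v 0) - a 0 • v 0 = v 1 := by rw [hp.hA, h.x0]; module
        rw [e, hp.hB]; simp⟩
    -- distinctness in the first half, given `k + 1 < M`
    have dist : ∀ k : ℕ, τ k = τ (k + 1) → k + 1 < M →
        (2 * k + 1 - s = M) ∧ ∀ i j : ℕ, i < j → j ≤ k → τ i ≠ τ j := by
      intro k hk hkM
      obtain ⟨q, hq⟩ := hM.cen_dvd hs (h.tau.cen_corner hk)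
      have hMp' : (0 : ℤ) < M := by exact_mod_cast hMp
      have q1 : 0 < q := by
        by_contra hcon
        have : (M : ℤ) * q ≤ 0 := mul_nonpos_of_nonneg_of_nonpos hMp'.le (by omega)
        omega
      have q2 : q < 2 := by
        by_contra hcon
        have : (M : ℤ) * 2 ≤ M * q := mul_le_mul_of_nonneg_left (by omega) hMp'.le
        omega
      have q3 : q = 1 := by omega
      rw [q3, mul_one] at hq
      refine ⟨hq, ?_⟩
      intro i j hij hjk he
      rcases hM.coinc h.tau hs he with hd | hd
      · have := Int.le_of_dvd (by omega) hd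
        omega
      · have := Int.le_of_dvd (by omega) hd
        omega
    rcases Nat.lt_trichotomy n0 M with hlt | heq | hgt
    · rcases h.spec_small rfl hM hs hs'' hlt.le hij hj he with h2 | ⟨h2, h3, h4⟩
      · omega
      · subst h2
        have hc : Cen τ ((n0 : ℤ) - 1) := by
          have := hs.add hM.per
          rwa [← h3, show -2 + ((n0 + 1 : ℕ) : ℤ) = (n0 : ℤ) - 1 by push_cast; ring] at this
        have h0 : τ 0 ≠ τ (-1) := by
          intro h0
          have c1 : Cen τ (-1) := h.tau.cen_of (i := -1) (j := 0) (by ring) h0.symm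
            (by norm_num; exact h0)
          have := hs.per c1
          exact hconst (by simpa using this)
        exact nec_sym hp h h1 hI (by omega) hconst h4 hc h0
    · -- `n0 = M`
      subst heq
      have hn3 : 3 ≤ n0 := by
        by_contra hcon
        have h2 : n0 = 2 := by omega
        subst h2
        have h3 : i = 0 ∧ j = 1 := by omega
        obtain ⟨rfl, rfl⟩ := h3
        apply hconst
        have : τ (-1) = τ 1 := (hM.per.at (by norm_num)).symm
        exact h.tau.per_one_of (n := 0) (by
          simp only [zero_sub]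
          rw [this]; simpa using he.symm) (by simpa using he)
      rcases hs' with rfl | rfl | ⟨rfl, -⟩
      · exact Cases.IVa hn3 hM (Or.inl hs)
      · by_cases ha : a (n0 - 1) = a 0
        · have hc : Cen τ ((n0 : ℤ) - 1) := by
            have := hs.add hM.per
            rwa [show -1 + (n0 : ℤ) = (n0 : ℤ) - 1 by ring] at this
          have hsg := sg_end hp (by omega) hc ha
          have hcom := comm_of_sg h1 hp.exists_poly sg0 hsg
          have hg : ∀ r : K, aeval A (PP a x (n0 - 1)) (v 0) ≠ r • v 0 := by
            intro r hr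
            rw [hp.PP_apply] at hr
            obtain ⟨φ, hφ⟩ := hp.exists_coord (m := n0 - 1) (by exact_mod_cast (by omega))
            have := congrArg φ hr
            rw [map_smul, hφ, hφ, if_pos rfl, if_neg (by omega)] at this
            simp at this
          rcases nec_core hp h (by omega) hI hconst (commute_aeval (Commute.refl A) _) hcom hg
            (Or.inr ⟨n0, -1, hM, hs, Or.inr (Or.inl rfl), fun h => absurd h (lt_irrefl _),
              le_rfl⟩) with hT | ⟨M', d, hM', hnd, hd2, -⟩
          · obtain ⟨k, k1, k2, k3, k4, k5⟩ := hT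
            obtain ⟨-, d2⟩ := dist k k2 (by omega)
            exact Cases.III k (by omega) k1 k2 d2 ha k3
          · exfalso
            have hdv : (n0 : ℤ) ∣ (M' : ℤ) := hM.dvd _ hM'.per
            have h3 := Int.le_of_dvd (by exact_mod_cast hM'.pos) hdv
            have h4 := hM'.pos
            have h5 : n0 ≤ M' := by exact_mod_cast h3
            nlinarith
        · exact Cases.IVa hn3 hM (Or.inr (Or.inr ⟨hs, fun h => ha h.symm⟩))
      · exact Cases.IVa hn3 hM (Or.inr (Or.inl hs))
    · -- `M < n0`
      have hTm := TT_monic a x s (M := M) (Or.inr (Or.inr (by omega)))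
      have hTs := sg_TT hp h hMp (by exact_mod_cast hgt) hM.per hconst hs hs'
      have hTc := comm_of_sg h1 hp.exists_poly sg0 hTs
      have hg : ∀ r : K, aeval A (TT a x s M) (v 0) ≠ r • v 0 := by
        intro r hr
        have hne : TT a x s M - C r ≠ 0 := by
          intro h0
          have := congrArg natDegree (sub_eq_zero.1 h0)
          rw [hTm.2, natDegree_C] at this
          omega
        apply hp.aeval_ne_zero hne
        · rw [natDegree_sub_C, hTm.2]
          exact_mod_cast hgt
        · rw [map_sub, aeval_C, LinearMap.sub_apply, Module.algebraMap_end_apply, hr, sub_self]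
      rcases nec_core hp h (by omega) hI hconst (commute_aeval (Commute.refl A) _) hTc hg
        (Or.inr ⟨M, s, hM, hs, hs'', fun _ => ⟨_, hTm.1, hTm.2, hTc⟩, hgt.le⟩) with
        hT | ⟨M', d, hM', hnd, hd2, hf⟩
      · obtain ⟨k, k1, k2, k3, k4, k5⟩ := hT
        have hkM : k + 1 < M := by
          rcases k5 with k5 | ⟨M', hM', hkM'⟩
          · have h3 := k5 0 M hMp hgt (hM.per.at (by simp)).symm
            omega
          · have hdv : (M : ℤ) ∣ (M' : ℤ) := hM.dvd _ hM'.per
            have hdv' : (M' : ℤ) ∣ (M : ℤ) := hM'.dvd _ hM.per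
            have := Int.le_of_dvd (by exact_mod_cast hM'.pos) hdv
            have := Int.le_of_dvd (by exact_mod_cast hMp) hdv'
            omega
        obtain ⟨d1, d2⟩ := dist k k2 hkM
        have hs0 : s = 0 := by omega
        subst hs0
        have h01 := t01 (Or.inl rfl)
        have hc : Cen τ ((n0 : ℤ) - 1) := by
          have := h.tau.cen_corner k2
          rwa [show 2 * (k : ℤ) + 1 = (n0 : ℤ) - 1 by omega] at this
        have ha := a_end_eq h (by omega) hc (by
          rw [show τ (-1) = τ 1 from hs.at (by ring)]; exact h01) h01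
        exact Cases.III k (by omega) k1 k2 d2 ha k3
      · have hMM : M' = M := by
          have hdv : (M : ℤ) ∣ (M' : ℤ) := hM.dvd _ hM'.per
          have hdv' : (M' : ℤ) ∣ (M : ℤ) := hM'.dvd _ hM.per
          have := Int.le_of_dvd (by exact_mod_cast hM'.pos) hdv
          have := Int.le_of_dvd (by exact_mod_cast hMp) hdv'
          omega
        subst hMM
        obtain ⟨f, f1, f2, f3, f4, f5⟩ := hf _ hTm.1 hTm.2 hTc
        refine Cases.IVb M' d s f (by omega) hd2 hnd hM hs ?_ f1 f2 f3 f4
        rcases hs' with rfl | rfl | hs'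
        · exact Or.inl rfl
        · right; left
          refine ⟨rfl, fun ha => ?_⟩
          have hc : Cen τ ((n0 : ℤ) - 1) := by
            have := hs.add (hM.per.nsmul d)
            rwa [show -1 + (d : ℤ) * M' = (n0 : ℤ) - 1 by rw [hnd]; push_cast; ring] at this
          have hsg := sg_end hp (by omega) hc ha.symm
          have hcom := comm_of_sg h1 hp.exists_poly sg0 hsg
          obtain ⟨g', g1, g2⟩ := f5 _ hcom
          have hM3 : 3 ≤ M' := by
            by_contra hcon
            have : M' = 2 := by omega
            subst this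
            apply t01 (Or.inr rfl)
            rw [← show τ (-1) = τ 0 from hs.at (by ring)]
            exact (hM.per.at (by norm_num)).symm
          have hdeg : (g'.comp (TT a x (-1) M')).natDegree < n0 - 1 := by
            rw [natDegree_comp, hTm.2]
            have h3 : g'.natDegree * M' ≤ (d - 1) * M' := Nat.mul_le_mul_right _ (by omega)
            have h4 : (d - 1) * M' = n0 - M' := by
              rw [hnd, Nat.sub_mul, one_mul, mul_comm d M']
            omega
          have hPd := PP_monic a x (n0 - 1)
          have hne : PP a x (n0 - 1) - g'.comp (TT a x (-1) M') ≠ 0 := by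
            intro h0
            have := congrArg natDegree (sub_eq_zero.1 h0)
            rw [hPd.2] at this
            omega
          apply hp.aeval_ne_zero hne
          · rw [natDegree_sub_eq_left_of_natDegree_lt (by rw [hPd.2]; exact hdeg), hPd.2]
            exact_mod_cast (by omega)
          · rw [map_sub, LinearMap.sub_apply, g2, sub_self]
        · exact Or.inr (Or.inr hs')

end Pool.Agent.TH10.AW
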