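import Pool.Agent.TH10.AW.FB
import Pool.Agent.TH10.AW.Comb
import Pool.Agent.TH10.AW.Iso

/-! Sufficient conditions for irreducibility when eigenvalues are repeated. -/

set_option autoImplicit false
set_option linter.unusedSectionVars false

namespace Pool.Agent.TH10.AW

open Polynomial

variable {K : Type*} [Field K] {p : Scal K}
variable {V : Type*} [AddCommGroup V] [Module K V]
variable {A B : Module.End K V}

section F

variable {F : Type*} [DivisionRing F] [Algebra K F] [Module F V] [IsScalarTower K F V]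

theorem rec_of_pb {N : ℕ∞} {v : ℕ → V} {θ a x : ℕ → K} (h : PB A B N v θ a x)
    (cA : ∀ (c : F) (w : V), A (c • w) = c • A w) (cB : ∀ (c : F) (w : V), B (c • w) = c • B w) :
    Rec F A B v θ a x := by
  refine ⟨cA, cB, h.hA, h.hB, ?_⟩
  rw [eq_top_iff]
  intro w _
  have hw : w ∈ Submodule.span K (Set.range v) := by rw [h.sp]; trivial
  induction hw using Submodule.span_induction with
  | mem w hw => exact Submodule.subset_span hw
  | zero => exact Submodule.zero_mem _
  | add w w' _ _ hw hw' => exact Submodule.add_mem _ (hw trivial) (hw' trivial)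
  | smul c w _ hw =>
    rw [← algebraMap_smul F c]
    exact Submodule.smul_mem _ _ (hw trivial)

/-- an operator commuting with `F`, as an `F`-linear map -/
def toF (A : Module.End K V) (cA : ∀ (c : F) (w : V), A (c • w) = c • A w) : V →ₗ[F] V :=
  { toFun := A, map_add' := A.map_add, map_smul' := cA }

/-- the operator induced on a quotient -/
def quotOp (A : Module.End K V) (cA : ∀ (c : F) (w : V), A (c • w) = c • A w)
    (W : Submodule F V) (hA : ∀ w ∈ W, A w ∈ W) : Module.End K (V ⧸ W) :=
  (W.mapQ W (toF A cA) hA).restrictScalars K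

theorem quotOp_mk (A : Module.End K V) (cA : ∀ (c : F) (w : V), A (c • w) = c • A w)
    (W : Submodule F V) (hA : ∀ w ∈ W, A w ∈ W) (w : V) :
    quotOp A cA W hA (W.mkQ w) = W.mkQ (A w) := rfl

theorem Rec.quot {u : ℕ → V} {θ a x : ℕ → K} (h : Rec F A B u θ a x) (W : Submodule F V)
    (hA : ∀ w ∈ W, A w ∈ W) (hB : ∀ w ∈ W, B w ∈ W) :
    Rec F (quotOp A h.cA W hA) (quotOp B h.cB W hB) (fun n => W.mkQ (u n)) θ a x := by
  have hsm : ∀ (c : K) (w : V), W.mkQ (c • w) = c • W.mkQ w := fun c w => rfl
  refine ⟨?_, ?_, ?_, ?_, ?_⟩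
  · intro c w
    exact (W.mapQ W (toF A h.cA) hA).map_smul c w
  · intro c w
    exact (W.mapQ W (toF B h.cB) hB).map_smul c w
  · intro n
    rw [quotOp_mk, h.rA, map_add, map_add, hsm, hsm]
  · intro n
    rw [quotOp_mk, h.rB, hsm]
  · rw [show Set.range (fun n => W.mkQ (u n)) = W.mkQ '' Set.range u from Set.range_comp _ _,
      ← Submodule.map_span, h.sp, Submodule.map_top, Submodule.range_mkQ]

/-- an eigenvector must involve one of the first `m = dim_F V` vectors -/
theorem Rec.exists_index [Module.Finite F V] {u : ℕ → V} {θ a x : ℕ → K}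
    (h : Rec F A B u θ a x) {w : V} {m : K} (hw0 : w ≠ 0) (hw : B w = m • w) :
    ∃ i : ℕ, i < Module.finrank F V ∧ θ i = m := by
  by_contra hcon
  push Not at hcon
  apply hw0
  apply h.bas.repr.injective
  ext i
  rw [map_zero, Finsupp.zero_apply]
  by_contra hi
  exact hcon i i.2 (h.repr_eig hw i hi)

/-- eigenvectors for distinct eigenvalues -/
theorem eig_zero {w1 w2 : V} {m1 m2 : K} (h1 : B w1 = m1 • w1) (h2 : B w2 = m2 • w2)
    (hm : m1 ≠ m2) (hw : w1 + w2 = 0) : w1 = 0 := by
  have := (sep_two (W := (⊥ : Submodule K V)) (B := B) (by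
    intro w hw
    rw [Submodule.mem_bot] at hw ⊢
    rw [hw, map_zero]) h1 h2 hm (by rw [hw]; exact Submodule.zero_mem _)).1
  exact (Submodule.mem_bot K).1 this

/-- The windows of length a multiple of the period with special ends have no proper invariant
`F`-subspace, if `dim_F V` is the period. -/
theorem suff_aux [Module.Finite F V] {n0 : ℕ} {v : ℕ → V} {a x : ℕ → K} {τ : ℤ → K}
    (hp : PB A B (n0 : ℕ∞) v (fun n : ℕ => τ n) a x) (h : TSys p (n0 : ℕ∞) τ a x)
    (cA : ∀ (c : F) (w : V), A (c • w) = c • A w) (cB : ∀ (c : F) (w : V), B (c • w) = c • B w)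
    {M : ℕ} (hM : MinPer τ M) (hn0 : n0 ≠ 0) (hdvd : M ∣ n0) (hfin : Module.finrank F V ≤ M)
    (hs : Cen τ 0 ∨ Cen τ (-2) ∨ (Cen τ (-1) ∧ a 0 ≠ a (n0 - 1)))
    (W : Submodule F V) (hA : ∀ w ∈ W, A w ∈ W) (hB : ∀ w ∈ W, B w ∈ W) : W = ⊥ ∨ W = ⊤ := by
  by_cases hW : W = ⊤
  · exact Or.inr hW
  left
  have hrec := rec_of_pb hp cA cB
  have hrev := rec_of_pb (hp.rev hn0) cA cB
  have hq := hrec.quot W hA hB
  have hqr := hrev.quot W hA hB
  have hadd := Submodule.finrank_quotient_add_finrank W
  -- nontrivial quotient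
  have : Nontrivial (V ⧸ W) := Submodule.Quotient.nontrivial_iff.2 hW
  have hm1 : 0 < Module.finrank F (V ⧸ W) := Module.finrank_pos
  obtain ⟨d, rfl⟩ := hdvd
  have hd : 0 < d := Nat.pos_of_ne_zero fun h0 => hn0 (by rw [h0, mul_zero])
  have hMp := hM.pos
  have hend : ∀ i : ℤ, τ (((M * d : ℕ) : ℤ) + i) = τ i := by
    intro i
    have := hM.per.nsmul d
    exact this.at (by push_cast; ring)
  have hMd : 1 ≤ M * d := Nat.mul_pos hMp hd
  have key : ¬ Module.finrank F (V ⧸ W) < M := by
    intro hlt
    -- first vectors of the two bases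
    have f0 : W.mkQ (v 0) ≠ 0 := by
      have := hq.bas.ne_zero ⟨0, hm1⟩
      rwa [hq.bas_apply] at this
    have fe : W.mkQ (v (M * d - 1)) ≠ 0 := by
      have := hqr.bas.ne_zero ⟨0, hm1⟩
      rw [hqr.bas_apply] at this
      simpa using this
    have e0 := hq.rB 0
    have ee := hqr.rB 0
    simp only [Finset.prod_range_zero, one_smul, Nat.sub_zero, Nat.cast_zero] at e0 ee
    have hlast : τ ((M * d - 1 : ℕ) : ℤ) = τ (-1) := by
      rw [← hend (-1)]
      congr 1
      omega
    rcases hs with hs | hs | ⟨hs, ha⟩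
    · -- mirror at the first vertex: the eigenvalue `τ 0` does not occur at the other end
      obtain ⟨i, hi, hi2⟩ := hqr.exists_index f0 e0
      have e1 : τ ((M * d - 1 - i : ℕ) : ℤ) = τ (1 + i) := by
        by_cases hi3 : i ≤ M * d - 1
        · rw [← hend (1 + i), show ((M * d - 1 - i : ℕ) : ℤ) = ((M * d : ℕ) : ℤ) + (-1 - i) by
            omega, hend, hend]
          exact hs.at (by ring)
        · exfalso
          have : M ≤ M * d := Nat.le_mul_of_pos_right M hd
          omega
      rw [e1] at hi2
      rcases hM.coinc h.tau hs hi2 with hd1 | hd1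
      · have := Int.le_of_dvd (a := (M : ℤ)) (b := 1 + i) (by omega) (by
          have := (dvd_neg (a := (M : ℤ))).2 hd1
          rwa [show -(0 - (1 + (i : ℤ))) = 1 + i by ring] at this)
        omega
      · have := Int.le_of_dvd (a := (M : ℤ)) (b := 1 + i) (by omega) (by
          rwa [show 1 + (i : ℤ) + 0 - 0 = 1 + i by ring] at hd1)
        omega
    · -- mirror before the first vertex
      obtain ⟨i, hi, hi2⟩ := hq.exists_index fe ee
      simp only [hlast] at hi2
      rcases hM.coinc h.tau hs hi2 with hd1 | hd1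
      · have := Int.le_of_dvd (a := (M : ℤ)) (b := 1 + i) (by omega) (by
          have := (dvd_neg (a := (M : ℤ))).2 hd1
          rwa [show -(-1 - (i : ℤ)) = 1 + i by ring] at this)
        omega
      · have := Int.le_of_dvd (a := (M : ℤ)) (b := 1 + i) (by omega) (by
          rwa [show (i : ℤ) + -1 - -2 = 1 + i by ring] at hd1)
        omega
    · -- corner at the start
      have t_1 : τ (-1) = τ 0 := hs.at (by ring)
      have t_2 : τ (-2) = τ 1 := hs.at (by ring)
      have hsc : (W.mkQ (v (M * d - 1))) = (hq.bas.repr (W.mkQ (v (M * d - 1))) ⟨0, hm1⟩) •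
          W.mkQ (v 0) := by
        apply hq.bas.repr.injective
        ext i
        rw [map_smul, Finsupp.smul_apply, smul_eq_mul]
        have : W.mkQ (v 0) = hq.bas ⟨0, hm1⟩ := (hq.bas_apply ⟨0, hm1⟩).symm
        rw [this, Module.Basis.repr_self, Finsupp.single_apply]
        split_ifs with hi
        · rw [hi, mul_one]
        · rw [mul_zero]
          by_contra hne
          have hi2 := hq.repr_eig ee i hne
          simp only [hlast, t_1] at hi2
          have hi0 : (i : ℕ) ≠ 0 := fun h0 => hi (Fin.ext h0.symm)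
          rcases hM.coinc h.tau hs hi2 with hd1 | hd1
          · have := Int.le_of_dvd (a := (M : ℤ)) (b := i) (by omega) (by
              have := (dvd_neg (a := (M : ℤ))).2 hd1
              rwa [show -(0 - (i : ℤ)) = i by ring] at this)
            omega
          · have := Int.le_of_dvd (a := (M : ℤ)) (b := 1 + i) (by omega) (by
              rwa [show (i : ℤ) + 0 - -1 = 1 + i by ring] at hd1)
            omega
      generalize hq.bas.repr (W.mkQ (v (M * d - 1))) ⟨0, hm1⟩ = e at hsc
      have he : e ≠ 0 := by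
        rintro rfl
        rw [zero_smul] at hsc
        exact fe hsc
      have hM2 : 2 ≤ M := by
        by_contra hcon
        have : M = 1 := by omega
        rw [this] at hlt
        omega
      have h01 : τ 0 ≠ τ 1 := by
        intro h0
        have h1 : Per τ 1 := h.tau.per_one_of (n := 0) (by simpa using t_1) (by simpa using h0)
        have := Int.le_of_dvd (by norm_num) (hM.dvd 1 h1)
        omega
      -- apply `A`
      have g1 := hqr.rA 0
      have g0 := hq.rA 0
      simp only [Finset.prod_range_zero, one_smul, Nat.sub_zero] at g1 g0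
      have hxN : x (M * d) = 0 := h.xN _ le_rfl
      rw [hxN, zero_smul, add_zero] at g1
      rw [h.x0, zero_smul, add_zero] at g0
      have g2 : quotOp A cA W hA (W.mkQ (v (M * d - 1))) =
          e • quotOp A cA W hA (W.mkQ (v 0)) := by
        conv_lhs => rw [hsc]
        exact hq.cA _ _
      rw [g1, g0] at g2
      -- the component with eigenvalue `τ 0`
      have b1 := hqr.rB 1
      have b0 := hq.rB 1
      simp only [Nat.cast_one, zero_add] at b1 b0
      have hl1 : τ ((M * d - 1 - 1 : ℕ) : ℤ) = τ 1 := by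
        rw [← t_2, ← hend (-2)]
        congr 1
        have : M ≤ M * d := Nat.le_mul_of_pos_right M hd
        omega
      rw [hl1] at b1
      have hz := eig_zero (B := quotOp B cB W hB)
        (w1 := (a (M * d - 1) - a 0) • W.mkQ (v (M * d - 1)))
        (w2 := W.mkQ ((∏ j ∈ Finset.range (0 + 1), x (M * d - 1 - j)) • v (M * d - 1 - (0 + 1))) -
          e • W.mkQ (v (0 + 1))) (m1 := τ 0) (m2 := τ 1)
        (by
          have := ee
          rw [hlast, t_1] at this
          rw [map_smul, this, smul_comm])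
        (by
          rw [map_sub, smul_sub, hq.cB]
          simp only [zero_add]
          rw [b1, b0, smul_comm e (τ 1)])
        h01
        (by
          have h3 : e • a 0 • W.mkQ (v 0) = a 0 • W.mkQ (v (M * d - 1)) := by
            rw [hsc, smul_comm]
          rw [smul_add, h3] at g2
          rw [sub_smul, sub_add_sub_comm]
          rw [add_comm (a (M * d - 1) • _), g2, add_comm (a 0 • _), sub_self])
      rcases smul_eq_zero.1 hz with h4 | h4
      · exact ha (sub_eq_zero.1 h4).symm
      · exact fe h4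
  have : Module.finrank F W = 0 := by omega
  exact Submodule.finrank_eq_zero.1 this

end F

/-- irreducibility: window of length exactly the least period -/
theorem irr_IVa {n0 : ℕ} {v : ℕ → V} {a x : ℕ → K} {τ : ℤ → K}
    (hp : PB A B (n0 : ℕ∞) v (fun n : ℕ => τ n) a x) (h : TSys p (n0 : ℕ∞) τ a x)
    (hM : MinPer τ n0) (hfin : Module.finrank K V ≤ n0) [Module.Finite K V]
    (hs : Cen τ 0 ∨ Cen τ (-2) ∨ (Cen τ (-1) ∧ a 0 ≠ a (n0 - 1))) : Irr A B := by
  have h0 : n0 ≠ 0 := hM.pos.ne'
  refine ⟨⟨⟨v 0, 0, hp.ne_zero (by exact_mod_cast hM.pos)⟩⟩, fun W hA hB => ?_⟩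
  exact suff_aux (F := K) hp h (fun c w => A.map_smul c w) (fun c w => B.map_smul c w) hM h0
    (dvd_refl _) hfin hs W hA hB

end Pool.Agent.TH10.AW
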