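import Pool.Agent.TH10.AW.Nec

/-! Irreducibility of the modules of types II and III, and the irreducibility criterion. -/

set_option autoImplicit false
set_option linter.unusedSectionVars false
set_option linter.style.haveILetI false

namespace Pool.Agent.TH10.AW

open Polynomial

variable {K : Type*} [Field K] {p : Scal K}
variable {V : Type*} [AddCommGroup V] [Module K V]
variable {A B : Module.End K V}
variable {n0 : ℕ} {v : ℕ → V} {a x : ℕ → K} {τ : ℤ → K}

theorem PB.aeval_PP_zero {θ : ℕ → K} (hp : PB A B (n0 : ℕ∞) v θ a x) :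
    aeval A (PP a x n0) = 0 := by
  apply LinearMap.ext
  intro w
  obtain ⟨f, rfl⟩ := hp.exists_poly w
  rw [← Module.End.mul_apply, ← map_mul, mul_comm, map_mul, Module.End.mul_apply, hp.PP_apply,
    hp.zero n0 le_rfl, map_zero, LinearMap.zero_apply]

theorem aeval_mem {W : Submodule K V} (hA : ∀ w ∈ W, A w ∈ W) (g : K[X]) :
    ∀ w ∈ W, aeval A g w ∈ W := by
  induction g using Polynomial.induction_on' with
  | add h h' i i' =>
    intro w hw
    rw [map_add, LinearMap.add_apply]
    exact W.add_mem (i w hw) (i' w hw)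
  | monomial n c =>
    intro w hw
    rw [aeval_monomial, Module.End.mul_apply, Module.algebraMap_end_apply]
    apply W.smul_mem
    induction n with
    | zero => simpa using hw
    | succ n ih =>
      rw [pow_succ', Module.End.mul_apply]
      exact hA _ ih

theorem irr_II {θ : ℕ → K} (hp : PB A B (n0 : ℕ∞) v θ a x) (hn0 : 0 < n0)
    (hirr : Irreducible (PP a x n0)) : Irr A B := by
  refine ⟨⟨⟨v 0, 0, hp.ne_zero (by exact_mod_cast hn0)⟩⟩, fun W hA _ => ?_⟩
  by_cases hW : W = ⊥
  · exact Or.inl hW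
  right
  obtain ⟨w, hw, hw0⟩ := Submodule.exists_mem_ne_zero_of_ne_bot hW
  obtain ⟨G, rfl⟩ := hp.exists_poly w
  have hnd : ¬ PP a x n0 ∣ G := by
    rintro ⟨H, rfl⟩
    apply hw0
    rw [map_mul, hp.aeval_PP_zero, zero_mul, LinearMap.zero_apply]
  obtain ⟨s, t, hst⟩ := (hirr.coprime_iff_not_dvd.2 hnd)
  apply hp.top_of_mem hA
  have e : aeval A t (aeval A G (v 0)) = v 0 := by
    have h1 := congrArg (fun g => aeval A g (v 0)) hst
    simp only [map_add, map_mul, hp.aeval_PP_zero, mul_zero, zero_add, map_one,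
      Module.End.mul_apply, Module.End.one_apply] at h1
    exact h1
  rw [← e]
  exact aeval_mem hA t _ hw

theorem irreducible_of_irr {θ : ℕ → K} (hp : PB A B (n0 : ℕ∞) v θ a x) (hn0 : 0 < n0)
    (hI : Irr A B) (hB : ∀ i < n0, θ i = θ 0) : Irreducible (PP a x n0) := by
  have hBs : ∀ w, B w = θ 0 • w := by
    intro w
    have : B = θ 0 • (1 : Module.End K V) := by
      apply ext_on_v hp
      intro n hn
      rw [hp.hB, LinearMap.smul_apply, Module.End.one_apply, hB n (by exact_mod_cast hn)]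
    rw [this]; simp
  have hm := PP_monic a x n0
  refine ⟨fun hu => ?_, fun G H hGH => ?_⟩
  · have := natDegree_eq_zero_of_isUnit hu
    rw [hm.2] at this
    omega
  · by_contra hcon
    push Not at hcon
    have hG0 : G ≠ 0 := by
      rintro rfl
      rw [zero_mul] at hGH
      exact hm.1.ne_zero hGH
    have hH0 : H ≠ 0 := by
      rintro rfl
      rw [mul_zero] at hGH
      exact hm.1.ne_zero hGH
    have hdG : 0 < G.natDegree := by
      rw [Nat.pos_iff_ne_zero]
      intro h0
      exact hcon.1 (by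
        rw [eq_C_of_natDegree_eq_zero h0] at hG0 ⊢
        exact isUnit_C.2 (isUnit_iff_ne_zero.2 fun h => hG0 (by rw [h, C_0])))
    have hdH : 0 < H.natDegree := by
      rw [Nat.pos_iff_ne_zero]
      intro h0
      exact hcon.2 (by
        rw [eq_C_of_natDegree_eq_zero h0] at hH0 ⊢
        exact isUnit_C.2 (isUnit_iff_ne_zero.2 fun h => hH0 (by rw [h, C_0])))
    have hdeg : G.natDegree + H.natDegree = n0 := by
      rw [← natDegree_mul hG0 hH0, ← hGH, hm.2]
    have hw := hp.aeval_ne_zero hG0 (by exact_mod_cast (by omega))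
    rcases hI.2 (Cyc A (aeval A G (v 0))) (Cyc.stable_A A _) (fun w hw => by
      rw [hBs]; exact Submodule.smul_mem _ _ hw) with h1 | h1
    · exact hw ((Submodule.eq_bot_iff _).1 h1 _ (Cyc.self_mem A _))
    · obtain ⟨u, hu⟩ := Cyc.exists_poly (A := A) (g := aeval A G (v 0)) (w := v 0)
        (by rw [h1]; trivial)
      apply hp.aeval_ne_zero hH0 (by exact_mod_cast (by omega))
      rw [← hu, ← Module.End.mul_apply, ← Module.End.mul_apply, ← map_mul, ← map_mul,
        show H * u * G = u * (G * H) by ring, ← hGH, map_mul, hp.aeval_PP_zero, mul_zero,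
        LinearMap.zero_apply]

/-- separating three eigencomponents -/
theorem sep_three {W : Submodule K V} (hB : ∀ w ∈ W, B w ∈ W) {w1 w2 w3 : V} {m1 m2 m3 : K}
    (h1 : B w1 = m1 • w1) (h2 : B w2 = m2 • w2) (h3 : B w3 = m3 • w3) (h12 : m1 ≠ m2)
    (h13 : m1 ≠ m3) (h23 : m2 ≠ m3) (hw : w1 + w2 + w3 ∈ W) : w1 ∈ W ∧ w2 ∈ W ∧ w3 ∈ W := by
  have e1 : B (w1 + w2 + w3) - m3 • (w1 + w2 + w3) ∈ W :=
    W.sub_mem (hB _ hw) (W.smul_mem _ hw)
  have e2 : B (w1 + w2 + w3) - m3 • (w1 + w2 + w3) = (m1 - m3) • w1 + (m2 - m3) • w2 := by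
    rw [map_add, map_add, h1, h2, h3]; module
  rw [e2] at e1
  obtain ⟨f1, f2⟩ := sep_two hB (m1 := m1) (m2 := m2) (by rw [map_smul, h1, smul_comm])
    (by rw [map_smul, h2, smul_comm]) h12 e1
  have g1 := (W.smul_mem_iff (sub_ne_zero.2 h13)).1 f1
  have g2 := (W.smul_mem_iff (sub_ne_zero.2 h23)).1 f2
  refine ⟨g1, g2, ?_⟩
  have := W.sub_mem (W.sub_mem hw g1) g2
  have e : w1 + w2 + w3 - w1 - w2 = w3 := by abel
  rwa [e] at this

theorem irr_III (hp : PB A B (n0 : ℕ∞) v (fun n : ℕ => τ n) a x) (h : TSys p (n0 : ℕ∞) τ a x)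
    {k : ℕ} (hn : n0 = 2 * (k + 1)) (hτ : τ k = τ (k + 1))
    (hd : ∀ i j : ℕ, i < j → j ≤ k → τ i ≠ τ j)
    (hr : ∀ r : K, (r - a k) * (r - a (k + 1)) ≠ x (k + 1)) : Irr A B := by
  have hcen : Cen τ ((n0 : ℤ) - 1) := by
    have := h.tau.cen_corner hτ
    rwa [show 2 * (k : ℤ) + 1 = (n0 : ℤ) - 1 by rw [hn]; push_cast; ring] at this
  have hd' : ∀ i j : ℕ, i ≤ k → j ≤ k → τ i = τ j → i = j := by
    intro i j hi hj he
    rcases Nat.lt_trichotomy i j with h1 | h1 | h1
    · exact absurd he (hd i j h1 hj)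
    · exact h1
    · exact absurd he.symm (hd j i h1 hi)
  refine ⟨⟨⟨v 0, 0, hp.ne_zero (by exact_mod_cast (by omega : 0 < n0))⟩⟩, fun W hA hB => ?_⟩
  by_cases hW : W = ⊥
  · exact Or.inl hW
  right
  -- a vector of `W` in one of the two-dimensional eigenspaces
  have start : ∃ j, j ≤ k ∧ ∃ α β : K, (α ≠ 0 ∨ β ≠ 0) ∧ α • v j + β • v (n0 - 1 - j) ∈ W := by
    obtain ⟨w, hw, hw0, j', hj', -, hsupp⟩ := hp.exists_eig W hW hB
    have hj'n : j' < n0 := by exact_mod_cast hj'
    obtain ⟨j, hj, hjj⟩ : ∃ j, j ≤ k ∧ τ j = τ j' := by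
      by_cases h1 : j' ≤ k
      · exact ⟨j', h1, rfl⟩
      · exact ⟨n0 - 1 - j', by omega, hcen.at (by omega)⟩
    have hjn : j < n0 := by omega
    have hjn' : n0 - 1 - j < n0 := by omega
    refine ⟨j, hj, hp.basis.repr w ⟨j, by exact_mod_cast hjn⟩,
      hp.basis.repr w ⟨n0 - 1 - j, by exact_mod_cast hjn'⟩, ?_⟩
    have hw' : hp.basis.repr w ⟨j, by exact_mod_cast hjn⟩ • v j +
        hp.basis.repr w ⟨n0 - 1 - j, by exact_mod_cast hjn'⟩ • v (n0 - 1 - j) = w := by
      apply hp.basis.repr.injective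
      ext i
      have e1 : v j = hp.basis ⟨j, by exact_mod_cast hjn⟩ :=
        (hp.basis_apply ⟨j, by exact_mod_cast hjn⟩).symm
      have e2 : v (n0 - 1 - j) = hp.basis ⟨n0 - 1 - j, by exact_mod_cast hjn'⟩ :=
        (hp.basis_apply ⟨n0 - 1 - j, by exact_mod_cast hjn'⟩).symm
      rw [e1, e2, map_add, map_smul, map_smul, Finsupp.add_apply, Finsupp.smul_apply,
        Finsupp.smul_apply, Module.Basis.repr_self, Module.Basis.repr_self,
        Finsupp.single_apply, Finsupp.single_apply]
      have hi2 : (i : ℕ) < n0 := by exact_mod_cast i.2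
      by_cases h1 : (i : ℕ) = j
      · have e3 : (⟨j, by exact_mod_cast hjn⟩ : {i : ℕ // (i : ℕ∞) < (n0 : ℕ∞)}) = i :=
          Subtype.ext h1.symm
        rw [if_pos e3, if_neg (by
          intro h0
          have := congrArg Subtype.val h0
          simp only at this
          omega), e3]
        simp
      · by_cases h2 : (i : ℕ) = n0 - 1 - j
        · have e3 : (⟨n0 - 1 - j, by exact_mod_cast hjn'⟩ :
              {i : ℕ // (i : ℕ∞) < (n0 : ℕ∞)}) = i := Subtype.ext h2.symm
          rw [if_neg (by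
            intro h0
            have := congrArg Subtype.val h0
            simp only at this
            omega), if_pos e3, e3]
          simp
        · rw [if_neg (fun h0 => h1 (congrArg Subtype.val h0).symm),
            if_neg (fun h0 => h2 (congrArg Subtype.val h0).symm)]
          by_contra hne
          have h3 : hp.basis.repr w i ≠ 0 := fun h0 => hne (by rw [h0]; simp)
          have h4 := hsupp i h3
          rw [← hjj] at h4
          by_cases h5 : (i : ℕ) ≤ k
          · exact h1 (hd' _ _ h5 hj h4)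
          · have h6 : τ ((n0 - 1 - (i : ℕ) : ℕ) : ℤ) = τ j := by
              rw [← h4]; exact hcen.at (by omega)
            have := hd' _ _ (by omega) hj h6
            omega
    refine ⟨?_, by rw [hw']; exact hw⟩
    by_contra hcon
    push Not at hcon
    rw [hcon.1, hcon.2, zero_smul, zero_smul, add_zero] at hw'
    exact hw0 hw'.symm
  -- move up
  have up : ∀ j, j < k → (∃ α β : K, (α ≠ 0 ∨ β ≠ 0) ∧ α • v j + β • v (n0 - 1 - j) ∈ W) →
      ∃ α β : K, (α ≠ 0 ∨ β ≠ 0) ∧ α • v (j + 1) + β • v (n0 - 1 - (j + 1)) ∈ W := by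
    rintro j hj ⟨α, β, hαβ, hw⟩
    refine ⟨α, β * x (n0 - 1 - j), ?_, ?_⟩
    · rcases hαβ with h1 | h1
      · exact Or.inl h1
      · right
        exact mul_ne_zero h1 (h.xne _ (by omega) (by exact_mod_cast (by omega)))
    · have e1 := hA _ hw
      have e2 : A (α • v j + β • v (n0 - 1 - j)) =
          (α • v (j + 1) + (β * x (n0 - 1 - j)) • v (n0 - 1 - (j + 1))) +
          ((α * a j) • v j + (β * a (n0 - 1 - j)) • v (n0 - 1 - j)) +
          ((α * x j) • v (j - 1) + β • v (n0 - j)) := by
        rw [map_add, map_smul, map_smul, hp.hA, hp.hA, show n0 - 1 - j + 1 = n0 - j by omega,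
          show n0 - 1 - (j + 1) = n0 - 1 - j - 1 by omega]
        module
      rw [e2] at e1
      have b1 : B (α • v (j + 1) + (β * x (n0 - 1 - j)) • v (n0 - 1 - (j + 1))) =
          τ (j + 1) • (α • v (j + 1) + (β * x (n0 - 1 - j)) • v (n0 - 1 - (j + 1))) := by
        have t1 : τ ((n0 - 1 - (j + 1) : ℕ) : ℤ) = τ (j + 1) := hcen.at (by omega)
        rw [map_add, map_smul, map_smul, hp.hB, hp.hB, t1]
        push_cast
        module
      have b2 : B ((α * a j) • v j + (β * a (n0 - 1 - j)) • v (n0 - 1 - j)) =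
          τ j • ((α * a j) • v j + (β * a (n0 - 1 - j)) • v (n0 - 1 - j)) := by
        have t1 : τ ((n0 - 1 - j : ℕ) : ℤ) = τ j := hcen.at (by omega)
        rw [map_add, map_smul, map_smul, hp.hB, hp.hB, t1]
        module
      have n1 : τ (j + 1) ≠ τ j := by
        have := hd j (j + 1) (by omega) (by omega)
        push_cast at this
        exact this.symm
      rcases j with _ | j
      · have hz : (α * x 0) • v (0 - 1) + β • v (n0 - 0) = 0 := by
          rw [h.x0, Nat.sub_zero, hp.zero n0 le_rfl]; simp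
        rw [hz, add_zero] at e1
        exact (sep_two hB b1 b2 (by simpa using n1) e1).1
      · have b3 : B ((α * x (j + 1)) • v (j + 1 - 1) + β • v (n0 - (j + 1))) =
            τ j • ((α * x (j + 1)) • v (j + 1 - 1) + β • v (n0 - (j + 1))) := by
          have t1 : τ ((n0 - (j + 1) : ℕ) : ℤ) = τ j := hcen.at (by omega)
          rw [map_add, map_smul, map_smul, hp.hB, hp.hB, t1, Nat.add_sub_cancel]
          module
        have n2 : τ (((j + 1 : ℕ) : ℤ) + 1) ≠ τ j := by
          have := hd j (j + 2) (by omega) (by omega)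
          push_cast at this ⊢
          rw [show (j : ℤ) + 1 + 1 = j + 2 by ring]
          exact this.symm
        have n3 : τ ((j + 1 : ℕ) : ℤ) ≠ τ j := (hd j (j + 1) (by omega) (by omega)).symm
        exact (sep_three hB b1 b2 b3 n1 n2 n3 e1).1
  have atk : ∃ α β : K, (α ≠ 0 ∨ β ≠ 0) ∧ α • v k + β • v (k + 1) ∈ W := by
    obtain ⟨j, hj, hw⟩ := start
    have key : ∀ m, j + m ≤ k → ∃ α β : K, (α ≠ 0 ∨ β ≠ 0) ∧
        α • v (j + m) + β • v (n0 - 1 - (j + m)) ∈ W := by
      intro m
      induction m with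
      | zero => intro _; exact hw
      | succ m ih =>
        intro hm
        have := up (j + m) (by omega) (ih (by omega))
        rwa [add_assoc] at this
    obtain ⟨α, β, h1, h2⟩ := key (k - j) (by omega)
    refine ⟨α, β, h1, ?_⟩
    rwa [show j + (k - j) = k by omega, show n0 - 1 - k = k + 1 by omega] at h2
  obtain ⟨α, β, hαβ, hw⟩ := atk
  have hk2 : τ (k + 2) = τ (k - 1) := (h.tau.cen_corner hτ).at (by ring)
  have hw' : (α * a k + β * x (k + 1)) • v k + (α + β * a (k + 1)) • v (k + 1) ∈ W := by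
    have e1 := hA _ hw
    have e2 : A (α • v k + β • v (k + 1)) =
        ((α * a k + β * x (k + 1)) • v k + (α + β * a (k + 1)) • v (k + 1)) +
        ((α * x k) • v (k - 1) + β • v (k + 2)) := by
      rw [map_add, map_smul, map_smul, hp.hA, hp.hA, Nat.add_sub_cancel]
      module
    rw [e2] at e1
    rcases k with _ | k
    · have hz : (α * x 0) • v (0 - 1) + β • v (0 + 2) = 0 := by
        rw [h.x0, hp.zero (0 + 2) (by rw [hn])]; simp
      rwa [hz, add_zero] at e1
    · refine (sep_two hB (m1 := τ ((k + 1 : ℕ) : ℤ)) (m2 := τ k) ?_ ?_ ?_ e1).1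
      · rw [map_add, map_smul, map_smul, hp.hB, hp.hB, hτ]
        push_cast
        module
      · have t2 : τ ((k + 1 + 2 : ℕ) : ℤ) = τ k := by
          have := hk2
          push_cast at this ⊢
          rw [this, show (k : ℤ) + 1 - 1 = k by ring]
        rw [map_add, map_smul, map_smul, hp.hB, hp.hB, t2, Nat.add_sub_cancel]
        module
      · exact (hd k (k + 1) (by omega) le_rfl).symm
  have hdet : α ^ 2 + α * β * (a (k + 1) - a k) - β ^ 2 * x (k + 1) ≠ 0 := by
    intro h0
    by_cases hβ : β = 0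
    · rw [hβ] at h0
      have hα : α = 0 := by
        have : α ^ 2 = 0 := by linear_combination h0
        exact pow_eq_zero_iff (two_ne_zero) |>.1 this
      rcases hαβ with h1 | h1
      · exact h1 hα
      · exact h1 hβ
    · apply hr (α / β + a (k + 1))
      field_simp
      linear_combination h0
  have hvk : v k ∈ W := by
    have e : (α + β * a (k + 1)) • (α • v k + β • v (k + 1)) -
        β • ((α * a k + β * x (k + 1)) • v k + (α + β * a (k + 1)) • v (k + 1)) =
        (α ^ 2 + α * β * (a (k + 1) - a k) - β ^ 2 * x (k + 1)) • v k := by module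
    have h1 := W.sub_mem (W.smul_mem (α + β * a (k + 1)) hw) (W.smul_mem β hw')
    rw [e] at h1
    exact (W.smul_mem_iff hdet).1 h1
  have down : ∀ j, j ≤ k → v j ∈ W → v 0 ∈ W := by
    intro j
    induction j with
    | zero => intro _ h; exact h
    | succ j ih =>
      intro hj hv
      apply ih (by omega)
      have e1 : v (j + 2) + x (j + 1) • v j ∈ W := by
        have e2 : v (j + 2) + x (j + 1) • v j = A (v (j + 1)) - a (j + 1) • v (j + 1) := by
          rw [hp.hA]; simp only [Nat.add_sub_cancel]; module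
        rw [e2]
        exact W.sub_mem (hA _ hv) (W.smul_mem _ hv)
      have ne : τ ((j + 2 : ℕ) : ℤ) ≠ τ j := by
        by_cases h1 : j + 2 ≤ k
        · exact (hd j (j + 2) (by omega) h1).symm
        · have h2 : j + 1 = k := by omega
          have h3 : τ ((j + 2 : ℕ) : ℤ) = τ k := by
            rw [hτ, ← h2]; push_cast
            rw [show (j : ℤ) + 1 + 1 = j + 2 by ring]
          rw [h3]
          exact (hd j k (by omega) le_rfl).symm
      have e3 := (sep_two hB (hp.hB (j + 2)) (m2 := τ j) (by rw [map_smul, hp.hB, smul_comm])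
        ne e1).2
      exact (W.smul_mem_iff (h.xne (j + 1) (by omega) (by exact_mod_cast (by omega)))).1 e3
  exact hp.top_of_mem hA (down k le_rfl hvk)

theorem Sg.start (hp : PB A B (n0 : ℕ∞) v (fun n : ℕ => τ n) a x) :
    Sg A B (τ 0) (τ 1) (a 0) (v 0) :=
  ⟨by rw [hp.hB]; simp, by
    have e : A (v 0) - a 0 • v 0 = v 1 := by rw [hp.hA, hp.x0]; module
    rw [e, hp.hB]; simp⟩

/-- The irreducibility criterion for finite windows with a repeated eigenvalue. -/
theorem irr_iff_cases (hp : PB A B (n0 : ℕ∞) v (fun n : ℕ => τ n) a x)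
    (h : TSys p (n0 : ℕ∞) τ a x) (h1 : AW1 p A B) {i j : ℕ} (hij : i < j) (hj : j < n0)
    (he : τ i = τ j) :
    Irr A B ↔ (Cases n0 τ a x ∧ ((∀ i < n0, τ i = τ 0) → Irreducible (PP a x n0))) := by
  constructor
  · intro hI
    exact ⟨nec hp h h1 hI hij hj he, fun hB => irreducible_of_irr hp (by omega) hI (by
      intro i hi
      simpa using hB i hi)⟩
  · rintro ⟨hc, h2⟩
    cases hc with
    | II h3 => exact irr_II hp (by omega) (h2 h3)
    | III k hk hn hτ hd ha hr => exact irr_III hp h hn hτ hd hr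
    | IVa h3 hM hs =>
      haveI := hp.finite
      exact irr_IVa hp h hM hp.finrank_eq.le hs
    | IVb M d s f h2 hd2 hn hM hs hs' hf hfm hfd hP =>
      have hconst : ¬ Per τ 1 := by
        intro hc
        have := Int.le_of_dvd (by norm_num) (hM.dvd 1 hc)
        omega
      have hMn : M < n0 := by rw [hn]; nlinarith
      have hsg := sg_TT hp h hM.pos (by exact_mod_cast hMn) hM.per hconst hs (by
        rcases hs' with h | h | h
        · exact Or.inl h
        · exact Or.inr (Or.inl h.1)
        · exact Or.inr (Or.inr h))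
      have hcom := comm_of_sg h1 hp.exists_poly (Sg.start hp) hsg
      refine irr_IVb hp h hM (by omega) hn hf hfd hcom (by rw [← hP]; exact hp.aeval_PP_zero) ?_
      rcases hs' with rfl | ⟨rfl, ha⟩ | ⟨rfl, -⟩
      · exact Or.inl hs
      · exact Or.inr (Or.inr ⟨hs, ha⟩)
      · exact Or.inr (Or.inl hs)

end Pool.Agent.TH10.AW
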