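import Pool.Agent.TH10.AW.Defs

/-! Eigenvalue sequences, their periods and centres of symmetry. -/

set_option autoImplicit false

namespace Pool.Agent.TH10.AW

variable {K : Type*} [Field K]

/-- `τ (n+1) + τ (n-1) = β τ n + γ*` for all integers `n`, and `P (τ 0) (τ 1) = 0`. -/
structure IsTau (p : Scal K) (τ : ℤ → K) : Prop where
  recur : ∀ n : ℤ, τ (n + 1) + τ (n - 1) = p.β * τ n + p.γs
  P0 : p.P (τ 0) (τ 1) = 0

/-- `c` is twice a centre of symmetry of `τ` -/
def Cen (τ : ℤ → K) (c : ℤ) : Prop := ∀ k, τ (c - k) = τ k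

/-- `M` is a period of `τ` -/
def Per (τ : ℤ → K) (M : ℤ) : Prop := ∀ k, τ (k + M) = τ k

/-- `M` is the least positive period -/
structure MinPer (τ : ℤ → K) (M : ℕ) : Prop where
  pos : 0 < M
  per : Per τ M
  dvd : ∀ k : ℤ, Per τ k → (M : ℤ) ∣ k

end Pool.Agent.TH10.AW
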