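import Pool.Agent.TH10.AW.Tau

/-! The system in terms of the two-sided eigenvalue sequence, and the Casimir value. -/

set_option autoImplicit false

namespace Pool.Agent.TH10.AW

variable {K : Type*} [Field K] {p : Scal K}

/-- The system satisfied by the entries, in terms of the two-sided sequence `τ`. -/
structure TSys (p : Scal K) (N : ℕ∞) (τ : ℤ → K) (a x : ℕ → K) : Prop where
  tau : IsTau p τ
  A : ∀ n : ℕ, (n : ℕ∞) < N → (τ n - τ (n - 1)) * (τ n - τ (n + 1)) * a n = p.u (τ n)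
  D : ∀ n : ℕ, ((n + 1 : ℕ) : ℕ∞) < N →
    (τ n - τ (n - 1)) * a n - (τ (n + 2) - τ (n + 1)) * a (n + 1) =
      p.γ * (τ n + τ (n + 1)) + p.ω
  E : ∀ n : ℕ, (n : ℕ∞) < N →
    (τ n - τ (n - 2)) * x n - (τ (n + 2) - τ n) * x (n + 1) = p.S (τ n) (a n)
  x0 : x 0 = 0
  xN : ∀ n : ℕ, N ≤ n → x n = 0
  xne : ∀ n : ℕ, 0 < n → (n : ℕ∞) < N → x n ≠ 0

theorem theta_eq {N : ℕ∞} {θ a x : ℕ → K} (hs : Sys p N θ a x) {τ : ℤ → K} (h : IsTau p τ)
    (h0 : τ 0 = θ 0) (h1 : τ 1 = θ 1) : ∀ n : ℕ, (n : ℕ∞) < N → τ n = θ n := by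
  intro n
  induction n using Nat.strong_induction_on with
  | _ n ih =>
    intro hn
    match n, ih, hn with
    | 0, _, _ => simpa using h0
    | 1, _, _ => simpa using h1
    | n + 2, ih, hn =>
      have e1 := ih n (by omega) (lt_of_add hn)
      have e2 := ih (n + 1) (by omega) (lt_of_add (m := 1) hn)
      have e3 := h.succ2 n
      have e4 := hs.s1 n hn
      push_cast at *
      rw [e3, e4, e1, e2]
      ring

theorem tsys_of_sys {N : ℕ∞} {θ a x : ℕ → K} (hs : Sys p N θ a x) {τ : ℤ → K}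
    (h : IsTau p τ) (hθ : ∀ n : ℕ, (n : ℕ∞) < N → τ n = θ n)
    (x0 : x 0 = 0) (xN : ∀ n : ℕ, N ≤ n → x n = 0)
    (xne : ∀ n : ℕ, 0 < n → (n : ℕ∞) < N → x n ≠ 0) : TSys p N τ a x := by
  refine ⟨h, ?_, ?_, ?_, x0, xN, xne⟩
  · intro n hn
    have := hs.s3 n hn
    rw [← hθ n hn, h.P_self] at this
    exact this
  · intro n hn
    have h4 := hs.s4 n hn
    rw [← hθ n (lt_of_add hn), ← hθ (n + 1) hn] at h4
    have e1 := h.recur n
    have e2 := h.succ2 n
    push_cast at h4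
    linear_combination h4 - a n * e1 + (-a (n + 1)) * e2
  · intro n hn
    have h5 := hs.s5 n hn
    rw [← hθ n hn] at h5
    have e1 := h.recur n
    have e2 := h.succ2 n
    have e3 := h.recur (n - 1)
    rw [show (n : ℤ) - 1 + 1 = n by ring, show (n : ℤ) - 1 - 1 = n - 2 by ring] at e3
    have k1 : θ (n - 1) * x n = τ (n - 1) * x n := by
      rcases n with _ | n
      · rw [x0]; simp
      · have := hθ n (lt_of_add hn)
        simp only [Nat.add_sub_cancel]
        rw [← this]; push_cast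
        rw [show (n : ℤ) + 1 - 1 = n by ring]
    have k2 : θ (n + 1) * x (n + 1) = τ (n + 1) * x (n + 1) := by
      by_cases hn1 : ((n + 1 : ℕ) : ℕ∞) < N
      · have := hθ (n + 1) hn1
        rw [← this]; push_cast; rfl
      · rw [xN (n + 1) (not_lt.1 hn1)]; simp
    unfold Scal.S
    rw [mul_add p.β, mul_add p.β, k1, k2] at h5
    linear_combination h5 - x n * e3 - x (n + 1) * e2

theorem sys_of_tsys {N : ℕ∞} {a x : ℕ → K} {τ : ℤ → K} (h : TSys p N τ a x) :
    Sys p N (fun n => τ n) a x := by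
  refine ⟨?_, ?_, ?_, ?_, ?_⟩
  · intro n _
    have := h.tau.succ2 n
    push_cast
    rw [this]; ring
  · intro n _
    have := h.tau.P_succ n
    push_cast
    exact this
  · intro n hn
    have := h.A n hn
    rw [h.tau.P_self]
    exact this
  · intro n hn
    have h4 := h.D n hn
    have e1 := h.tau.recur n
    have e2 := h.tau.succ2 n
    push_cast
    linear_combination h4 + a n * e1 + a (n + 1) * e2
  · intro n hn
    have h5 := h.E n hn
    have e1 := h.tau.recur n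
    have e2 := h.tau.succ2 n
    have e3 := h.tau.recur (n - 1)
    rw [show (n : ℤ) - 1 + 1 = n by ring, show (n : ℤ) - 1 - 1 = n - 2 by ring] at e3
    have k1 : τ ((n - 1 : ℕ) : ℤ) * x n = τ (n - 1) * x n := by
      rcases n with _ | n
      · rw [h.x0]; simp
      · simp only [Nat.add_sub_cancel]; push_cast
        rw [show (n : ℤ) + 1 - 1 = n by ring]
    unfold Scal.S at h5
    simp only [mul_add p.β, k1]
    push_cast
    linear_combination h5 + x n * e3 + x (n + 1) * e2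

namespace TSys

variable {N : ℕ∞} {τ : ℤ → K} {a x : ℕ → K} (h : TSys p N τ a x)

/-- `t n = (τ (n+1) - τ (n-1)) (τ n - τ (n-2)) x n` -/
def t (τ : ℤ → K) (x : ℕ → K) (n : ℕ) : K := (τ (n + 1) - τ (n - 1)) * (τ n - τ (n - 2)) * x n

include h

theorem t_succ {n : ℕ} (hn : (n : ℕ∞) < N) :
    t τ x (n + 1) = t τ x n - (τ (n + 1) - τ (n - 1)) * p.S (τ n) (a n) := by
  rw [← h.E n hn]
  unfold t
  push_cast
  rw [show (n : ℤ) + 1 + 1 = n + 2 by ring, show (n : ℤ) + 1 - 1 = n by ring,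
    show (n : ℤ) + 1 - 2 = n - 1 by ring]
  ring

omit h in
theorem phi_step (p : Scal K) {y z w s : K} (h1 : y ≠ z) (h2 : z ≠ w) (hsum : w + y = p.β * z + p.γs)
    (hs : (z - y) * (z - w) * s = p.u z) :
    p.Phi z w - p.Phi y z = -(w - y) * p.S z s := by
  have h1' : y - z ≠ 0 := sub_ne_zero.2 h1
  have h2' : z - w ≠ 0 := sub_ne_zero.2 h2
  have h3 : z - y ≠ 0 := sub_ne_zero.2 h1.symm
  have hs' : s = p.u z / ((z - y) * (z - w)) := by
    rw [eq_div_iff (mul_ne_zero h3 h2')]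
    linear_combination hs
  have hg : p.γs = w + y - p.β * z := by linear_combination -hsum
  have hS : p.S z s = p.ρ * z + p.η + (p.ω + 2 * p.γ * z) * s - (2 * z - y - w) * s ^ 2 := by
    unfold Scal.S
    rw [hg]; ring
  have e1 : p.Phi z w = (p.u z + (w - z) * (p.γ * z)) * (p.u z + (w - z) * (p.γ * z + p.ω)) /
      (z - w) ^ 2 - p.ρ * z * w - p.η * (z + w) := by
    unfold Scal.Phi Scal.u
    congr 3
    ring
  have e2 : p.Phi y z = (p.u z + (y - z) * (p.γ * z)) * (p.u z + (y - z) * (p.γ * z + p.ω)) /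
      (y - z) ^ 2 - p.ρ * y * z - p.η * (y + z) := by
    unfold Scal.Phi Scal.u
    congr 3
    ring
  rw [hS, hs', e1, e2]
  generalize p.u z = U
  field_simp
  ring

/-- the Casimir value is constant across an interior vertex -/
theorem kappa_step {n : ℕ} (hn : (n : ℕ∞) < N) (h1 : τ (n - 1) ≠ τ n) (h2 : τ n ≠ τ (n + 1)) :
    p.Phi (τ n) (τ (n + 1)) - t τ x (n + 1) = p.Phi (τ (n - 1)) (τ n) - t τ x n := by
  have e1 := phi_step p h1 h2 (h.tau.recur n) (h.A n hn)
  have e2 := h.t_succ hn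
  linear_combination e1 - e2

/-- the Casimir value is constant across a corner -/
theorem kappa_corner {n : ℕ} (hn : ((n + 1 : ℕ) : ℕ∞) < N) (h2 : τ n = τ (n + 1)) :
    p.Phi (τ (n + 1)) (τ (n + 2)) - t τ x (n + 2) = p.Phi (τ (n - 1)) (τ n) - t τ x n := by
  have h3 : τ (n + 2) = τ (n - 1) := by
    have := h.tau.refl_of (i := n) (j := n + 1) h2 (by rw [show (n : ℤ) + 1 - 1 = n by ring]; exact h2.symm) 2
    rw [this]; congr 1; ring
  have e0 := h.t_succ (lt_of_add hn)
  have e1 := h.t_succ (n := n + 1) hn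
  push_cast at e1
  rw [show (n : ℤ) + 1 + 1 = n + 2 by ring, show (n : ℤ) + 1 - 1 = n by ring] at e1
  have hD := h.D n hn
  rw [h3, ← h2] at hD
  have hsym : p.Phi (τ n) (τ (n - 1)) = p.Phi (τ (n - 1)) (τ n) := by
    unfold Scal.Phi
    rw [show (τ n - τ (n - 1)) ^ 2 = (τ (n - 1) - τ n) ^ 2 by ring]
    ring
  rw [h3, ← h2, hsym]
  rw [h3, ← h2] at e1
  rw [← h2] at e0
  have hr := h.tau.recur n
  rw [← h2] at hr
  have e2 : t τ x (n + 2) = t τ x n := by
    rw [e1, e0]
    unfold Scal.S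
    linear_combination (τ n - τ (n - 1)) * (a n - a (n + 1)) * hD
      + (τ n - τ (n - 1)) * (a n - a (n + 1)) * (a n + a (n + 1)) * hr
  rw [e2]

end TSys

end Pool.Agent.TH10.AW
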