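import Pool.Agent.TH10.AW.Coord
import Pool.Agent.TH10.AW.SymDef

/-! The eigenvalue sequence `τ : ℤ → K`. -/

set_option autoImplicit false

namespace Pool.Agent.TH10.AW

variable {K : Type*} [Field K] {p : Scal K}

namespace IsTau

variable {τ : ℤ → K} (h : IsTau p τ)
include h

theorem succ (n : ℤ) : τ (n + 1) = p.β * τ n + p.γs - τ (n - 1) := by
  linear_combination h.recur n

theorem succ2 (n : ℤ) : τ (n + 2) = p.β * τ (n + 1) + p.γs - τ n := by
  have := h.recur (n + 1)
  rw [show n + 1 + 1 = n + 2 by ring, show n + 1 - 1 = n by ring] at this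
  linear_combination this

theorem P_succ (n : ℤ) : p.P (τ n) (τ (n + 1)) = 0 := by
  induction n using Int.induction_on with
  | zero => simpa using h.P0
  | succ i ih =>
    have := h.recur (i + 1)
    rw [show (i : ℤ) + 1 - 1 = i by ring] at this
    unfold Scal.P at *
    linear_combination ih + (τ (i + 1 + 1) - τ i) * this
  | pred i ih =>
    have := h.recur (-(i : ℤ))
    rw [show -(i : ℤ) - 1 + 1 = -(i : ℤ) by ring]
    unfold Scal.P at *
    linear_combination ih - (τ (-(i : ℤ) + 1) - τ (-(i : ℤ) - 1)) * this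

/-- `P (τ n) y = (y - τ (n+1)) (y - τ (n-1))` -/
theorem P_eq (n : ℤ) (y : K) : p.P (τ n) y = (y - τ (n + 1)) * (y - τ (n - 1)) := by
  have h1 := h.recur n
  have h2 := h.P_succ n
  unfold Scal.P at *
  linear_combination h2 + (y - τ (n + 1)) * h1

theorem P_self (n : ℤ) : p.P (τ n) (τ n) = (τ n - τ (n - 1)) * (τ n - τ (n + 1)) := by
  rw [h.P_eq]; ring

/-- equality of two consecutive pairs propagates (translation) -/
theorem trans_of {i j : ℤ} (h0 : τ i = τ j) (h1 : τ (i + 1) = τ (j + 1)) (k : ℤ) :
    τ (i + k) = τ (j + k) := by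
  have key : ∀ k : ℕ, (τ (i + k) = τ (j + k) ∧ τ (i + k + 1) = τ (j + k + 1)) ∧
      (τ (i - k) = τ (j - k) ∧ τ (i - k + 1) = τ (j - k + 1)) := by
    intro k
    induction k with
    | zero => simp [h0, h1]
    | succ k ih =>
      obtain ⟨⟨a1, a2⟩, b1, b2⟩ := ih
      refine ⟨⟨?_, ?_⟩, ?_, ?_⟩
      · push_cast; rw [← add_assoc, ← add_assoc]; exact a2
      · push_cast
        have e1 := h.succ2 (i + k)
        have e2 := h.succ2 (j + k)
        rw [show i + ((k : ℤ) + 1) + 1 = i + k + 2 by ring,
          show j + ((k : ℤ) + 1) + 1 = j + k + 2 by ring, e1, e2, a1, a2]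
      · push_cast
        have e1 := h.recur (i - k)
        have e2 := h.recur (j - k)
        rw [show i - ((k : ℤ) + 1) = i - k - 1 by ring, show j - ((k : ℤ) + 1) = j - k - 1 by ring]
        rw [b1, b2] at e1
        linear_combination e1 - e2
      · push_cast
        rw [show i - ((k : ℤ) + 1) + 1 = i - k by ring,
          show j - ((k : ℤ) + 1) + 1 = j - k by ring]
        exact b1
  rcases Int.eq_nat_or_neg k with ⟨n, rfl | rfl⟩
  · exact (key n).1.1
  · have := (key n).2.1
    simpa [sub_eq_add_neg] using this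

/-- equality of a consecutive pair with a reversed one propagates (reflection) -/
theorem refl_of {i j : ℤ} (h0 : τ i = τ j) (h1 : τ (i + 1) = τ (j - 1)) (k : ℤ) :
    τ (i + k) = τ (j - k) := by
  have key : ∀ k : ℕ, (τ (i + k) = τ (j - k) ∧ τ (i + k + 1) = τ (j - k - 1)) ∧
      (τ (i - k) = τ (j + k) ∧ τ (i - k + 1) = τ (j + k - 1)) := by
    intro k
    induction k with
    | zero => simp [h0, h1]
    | succ k ih =>
      obtain ⟨⟨a1, a2⟩, b1, b2⟩ := ih
      refine ⟨⟨?_, ?_⟩, ?_, ?_⟩
      · push_cast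
        rw [show i + ((k : ℤ) + 1) = i + k + 1 by ring, show j - ((k : ℤ) + 1) = j - k - 1 by ring]
        exact a2
      · push_cast
        have e1 := h.succ2 (i + k)
        have e2 := h.recur (j - k - 1)
        rw [show j - (k : ℤ) - 1 + 1 = j - k by ring] at e2
        rw [show i + ((k : ℤ) + 1) + 1 = i + k + 2 by ring, e1, a1, a2,
          show j - ((k : ℤ) + 1) - 1 = j - k - 1 - 1 by ring]
        linear_combination -e2
      · push_cast
        have e1 := h.recur (i - k)
        have e2 := h.recur (j + k)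
        rw [show i - ((k : ℤ) + 1) = i - k - 1 by ring, show j + ((k : ℤ) + 1) = j + k + 1 by ring]
        rw [b1, b2] at e1
        linear_combination e1 - e2
      · push_cast
        rw [show i - ((k : ℤ) + 1) + 1 = i - k by ring,
          show j + ((k : ℤ) + 1) - 1 = j + k by ring]
        exact b1
  rcases Int.eq_nat_or_neg k with ⟨n, rfl | rfl⟩
  · exact (key n).1.1
  · have := (key n).2.1
    simpa [sub_eq_add_neg] using this

/-- two indices with the same value: the neighbours agree up to order -/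
theorem eq_cases {i j : ℤ} (h0 : τ i = τ j) :
    (τ (i + 1) = τ (j + 1) ∧ τ (i - 1) = τ (j - 1)) ∨
      (τ (i + 1) = τ (j - 1) ∧ τ (i - 1) = τ (j + 1)) := by
  have e1 := h.recur i
  have e2 := h.recur j
  have e3 := h.P_eq i (τ (j + 1))
  rw [h0, h.P_eq j (τ (j + 1)), sub_self, zero_mul] at e3
  rw [h0] at e1
  rcases mul_eq_zero.1 e3.symm with e | e
  · left
    have e4 : τ (i + 1) = τ (j + 1) := (sub_eq_zero.1 e).symm
    exact ⟨e4, by linear_combination e1 - e2 - e4⟩
  · right
    have e4 : τ (i - 1) = τ (j + 1) := (sub_eq_zero.1 e).symm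
    exact ⟨by linear_combination e1 - e2 - e4, e4⟩

end IsTau

/-- existence of the two-sided sequence with given values at `0` and `1` -/
theorem exists_tau (p : Scal K) (y z : K) (hP : p.P y z = 0) :
    ∃ τ : ℤ → K, IsTau p τ ∧ τ 0 = y ∧ τ 1 = z := by
  -- forward and backward sequences
  let f : ℕ → K × K := fun n => Nat.rec (y, z) (fun _ q => (q.2, p.β * q.2 + p.γs - q.1)) n
  let g : ℕ → K × K := fun n => Nat.rec (y, z) (fun _ q => (p.β * q.1 + p.γs - q.2, q.1)) n
  have f0 : f 0 = (y, z) := rfl
  have g0 : g 0 = (y, z) := rfl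
  have fs : ∀ n, f (n + 1) = ((f n).2, p.β * (f n).2 + p.γs - (f n).1) := fun n => rfl
  have gs : ∀ n, g (n + 1) = (p.β * (g n).1 + p.γs - (g n).2, (g n).1) := fun n => rfl
  let τ : ℤ → K := fun n => if 0 ≤ n then (f n.toNat).1 else (g (-n).toNat).1
  have t1 : ∀ n : ℕ, τ n = (f n).1 := fun n => by simp [τ]
  have t2 : ∀ n : ℕ, τ (-n) = (g n).1 := by
    intro n
    rcases n with _ | n
    · simp [τ, f0, g0]
    · have : ¬ (0 : ℤ) ≤ -((n + 1 : ℕ) : ℤ) := by push_cast; omega
      simp only [τ, if_neg this, neg_neg, Int.toNat_natCast]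
  refine ⟨τ, ⟨?_, ?_⟩, ?_, ?_⟩
  · intro n
    rcases Int.eq_nat_or_neg n with ⟨m, rfl | rfl⟩
    · rcases m with _ | m
      · have e1 : τ ((0 : ℕ) + 1 : ℤ) = z := by
          have := t1 1
          simpa [fs, f0] using this
        have e2 : τ ((0 : ℕ) - 1 : ℤ) = p.β * y + p.γs - z := by
          have := t2 1
          simpa [gs, g0] using this
        have e3 : τ ((0 : ℕ) : ℤ) = y := by
          have := t1 0
          simpa [f0] using this
        rw [e1, e2, e3]; ring
      · have e1 : τ (((m + 1 : ℕ) : ℤ) + 1) = (f (m + 2)).1 := by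
          have := t1 (m + 2)
          rw [← this]; push_cast; ring_nf
        have e2 : τ (((m + 1 : ℕ) : ℤ) - 1) = (f m).1 := by
          have := t1 m
          rw [← this]; push_cast; ring_nf
        rw [e1, e2, t1, show m + 2 = (m + 1) + 1 from rfl, fs (m + 1), fs m]
        ring
    · rcases m with _ | m
      · have e1 : τ (-((0 : ℕ) : ℤ) + 1) = z := by
          have := t1 1
          simpa [fs, f0] using this
        have e2 : τ (-((0 : ℕ) : ℤ) - 1) = p.β * y + p.γs - z := by
          have := t2 1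
          simpa [gs, g0] using this
        have e3 : τ (-((0 : ℕ) : ℤ)) = y := by
          have := t1 0
          simpa [f0] using this
        rw [e1, e2, e3]; ring
      · have e1 : τ (-((m + 1 : ℕ) : ℤ) + 1) = (g m).1 := by
          have := t2 m
          rw [← this]; push_cast; ring_nf
        have e2 : τ (-((m + 1 : ℕ) : ℤ) - 1) = (g (m + 2)).1 := by
          have := t2 (m + 2)
          rw [← this]; push_cast; ring_nf
        rw [e1, e2, t2, show m + 2 = (m + 1) + 1 from rfl, gs (m + 1), gs m]
        ring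
  · have e1 : τ 1 = z := by
      have := t1 1
      simpa [fs, f0] using this
    have e3 : τ 0 = y := by
      have := t1 0
      simpa [f0] using this
    rw [e1, e3]; exact hP
  · have := t1 0
    simpa [f0] using this
  · have := t1 1
    simpa [fs, f0] using this

theorem tau_unique {τ τ' : ℤ → K} (h : IsTau p τ) (h' : IsTau p τ') (h0 : τ 0 = τ' 0)
    (h1 : τ 1 = τ' 1) : τ = τ' := by
  have key : ∀ k : ℕ, (τ k = τ' k ∧ τ (k + 1) = τ' (k + 1)) ∧
      (τ (-k) = τ' (-k) ∧ τ (-k + 1) = τ' (-k + 1)) := by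
    intro k
    induction k with
    | zero => simp [h0, h1]
    | succ k ih =>
      obtain ⟨⟨a1, a2⟩, b1, b2⟩ := ih
      refine ⟨⟨?_, ?_⟩, ?_, ?_⟩
      · push_cast; exact a2
      · push_cast
        have e1 := h.succ2 k
        have e2 := h'.succ2 k
        rw [show (k : ℤ) + 1 + 1 = k + 2 by ring, e1, e2, a1, a2]
      · push_cast
        have e1 := h.recur (-k)
        have e2 := h'.recur (-k)
        rw [show -((k : ℤ) + 1) = -k - 1 by ring]
        rw [b1, b2] at e1
        linear_combination e1 - e2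
      · push_cast
        rw [show -((k : ℤ) + 1) + 1 = -k by ring]
        exact b1
  funext n
  rcases Int.eq_nat_or_neg n with ⟨m, rfl | rfl⟩
  · exact (key m).1.1
  · exact (key m).2.1

end Pool.Agent.TH10.AW
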