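import Pool.Agent.TH10.AW.Explicit
import Pool.Agent.TH10.AW.Model

/-! Assembling the classification for distinct eigenvalues of `A*`. -/

set_option autoImplicit false
set_option linter.unusedSectionVars false
set_option linter.unusedSimpArgs false

namespace Pool.Agent.TH10.AW

section general

variable {K : Type*} [Field K] {p : Scal K}
variable {V : Type*} [AddCommGroup V] [Module K V]
variable {A B : Module.End K V} {N : ℕ∞} {v : ℕ → V} {θ a x : ℕ → K}

theorem PB.congr (h : PB A B N v θ a x) {θ' : ℕ → K}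
    (he : ∀ n : ℕ, (n : ℕ∞) < N → θ' n = θ n) : PB A B N v θ' a x := by
  refine ⟨h.li, h.sp, h.zero, h.hA, ?_, h.x0, h.xN, h.xne⟩
  intro n
  by_cases hn : (n : ℕ∞) < N
  · rw [h.hB, he n hn]
  · rw [h.zero n (not_lt.1 hn)]; simp

theorem PB.exists_tsys (h : PB A B N v θ a x) (h1 : AW1 p A B) (h2 : AW2 p A B)
    (hN : (1 : ℕ∞) < N) :
    ∃ τ : ℤ → K, (∀ n : ℕ, (n : ℕ∞) < N → τ n = θ n) ∧ TSys p N τ a x := by
  have hs := sys_of_aw h h1 h2
  have hN1 : ((0 + 1 : ℕ) : ℕ∞) < N := by exact_mod_cast hN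
  obtain ⟨τ, hτ, t0, t1⟩ := exists_tau p (θ 0) (θ 1) (hs.s2 0 hN1)
  have e := theta_eq hs hτ t0 t1
  exact ⟨τ, e, tsys_of_sys hs hτ e h.x0 h.xN h.xne⟩

end general

section lists

variable {K : Type*} [Field K]

variable {p : Scal K}

theorem Data.Ok.simple {D : Data K} (h : D.Ok p) (hd : D.Dist) :
    IsSimpleModule (AWAlg p) (Mod h) := by
  rw [simple_iff]
  exact (Mod.pb h).irr_of_inj h.N0 hd

theorem Data.Ok.poly {D : Data K} (h : D.Ok p) : PolyType p (Mod h) :=
  polyType_of_PB (Mod.pb h)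

theorem PB.N_ne_zero {V : Type*} [AddCommGroup V] [Module K V] {A B : Module.End K V} {N : ℕ∞}
    {v : ℕ → V} {θ a x : ℕ → K} (h : PB A B N v θ a x) (hn : Nontrivial V) : N ≠ 0 := by
  rintro rfl
  have : (⊤ : Submodule K V) = ⊥ := by
    rw [← h.sp, Submodule.span_eq_bot]
    rintro _ ⟨n, rfl⟩
    exact h.zero n bot_le
  obtain ⟨a, b, hab⟩ := hn
  apply hab
  have h1 : a - b ∈ (⊤ : Submodule K V) := trivial
  rw [this, Submodule.mem_bot] at h1
  exact sub_eq_zero.1 h1

/-- a module with a polynomial basis is isomorphic to the model with the same data -/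
theorem exists_model {V : Type*} [AddCommGroup V] [Module K V] [Module (AWAlg p) V]
    [IsScalarTower K (AWAlg p) V] [IsSimpleModule (AWAlg p) V] {N : ℕ∞}
    {v : ℕ → V} {θ a x : ℕ → K} (h : PB (opA p V) (opB p V) N v θ a x) :
    ∃ (hD : Data.Ok ⟨N, θ, a, x⟩ p), Nonempty (V ≃ₗ[AWAlg p] Mod hD) := by
  have hD : Data.Ok ⟨N, θ, a, x⟩ p :=
    ⟨h.N_ne_zero (IsSimpleModule.nontrivial (AWAlg p) V), h.x0, h.xN, h.xne,
      sys_of_aw h (op_aw1 p V) (op_aw2 p V)⟩
  refine ⟨hD, ?_⟩
  obtain ⟨φ, h1, h2⟩ := exists_iso_of_eqData h (Mod.pb hD) ⟨rfl, fun _ _ => ⟨rfl, rfl, rfl⟩⟩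
  exact ⟨isoOf φ h1 h2⟩

/-- isomorphism of two modules with polynomial bases and distinct eigenvalues -/
theorem iso_iff {D D' : Data K} (h : D.Ok p) (h' : D'.Ok p) (hd : D.Dist) (hd' : D'.Dist) :
    Nonempty (Mod h ≃ₗ[AWAlg p] Mod h') ↔
      (D.Same D' ∨ ∃ M : ℕ, D'.N = M ∧ D.Same (D'.rev M)) := by
  constructor
  · rintro ⟨ψ⟩
    obtain ⟨φ, hA, hB⟩ := iso_restrict ψ
    obtain ⟨k, hk, hk', c, hc, hcv⟩ := start_or_end (Mod.pb h) (Mod.pb h') hd' h.N0 φ hA hB
    rcases hk' with rfl | hN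
    · left
      exact iso_of_start (Mod.pb h) (Mod.pb h') hd hd' h.N0 h'.N0 φ hA hB hc hcv
    · right
      refine ⟨k + 1, hN, ?_⟩
      have hpb : PB (opA p (Mod h')) (opB p (Mod h')) ((k + 1 : ℕ) : ℕ∞) (Mod.vec h') D'.θ D'.a
          D'.x := by
        have := Mod.pb h'
        rwa [hN] at this
      have hr := hpb.rev (by omega)
      have hinj : Inj ((k + 1 : ℕ) : ℕ∞) (fun i => D'.θ (k + 1 - 1 - i)) := by
        intro i j hi hj hij
        have hi' : i < k + 1 := by exact_mod_cast hi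
        have hj' : j < k + 1 := by exact_mod_cast hj
        have := hd' (k + 1 - 1 - i) (k + 1 - 1 - j)
          (by rw [hN]; exact_mod_cast (by omega : k + 1 - 1 - i < k + 1))
          (by rw [hN]; exact_mod_cast (by omega : k + 1 - 1 - j < k + 1)) hij
        omega
      exact iso_of_start (Mod.pb h) hr hd hinj h.N0
        (by change ((k + 1 : ℕ) : ℕ∞) ≠ 0; exact_mod_cast Nat.succ_ne_zero k) φ hA hB hc
        (by simpa using hcv)
  · rintro (hs | ⟨M, hM, hs⟩)
    · obtain ⟨φ, h1, h2⟩ := exists_iso_of_eqData (Mod.pb h) (Mod.pb h') hs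
      exact ⟨isoOf φ h1 h2⟩
    · have hM0 : M ≠ 0 := by
        rintro rfl
        exact h'.N0 (by simpa using hM)
      have hpb : PB (opA p (Mod h')) (opB p (Mod h')) (M : ℕ∞) (Mod.vec h') D'.θ D'.a
          D'.x := by
        have := Mod.pb h'
        rwa [hM] at this
      obtain ⟨φ, h1, h2⟩ := exists_iso_of_eqData (Mod.pb h) (hpb.rev hM0) hs
      exact ⟨isoOf φ h1 h2⟩

theorem mem_list_of_infinite {V : Type*} [AddCommGroup V] [Module K V] [Module (AWAlg p) V]
    [IsScalarTower K (AWAlg p) V] [IsSimpleModule (AWAlg p) V] (hP : PolyType p V)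
    (hi : ¬ FiniteDimensional K V ∨ ∀ (w w' : V) (μ : K), w ≠ 0 → gB p • w = μ • w →
      gB p • w' = μ • w' → ∃ c : K, w' = c • w) :
    ∃ (D : Data K) (hD : D.Ok p), D.Dist ∧ Nonempty (V ≃ₗ[AWAlg p] Mod hD) := by
  obtain ⟨N, v, θ, a, x, h⟩ := exists_PB hP
  obtain ⟨hD, hiso⟩ := exists_model h
  refine ⟨_, hD, ?_, hiso⟩
  rcases hi with hi | hi
  · have hN : N = ⊤ := by
      by_contra hne
      obtain ⟨m, rfl⟩ := ENat.ne_top_iff_exists.1 hne
      apply hi
      have hfin : Finite {i : ℕ // (i : ℕ∞) < (m : ℕ∞)} :=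
        Finite.of_injective (fun i => (⟨i, by exact_mod_cast i.2⟩ : Fin m))
          fun i j hij => Subtype.ext (congrArg Fin.val hij)
      exact Module.Finite.of_basis h.basis
    subst hN
    obtain ⟨τ, hτ, hts⟩ := h.exists_tsys (op_aw1 p V) (op_aw2 p V)
      (by exact_mod_cast ENat.natCast_lt_top 1)
    have h' : PB (opA p V) (opB p V) ⊤ v (fun n : ℕ => τ n) a x := h.congr hτ
    have hinj := inj_of_infinite h' hts (op_aw1 p V) (simple_iff.1 inferInstance)
    intro i j hi hj hij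
    apply hinj i j hi hj
    simp only at hij ⊢
    rw [hτ i hi, hτ j hj, hij]
  · intro i j hi' hj' hij
    simp only at hi' hj' hij
    obtain ⟨c, hc⟩ := hi (v i) (v j) (θ i) (h.ne_zero hi') (h.hB i) (by
      have := h.hB j
      rw [opB_apply] at this
      rw [this, hij])
    by_contra hne
    obtain ⟨f, hf⟩ := h.exists_coord hj'
    have := congrArg f hc
    rw [map_smul, hf, hf, if_pos rfl, if_neg hne] at this
    simp at this

/-- the one-dimensional case -/
theorem ok_one_iff (D : Data K) (hN : D.N = 1) :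
    D.Ok p ↔ (p.P (D.θ 0) (D.θ 0) * D.a 0 = p.u (D.θ 0) ∧ p.S (D.θ 0) (D.a 0) = 0 ∧
      ∀ n, D.x n = 0) := by
  constructor
  · intro h
    have hx : ∀ n, D.x n = 0 := by
      intro n
      rcases n with _ | n
      · exact h.x0
      · apply h.xN
        rw [hN]
        exact_mod_cast (by omega : 1 ≤ n + 1)
    refine ⟨h.sys.s3 0 (by rw [hN]; norm_num), ?_, hx⟩
    have := h.sys.s5 0 (by rw [hN]; norm_num)
    rw [hx, hx] at this
    unfold Scal.S
    linear_combination -this
  · rintro ⟨h1, h2, hx⟩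
    refine ⟨by rw [hN]; exact one_ne_zero, hx 0, fun n _ => hx n, ?_, ?_⟩
    · intro n hn0 hn
      rw [hN] at hn
      have : n < 1 := by exact_mod_cast hn
      omega
    · have hlt : ∀ n : ℕ, (n : ℕ∞) < D.N → n = 0 := by
        intro n hn
        rw [hN] at hn
        have : n < 1 := by exact_mod_cast hn
        omega
      refine ⟨?_, ?_, ?_, ?_, ?_⟩
      · intro n hn
        have := hlt _ hn
        omega
      · intro n hn
        have := hlt _ hn
        omega
      · intro n hn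
        rw [hlt n hn]
        exact h1
      · intro n hn
        have := hlt _ hn
        omega
      · intro n hn
        rw [hlt n hn, hx, hx]
        unfold Scal.S at h2
        linear_combination -h2

/-- closed forms for `N ≥ 2` -/
theorem ok_iff_closed (D : Data K) (hN : (1 : ℕ∞) < D.N) (hd : D.Dist) :
    D.Ok p ↔ ∃ τ : ℤ → K, (∀ n : ℕ, (n : ℕ∞) < D.N → D.θ n = τ n) ∧
      Closed p D.N τ D.a D.x := by
  have inj_of : ∀ τ : ℤ → K, (∀ n : ℕ, (n : ℕ∞) < D.N → τ n = D.θ n) →
      Inj D.N (fun n : ℕ => τ n) := by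
    intro τ hτ i j hi hj hij
    apply hd i j hi hj
    rw [← hτ i hi, ← hτ j hj]
    exact hij
  constructor
  · intro h
    obtain ⟨τ, hτ, hts⟩ := (Mod.pb h).exists_tsys (op_aw1 p _) (op_aw2 p _) hN
    have hinj := inj_of τ hτ
    refine ⟨τ, fun n hn => (hτ n hn).symm, closed_of_tsys hts hN ?_ hinj⟩
    intro h0
    have := hinj 0 1 (lt_of_le_of_lt bot_le hN) (by exact_mod_cast hN) (by simpa using h0)
    omega
  · rintro ⟨τ, hτ, hc⟩
    have hinj := inj_of τ (fun n hn => (hτ n hn).symm)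
    have hts := tsys_of_closed hc hinj
    refine ⟨?_, hc.x0, hc.xN, hc.xne, ?_⟩
    · intro h0
      rw [h0] at hN
      exact not_lt_bot hN
    · have hs := sys_of_tsys hts
      refine ⟨?_, ?_, ?_, ?_, ?_⟩
      · intro n hn
        have := hs.s1 n hn
        rw [hτ _ hn, hτ _ (lt_of_add (m := 1) hn), hτ _ (lt_of_add (m := 2) hn)]
        exact this
      · intro n hn
        have := hs.s2 n hn
        rw [hτ _ hn, hτ _ (lt_of_add (m := 1) hn)]
        exact this
      · intro n hn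
        have := hs.s3 n hn
        rw [hτ _ hn]
        exact this
      · intro n hn
        have := hs.s4 n hn
        rw [hτ _ hn, hτ _ (lt_of_add (m := 1) hn)]
        exact this
      · intro n hn
        have := hs.s5 n hn
        have e1 : D.θ (n - 1) * D.x n = τ ((n - 1 : ℕ) : ℤ) * D.x n := by
          rw [hτ (n - 1) (lt_of_le_of_lt (by exact_mod_cast Nat.sub_le n 1) hn)]
        have e2 : D.θ (n + 1) * D.x (n + 1) = τ ((n + 1 : ℕ) : ℤ) * D.x (n + 1) := by
          by_cases hn1 : ((n + 1 : ℕ) : ℕ∞) < D.N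
          · rw [hτ (n + 1) hn1]
          · rw [hc.xN (n + 1) (not_lt.1 hn1)]; simp
        rw [e1, e2, hτ _ hn]
        exact this

end lists

end Pool.Agent.TH10.AW
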